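import Pool.Agent.Helper69.CS.M_AB

/-!
# MP_3dd6d4_an, project CS (critical mode, `p > 4`, all `n ≥ 3`): statements

Leader of this file: helper69.  Paper proofs: helper71 (messages 31684, 31833), helper85
(/team-store/MP_3dd6d4-helper85-PHI.md), helper37.  Every module `M_XX.lean` proves
`theorem hXX : StXX` (possibly from other `StYY` as hypotheses, as said in its docstring).

Notation as in `Helper69.CR.St` (`pp n`, `LL j`, `mm n`, `Cn n`, `Bop n`), `Nm p v = ‖v‖_{L^p(e^y dy)}`,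
`x = e^{-d}`.  `Bop 0 v = v`, `Cn 0 = 1`.  The final constant is `N(p) = 1 + (33/250)(p-4)/p²`.

Structure of the proof.
* `Node n κ0 K c`: `|B_n f|² = 2∫_{d>0} Re Σ_k c_k(e^{-d}) B_k(g_d) dd + Q_f` with `g_d = f conj f(·+d)`,
  `c_k ≥ 0`, `‖Q_f‖_{p/2} ≤ K(p) ‖f‖_p²`, and the corresponding inequality of the symbols.
* two sources of nodes: PHI (all `n`, used for `n ≥ 7`), TAB (used for `3 ≤ n ≤ 6`).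
* `NR`: doubling `p/2 → p`; `ST8`: interpolation `4 < p < 8`; `REC`: the recursion; `SLK`: the constant.
-/

set_option autoImplicit false

open MeasureTheory Set Filter Topology
open scoped ENNReal NNReal

noncomputable section

namespace Helper69.CS

open Helper85.BP Helper69.CR Helper69.CR.DB

/-! ### definitions -/

/-- `‖B_k v‖_p ≤ N C_k(1/p) ‖v‖_p` for `v` continuous with compact support. -/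
def Bd (k : ℕ) (p N : ℝ) : Prop := ∀ v : ℝ → ℂ, Continuous v → HasCompactSupport v →
  Nm p (Bop k v) ≤ ENNReal.ofReal (N * Cn k (1 / p)) * Nm p v

/-- `Σ_{k ≤ 2n} c_k(e^{-d}) B_k v (y)`. -/
def PP (n : ℕ) (c : ℕ → ℝ → ℝ) (d : ℝ) (v : ℝ → ℂ) (y : ℝ) : ℂ :=
  ∑ k ∈ Finset.range (2 * n + 1), ((c k (Real.exp (-d)) : ℝ) : ℂ) * Bop k v y

/-- the multiplier of `PP n c d` at `e^{-by}`: `Σ_{k ≤ 2n} c_k(e^{-d}) C_k(b)`. -/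
def kP (n : ℕ) (c : ℕ → ℝ → ℝ) (b d : ℝ) : ℝ :=
  ∑ k ∈ Finset.range (2 * n + 1), c k (Real.exp (-d)) * Cn k b

/-- the rest `Q_f(y) = |B_n f(y)|² - 2∫_{d>0} Re Σ_k c_k(e^{-d}) B_k (f conj f(·+d))(y) dd`. -/
def Qn (n : ℕ) (c : ℕ → ℝ → ℝ) (f : ℝ → ℂ) (y : ℝ) : ℝ :=
  ‖Bop n f y‖ ^ 2 - 2 * ∫ d in Ioi (0 : ℝ), (PP n c d (gd f d) y).re

/-- a node. -/
structure Node (n : ℕ) (κ0 : ℝ) (K : ℝ → ℝ) (c : ℕ → ℝ → ℝ) : Prop where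
  k0 : 0 ≤ κ0
  pos : ∀ k x, 0 < x → x < 1 → 0 ≤ c k x
  meas : ∀ k, Measurable (c k)
  bdd : ∃ M : ℝ, ∀ k x, 0 < x → x < 1 → c k x ≤ M
  Kn : ∀ p, 4 < p → 0 ≤ K p
  rest : ∀ (p : ℝ) (f : ℝ → ℂ), 4 < p → Continuous f → HasCompactSupport f →
    eLpNorm (Qn n c f) (ENNReal.ofReal (p / 2)) mu ≤ ENNReal.ofReal (K p) * Nm p f ^ 2
  symb0 : ∀ a : ℝ, 0 < a → a ≤ 1 / 4 →
    2 * (∫ d in Ioi (0 : ℝ), Real.exp (-(a * d)) * kP n c (2 * a) d) + κ0 ≤ Cn n a ^ 2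
  symb8 : ∀ W : ℝ → ℝ, Adm 1 W →
    2 * (∫ d in Ioi (0 : ℝ), Real.exp (-d / 8) * Wh 1 W (d / 8) * kP n c (1 / 4) d) +
      κ0 * (∫ t, W t) ≤ ∫ t, W t * ‖mm n (1 / 8 - Complex.I * (t : ℂ) / 8)‖ ^ 2

/-- a node whose relative loss is at most `l p` for `p ≥ 8` (project P4: `l p = (132/125)/p²`;
project CP: `l p = (4/5)/p² + (14/5)/p³`). -/
def Small (l : ℝ → ℝ) (n : ℕ) : Prop := ∃ (κ0 : ℝ) (K : ℝ → ℝ) (c : ℕ → ℝ → ℝ), Node n κ0 K c ∧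
  κ0 ≤ K 8 ∧ ∀ p, 8 ≤ p → K p - κ0 ≤ l p * Cn n (1 / p) ^ 2

/-- the scalar operator `m(y) f(y) + ∫_{u>0} κ(y,u) f(y+u) du`. -/
def KT (m : ℝ → ℂ) (κ : ℝ → ℝ → ℂ) (f : ℝ → ℂ) (y : ℝ) : ℂ :=
  m y * f y + ∫ u in Ioi (0 : ℝ), κ y u * f (y + u)

/-- truncated operator `Φ_τ f(y) = (-1)^n f(y) + ∫_0^τ p_n(e^{-u}) f(y+u) du`. -/
def Ph (n : ℕ) (τ : ℝ) (f : ℝ → ℂ) (y : ℝ) : ℂ :=
  (-1) ^ n * f y + ∫ u in (0 : ℝ)..τ, ((pp n (Real.exp (-u)) : ℝ) : ℂ) * f (y + u)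

/-- `K_n² = ∫_0^1 (1 + ∫_s^1 |p_n(t)| dt/t)² ds`, `s = e^{-τ}`. -/
def K2 (n : ℕ) : ℝ :=
  ∫ τ in Ioi (0 : ℝ), Real.exp (-τ) * (1 + ∫ u in (0 : ℝ)..τ, |pp n (Real.exp (-u))|) ^ 2

/-- `2t B_k`. -/
def SS (k : ℕ) (v : ℝ → ℂ) (y : ℝ) : ℂ :=
  2 * ((-1) ^ k * v y + ∫ u in Ioi (0 : ℝ), ((Real.exp (-u) * pp k (Real.exp (-u)) : ℝ) : ℂ) * v (y + u))

/-- `κ_b(x) = (-1)^n p_n(x) + ∫_0^∞ p_n(e^{-u}) p_n(e^{-u}x) e^{-bu} du`. -/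
def kapb (n : ℕ) (b x : ℝ) : ℝ :=
  (-1) ^ n * pp n x +
    ∫ u in Ioi (0 : ℝ), pp n (Real.exp (-u)) * pp n (Real.exp (-u) * x) * Real.exp (-(b * u))

/-- `φ_t(y) = e^{-y/P} G(y) e^{it(y/P - log|G(y)|)}`; `ph = phP 4`. -/
def phP (P t : ℝ) (G : ℝ → ℂ) (y : ℝ) : ℂ :=
  (Real.exp (-y / P) : ℂ) * (G y * Complex.exp (Complex.I * ((t * (y / P - Real.log ‖G y‖) : ℝ) : ℂ)))

/-- the weight of the side `Re z = 1` (node 8). -/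
def W8 (n : ℕ) (θ τ : ℝ) : ℝ := P1 θ τ / ‖mm n (1 / 8 - Complex.I * (τ : ℂ) / 8)‖ ^ 2

/-- the weight of the side `Re z = 0` (node 4), after `τ → 2τ`. -/
def W4 (n : ℕ) (θ τ : ℝ) : ℝ := 2 * P0 θ (2 * τ) / ‖mm n (1 / 4 - Complex.I * (τ : ℂ) / 4)‖ ^ 2

/-- static data of a table (implied by `Helper71.P4.Tab`). -/
structure TD (n : ℕ) (ν ρ : ℕ → ℝ → ℝ) (P : ℕ → ℝ) : Prop where
  nn : NN n ν
  nonneg : ∀ k x, 0 < x → x < 1 → 0 ≤ ρ k x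
  meas : ∀ k, Measurable (ρ k)
  bdd : ∃ M : ℝ, ∀ k x, 0 < x → x < 1 → ρ k x ≤ M
  zero : ∀ k x, (k ≤ 1 ∨ 2 * n ≤ k + 1) → ρ k x = 0
  cpos : ∀ k : ℕ, 1 ≤ k → k < 2 * n → ∀ x : ℝ, 0 < x → x < 1 →
    0 ≤ ν k x + (4 * (k : ℝ) ^ 2 - 2) / (4 * (k : ℝ) ^ 2 - 1) * ρ k x -
      ((k : ℝ) + 1) / (2 * k + 1) * ρ (k + 1) x - ((k : ℝ) - 1) / (2 * k - 1) * ρ (k - 1) x
  P : ∀ k, 2 ≤ k → ∫ s in (0 : ℝ)..1, |pp k s| ≤ P k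

/-- the loss of a table at `p`. -/
def lossT (n : ℕ) (ρ : ℕ → ℝ → ℝ) (P : ℕ → ℝ) (p : ℝ) : ℝ :=
  2 * ∫ d in Ioi (0 : ℝ), Real.exp (-d / p) *
    ∑ k ∈ Finset.range (2 * n), ρ k (Real.exp (-d)) * (2 * (1 + P k) ^ (1 - 4 / p))

/-! ### modules: the general part -/

/-- MODULE NR (150 lines). The doubling step.
Proof (model: `dbl_bound` in M_AB): `‖B f‖² ≤ |Q_f| + 2∫_d |PP d (g_d)|`; Minkowski (`minkowski`, M_MI, exponent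
`p/2 > 1`); for `d > 0`: `‖PP d (g_d)‖_{p/2} ≤ Σ_k c_k(e^{-d}) N C_k(2/p) ‖g_d‖_{p/2}` (`k = 0`: `Bop 0 v = v`, `pp 0 = 0`,
`1 ≤ N`), `‖g_d‖_{p/2} ≤ e^{-d/p} ‖f‖_p²` (in the proof of `dbl_bound`: `Nm_shift`, `Nm_conj`, Hölder);
`2∫ e^{-d/p} kP n c (2/p) d ≤ C_n(1/p)² - κ0` (`symb0` with `a = 1/p`). Joint measurability of
`(d,y) ↦ PP n c d (gd f d) y` from `meas` and as in `TT_meas`. -/
def StNR : Prop := ∀ (n : ℕ) (κ0 : ℝ) (K : ℝ → ℝ) (c : ℕ → ℝ → ℝ), 1 ≤ n → Node n κ0 K c →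
  ∀ p N : ℝ, 4 < p → 1 ≤ N → (∀ k, 1 ≤ k → Bd k (p / 2) N) →
  ∀ f : ℝ → ℂ, Continuous f → HasCompactSupport f →
    Nm p (Bop n f) ^ 2 ≤ ENNReal.ofReal (N * (Cn n (1 / p) ^ 2 - κ0) + K p) * Nm p f ^ 2

/-- MODULE GEN (150 lines). The basic identity with the positive square.
Proof: `Ψ(τ) = cF(0) + ∫_0^τ φF`.  `d/dτ ‖Ψ‖² = 2 Re(conj Ψ φ F)`, `d/dτ (e^{-τ}‖Ψ‖²) = -e^{-τ}‖Ψ‖² + 2e^{-τ} Re(conj Ψ φ F)`;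
integrate over `(0,∞)` (`integral_Ioi_of_hasDerivAt_of_tendsto`) and subtract:
`‖Ψ(∞)‖² - ∫ e^{-τ}‖Ψ‖² = 2∫ (1-e^{-τ}) φ(τ) Re(F(τ) conj Ψ(τ)) dτ`; insert `conj Ψ(τ) = c conj F(0) + ∫_0^τ φ conj F` and
substitute `τ = u+d` (Fubini; everything is dominated by `const · e^{-αu} e^{-α(u+d)}`). Model: M_DI. -/
def StGEN : Prop := ∀ (φ : ℝ → ℝ) (c : ℝ) (F : ℝ → ℂ) (α C M : ℝ), Continuous φ → (∀ u, 0 ≤ u → |φ u| ≤ M) →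
  Continuous F → 0 < α → (∀ u, 0 ≤ u → ‖F u‖ ≤ C * Real.exp (-(α * u))) →
  IntegrableOn (fun τ => Real.exp (-τ) * ‖(c : ℂ) * F 0 + ∫ u in (0 : ℝ)..τ, (φ u : ℂ) * F u‖ ^ 2) (Ioi 0) ∧
  IntegrableOn (fun d => ((c * (1 - Real.exp (-d)) * φ d : ℝ) * (F 0 * (starRingEnd ℂ) (F d)) +
      ∫ u in Ioi (0 : ℝ), ((φ u * φ (u + d) * (1 - Real.exp (-(u + d))) : ℝ) : ℂ) *
        (F u * (starRingEnd ℂ) (F (u + d)))).re) (Ioi 0) ∧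
  ‖(c : ℂ) * F 0 + ∫ u in Ioi (0 : ℝ), (φ u : ℂ) * F u‖ ^ 2 =
    (∫ τ in Ioi (0 : ℝ), Real.exp (-τ) * ‖(c : ℂ) * F 0 + ∫ u in (0 : ℝ)..τ, (φ u : ℂ) * F u‖ ^ 2) +
    2 * ∫ d in Ioi (0 : ℝ), ((c * (1 - Real.exp (-d)) * φ d : ℝ) * (F 0 * (starRingEnd ℂ) (F d)) +
      ∫ u in Ioi (0 : ℝ), ((φ u * φ (u + d) * (1 - Real.exp (-(u + d))) : ℝ) : ℂ) *
        (F u * (starRingEnd ℂ) (F (u + d)))).re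

/-- MODULE RT (250 lines). Riesz–Thorin between `2` and `∞` for `KT m κ`.
Proof: `p > 2` (for `p = 2` trivial), `0 < ε ≤ 1`, `f_z = f (|f|+ε)^{(p/2)(1-z)-1}` (continuous, compact support for
every `z`; `|f_z| ≤ 1` for `Re z = 1`; `f_θ = f` for `θ = 1-2/p`), `g_z = χ_R conj(T f) |T f|^{(p/2)(1+z)-1}` with
`χ_R = 1_{|y| ≤ R}` (`0` where `Tf = 0`); `H(z) = ∫ T(f_z) g_z e^y dy` is bounded continuous on the closed strip and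
holomorphic inside; `|H(it)| ≤ M0 (∫|f|²(|f|+ε)^{p-2}e^y)^{1/2} N^{1/2}`, `|H(1+it)| ≤ M1 N`, `N = ∫ χ_R |Tf|^p e^y = H(θ)`;
three lines (`Complex.HadamardThreeLines`, or `three_lines` in Helper72/BAM/RT2.lean); `ε → 0`, `R → ∞`. -/
def StRT : Prop := ∀ (m : ℝ → ℂ) (κ : ℝ → ℝ → ℂ) (M0 M1 p : ℝ), 2 ≤ p → 0 ≤ M0 → 0 ≤ M1 →
  Measurable m → Measurable (Function.uncurry κ) → (∀ y, IntegrableOn (κ y) (Ioi 0)) →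
  (∀ y, ‖m y‖ + ∫ u in Ioi (0 : ℝ), ‖κ y u‖ ≤ M1) →
  (∀ f : ℝ → ℂ, Continuous f → HasCompactSupport f →
    Nm 2 (KT m κ f) ≤ ENNReal.ofReal M0 * Nm 2 f) →
  ∀ f : ℝ → ℂ, Continuous f → HasCompactSupport f →
    Nm p (KT m κ f) ≤ ENNReal.ofReal (M0 ^ (2 / p) * M1 ^ (1 - 2 / p)) * Nm p f

/-! ### modules: the PHI node -/

/-- MODULE PHC (200 lines; may use `hA2 hKR` and `Pool.Agent.Helper35.QP.hQ2`). The coefficients.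
Proof: `(1-y) p_n(y) = (n/2)(L_{n-1}(y)+L_n(y))` (coefficients).  As in M_A3: every `s^i p_n(s)`, `i ≤ n`, is a combination
`Σ_{1≤k≤2n} a_{ik} p_k`, so `c_k(x) = Σ_i e_i a_{ik} x^i` (`k ≥ 1`) where `(1-y)p_n(y) = Σ_{i≤n} e_i y^i`; `c_k ≥ 0` by uniqueness
(A2(2)) and QPOS (`hQ2`, `j = n-1` and `j = n`).  `c_0(x) = (n/2)x^n`.  Atoms: integrate `exp` over `s ∈ [0,1]`,
`∫ p_k = (-1)^{k+1}`, `∫ p_n(s)s^i = (-1)^{n+1}` for `i < n` (A2(1)) and for `i = n`: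
`(-1)^n + ∫ p_n(s)s^n ds = mm n (n+1) = (-1)^n (n!)²/(2n)!` (`hPF`), `e_n = (-1)^n (2n-1)!/((n-1)!)²`. Third item: the same sum. -/
def StPHC : Prop := ∀ n : ℕ, 1 ≤ n → ∃ c : ℕ → ℝ → ℝ, (∀ k, Continuous (c k)) ∧
  (∀ k x, 0 ≤ x → x ≤ 1 → 0 ≤ c k x) ∧ (∀ x, c 0 x = (n : ℝ) / 2 * x ^ n) ∧ (∀ k x, 2 * n < k → c k x = 0) ∧
  (∀ s x : ℝ, pp n s * ((1 - s * x) * pp n (s * x)) =
    ∑ k ∈ Finset.range (2 * n + 1), c k x * pp k s) ∧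
  (∀ x : ℝ, (-1) ^ n * ((1 - x) * pp n x) = ∑ k ∈ Finset.range (2 * n + 1), (-1) ^ k * c k x) ∧
  (∀ x : ℝ, (-1) ^ n * ((1 - x) * pp n x) + ∫ s in (0 : ℝ)..1, pp n s * ((1 - s * x) * pp n (s * x)) =
    (n : ℝ) / 2 * x ^ n)

/-- MODULE PHI (120 lines; from `StGEN`). The identity for `B_n f`.
Proof: `StGEN` with `φ(u) = pp n (e^{-u})`, `c = (-1)^n`, `F(u) = f(y+u)`; `Σ_k c_k(e^{-d}) B_k v` is the operator with atom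
`(-1)^n(1-x)p_n(x)` and kernel `p_n(e^{-u})(1-e^{-u}x)p_n(e^{-u}x)`, `x = e^{-d}`. -/
def StPHI : Prop := ∀ (n : ℕ) (c : ℕ → ℝ → ℝ), 1 ≤ n → (∀ k, Continuous (c k)) →
  (∀ s x : ℝ, pp n s * ((1 - s * x) * pp n (s * x)) =
    ∑ k ∈ Finset.range (2 * n + 1), c k x * pp k s) →
  (∀ x : ℝ, (-1) ^ n * ((1 - x) * pp n x) = ∑ k ∈ Finset.range (2 * n + 1), (-1) ^ k * c k x) →
  ∀ f : ℝ → ℂ, Continuous f → HasCompactSupport f → ∀ y : ℝ,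
    IntegrableOn (fun τ => Real.exp (-τ) * ‖Ph n τ f y‖ ^ 2) (Ioi 0) ∧
    IntegrableOn (fun d => (PP n c d (gd f d) y).re) (Ioi 0) ∧
    Qn n c f y = ∫ τ in Ioi (0 : ℝ), Real.exp (-τ) * ‖Ph n τ f y‖ ^ 2

/-- MODULE PL2 (200 lines; from `StPHC`, `StPHI`, `hIS2`). The `L²` bound of the square.
Proof: integrate `StPHI` against `e^y`: `∫‖B_n f‖² e^y = ∫‖f‖² e^y` (`hIS2 hKR`, first item); for `v` continuous with compact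
support `∫ e^y PP n c d v (y) dy = ((-1)^n(1-x)p_n(x) + ∫_0^1 p_n(s)(1-sx)p_n(sx) ds) ∫ e^y v = (n/2) x^n ∫ e^y v` (`StPHC`,
third item; Fubini), `x = e^{-d}`; so `∫∫ e^{-τ}‖Ph‖² = ∫‖f‖²e^y - n Re ∫∫_{d>0} e^y f(y) conj f(y+d) e^{-nd}` and with
`h(y) = ∫_{d>0} e^{-nd} f(y+d) dd`: `h' = nh - f`, `Re ∫ e^y f conj h = (n+1/2) ∫ e^y |h|² ≥ 0`. -/
def StPL2 : Prop := ∀ (n : ℕ) (f : ℝ → ℂ), 1 ≤ n → Continuous f → HasCompactSupport f →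
  Integrable (fun y => Real.exp y * ∫ τ in Ioi (0 : ℝ), Real.exp (-τ) * ‖Ph n τ f y‖ ^ 2) ∧
  ∫ y, Real.exp y * (∫ τ in Ioi (0 : ℝ), Real.exp (-τ) * ‖Ph n τ f y‖ ^ 2) ≤
    ∫ y, Real.exp y * ‖f y‖ ^ 2

/-- MODULE PQ (200 lines; from `StRT`, `StPL2`). The bound of the square in `L^{p/2}`.
Proof: fix `f`; `Q(y) = ∫ e^{-τ}‖Ph n τ f y‖²dτ`, `ω(y,τ) = conj(Ph n τ f y)/√Q(y)` (`0` if `Q(y) = 0`), so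
`∫ e^{-τ}|ω|² ≤ 1`; `T g(y) = ∫_{τ>0} e^{-τ} ω(y,τ) Ph n τ g y dτ = KT m κ g y` with `m(y) = (-1)^n ∫ e^{-τ}ω dτ`,
`κ(y,u) = p_n(e^{-u}) ∫_{τ>u} e^{-τ} ω(y,τ) dτ`; `|m(y)| + ∫|κ(y,u)|du ≤ ∫ e^{-τ}|ω|(1+∫_0^τ|p_n(e^{-u})|du)dτ ≤ √(K2 n)`,
`‖T g‖_2 ≤ ‖g‖_2` (Cauchy–Schwarz and `StPL2`), `T f = √Q`.  `StRT` with `M0 = 1`, `M1 = √(K2 n)`. Also `K2 n < ∞` is
an integral of `e^{-τ}(1+Cτ)²` type function. -/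
def StPQ : Prop := ∀ (n : ℕ) (p : ℝ) (f : ℝ → ℂ), 1 ≤ n → 4 ≤ p → Continuous f → HasCompactSupport f →
  eLpNorm (fun y => ∫ τ in Ioi (0 : ℝ), Real.exp (-τ) * ‖Ph n τ f y‖ ^ 2) (ENNReal.ofReal (p / 2)) mu ≤
    ENNReal.ofReal (K2 n ^ (1 - 2 / p)) * Nm p f ^ 2

/-- MODULE PS (150 lines; from `StGEN`, `StPHC`, `hPF`). The symbols.
Proof: `StGEN` with `φ(u) = pp n (e^{-u})`, `c = (-1)^n`, `F(u) = e^{-zu}`, `z = a(1-it)`: `c F 0 + ∫ φ F = mm n z` (`hPF`),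
`F(u) conj F(u+d) = e^{-2au} e^{-conj z d}` and `c(1-x)p_n(x) + ∫ p_n(e^{-u})p_n(e^{-u}x)(1-e^{-u}x)e^{-2au}du = Σ_k c_k(x) mm k (2a)`
`= kP n c (2a) d` (`hPF`, `exp` and atoms of `c`); the square is `≥ 0`. -/
def StPS : Prop := ∀ (n : ℕ) (c : ℕ → ℝ → ℝ), 1 ≤ n → (∀ k, Continuous (c k)) →
  (∀ s x : ℝ, pp n s * ((1 - s * x) * pp n (s * x)) =
    ∑ k ∈ Finset.range (2 * n + 1), c k x * pp k s) →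
  (∀ x : ℝ, (-1) ^ n * ((1 - x) * pp n x) = ∑ k ∈ Finset.range (2 * n + 1), (-1) ^ k * c k x) →
  ∀ a t : ℝ, 0 < a → a ≤ 1 / 4 →
    2 * (∫ d in Ioi (0 : ℝ), Real.exp (-(a * d)) * Real.cos (a * t * d) * kP n c (2 * a) d) ≤
      ‖mm n ((a : ℂ) - Complex.I * (t : ℂ) * a)‖ ^ 2

/-- MODULE PN (150 lines; from `StPHC`, `StPHI`, `StPQ`, `StPS`). The PHI node.
Proof: `symb0`: `StPS` with `t = 0`, `mm n a = Cn n a`. `symb8`: `StPS` with `a = 1/8`, multiply by `W t ≥ 0`, integrate, Fubini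
(`Wh 1 W s = ∫ W τ cos(τs)`; `‖mm n (1/8-it/8)‖` is bounded). -/
def StPN : Prop := ∀ n : ℕ, 1 ≤ n → ∃ c : ℕ → ℝ → ℝ, Node n 0 (fun p => K2 n ^ (1 - 2 / p)) c

/-! ### modules: the TAB node -/

/-- MODULE TS (200 lines; from `StRT`, `hIS2`). `2tB_k` on `L^r`.
Proof: three term recursion `2 s p_k(s) = -(k/(2k-1)) p_{k-1} + ((4k²-2)/(4k²-1)) p_k - (k/(2k+1)) p_{k+1}` and the same for the
atoms `(-1)^j`, so `SS k v = -(k/(2k-1)) B_{k-1} v + ((4k²-2)/(4k²-1)) B_k v - (k/(2k+1)) B_{k+1} v` (`k ≥ 2`),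
`k/(2k-1) + (4k²-2)/(4k²-1) + k/(2k+1) = 2`, `‖B_j v‖_2 = ‖v‖_2` (`hIS2`): `M0 = 2`; `M1 = 2(1+P)`; `StRT`. -/
def StTSb : Prop :=
  (∀ (k : ℕ) (s : ℝ), 1 ≤ k → 2 * s * pp k s = -((k : ℝ) / (2 * k - 1)) * pp (k - 1) s +
    (4 * (k : ℝ) ^ 2 - 2) / (4 * (k : ℝ) ^ 2 - 1) * pp k s - (k : ℝ) / (2 * k + 1) * pp (k + 1) s) ∧
  ∀ (k : ℕ) (r P : ℝ) (v : ℝ → ℂ), 2 ≤ k → 2 ≤ r → ∫ s in (0 : ℝ)..1, |pp k s| ≤ P →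
    Continuous v → HasCompactSupport v →
    Nm r (SS k v) ≤ ENNReal.ofReal (2 * (1 + P) ^ (1 - 2 / r)) * Nm r v

/-- MODULE SCb (150 lines; model M_SC, M_KP). The scalar identity for general `a`.
Proof: as M_SC with `1/4` replaced by `a`, `1/2` by `2a`, `t/4` by `at`. -/
def StSCb : Prop := ∀ (n : ℕ) (a : ℝ), 1 ≤ n → 0 < a → a ≤ 1 / 4 →
  (∀ t : ℝ, ‖mm n ((a : ℂ) - Complex.I * (t : ℂ) * a)‖ ^ 2 =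
    1 + 2 * ∫ d in Ioi (0 : ℝ), Real.exp (-(a * d)) * Real.cos (a * t * d) * kapb n (2 * a) (Real.exp (-d))) ∧
  (∀ ν : ℕ → ℝ → ℝ, NN n ν → ∀ x : ℝ, kapb n (2 * a) x = ∑ k ∈ Finset.range (2 * n), ν k x * Cn k (2 * a))

/-- MODULE TN (250 lines; from `StTSb`, `StSCb`, `doubling`). The TAB node.
Proof: `c_k` = the expression in `TD.cpos` for `1 ≤ k < 2n`, else `0`.
`TT n d v = Σ_k ν_k(x) B_k v = PP n c d v - Σ_k ρ_k(x) SS k v` (`NN.exp`, `NN.alt`, three term recursion), so by `doubling`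
`Qn n c f = |f|² - 2∫_d Re Σ_k ρ_k(x) SS k (g_d)`; `‖g_d‖_{p/2} ≤ e^{-d/p}‖f‖_p²`, Minkowski, `StTSb`: `rest` with
`K p = 1 + lossT n ρ P p`.  `kP n c b d = kapb n b x + Σ_k ρ_k(x) 2 mm k (1+b)` and `mm k (1+b) ≤ 0` for `k ≥ 1`, `0 < b < 1`:
`≤ kapb n b x`; `StSCb` at `t = 0` gives `symb0`, and integrated against `W` with `Wh ≥ 0` (`Wh_ptw`) gives `symb8`. -/
def StTN : Prop := ∀ (n : ℕ) (ν ρ : ℕ → ℝ → ℝ) (P : ℕ → ℝ), 1 ≤ n → TD n ν ρ P →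
  (∀ p, 0 ≤ lossT n ρ P p) ∧ ∃ c : ℕ → ℝ → ℝ, Node n 1 (fun p => 1 + lossT n ρ P p) c

/-! ### modules: interpolation between the nodes 4 and 8 -/

/-- MODULE WE (250 lines). The weights are admissible.
Proof: `adm_sharp` (Helper72/BQM/Q6c.lean) with `P = 8, m = 1` and `P = 4, m = 2` (`P0 θ = P1 (1-θ)`, then `τ → 2τ`), times
`|Γ(n+a+iy)/Γ(n+1-a+iy)|²`, which is `PD` (Beta integral, model M_WA), `|mm n a|⁻² = |Γ(1-a)/Γ(a)|² |Γ(n+a)/Γ(n+1-a)|²`;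
lemma `Adm β W`, `PD Q`, `Q` even continuous `0 ≤ Q` ⇒ `Adm β (W Q)`.
Mass: `‖mm n (a(1-it))‖² (1+t²) ≥ Cn n a ²` (pair the numerator of factor `k` with the denominator of factor `k+1`:
`(k-a)²+a²t² over (k+a)²+a²t²` is at least `(k-a)²/(k+a)²`; `k = 1..n-1`; last numerator `(n-a)²+a²t² ≥ (n-a)²`, first
denominator `a²(1+t²)`), `∫ P1 θ τ (1+τ²) = θ(4-θ²)/3`. -/
def StWE : Prop := ∀ (n : ℕ) (θ : ℝ), 1 ≤ n → 0 < θ → θ < 1 →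
  Adm 1 (W8 n θ) ∧ Adm 1 (W4 n θ) ∧
  ∫ t, W8 n θ t ≤ θ * (4 - θ ^ 2) / 3 / Cn n (1 / 8) ^ 2 ∧
  ∫ t, W8 n θ t * ‖mm n (1 / 8 - Complex.I * (t : ℂ) / 8)‖ ^ 2 = θ ∧
  ∫ t, W4 n θ t * ‖mm n (1 / 4 - Complex.I * (t : ℂ) / 4)‖ ^ 2 = 1 - θ

/-- MODULE T4g (150 lines; model M_T4). The `L⁴` square function estimate for a general weight.
Proof: M_T4 word for word (from `hA3`, `hKP`, `hAV`, `hKD`, `hTS`, `hSC`); the only property of `Wn` used there is `Adm 1`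
(if a bound or positivity of `Wh` at some point is used, add it as a lemma from `Adm`; the case `W = 0` is trivial). -/
def StT4g : Prop := ∀ (n : ℕ) (W : ℝ → ℝ) (G : ℝ → ℂ) (H : ℝ → ℝ), 1 ≤ n → Adm 1 W →
  Continuous G → HasCompactSupport G → Continuous H → HasCompactSupport H →
  Integrable (fun t => W t * ∫ y, Real.exp (y / 2) * ‖Bop n (ph t G) y‖ ^ 2 * H y) ∧
  ∫ t, W t * (∫ y, Real.exp (y / 2) * ‖Bop n (ph t G) y‖ ^ 2 * H y) ≤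
    (∫ t, W t * ‖mm n (1 / 4 - Complex.I * (t : ℂ) / 4)‖ ^ 2) *
      Real.sqrt (∫ y, ‖G y‖ ^ 4) * Real.sqrt (∫ y, H y ^ 2)

/-- MODULE V8 (300 lines; may use `hEN'` (Helper69/CR/Top.lean): `Bd k 4 1` for all `k ≥ 1`). The averaged square at node 8.
Proof: `f_t = phP 8 t G`, `‖B_n f_t‖² = 2∫_d Re PP d (gd f_t d) + Qn n c f_t`; average over `t` with weight `W` (Fubini):
`V = 2∫_d Re PP d (k_d) dd + ∫ W(t) Qn n c f_t dt` with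
`k_d(y) = ∫ W(t) gd f_t d y dt = e^{-y/4-d/8} G(y) conj G(y+d) Wh 1 W (log|G(y)| - log|G(y+d)| + d/8)` (continuous, compact
support), `|k_d(y)| ≤ e^{-y/4-d/8} (½Aw(d/8)|G(y)|² + ½Aw(-d/8)|G(y+d)|²)` (`Wh_ptw`), `½(Aw(r)+Aw(-r)) = Wh(r)`:
`‖k_d‖_4 ≤ e^{-d/8} Wh(d/8) ‖G‖_8²`; `‖PP d k_d‖_4 ≤ kP n c (1/4) d ‖k_d‖_4`; Minkowski; `symb8`;
`‖∫ W Qn f_t‖_4 ≤ ∫ W ‖Qn f_t‖_4 ≤ K 8 ‖G‖_8² ∫ W` (`rest`, `Nm 8 f_t = ‖G‖_8`; `Qn` is jointly measurable in `(t,y)`). -/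
def StV8 : Prop := ∀ (n : ℕ) (κ0 : ℝ) (K : ℝ → ℝ) (c : ℕ → ℝ → ℝ) (W : ℝ → ℝ) (G : ℝ → ℂ), 1 ≤ n →
  Node n κ0 K c → κ0 ≤ K 8 → Adm 1 W → Continuous G → HasCompactSupport G →
  (∀ y, Integrable (fun t => W t * ‖Bop n (phP 8 t G) y‖ ^ 2)) ∧
  eLpNorm (fun y => ∫ t, W t * ‖Bop n (phP 8 t G) y‖ ^ 2) (ENNReal.ofReal 4) mu ≤
    ENNReal.ofReal ((∫ t, W t * ‖mm n (1 / 8 - Complex.I * (t : ℂ) / 8)‖ ^ 2) + (K 8 - κ0) * ∫ t, W t) *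
      ENNReal.ofReal (∫ y, ‖G y‖ ^ 8) ^ (1 / 4 : ℝ)

/-- `a(z) = 1/4 - z/8`. -/
def a8 (z : ℂ) : ℂ := 1 / 4 - z / 8

/-- `f_z(y) = e^{-a(z)y} pw (p a(z)) (F y)`. -/
def f8 (p : ℝ) (F : ℝ → ℂ) (z : ℂ) (y : ℝ) : ℂ :=
  Complex.exp (-(a8 z) * y) * pw (p * a8 z) (F y)

/-- `g_z(y) = χ(y) e^{a(z)y} pw (p(1-a(z))) (conj (h y))`. -/
def g8 (p : ℝ) (χ : ℝ → ℝ) (h : ℝ → ℂ) (z : ℂ) (y : ℝ) : ℂ :=
  ((χ y : ℝ) : ℂ) * Complex.exp (a8 z * y) * pw (p * (1 - a8 z)) ((starRingEnd ℂ) (h y))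

/-- `Φ(z) = ∫ B_n f_z · g_z`. -/
def Phi8 (n : ℕ) (p : ℝ) (χ : ℝ → ℝ) (F h : ℝ → ℂ) (z : ℂ) : ℂ :=
  ∫ y, Bop n (f8 p F z) y * g8 p χ h z y

/-- MODULE PZ8 (model M_PZ; port). -/
def StPZ8 : Prop := ∀ (n : ℕ) (p : ℝ) (χ : ℝ → ℝ) (F h : ℝ → ℂ), 4 < p → p < 8 → Continuous χ →
  HasCompactSupport χ → Continuous F → HasCompactSupport F → Continuous h →
    ContinuousOn (Phi8 n p χ F h) {z : ℂ | 0 ≤ z.re ∧ z.re ≤ 1} ∧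
    DifferentiableOn ℂ (Phi8 n p χ F h) {z : ℂ | 0 < z.re ∧ z.re < 1} ∧
    ∃ C : ℝ, ∀ z : ℂ, 0 ≤ z.re → z.re ≤ 1 → ‖Phi8 n p χ F h z‖ ≤ C

/-- MODULE ST8 (400 lines; from `StWE`, `StT4g`, `StV8`, `StPZ8`, `hIS2`, `hWA`, `hPF`). Stein interpolation, `4 < p < 8`.
Proof (model M_ST): `θ = 2-8/p`, `F = e^{y/p} f`, `h = e^{y/p} B_n f`, `χ` cutoff, `I = ∫ χ|h|^p`, `N = ∫|F|^p`, `Φ = Phi8`,
`Φ(θ) = I`; `H(z) = Φ(z)²/mm n (a8 z)²` in `poisson_mul4`.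
`Re z = 0`: `f_{iτ} = ph (τ/2) G`, `G = pw (p/4) ∘ F`, `|g| = χ e^{y/4}|h|^{3p/4}`, so
`|Φ|² ≤ (∫ e^{y/2}‖B f‖² H0) I`, `H0 = χ|h|^{p/2}`; substitute `τ = 2τ'`; `StT4g` with `W4`:
`(1-θ)⁻¹ ∫ P0 |H(iτ)| ≤ N^{1/2} I^{1/2} I`.
`Re z = 1`: `f_{1+iτ} = phP 8 τ G`, `G = pw (p/8) ∘ F`, `|g| = χ e^{y/8}|h|^{7p/8}`, `|Φ|² ≤ (∫ e^{y/4}‖B f‖² H1) I`,
`H1 = χ|h|^{3p/4}`, `‖H1‖_{4/3} ≤ I^{3/4}` (Lebesgue), Hölder with `StV8` for `W8`: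
`θ⁻¹ ∫ P1 |H(1+iτ)| ≤ (1+(4-θ²)/3·ℓ) N^{1/4} I^{3/4} I`, `ℓ = (K 8-κ0)/Cn n (1/8)²`.
So `I²/C² ≤ (1+(4-θ²)ℓ/3)^θ N^{2/p} I^{2-2/p}`, hence `(I/N)^{1/p} ≤ C (1+(4-θ²)ℓ/3)^{θ/2} ≤ C(1+θ(4-θ²)ℓ/6)`; `χ ↑ 1`. -/
def StST8 : Prop := ∀ (n : ℕ) (κ0 : ℝ) (K : ℝ → ℝ) (c : ℕ → ℝ → ℝ), 1 ≤ n → Node n κ0 K c → κ0 ≤ K 8 →
  ∀ p : ℝ, 4 < p → p < 8 →
    Bd n p (1 + (2 - 8 / p) * (4 - (2 - 8 / p) ^ 2) / 6 * ((K 8 - κ0) / Cn n (1 / 8) ^ 2))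

/-! ### modules: recursion and numbers -/

/-- MODULE REC (150 lines; from `StNR`, `StST8`, `oneD_sharp` (Helper69/CR/Top.lean)). The recursion, for any
excess function `e` and loss function `l`.
Proof: `p = 4`, and `n ≤ 2` (all `p`): `oneD_sharp` (constant `1`; take `f` continuous with compact support). `n ≥ 3`:
`4 < p < 8`: `StST8`, `(K 8-κ0)/Cn² ≤ l 8`, (R2).  `p ≥ 8`: induction (`p ∈ [4·2^j, 8·2^j)`), `StNR` with `N = 1+e(p/2)`: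
`N (Cn²-κ0) + K p ≤ Cn² (1 + e(p/2) + l p) ≤ (Cn (1+e p))²` (R1). -/
def StREC : Prop := ∀ e l : ℝ → ℝ,
  (∀ p, 8 ≤ p → 1 + e (p / 2) + l p ≤ (1 + e p) ^ 2) →
  (∀ p, 4 < p → p < 8 → (2 - 8 / p) * (4 - (2 - 8 / p) ^ 2) / 6 * l 8 ≤ e p) →
  (∀ p, 4 ≤ p → 0 ≤ e p) →
  (∀ n, 3 ≤ n → Small l n) → ∀ (n : ℕ) (p : ℝ), 1 ≤ n → 4 ≤ p → Bd n p (1 + e p)

/-- MODULE RP (30 lines). The numbers for `l p = (132/125)/p²`, `e p = (33/250)(p-4)/p²`.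
Proof: `2 e(p) = e(p/2) + l p` exactly; `(2-8/p)(4-(2-8/p)²)/6 · 33/2000 = e(p)·(4/3)(p-2)/p ≤ e(p)`. -/
def StRP : Prop :=
  (∀ p : ℝ, 8 ≤ p → 1 + 33 / 250 * (p / 2 - 4) / (p / 2) ^ 2 + 132 / 125 / p ^ 2 ≤
    (1 + 33 / 250 * (p - 4) / p ^ 2) ^ 2) ∧
  (∀ p : ℝ, 4 < p → p < 8 → (2 - 8 / p) * (4 - (2 - 8 / p) ^ 2) / 6 * (132 / 125 / 8 ^ 2) ≤
    33 / 250 * (p - 4) / p ^ 2) ∧
  (∀ p : ℝ, 4 ≤ p → 0 ≤ 33 / 250 * (p - 4) / p ^ 2)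

/-- MODULE SLK (120 lines). The constant.
Proof: log side, enough for `n = 3` (the other factors: `hNU` step `(n+1-a)/(n+a) ≤ ((n+1)/n)^{1-2a}`); with `x = 1/p ≤ 1/4`:
`g(x) = Σ_{k=2,3} [(1-2x) log(k/(k-1)) - log((k-x)/(k-1+x))] - .132x + .528x² ≥ 0`: `g(0) = 0`,
`g'(0) = 7/3 - 2 log 3 - .132 > 0`, `g'' ≥ 1.056 - .889 > 0`. -/
def StSLK : Prop := ∀ (n : ℕ) (p : ℝ), 3 ≤ n → 4 ≤ p →
  (1 + 33 / 250 * (p - 4) / p ^ 2) * Cn n (1 / p) ≤ (n : ℝ) ^ (1 - 2 / p) * (p - 1)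

/-- MODULE KQ (80 lines; from `Helper71.P4.StK2` / `Helper85.CP.StKE`).  `K2` in the variable `τ`. -/
def StKQ : Prop := ∀ n : ℕ, 1 ≤ n → K2 n ≤ 1 + 37 / 10 * Real.sqrt n + 4 * n

end Helper69.CS
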