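import Pool.Agent.Helper69.CS.St
import Pool.Agent.Helper69.CR.M_FI
import Pool.Agent.Helper69.CR.Top

/-!
# MP_3dd6d4_an, project CS: from a bound on the line to the critical angular mode, general constant
-/

set_option autoImplicit false

noncomputable section

namespace Helper69.CS

open MeasureTheory Set Filter Topology Complex
open Pool.Agent.Helper68.BA Helper69.CR Helper69.CR.DB
open scoped ContDiff ENNReal SchwartzMap

/-- the one-dimensional estimate with exponent `p` and constant `C` -/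
def OneDC (n : ℕ) (p C : ℝ) : Prop := ∀ f : ℝ → ℂ, Continuous f →
  (∀ y, IntegrableOn (fun u => f (y + u)) (Ioi 0)) →
  ∫⁻ y, ENNReal.ofReal (‖Bop n f y‖ ^ p * Real.exp y) ≤
    ENNReal.ofReal (C ^ p) * ∫⁻ y, ENNReal.ofReal (‖f y‖ ^ p * Real.exp y)

lemma OneDC_of_cpt (hIS : StIS2) (n : ℕ) (p : ℝ) (hp : 1 ≤ p) (C : ℝ) (hC : 0 ≤ C)
    (h : ∀ f : ℝ → ℂ, Continuous f → HasCompactSupport f →
      Nm p (Bop n f) ≤ ENNReal.ofReal C * Nm p f) : OneDC n p C := by
  intro f hf hi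
  have hp0 : 0 < p := by linarith
  have hcont : ∀ j, Continuous (fun x => ((chi_EN j x : ℝ) : ℂ) * f x) := by
    intro j
    have h1 := chi_cont_EN j
    fun_prop
  have hsupp : ∀ j, HasCompactSupport (fun x => ((chi_EN j x : ℝ) : ℂ) * f x) := by
    intro j
    apply HasCompactSupport.mul_right
    exact (chi_supp_EN j).comp_left (g := fun r : ℝ => (r : ℂ)) (by simp)
  apply fatou_EN
    (F := fun j y => ‖Bop n (fun x => ((chi_EN j x : ℝ) : ℂ) * f x) y‖ ^ p * Real.exp y)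
    (B := fun _ => ENNReal.ofReal (C ^ p) *
      ∫⁻ y, ENNReal.ofReal (‖f y‖ ^ p * Real.exp y))
  · intro j
    exact meas_EN hIS n p _ (hcont j) (hsupp j)
  · intro y
    apply Tendsto.mul_const
    exact ((Bop_lim_EN n f hf y (hi y)).norm).rpow_const (Or.inr hp0.le)
  · intro j
    have h1 := h _ (hcont j) (hsupp j)
    unfold Nm at h1
    rw [eL hp0, eL hp0] at h1
    have h2 := ENNReal.rpow_le_rpow h1 hp0.le
    rw [← ENNReal.rpow_mul, one_div_mul_cancel hp0.ne', ENNReal.rpow_one,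
      ENNReal.mul_rpow_of_nonneg _ _ hp0.le, ← ENNReal.rpow_mul, one_div_mul_cancel hp0.ne',
      ENNReal.rpow_one, ENNReal.ofReal_rpow_of_nonneg hC hp0.le] at h2
    refine h2.trans ?_
    gcongr with y
    rw [norm_mul, Complex.norm_real, Real.norm_eq_abs, abs_of_nonneg (chi_nonneg_EN _ _)]
    have h3 := chi_le_EN j y
    have h4 := chi_nonneg_EN j y
    nlinarith [norm_nonneg (f y)]
  · exact tendsto_const_nhds

theorem crit_phiC (hKR : StKR) (n : ℕ) (p : ℝ) (hp : 1 ≤ p) (C : ℝ) (hC : 0 ≤ C)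
    (h1 : OneDC n p C) (φ : 𝓢(ℂ, ℂ)) (hm : HasMode n φ) :
    eLpNorm (dz^[n] φ) (ENNReal.ofReal p) volume ≤
      ENNReal.ofReal C * eLpNorm (dzbar^[n] φ) (ENNReal.ofReal p) volume := by
  obtain ⟨a3, a4⟩ := iter_dzS φ n hm n
  obtain ⟨b3, b4⟩ := iter_dzbarS φ n hm n
  have a1 : Continuous (dz^[n] φ) := a4 ▸ (dzS^[n] φ).continuous
  have b1 : Continuous (dzbar^[n] φ) := b4 ▸ (dzbarS^[n] φ).continuous
  rw [a4] at a3
  rw [b4] at b3
  have hp0 : 0 < p := by linarith
  refine norm_bound_C a3 a1 b3 b1 p hp0 _ hC ?_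
  have hrep : ∀ y : ℝ, ‖prof (dz^[n] φ) y‖ = ‖Bop n (prof (dzbar^[n] φ)) y‖ := by
    intro y
    rw [repr_pos n n φ hm y, hKR.2, sub_self, abs_zero, zero_div, min_self, norm_mul, norm_pow,
      norm_neg, norm_one, one_pow, one_mul]
  simp only [hrep]
  refine h1 _ (prof_continuous b1) fun y => ?_
  have h2 := EE_integrable_pos (gb n n φ hm n) 0 y
  rw [gb_n] at h2
  refine h2.congr_fun (fun u _ => ?_) measurableSet_Ioi
  simp

/-- a bound for `B_n` on the line gives the estimate for the frozen form of `T^n f`, `f` of mode `2n` -/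
theorem mode_of_Bd (n : ℕ) (hn : 1 ≤ n) (p : ℝ) (hp : 2 ≤ p) (N : ℝ) (hN : 0 ≤ N) (h1 : Bd n p N)
    (f : SchwartzMap ℂ ℂ)
    (hf : ∀ (θ : ℝ) (z : ℂ),
      f (Complex.exp (θ * Complex.I) * z) = Complex.exp (((2 * n : ℕ) : ℂ) * θ * Complex.I) * f z) :
    MeasureTheory.eLpNorm
        (fun z : ℂ => ∫ ξ : ℂ,
          Complex.exp (2 * (Real.pi : ℂ) * Complex.I * ((z.re * ξ.re + z.im * ξ.im : ℝ) : ℂ)) *
            ((starRingEnd ℂ ξ / ξ) ^ n *
              ∫ w : ℂ, Complex.exp (-(2 * (Real.pi : ℂ) * Complex.I *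
                ((w.re * ξ.re + w.im * ξ.im : ℝ) : ℂ))) * f w))
        (ENNReal.ofReal p) MeasureTheory.volume
      ≤ ENNReal.ofReal (N * Cn n (1 / p)) *
        MeasureTheory.eLpNorm (fun z : ℂ => f z) (ENNReal.ofReal p) MeasureTheory.volume := by
  have hp0 : 0 < p := by linarith
  have hC : 0 ≤ N * Cn n (1 / p) :=
    mul_nonneg hN (Cn_nonneg n _ (by positivity) (by rw [div_le_one hp0]; linarith))
  rw [frozen_eq]
  refine mult_bound n f p hp _ fun t => ?_
  have hf' : HasMode ((2 * n : ℕ) : ℤ) f := by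
    intro θ z
    rw [hf θ z]
    norm_cast
  have hmode := phi_mode n t f hf'
  have e : (((2 * n : ℕ) : ℤ) - n : ℤ) = n := by push_cast; ring
  rw [e] at hmode
  have h := crit_phiC hKR n p (by linarith) _ hC
    (OneDC_of_cpt (hIS2 hKR) n p (by linarith) _ hC h1) (phi n t f) hmode
  rw [(iter_dzS (phi n t f) n hmode n).2, (iter_dzbarS (phi n t f) n hmode n).2]
  exact h

end Helper69.CS
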