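import Pool.Agent.Helper69.CS.St
import Pool.Agent.Helper35.QP2.Alt
import Pool.Agent.Helper69.CR.M_A2
import Pool.Agent.Helper69.CR.M_KR

/-!
# Module PHC of project CS (MP_3dd6d4_an): the coefficients `c_k`.
-/

set_option autoImplicit false

open MeasureTheory Set Filter Topology

noncomputable section

namespace Helper69.CS

open Helper85.BP Helper69.CR

private lemma coef_mid_PHC (k l : ℕ) :
    pc (k + 1 + l + 1) (k + 1) - pc (k + 1 + l + 1) k =
      ((k : ℝ) + 1 + l + 1) / 2 * (lc (k + 1 + l) (k + 1) + lc (k + 1 + l + 1) (k + 1)) := by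
  unfold pc lc
  have e1 : k + 1 + l + 1 - 1 - (k + 1) = l := by omega
  have e2 : k + 1 + l + 1 - 1 - k = l + 1 := by omega
  have e3 : k + 1 + l - (k + 1) = l := by omega
  have e4 : k + 1 + l + 1 - (k + 1) = l + 1 := by omega
  have e5 : k + 1 + l + 1 + (k + 1) = (k + 1 + l + 1 + k) + 1 := by omega
  have e6 : k + 1 + l + (k + 1) = k + 1 + l + 1 + k := by omega
  rw [e1, e2, e3, e4, e5, e6, Nat.factorial_succ (k + 1 + l + 1 + k), Nat.factorial_succ k,
    Nat.factorial_succ l, pow_succ]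
  push_cast
  have hF : ((k + 1 + l + 1 + k).factorial : ℝ) ≠ 0 := by exact_mod_cast Nat.factorial_ne_zero _
  have hK : (k.factorial : ℝ) ≠ 0 := by exact_mod_cast Nat.factorial_ne_zero _
  have hL : (l.factorial : ℝ) ≠ 0 := by exact_mod_cast Nat.factorial_ne_zero _
  have hk : (k : ℝ) + 1 ≠ 0 := by positivity
  have hl : (l : ℝ) + 1 ≠ 0 := by positivity
  field_simp
  ring

private lemma coef_low_PHC (m : ℕ) :
    pc (m + 1) 0 = ((m : ℝ) + 1) / 2 * (lc m 0 + lc (m + 1) 0) := by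
  unfold pc lc
  have e1 : m + 1 - 1 - 0 = m := by omega
  rw [e1]
  simp only [Nat.sub_zero, Nat.add_zero, Nat.factorial_zero, Nat.factorial_succ m]
  push_cast
  have hK : (m.factorial : ℝ) ≠ 0 := by exact_mod_cast Nat.factorial_ne_zero _
  have hm : (m : ℝ) + 1 ≠ 0 := by positivity
  field_simp
  ring

private lemma coef_top_PHC (m : ℕ) :
    -pc (m + 1) m = ((m : ℝ) + 1) / 2 * lc (m + 1) (m + 1) := by
  unfold pc lc
  have e1 : m + 1 - 1 - m = 0 := by omega
  have e2 : m + 1 - (m + 1) = 0 := by omega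
  have e3 : m + 1 + (m + 1) = (m + 1 + m) + 1 := by omega
  rw [e1, e2, e3, Nat.factorial_succ (m + 1 + m), Nat.factorial_succ m, pow_succ]
  simp only [Nat.factorial_zero]
  push_cast
  have hK : (m.factorial : ℝ) ≠ 0 := by exact_mod_cast Nat.factorial_ne_zero _
  have hm : (m : ℝ) + 1 ≠ 0 := by positivity
  field_simp
  ring

/-- `(1-y) p_n(y) = (n/2)(L_{n-1}(y) + L_n(y))`. -/
theorem one_sub_mul_pp_PHC (n : ℕ) (hn : 1 ≤ n) (y : ℝ) :
    (1 - y) * pp n y = (n : ℝ) / 2 * (LL (n - 1) y + LL n y) := by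
  obtain ⟨m, rfl⟩ : ∃ m, n = m + 1 := ⟨n - 1, by omega⟩
  simp only [Nat.add_sub_cancel]
  unfold pp LL
  rw [sub_mul, one_mul, Finset.mul_sum]
  have h1 : ∑ i ∈ Finset.range (m + 1), pc (m + 1) i * y ^ i =
      pc (m + 1) 0 + ∑ i ∈ Finset.range m, pc (m + 1) (i + 1) * y ^ (i + 1) := by
    rw [Finset.sum_range_succ', pow_zero, mul_one, add_comm]
  have h2 : ∑ i ∈ Finset.range (m + 1), y * (pc (m + 1) i * y ^ i) =
      (∑ i ∈ Finset.range m, pc (m + 1) i * y ^ (i + 1)) + pc (m + 1) m * y ^ (m + 1) := by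
    rw [Finset.sum_range_succ]
    congr 1
    · refine Finset.sum_congr rfl (fun i _ => ?_)
      rw [pow_succ]; ring
    · rw [pow_succ]; ring
  have h3 : ∑ i ∈ Finset.range (m + 1), lc m i * y ^ i =
      lc m 0 + ∑ i ∈ Finset.range m, lc m (i + 1) * y ^ (i + 1) := by
    rw [Finset.sum_range_succ', pow_zero, mul_one, add_comm]
  have h4 : ∑ i ∈ Finset.range (m + 1 + 1), lc (m + 1) i * y ^ i =
      lc (m + 1) 0 + (∑ i ∈ Finset.range m, lc (m + 1) (i + 1) * y ^ (i + 1)) +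
        lc (m + 1) (m + 1) * y ^ (m + 1) := by
    rw [Finset.sum_range_succ, Finset.sum_range_succ', pow_zero, mul_one]
    ring
  rw [h1, h2, h3, h4]
  have h5 : ∑ i ∈ Finset.range m, pc (m + 1) (i + 1) * y ^ (i + 1) -
      ∑ i ∈ Finset.range m, pc (m + 1) i * y ^ (i + 1) =
      ((m : ℝ) + 1) / 2 * (∑ i ∈ Finset.range m, lc m (i + 1) * y ^ (i + 1) +
        ∑ i ∈ Finset.range m, lc (m + 1) (i + 1) * y ^ (i + 1)) := by
    rw [← Finset.sum_sub_distrib, ← Finset.sum_add_distrib, Finset.mul_sum]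
    refine Finset.sum_congr rfl (fun i hi => ?_)
    have hi' := Finset.mem_range.1 hi
    obtain ⟨l, rfl⟩ : ∃ l, m = i + 1 + l := ⟨m - (i + 1), by omega⟩
    have h6 := coef_mid_PHC i l
    rw [← sub_mul, ← add_mul, h6]
    push_cast
    ring
  have h7 := coef_low_PHC m
  have h8 := coef_top_PHC m
  push_cast
  linear_combination h5 + h7 + y ^ (m + 1) * h8

private lemma int_pp_PHC (hA : StA2) (k : ℕ) (hk : 1 ≤ k) :
    ∫ s in (0 : ℝ)..1, pp k s = (-1) ^ (k + 1) := by
  unfold pp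
  rw [intervalIntegral.integral_finsetSum (fun i _ => by
    apply Continuous.intervalIntegrable; fun_prop)]
  have h := hA.1 k 0 (by omega)
  rw [← h]
  refine Finset.sum_congr rfl (fun i _ => ?_)
  rw [intervalIntegral.integral_const_mul, integral_pow]
  simp only [one_pow, CharP.cast_eq_zero, zero_add]
  have : (0 : ℝ) ^ (i + 1) = 0 := by simp
  rw [this, sub_zero]
  ring

/-- MODULE PHC. -/
theorem hPHC : StPHC := by
  have hA : StA2 := hA2 hKR
  intro n hn
  obtain ⟨q, hqc, hqp, hq0, hqe, hqa⟩ := Pool.Agent.Helper35.QP.hQ3 n hn (n - 1) (by omega)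
  obtain ⟨r, hrc, hrp, hr0, hre, hra⟩ := Pool.Agent.Helper35.QP.hQ3 n hn n le_rfl
  have hqr : ∀ k, k ∈ Finset.range (2 * n + 1) → k ≤ 2 * n := fun k hk => by
    have := Finset.mem_range.1 hk; omega
  refine ⟨fun k x => if k ≤ 2 * n then (n : ℝ) / 2 * (q k x + r k x) else 0, ?_, ?_, ?_, ?_, ?_⟩
  · intro k
    by_cases hk : k ≤ 2 * n
    · simp only [if_pos hk]
      exact continuous_const.mul ((hqc k).add (hrc k))
    · simp only [if_neg hk]
      exact continuous_const
  · intro k x h0 h1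
    by_cases hk : k ≤ 2 * n
    · simp only [if_pos hk]
      have := hqp k x h0 h1
      have := hrp k x h0 h1
      positivity
    · simp only [if_neg hk]
      exact le_rfl
  · intro x
    simp only [Nat.zero_le, if_true]
    rw [hq0, hr0, if_neg (by omega : ¬ n - 1 = n), if_pos rfl]
    ring
  · intro k x hk
    simp only [if_neg (not_le.2 hk)]
  have hexp : ∀ s x : ℝ, pp n s * ((1 - s * x) * pp n (s * x)) =
      ∑ k ∈ Finset.range (2 * n + 1),
        (if k ≤ 2 * n then (n : ℝ) / 2 * (q k x + r k x) else 0) * pp k s := by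
    intro s x
    rw [one_sub_mul_pp_PHC n hn]
    have h1 : pp n s * ((n : ℝ) / 2 * (LL (n - 1) (s * x) + LL n (s * x))) =
        (n : ℝ) / 2 * (pp n s * LL (n - 1) (s * x) + pp n s * LL n (s * x)) := by ring
    rw [h1, hqe, hre, ← Finset.sum_add_distrib, Finset.mul_sum]
    refine Finset.sum_congr rfl (fun k hk => ?_)
    rw [if_pos (hqr k hk)]
    ring
  have halt : ∀ x : ℝ, (-1) ^ n * ((1 - x) * pp n x) = ∑ k ∈ Finset.range (2 * n + 1),
      (-1) ^ k * (if k ≤ 2 * n then (n : ℝ) / 2 * (q k x + r k x) else 0) := by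
    intro x
    rw [one_sub_mul_pp_PHC n hn]
    have h1 : (-1 : ℝ) ^ n * ((n : ℝ) / 2 * (LL (n - 1) x + LL n x)) =
        (n : ℝ) / 2 * ((-1) ^ n * LL (n - 1) x + (-1) ^ n * LL n x) := by ring
    rw [h1, hqa, hra, ← Finset.sum_add_distrib, Finset.mul_sum]
    refine Finset.sum_congr rfl (fun k hk => ?_)
    rw [if_pos (hqr k hk)]
    ring
  refine ⟨hexp, halt, ?_⟩
  intro x
  have hint : ∫ s in (0 : ℝ)..1, pp n s * ((1 - s * x) * pp n (s * x)) =
      ∑ k ∈ Finset.range (2 * n + 1),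
        (if k ≤ 2 * n then (n : ℝ) / 2 * (q k x + r k x) else 0) * (∫ s in (0 : ℝ)..1, pp k s) := by
    simp only [hexp]
    rw [intervalIntegral.integral_finsetSum (fun k _ => by
      apply Continuous.intervalIntegrable
      unfold pp
      fun_prop)]
    refine Finset.sum_congr rfl (fun k _ => ?_)
    rw [intervalIntegral.integral_const_mul]
  rw [hint, halt, ← Finset.sum_add_distrib]
  rw [Finset.sum_range_succ']
  have hz : ∑ k ∈ Finset.range (2 * n), ((-1 : ℝ) ^ (k + 1) *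
      (if k + 1 ≤ 2 * n then (n : ℝ) / 2 * (q (k + 1) x + r (k + 1) x) else 0) +
      (if k + 1 ≤ 2 * n then (n : ℝ) / 2 * (q (k + 1) x + r (k + 1) x) else 0) *
        (∫ s in (0 : ℝ)..1, pp (k + 1) s)) = 0 := by
    refine Finset.sum_eq_zero (fun k _ => ?_)
    rw [int_pp_PHC hA (k + 1) (by omega)]
    rw [pow_succ (-1 : ℝ) (k + 1)]
    ring
  rw [hz]
  have h0 : ∫ s in (0 : ℝ)..1, pp 0 s = 0 := by
    simp [pp]
  rw [h0, hq0, hr0, if_neg (by omega : ¬ n - 1 = n), if_pos rfl, if_pos (Nat.zero_le _)]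
  ring

end Helper69.CS
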