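import Pool.Agent.Helper69.CS.M_GEN

/-!
# MP_3dd6d4_an, project CS, module PHI (helper7): the identity for `B_n f`
-/

set_option autoImplicit false

open MeasureTheory Set Filter Topology
open scoped ENNReal NNReal

noncomputable section

namespace Helper69.CS

open Helper85.BP Helper69.CR Helper69.CR.DB

private lemma pp_cont_PHI (n : ℕ) : Continuous (pp n) := by
  unfold pp
  fun_prop

private lemma PP_eq_PHI (n : ℕ) (c : ℕ → ℝ → ℝ)
    (hk : ∀ s x : ℝ, pp n s * ((1 - s * x) * pp n (s * x)) =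
      ∑ k ∈ Finset.range (2 * n + 1), c k x * pp k s)
    (ha : ∀ x : ℝ, (-1) ^ n * ((1 - x) * pp n x) =
      ∑ k ∈ Finset.range (2 * n + 1), (-1) ^ k * c k x)
    (f : ℝ → ℂ) (hf : Continuous f) (hfc : HasCompactSupport f) (y d : ℝ) :
    PP n c d (gd f d) y =
      (((-1) ^ n * (1 - Real.exp (-d)) * pp n (Real.exp (-d)) : ℝ) : ℂ) *
        (f (y + 0) * (starRingEnd ℂ) (f (y + d))) +
      ∫ u in Ioi (0 : ℝ), ((pp n (Real.exp (-u)) * pp n (Real.exp (-(u + d))) *
        (1 - Real.exp (-(u + d))) : ℝ) : ℂ) * (f (y + u) * (starRingEnd ℂ) (f (y + (u + d)))) := by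
  have hg := gd_cont f hf
  have hi : ∀ k : ℕ, IntegrableOn (fun u : ℝ => ((pp k (Real.exp (-u)) : ℝ) : ℂ) *
      gd f d (y + u)) (Ioi 0) := by
    intro k
    apply Integrable.integrableOn
    apply Continuous.integrable_of_hasCompactSupport
    · have h1 : Continuous fun u : ℝ => gd f d (y + u) :=
        hg.comp (by fun_prop : Continuous fun u : ℝ => (d, y + u))
      have h2 := pp_cont_PHI k
      fun_prop
    · apply HasCompactSupport.mul_left
      exact (gd_cpt f hfc d).comp_homeomorph (Homeomorph.addLeft y)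
  unfold PP Bop
  simp only [mul_add]
  rw [Finset.sum_add_distrib]
  congr 1
  · have h1 : ((-1) ^ n * (1 - Real.exp (-d)) * pp n (Real.exp (-d)) : ℝ) =
        ∑ k ∈ Finset.range (2 * n + 1), (-1) ^ k * c k (Real.exp (-d)) := by
      rw [← ha, mul_assoc]
    rw [h1, Complex.ofReal_sum, Finset.sum_mul]
    refine Finset.sum_congr rfl fun k _ => ?_
    unfold gd
    rw [add_zero]
    push_cast
    ring
  · have h2 : ∀ k ∈ Finset.range (2 * n + 1), ((c k (Real.exp (-d)) : ℝ) : ℂ) *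
        ∫ u in Ioi (0 : ℝ), ((pp k (Real.exp (-u)) : ℝ) : ℂ) * gd f d (y + u) =
        ∫ u in Ioi (0 : ℝ), ((c k (Real.exp (-d)) : ℝ) : ℂ) *
          (((pp k (Real.exp (-u)) : ℝ) : ℂ) * gd f d (y + u)) := fun k _ =>
      (integral_const_mul _ _).symm
    rw [Finset.sum_congr rfl h2, ← integral_finsetSum _ fun k _ => (hi k).const_mul _]
    refine setIntegral_congr_fun measurableSet_Ioi fun u _ => ?_
    have h3 : Real.exp (-(u + d)) = Real.exp (-u) * Real.exp (-d) := by
      rw [neg_add, Real.exp_add]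
    have h4 : pp n (Real.exp (-u)) * pp n (Real.exp (-(u + d))) * (1 - Real.exp (-(u + d))) =
        ∑ k ∈ Finset.range (2 * n + 1), c k (Real.exp (-d)) * pp k (Real.exp (-u)) := by
      rw [← hk, h3]
      ring
    rw [h4, Complex.ofReal_sum, Finset.sum_mul]
    refine Finset.sum_congr rfl fun k _ => ?_
    unfold gd
    rw [add_assoc y u d]
    push_cast
    ring

private lemma decay_PHI (f : ℝ → ℂ) (hf : Continuous f) (hfc : HasCompactSupport f) (y : ℝ) :
    ∃ C : ℝ, ∀ u, 0 ≤ u → ‖f (y + u)‖ ≤ C * Real.exp (-(1 * u)) := by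
  have h1 : HasCompactSupport (fun u : ℝ => f (y + u)) :=
    hfc.comp_homeomorph (Homeomorph.addLeft y)
  have h2 : Continuous (fun u : ℝ => (Real.exp u : ℂ) * f (y + u)) := by
    fun_prop
  have h3 : HasCompactSupport (fun u : ℝ => (Real.exp u : ℂ) * f (y + u)) := h1.mul_left
  obtain ⟨C, hC⟩ := h3.exists_bound_of_continuous h2
  refine ⟨C, fun u _ => ?_⟩
  have h4 := hC u
  rw [norm_mul, Complex.norm_real, Real.norm_eq_abs, abs_of_pos (Real.exp_pos _)] at h4
  have h5 : ‖f (y + u)‖ = Real.exp (-(1 * u)) * (Real.exp u * ‖f (y + u)‖) := by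
    rw [← mul_assoc, ← Real.exp_add]
    simp
  rw [h5, mul_comm C]
  exact mul_le_mul_of_nonneg_left h4 (Real.exp_pos _).le

theorem hPHI : StPHI := by
  intro n c hn hc hk ha f hf hfc y
  have hpc := pp_cont_PHI n
  obtain ⟨C, hC⟩ := decay_PHI f hf hfc y
  obtain ⟨M, hM⟩ := isCompact_Icc.exists_bound_of_continuousOn
    (hpc.continuousOn (s := Icc (0 : ℝ) 1))
  have hMb : ∀ u : ℝ, 0 ≤ u → |pp n (Real.exp (-u))| ≤ M := fun u hu =>
    hM _ ⟨(Real.exp_pos _).le, Real.exp_le_one_iff.mpr (by linarith)⟩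
  obtain ⟨g1, g2, g3⟩ := hGEN (fun u => pp n (Real.exp (-u))) ((-1) ^ n) (fun u => f (y + u))
    1 C M (by fun_prop) hMb (by fun_prop) one_pos hC
  have hPh : ∀ τ : ℝ, Ph n τ f y = ((((-1) ^ n : ℝ)) : ℂ) * f (y + 0) +
      ∫ u in (0 : ℝ)..τ, ((pp n (Real.exp (-u)) : ℝ) : ℂ) * f (y + u) := by
    intro τ
    unfold Ph
    rw [add_zero]
    push_cast
    rfl
  have hB : Bop n f y = ((((-1) ^ n : ℝ)) : ℂ) * f (y + 0) +
      ∫ u in Ioi (0 : ℝ), ((pp n (Real.exp (-u)) : ℝ) : ℂ) * f (y + u) := by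
    unfold Bop
    rw [add_zero]
    push_cast
    rfl
  have hPP := PP_eq_PHI n c hk ha f hf hfc y
  refine ⟨?_, ?_, ?_⟩
  · simp only [hPh]
    exact g1
  · simp only [hPP]
    exact g2
  · unfold Qn
    simp only [hPh, hPP]
    rw [hB]
    linarith only [g3]

end Helper69.CS
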