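import Pool.Agent.Helper69.CS.St
import Pool.Agent.Helper69.CR.M_IS2
import Pool.Agent.Helper69.CR.M_KR
import Pool.Agent.Helper69.CR.M_A2

/-!
# MP_3dd6d4_an, project CS, module PL2: the `L²` bound of the square
-/

set_option autoImplicit false

open MeasureTheory Set Filter Topology
open scoped ENNReal NNReal Convolution

noncomputable section

namespace Helper69.CS

open Helper85.BP Helper69.CR Helper69.CR.DB

private lemma pp_cont_PL2 (n : ℕ) : Continuous (pp n) := by
  unfold pp
  fun_prop

private lemma bdd_PL2 (f : ℝ → ℂ) (hc : HasCompactSupport f) :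
    ∃ R : ℝ, 0 < R ∧ ∀ x, R < |x| → f x = 0 := by
  obtain ⟨R, hR⟩ := hc.isCompact.isBounded.subset_closedBall 0
  refine ⟨max R 1, by positivity, fun x hx => ?_⟩
  by_contra h
  have h1 : x ∈ tsupport f := subset_tsupport _ h
  have h2 := hR h1
  rw [Metric.mem_closedBall, dist_zero_right, Real.norm_eq_abs] at h2
  exact absurd (lt_of_le_of_lt (le_max_left R 1) hx) (not_lt.mpr h2)

private lemma ppb_PL2 (k : ℕ) : ∃ P : ℝ, 0 ≤ P ∧ ∀ u : ℝ, 0 ≤ u → |pp k (Real.exp (-u))| ≤ P := by
  obtain ⟨C, hC⟩ := isCompact_Icc.exists_bound_of_continuousOn (s := Icc (0:ℝ) 1) (f := pp k)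
    (pp_cont_PL2 k).continuousOn
  refine ⟨max C 0, le_max_right _ _, fun u hu => ?_⟩
  have h1 := hC (Real.exp (-u)) ⟨(Real.exp_pos _).le, Real.exp_le_one_iff.mpr (by linarith)⟩
  rw [Real.norm_eq_abs] at h1
  exact h1.trans (le_max_left _ _)

/-- `∫_0^∞ e^{-u} p_k(e^{-u}) du = (-1)^{k+1}` -/
private lemma intpp_PL2 (k : ℕ) (hk : 1 ≤ k) :
    IntegrableOn (fun u => Real.exp (-u) * pp k (Real.exp (-u))) (Ioi 0) ∧
    ∫ u in Ioi (0:ℝ), Real.exp (-u) * pp k (Real.exp (-u)) = (-1) ^ (k + 1) := by
  have e1 : ∀ u : ℝ, Real.exp (-u) * pp k (Real.exp (-u)) =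
      ∑ i ∈ Finset.range k, pc k i * Real.exp ((-((i:ℝ) + 1)) * u) := by
    intro u
    unfold pp
    rw [Finset.mul_sum]
    refine Finset.sum_congr rfl fun i _ => ?_
    rw [← Real.exp_nat_mul, mul_left_comm, ← Real.exp_add]
    congr 2
    ring
  have hneg : ∀ i : ℕ, (-((i:ℝ) + 1)) < 0 := by
    intro i
    have : (0:ℝ) ≤ i := Nat.cast_nonneg i
    linarith
  have hi : ∀ i ∈ Finset.range k,
      Integrable (fun u => pc k i * Real.exp ((-((i:ℝ) + 1)) * u)) (volume.restrict (Ioi (0:ℝ))) := by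
    intro i _
    exact (integrableOn_exp_mul_Ioi (hneg i) 0).const_mul _
  simp only [e1]
  refine ⟨integrable_finsetSum _ hi, ?_⟩
  rw [integral_finsetSum _ hi]
  have h2 : ∀ i ∈ Finset.range k, ∫ u in Ioi (0:ℝ), pc k i * Real.exp ((-((i:ℝ) + 1)) * u) =
      pc k i / ((0:ℕ) + (i:ℝ) + 1) := by
    intro i _
    rw [integral_const_mul, integral_exp_mul_Ioi (hneg i) 0]
    have h0 : ((i:ℝ) + 1) ≠ 0 := by positivity
    rw [mul_zero, Real.exp_zero, div_neg, neg_div, neg_neg, Nat.cast_zero, zero_add, mul_one_div]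
  rw [Finset.sum_congr rfl h2]
  have h3 := (hA2 hKR).1 k 0 (by omega)
  convert h3 using 2

/-- the `L¹` identity for `B_k` -/
private lemma bop1_PL2 (k : ℕ) (v : ℝ → ℂ) (hv : Continuous v) (hvc : HasCompactSupport v) :
    Integrable (fun y => (Real.exp y : ℂ) * Bop k v y) ∧
    ∫ y, (Real.exp y : ℂ) * Bop k v y = if k = 0 then ∫ y, (Real.exp y : ℂ) * v y else 0 := by
  have hb : Integrable (fun y => (Real.exp y : ℂ) * v y) := by
    apply Continuous.integrable_of_hasCompactSupport
    · fun_prop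
    · exact hvc.mul_left
  by_cases hk : k = 0
  · subst hk
    have e : ∀ y, (Real.exp y : ℂ) * Bop 0 v y = (Real.exp y : ℂ) * v y := by
      intro y
      unfold Bop pp
      simp
    simp only [e, if_true]
    exact ⟨hb, trivial⟩
  · have hk1 : 1 ≤ k := by omega
    obtain ⟨hi, hI⟩ := intpp_PL2 k hk1
    set a : ℝ → ℝ := (Iic (0:ℝ)).indicator (fun t => Real.exp t * pp k (Real.exp t)) with ha
    have hai : Integrable a := by
      rw [ha, integrable_indicator_iff measurableSet_Iic]
      have h0 : IntegrableOn (fun u => Real.exp (-u) * pp k (Real.exp (-u))) (Ici (-0)) := by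
        rw [neg_zero]
        exact (integrableOn_Ici_iff_integrableOn_Ioi (by simp)).mpr hi
      have h1 := h0.comp_neg_Iic
      simpa using h1
    have haI : ∫ t, a t = (-1) ^ (k + 1) := by
      rw [ha, integral_indicator measurableSet_Iic, ← hI]
      have h1 := integral_comp_neg_Ioi 0 (fun t => Real.exp t * pp k (Real.exp t))
      rw [neg_zero] at h1
      exact h1.symm
    set b : ℝ → ℂ := fun y => (Real.exp y : ℂ) * v y with hbdef
    have hconv : ∀ y, (Real.exp y : ℂ) * Bop k v y =
        (-1) ^ k * b y + (a ⋆[ContinuousLinearMap.lsmul ℝ ℝ, volume] b) y := by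
      intro y
      unfold Bop
      rw [mul_add]
      congr 1
      · simp only [hbdef]
        ring
      · rw [convolution_def]
        have h1 : ∀ t, (ContinuousLinearMap.lsmul ℝ ℝ) (a t) (b (y - t)) =
            (Iic (0:ℝ)).indicator (fun t => (Real.exp y : ℂ) * (((pp k (Real.exp t) : ℝ) : ℂ) * v (y - t))) t := by
          intro t
          simp only [ha, hbdef, ContinuousLinearMap.lsmul_apply]
          by_cases ht : t ∈ Iic (0:ℝ)
          · rw [indicator_of_mem ht, indicator_of_mem ht, Complex.real_smul]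
            have : (Real.exp y : ℂ) = (Real.exp t : ℂ) * (Real.exp (y - t) : ℂ) := by
              rw [← Complex.ofReal_mul, ← Real.exp_add]
              congr 2
              ring
            rw [this]
            push_cast
            ring
          · rw [indicator_of_notMem ht, indicator_of_notMem ht, zero_smul]
        simp only [h1]
        rw [integral_indicator measurableSet_Iic, integral_const_mul]
        congr 1
        have h2 := integral_comp_neg_Ioi 0 (fun t => ((pp k (Real.exp t) : ℝ) : ℂ) * v (y - t))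
        rw [neg_zero] at h2
        rw [← h2]
        refine setIntegral_congr_fun measurableSet_Ioi fun u _ => ?_
        simp
    have hci := hai.integrable_convolution (ContinuousLinearMap.lsmul ℝ ℝ) hb
    have hcI := integral_convolution (ContinuousLinearMap.lsmul ℝ ℝ) hai hb
    simp only [hconv, if_neg hk]
    refine ⟨(hb.const_mul _).add hci, ?_⟩
    rw [integral_add (hb.const_mul _) hci, integral_const_mul, hcI, haI]
    simp only [ContinuousLinearMap.lsmul_apply, Complex.real_smul]
    push_cast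
    ring

private lemma bopb_PL2 (k : ℕ) (f : ℝ → ℂ) (hf : Continuous f) (hfc : HasCompactSupport f) :
    ∃ D R : ℝ, 0 ≤ D ∧ 0 < R ∧ ∀ d y : ℝ, 0 < d → ‖Bop k (gd f d) y‖ ≤
      (Icc (0:ℝ) (2 * R)).indicator (fun _ => D) d * (Iic R).indicator (fun _ => (1:ℝ)) y := by
  obtain ⟨R, hR0, hR⟩ := bdd_PL2 f hfc
  obtain ⟨M, hM⟩ := hf.bounded_above_of_compact_support hfc
  obtain ⟨P, hP0, hP⟩ := ppb_PL2 k
  have hM0 : 0 ≤ M := (norm_nonneg _).trans (hM 0)
  have hfi : Integrable f := hf.integrable_of_hasCompactSupport hfc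
  have hI0 : 0 ≤ ∫ y, ‖f y‖ := integral_nonneg fun y => norm_nonneg _
  refine ⟨M * M + P * M * ∫ y, ‖f y‖, R, by positivity, hR0, fun d y hd => ?_⟩
  by_cases h1 : d ≤ 2 * R
  · by_cases h2 : y ≤ R
    · rw [indicator_of_mem (show d ∈ Icc (0:ℝ) (2 * R) from ⟨hd.le, h1⟩),
        indicator_of_mem (show y ∈ Iic R from h2), mul_one]
      unfold Bop
      refine (norm_add_le _ _).trans ?_
      refine add_le_add ?_ ?_
      · rw [norm_mul, norm_pow, norm_neg, norm_one, one_pow, one_mul]
        unfold gd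
        rw [norm_mul, RCLike.norm_conj]
        exact mul_le_mul (hM _) (hM _) (norm_nonneg _) hM0
      · have hs : Integrable (fun u => ‖f (y + u)‖) := (hfi.comp_add_left y).norm
        have h3 : ‖∫ u in Ioi (0 : ℝ), ((pp k (Real.exp (-u)) : ℝ) : ℂ) * gd f d (y + u)‖ ≤
            ∫ u in Ioi (0 : ℝ), P * M * ‖f (y + u)‖ := by
          refine norm_integral_le_of_norm_le (hs.integrableOn.const_mul _) ?_
          refine (ae_restrict_iff' measurableSet_Ioi).mpr (Eventually.of_forall fun u hu => ?_)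
          rw [norm_mul, Complex.norm_real, Real.norm_eq_abs]
          unfold gd
          rw [norm_mul, RCLike.norm_conj, mul_assoc P, mul_comm M]
          exact mul_le_mul (hP u (le_of_lt hu)) (mul_le_mul_of_nonneg_left (hM _) (norm_nonneg _))
            (by positivity) hP0
        refine h3.trans ?_
        rw [integral_const_mul]
        refine mul_le_mul_of_nonneg_left ?_ (by positivity)
        have h4 : ∫ u in Ioi (0 : ℝ), ‖f (y + u)‖ ≤ ∫ u, ‖f (y + u)‖ :=
          setIntegral_le_integral hs (Eventually.of_forall fun u => norm_nonneg _)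
        refine h4.trans (le_of_eq ?_)
        exact integral_add_left_eq_self (fun u => ‖f u‖) y
    · rw [not_le] at h2
      have h0 : ∀ u, 0 ≤ u → gd f d (y + u) = 0 := by
        intro u hu
        unfold gd
        rw [hR (y + u) (lt_of_lt_of_le (by linarith) (le_abs_self _)), zero_mul]
      have h5 : Bop k (gd f d) y = 0 := by
        unfold Bop
        have h6 := h0 0 le_rfl
        rw [add_zero] at h6
        rw [h6, mul_zero, zero_add]
        rw [setIntegral_congr_fun measurableSet_Ioi (g := fun _ => (0:ℂ))]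
        · simp
        · intro u hu
          beta_reduce
          rw [h0 u (le_of_lt hu), mul_zero]
      rw [h5, norm_zero]
      refine mul_nonneg (indicator_nonneg (fun _ _ => by positivity) _)
        (indicator_nonneg (fun _ _ => by positivity) _)
  · rw [not_le] at h1
    have h0 : ∀ x, gd f d x = 0 := by
      intro x
      unfold gd
      by_cases hx : R < |x|
      · rw [hR x hx, zero_mul]
      · have h7 : R < |x + d| := by
          rw [not_lt, abs_le] at hx
          exact lt_of_lt_of_le (by linarith [hx.1]) (le_abs_self _)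
        rw [hR _ h7, map_zero, mul_zero]
    have h5 : Bop k (gd f d) y = 0 := by
      unfold Bop
      simp [h0]
    rw [h5, norm_zero]
    refine mul_nonneg (indicator_nonneg (fun _ _ => by positivity) _)
      (indicator_nonneg (fun _ _ => by positivity) _)

private lemma prod_int_PL2 (k : ℕ) (c : ℝ → ℝ) (hc : Continuous c) (f : ℝ → ℂ) (hf : Continuous f)
    (hfc : HasCompactSupport f) :
    Integrable (fun w : ℝ × ℝ => (Real.exp w.2 : ℂ) *
      (((c (Real.exp (-w.1)) : ℝ) : ℂ) * Bop k (gd f w.1) w.2))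
      ((volume.restrict (Ioi (0:ℝ))).prod volume) := by
  obtain ⟨D, R, hD, hR, hb⟩ := bopb_PL2 k f hf hfc
  obtain ⟨C, hC⟩ := isCompact_Icc.exists_bound_of_continuousOn (s := Icc (0:ℝ) 1) (f := c)
    hc.continuousOn
  have hC0 : 0 ≤ C := (norm_nonneg _).trans (hC 0 ⟨le_rfl, zero_le_one⟩)
  have h1 : Integrable (fun d => C * (Icc (0:ℝ) (2 * R)).indicator (fun _ => D) d)
      (volume.restrict (Ioi (0:ℝ))) := by
    refine (Integrable.const_mul ?_ C)
    refine Integrable.integrableOn ?_
    rw [integrable_indicator_iff measurableSet_Icc]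
    exact integrableOn_const (by rw [Real.volume_Icc]; exact ENNReal.ofReal_ne_top)
  have h2 : Integrable (fun y => Real.exp y * (Iic R).indicator (fun _ => (1:ℝ)) y) := by
    have e : (fun y => Real.exp y * (Iic R).indicator (fun _ => (1:ℝ)) y) =
        (Iic R).indicator Real.exp := by
      ext y
      by_cases hy : y ∈ Iic R
      · rw [indicator_of_mem hy, indicator_of_mem hy, mul_one]
      · rw [indicator_of_notMem hy, indicator_of_notMem hy, mul_zero]
    rw [e, integrable_indicator_iff measurableSet_Iic]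
    exact integrableOn_exp_Iic R
  have h0 := gd_cont f hf
  have hm : StronglyMeasurable (fun w : ℝ × ℝ => (Real.exp w.2 : ℂ) *
      (((c (Real.exp (-w.1)) : ℝ) : ℂ) * Bop k (gd f w.1) w.2)) := by
    have hp := pp_cont_PL2 k
    have hm1 : StronglyMeasurable (fun w : ℝ × ℝ => Bop k (gd f w.1) w.2) := by
      unfold Bop
      apply StronglyMeasurable.add
      · apply Continuous.stronglyMeasurable
        have h1 : Continuous fun q : ℝ × ℝ => gd f q.1 q.2 := h0
        fun_prop
      · have h2 : StronglyMeasurable (fun w : (ℝ × ℝ) × ℝ =>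
            ((pp k (Real.exp (-w.2)) : ℝ) : ℂ) * gd f w.1.1 (w.1.2 + w.2)) := by
          apply Continuous.stronglyMeasurable
          have h3 : Continuous fun w : (ℝ × ℝ) × ℝ => gd f w.1.1 (w.1.2 + w.2) :=
            h0.comp (by fun_prop : Continuous fun w : (ℝ × ℝ) × ℝ => (w.1.1, w.1.2 + w.2))
          fun_prop
        exact h2.integral_prod_right
    apply StronglyMeasurable.mul
    · apply Continuous.stronglyMeasurable
      fun_prop
    · apply StronglyMeasurable.mul
      · apply Continuous.stronglyMeasurable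
        fun_prop
      · exact hm1
  refine Integrable.mono' (h1.mul_prod h2) hm.aestronglyMeasurable ?_
  have hpos : ∀ᵐ w ∂((volume.restrict (Ioi (0:ℝ))).prod (volume : Measure ℝ)), (0:ℝ) < w.1 := by
    have h5 : ∀ᵐ d ∂(volume.restrict (Ioi (0:ℝ))), (0:ℝ) < d :=
      (ae_restrict_iff' measurableSet_Ioi).mpr (Eventually.of_forall fun d hd => hd)
    exact Measure.quasiMeasurePreserving_fst.ae h5
  filter_upwards [hpos] with w hw
  rw [norm_mul, norm_mul, Complex.norm_real, Complex.norm_real, Real.norm_eq_abs,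
    abs_of_pos (Real.exp_pos _)]
  have h3 := hC (Real.exp (-w.1)) ⟨(Real.exp_pos _).le, Real.exp_le_one_iff.mpr (by linarith)⟩
  have h4 := hb w.1 w.2 hw
  calc Real.exp w.2 * (‖c (Real.exp (-w.1))‖ * ‖Bop k (gd f w.1) w.2‖)
      ≤ Real.exp w.2 * (C * ((Icc (0:ℝ) (2 * R)).indicator (fun _ => D) w.1 *
          (Iic R).indicator (fun _ => (1:ℝ)) w.2)) := by
        refine mul_le_mul_of_nonneg_left ?_ (Real.exp_pos _).le
        exact mul_le_mul h3 h4 (norm_nonneg _) hC0
    _ = _ := by ring

private lemma shift_PL2 (φ : ℝ → ℂ) (v : ℝ) :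
    ∫ d in Ioi (0:ℝ), φ (v + d) = ∫ u in Ioi v, φ u := by
  have h := (measurePreserving_add_left volume v).setIntegral_preimage_emb
    (measurableEmbedding_addLeft v) φ (Ioi v)
  rw [← h]
  simp

private lemma posi_PL2 (m : ℝ) (hm : 0 ≤ m) (φ : ℝ → ℂ) (hφ : Continuous φ) (hc : HasCompactSupport φ) :
    0 ≤ ∫ y, Real.exp (m * y) * (φ y * (starRingEnd ℂ) (∫ d in Ioi (0:ℝ), φ (y + d))).re := by
  have hint : Integrable φ := hφ.integrable_of_hasCompactSupport hc
  obtain ⟨R, hR0, hR⟩ := bdd_PL2 φ hc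
  set A := ∫ u in Ioi (0:ℝ), φ u with hA
  set Φ : ℝ → ℂ := fun v => A - ∫ u in (0:ℝ)..v, φ u with hΦ
  have h1 : ∀ v, ∫ d in Ioi (0:ℝ), φ (v + d) = Φ v := by
    intro v
    rw [shift_PL2]
    have h2 := intervalIntegral.integral_interval_add_Ioi (hint.integrableOn (s := Ioi (0:ℝ)))
      (hint.integrableOn (s := Ioi v))
    simp only [hΦ]
    rw [hA, ← h2]
    ring
  have hd : ∀ v, HasDerivAt Φ (-φ v) v := by
    intro v
    have h3 := intervalIntegral.integral_hasDerivAt_right (hint.intervalIntegrable (a := 0) (b := v))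
      (hφ.stronglyMeasurableAtFilter _ _) hφ.continuousAt
    exact h3.const_sub A
  have hΦ0 : ∀ v, R < v → Φ v = 0 := by
    intro v hv
    rw [← h1 v]
    have : ∀ d ∈ Ioi (0:ℝ), φ (v + d) = 0 := by
      intro d hd
      apply hR
      rw [abs_of_pos (by linarith [mem_Ioi.mp hd])]
      linarith [mem_Ioi.mp hd]
    rw [setIntegral_congr_fun measurableSet_Ioi this]
    simp
  have hΦc : Continuous Φ := continuous_iff_continuousAt.mpr fun v => (hd v).continuousAt
  have hN : ∀ v, HasDerivAt (fun x => Real.exp (m * x) * ‖Φ x‖ ^ 2)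
      (Real.exp (m * v) * m * ‖Φ v‖ ^ 2 + Real.exp (m * v) * (2 * inner ℝ (Φ v) (-φ v))) v := by
    intro v
    have h4 : HasDerivAt (fun x : ℝ => Real.exp (m * x)) (Real.exp (m * v) * m) v := by
      have h5 := ((hasDerivAt_id v).const_mul m).exp
      simpa using h5
    exact h4.mul (hd v).norm_sq
  have hcont : Continuous fun v => Real.exp (m * v) * m * ‖Φ v‖ ^ 2 +
      Real.exp (m * v) * (2 * inner ℝ (Φ v) (-φ v)) := by
    fun_prop
  have key := intervalIntegral.integral_eq_sub_of_hasDerivAt (a := -(R + 1)) (b := R + 1)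
    (fun x _ => hN x) (hcont.intervalIntegrable _ _)
  rw [hΦ0 (R + 1) (by linarith), norm_zero] at key
  have hc1 : Continuous fun v => Real.exp (m * v) * m * ‖Φ v‖ ^ 2 := by fun_prop
  have hc2 : Continuous fun v => Real.exp (m * v) * (2 * inner ℝ (Φ v) (-φ v)) := by fun_prop
  rw [intervalIntegral.integral_add (hc1.intervalIntegrable _ _) (hc2.intervalIntegrable _ _)] at key
  have hp1 : 0 ≤ ∫ v in (-(R + 1))..(R + 1), Real.exp (m * v) * m * ‖Φ v‖ ^ 2 := by
    apply intervalIntegral.integral_nonneg (by linarith)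
    intro v _
    positivity
  have hp2 : 0 ≤ Real.exp (m * (-(R + 1))) * ‖Φ (-(R + 1))‖ ^ 2 := by positivity
  have e2 : ∀ v, Real.exp (m * v) * (2 * inner ℝ (Φ v) (-φ v)) =
      -2 * (Real.exp (m * v) * (φ v * (starRingEnd ℂ) (Φ v)).re) := by
    intro v
    rw [inner_neg_right, Complex.inner, mul_comm (φ v)]
    ring
  simp only [e2] at key
  rw [intervalIntegral.integral_const_mul] at key
  simp only [h1]
  have hsup : Function.support (fun v => Real.exp (m * v) * (φ v * (starRingEnd ℂ) (Φ v)).re) ⊆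
      Ioc (-(R + 1)) (R + 1) := by
    intro v hv
    have hv1 : ¬ R < |v| := by
      intro h
      apply hv
      beta_reduce
      rw [hR v h, zero_mul, Complex.zero_re, mul_zero]
    rw [not_lt, abs_le] at hv1
    exact ⟨by linarith [hv1.1], by linarith [hv1.2]⟩
  rw [← intervalIntegral.integral_eq_integral_of_support_subset hsup]
  nlinarith [key, hp1, hp2]

private lemma pos2_PL2 (n : ℕ) (f : ℝ → ℂ) (hf : Continuous f) (hfc : HasCompactSupport f) :
    0 ≤ ∫ d in Ioi (0:ℝ), ∫ y, Real.exp (-((n:ℝ) * d)) * (Real.exp y * (gd f d y).re) := by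
  obtain ⟨R, hR0, hR⟩ := bdd_PL2 f hfc
  have hg := gd_cont f hf
  set G : ℝ × ℝ → ℝ := fun w => Real.exp (-((n:ℝ) * w.1)) * (Real.exp w.2 * (gd f w.1 w.2).re) with hG
  have hGc : Continuous G := by
    rw [hG]
    have h2 : Continuous fun w : ℝ × ℝ => (gd f w.1 w.2).re := Complex.continuous_re.comp hg
    fun_prop
  have hGs : HasCompactSupport G := by
    apply HasCompactSupport.intro (K := Icc (-(2 * R)) (2 * R) ×ˢ Icc (-R) R)
      (isCompact_Icc.prod isCompact_Icc)
    intro w hw
    rw [hG]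
    beta_reduce
    by_cases h1 : R < |w.2|
    · unfold gd
      rw [hR _ h1]
      simp
    by_cases h2 : R < |w.2 + w.1|
    · unfold gd
      rw [hR _ h2]
      simp
    · exfalso
      apply hw
      rw [not_lt, abs_le] at h1 h2
      refine ⟨⟨by linarith [h1.2, h2.1], by linarith [h1.1, h2.2]⟩, ⟨h1.1, h1.2⟩⟩
  have hGi : Integrable G (volume.prod volume) := hGc.integrable_of_hasCompactSupport hGs
  have hGr : Integrable G ((volume.restrict (Ioi (0:ℝ))).prod volume) := by
    have h := hGi.integrableOn (s := Ioi (0:ℝ) ×ˢ (univ : Set ℝ))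
    unfold IntegrableOn at h
    rw [← Measure.prod_restrict, Measure.restrict_univ] at h
    exact h
  have hswap : ∫ d in Ioi (0:ℝ), ∫ y, G (d, y) = ∫ y, ∫ d in Ioi (0:ℝ), G (d, y) :=
    (integral_prod _ hGr).symm.trans (integral_prod_symm _ hGr)
  have hshow : ∫ d in Ioi (0:ℝ), ∫ y, Real.exp (-((n:ℝ) * d)) * (Real.exp y * (gd f d y).re) =
      ∫ d in Ioi (0:ℝ), ∫ y, G (d, y) := rfl
  rw [hshow, hswap]
  set φ : ℝ → ℂ := fun x => (Real.exp (-((n:ℝ) * x)) : ℂ) * f x with hφ
  have hφ1 : Continuous φ := by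
    rw [hφ]
    fun_prop
  have hφ2 : HasCompactSupport φ := by
    rw [hφ]
    exact hfc.mul_left
  have hφi : Integrable φ := hφ1.integrable_of_hasCompactSupport hφ2
  have hpos := posi_PL2 (2 * (n:ℝ) + 1) (by positivity) φ hφ1 hφ2
  refine hpos.trans (le_of_eq ?_)
  refine integral_congr_ae (Eventually.of_forall fun y => ?_)
  beta_reduce
  have hi : IntegrableOn (fun d => φ y * (starRingEnd ℂ) (φ (y + d))) (Ioi (0:ℝ)) := by
    apply Integrable.integrableOn
    apply Integrable.const_mul
    exact (Complex.conjCLE.toContinuousLinearMap.integrable_comp (hφi.comp_add_left y))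
  have e1 : (φ y * (starRingEnd ℂ) (∫ d in Ioi (0:ℝ), φ (y + d))).re =
      ∫ d in Ioi (0:ℝ), (φ y * (starRingEnd ℂ) (φ (y + d))).re := by
    rw [← integral_conj, ← integral_const_mul]
    exact (Complex.reCLM.integral_comp_comm hi).symm
  rw [e1, ← integral_const_mul]
  refine setIntegral_congr_fun measurableSet_Ioi fun d _ => ?_
  simp only [hG, hφ, gd]
  have e2 : (Real.exp (-((n:ℝ) * y)) : ℂ) * f y *
      (starRingEnd ℂ) ((Real.exp (-((n:ℝ) * (y + d))) : ℂ) * f (y + d)) =
      ((Real.exp (-((n:ℝ) * y)) * Real.exp (-((n:ℝ) * (y + d))) : ℝ) : ℂ) *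
        (f y * (starRingEnd ℂ) (f (y + d))) := by
    rw [map_mul, Complex.conj_ofReal]
    push_cast
    ring
  rw [e2, Complex.re_ofReal_mul, ← mul_assoc, ← Real.exp_add, ← Real.exp_add, ← mul_assoc,
    ← Real.exp_add]
  congr 2
  ring

theorem hPL2 (h1 : StPHC) (h2 : StPHI) : StPL2 := by
  intro n f hn hf hfc
  obtain ⟨c, hc1, hc2, hc3, hc4, hc5, hc6, hc7⟩ := h1 n hn
  have hphi := h2 n c hn hc1 hc5 hc6 f hf hfc
  obtain ⟨hI1, hI2⟩ := (hIS2 hKR).1 n f hf hfc
  have hF : Integrable (fun w : ℝ × ℝ => (Real.exp w.2 : ℂ) * PP n c w.1 (gd f w.1) w.2)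
      ((volume.restrict (Ioi (0:ℝ))).prod volume) := by
    have h3 : (fun w : ℝ × ℝ => (Real.exp w.2 : ℂ) * PP n c w.1 (gd f w.1) w.2) =
        fun w => ∑ k ∈ Finset.range (2 * n + 1), (Real.exp w.2 : ℂ) *
          (((c k (Real.exp (-w.1)) : ℝ) : ℂ) * Bop k (gd f w.1) w.2) := by
      ext w
      unfold PP
      rw [Finset.mul_sum]
    rw [h3]
    exact integrable_finsetSum _ fun k _ => prod_int_PL2 k (c k) (hc1 k) f hf hfc
  set Fr : ℝ × ℝ → ℝ := fun w => Real.exp w.2 * (PP n c w.1 (gd f w.1) w.2).re with hFr0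
  have hFr : Integrable Fr ((volume.restrict (Ioi (0:ℝ))).prod volume) := by
    have h4 := Complex.reCLM.integrable_comp hF
    refine h4.congr (Eventually.of_forall fun w => ?_)
    simp only [Complex.reCLM_apply, Complex.re_ofReal_mul, hFr0]
  have hQ : ∀ y, Real.exp y * (∫ τ in Ioi (0 : ℝ), Real.exp (-τ) * ‖Ph n τ f y‖ ^ 2) =
      ‖Bop n f y‖ ^ 2 * Real.exp y - 2 * ∫ d in Ioi (0:ℝ), Fr (d, y) := by
    intro y
    rw [← (hphi y).2.2]
    unfold Qn
    simp only [hFr0]
    rw [integral_const_mul]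
    ring
  have hint2 : Integrable (fun y => ∫ d in Ioi (0:ℝ), Fr (d, y)) := hFr.integral_prod_right
  have hswap : ∫ y, ∫ d in Ioi (0:ℝ), Fr (d, y) = ∫ d in Ioi (0:ℝ), ∫ y, Fr (d, y) :=
    (integral_prod_symm _ hFr).symm.trans (integral_prod _ hFr)
  have hin : ∀ d, ∫ y, Fr (d, y) =
      (n:ℝ) / 2 * ∫ y, Real.exp (-((n:ℝ) * d)) * (Real.exp y * (gd f d y).re) := by
    intro d
    have hgc : Continuous (gd f d) :=
      (gd_cont f hf).comp (by fun_prop : Continuous fun y : ℝ => (d, y))
    have hgs := gd_cpt f hfc d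
    have hk : ∀ k ∈ Finset.range (2 * n + 1), Integrable (fun y =>
        ((c k (Real.exp (-d)) : ℝ) : ℂ) * ((Real.exp y : ℂ) * Bop k (gd f d) y)) :=
      fun k _ => (bop1_PL2 k _ hgc hgs).1.const_mul _
    have e1 : ∀ y, (Real.exp y : ℂ) * PP n c d (gd f d) y = ∑ k ∈ Finset.range (2 * n + 1),
        ((c k (Real.exp (-d)) : ℝ) : ℂ) * ((Real.exp y : ℂ) * Bop k (gd f d) y) := by
      intro y
      unfold PP
      rw [Finset.mul_sum]
      refine Finset.sum_congr rfl fun k _ => ?_
      ring
    have hPi : Integrable (fun y => (Real.exp y : ℂ) * PP n c d (gd f d) y) := by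
      simp only [e1]
      exact integrable_finsetSum _ hk
    have e2 : ∫ y, (Real.exp y : ℂ) * PP n c d (gd f d) y =
        ((c 0 (Real.exp (-d)) : ℝ) : ℂ) * ∫ y, (Real.exp y : ℂ) * gd f d y := by
      simp only [e1]
      rw [integral_finsetSum _ hk, Finset.sum_eq_single 0]
      · rw [integral_const_mul, (bop1_PL2 0 _ hgc hgs).2, if_pos rfl]
      · intro k _ hk0
        rw [integral_const_mul, (bop1_PL2 k _ hgc hgs).2, if_neg hk0, mul_zero]
      · intro h
        exact absurd (Finset.mem_range.mpr (by omega)) h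
    have hgi : Integrable (fun y => (Real.exp y : ℂ) * gd f d y) := by
      apply Continuous.integrable_of_hasCompactSupport
      · fun_prop
      · exact hgs.mul_left
    have e3 := Complex.reCLM.integral_comp_comm hPi
    have e4 := Complex.reCLM.integral_comp_comm hgi
    simp only [Complex.reCLM_apply, Complex.re_ofReal_mul] at e3 e4
    simp only [hFr0]
    rw [e3, e2, Complex.re_ofReal_mul, ← e4, integral_const_mul, hc3, ← Real.exp_nat_mul]
    rw [mul_assoc]
    congr 3
    ring
  have hpos := pos2_PL2 n f hf hfc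
  have hhalf : 0 ≤ ∫ d in Ioi (0:ℝ), ∫ y, Fr (d, y) := by
    rw [integral_congr_ae (Eventually.of_forall fun d => hin d), integral_const_mul]
    exact mul_nonneg (by positivity) hpos
  refine ⟨?_, ?_⟩
  · refine (hI1.sub (hint2.const_mul 2)).congr (Eventually.of_forall fun y => ?_)
    exact (hQ y).symm
  · rw [integral_congr_ae (Eventually.of_forall fun y => hQ y), integral_sub hI1 (hint2.const_mul 2),
      integral_const_mul, hswap, hI2]
    have e5 : ∫ y, Real.exp y * ‖f y‖ ^ 2 = ∫ y, ‖f y‖ ^ 2 * Real.exp y := by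
      congr 1
      ext y
      ring
    rw [e5]
    linarith

end Helper69.CS
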