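import Pool.Agent.Helper69.CS.St
import Pool.Agent.Helper69.CR.M_PF
import Pool.Agent.Helper69.CR.M_SC

/-!
# MP_3dd6d4_an, project CS, module PN: the PHI node
-/

set_option autoImplicit false

open MeasureTheory Set Filter Topology
open scoped ENNReal NNReal

noncomputable section

namespace Helper69.CS

open Helper85.BP Helper69.CR Helper69.CR.DB

private lemma cbd_PN (n : ℕ) (c : ℕ → ℝ → ℝ) (hc : ∀ k, Continuous (c k)) :
    ∃ M : ℝ, 0 ≤ M ∧ ∀ k ∈ Finset.range (2 * n + 1), ∀ x, 0 ≤ x → x ≤ 1 → |c k x| ≤ M := by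
  have h1 : ∀ k, ∃ M : ℝ, ∀ x ∈ Icc (0 : ℝ) 1, ‖c k x‖ ≤ M := fun k =>
    isCompact_Icc.exists_bound_of_continuousOn (hc k).continuousOn
  choose M hM using h1
  refine ⟨∑ k ∈ Finset.range (2 * n + 1), |M k|, Finset.sum_nonneg fun k _ => abs_nonneg _, ?_⟩
  intro k hk x hx0 hx1
  have h2 : |c k x| ≤ |M k| := (hM k x ⟨hx0, hx1⟩).trans (le_abs_self _)
  exact h2.trans (Finset.single_le_sum (f := fun k => |M k|) (fun _ _ => abs_nonneg _) hk)

private lemma mmc_PN (n : ℕ) : Continuous fun t : ℝ => mm n (1 / 8 - Complex.I * (t : ℂ) / 8) := by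
  unfold mm
  refine continuous_finsetProd _ fun k _ => ?_
  refine Continuous.div (by fun_prop) (by fun_prop) fun t h => ?_
  have h1 := congrArg Complex.re h
  simp at h1
  have h2 : (0 : ℝ) ≤ k := Nat.cast_nonneg k
  linarith

private lemma mmb_PN (n : ℕ) : ∃ B : ℝ, ∀ t : ℝ, ‖mm n (1 / 8 - Complex.I * (t : ℂ) / 8)‖ ≤ B := by
  refine ⟨1 + ∑ i ∈ Finset.range n, |pc n i| * 8, fun t => ?_⟩
  have hre : ∀ i : ℕ, (1 / 8 - Complex.I * (t : ℂ) / 8 + (i : ℂ)).re = 1 / 8 + i := by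
    intro i
    simp
  have h0 : (0 : ℝ) < (1 / 8 - Complex.I * (t : ℂ) / 8).re := by
    have := hre 0
    simp only [Nat.cast_zero, add_zero] at this
    rw [this]
    norm_num
  rw [hPF.1 n _ h0]
  refine (norm_add_le _ _).trans (add_le_add (by simp) ?_)
  refine (norm_sum_le _ _).trans (Finset.sum_le_sum fun i _ => ?_)
  rw [norm_div, Complex.norm_real, Real.norm_eq_abs]
  have h1 : (1 / 8 : ℝ) ≤ ‖1 / 8 - Complex.I * (t : ℂ) / 8 + (i : ℂ)‖ := by
    refine le_trans ?_ (Complex.re_le_norm _)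
    rw [hre i]
    have : (0 : ℝ) ≤ i := Nat.cast_nonneg i
    linarith
  rw [div_le_iff₀ (by linarith)]
  have h2 : |pc n i| = |pc n i| * 8 * (1 / 8) := by ring
  calc |pc n i| = |pc n i| * 8 * (1 / 8) := h2
    _ ≤ |pc n i| * 8 * ‖1 / 8 - Complex.I * (t : ℂ) / 8 + (i : ℂ)‖ :=
      mul_le_mul_of_nonneg_left h1 (by positivity)

private lemma fub_PN (W : ℝ → ℝ) (hW : Adm 1 W) (H : ℝ → ℝ) (hH : Continuous H) (B : ℝ)
    (hB : ∀ d, 0 < d → |H d| ≤ B) :
    ∫ d in Ioi (0 : ℝ), Real.exp (-d / 8) * Wh 1 W (d / 8) * H d =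
        ∫ t, W t * ∫ d in Ioi (0 : ℝ), Real.exp (-d / 8) * Real.cos (t * d / 8) * H d ∧
      Integrable (fun t => W t * ∫ d in Ioi (0 : ℝ), Real.exp (-d / 8) * Real.cos (t * d / 8) * H d) := by
  have hWi := W_int_SC W hW
  have hE : IntegrableOn (fun d : ℝ => B * Real.exp (-(1 / 8) * d)) (Ioi 0) :=
    (exp_neg_integrableOn_Ioi 0 (by norm_num : (0 : ℝ) < 1 / 8)).const_mul B
  have hprod : Integrable (fun p : ℝ × ℝ => (B * Real.exp (-(1 / 8) * p.1)) * W p.2)
      ((volume.restrict (Ioi (0 : ℝ))).prod volume) := hE.mul_prod hWi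
  have hF : Integrable (fun p : ℝ × ℝ => (Real.exp (-p.1 / 8) * H p.1) *
      (W p.2 * Real.cos (p.2 * p.1 / 8))) ((volume.restrict (Ioi (0 : ℝ))).prod volume) := by
    refine Integrable.mono' hprod.norm ?_ ?_
    · have hc : Continuous (fun p : ℝ × ℝ => (Real.exp (-p.1 / 8) * H p.1) *
          (W p.2 * Real.cos (p.2 * p.1 / 8))) := by
        have := hW.cont
        fun_prop
      exact hc.aestronglyMeasurable
    · have h0 : ∀ᵐ p : ℝ × ℝ ∂((volume.restrict (Ioi (0 : ℝ))).prod volume), 0 < p.1 := by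
        have h1 : ∀ᵐ d : ℝ ∂(volume.restrict (Ioi (0 : ℝ))), 0 < d :=
          ae_restrict_of_forall_mem measurableSet_Ioi fun d hd => hd
        exact Measure.quasiMeasurePreserving_fst.ae h1
      filter_upwards [h0] with p hp
      have h1 : Real.exp (-p.1 / 8) = Real.exp (-(1 / 8) * p.1) := by
        ring_nf
      rw [h1, norm_mul, norm_mul, norm_mul, norm_mul, norm_mul]
      have h2 : ‖H p.1‖ ≤ ‖B‖ := (hB p.1 hp).trans (le_abs_self _)
      have h3 : ‖W p.2‖ * ‖Real.cos (p.2 * p.1 / 8)‖ ≤ ‖W p.2‖ := by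
        calc ‖W p.2‖ * ‖Real.cos (p.2 * p.1 / 8)‖ ≤ ‖W p.2‖ * 1 :=
              mul_le_mul_of_nonneg_left (Real.abs_cos_le_one _) (norm_nonneg _)
          _ = ‖W p.2‖ := mul_one _
      calc ‖Real.exp (-(1 / 8) * p.1)‖ * ‖H p.1‖ * (‖W p.2‖ * ‖Real.cos (p.2 * p.1 / 8)‖) ≤
          ‖Real.exp (-(1 / 8) * p.1)‖ * ‖B‖ * ‖W p.2‖ :=
            mul_le_mul (mul_le_mul_of_nonneg_left h2 (norm_nonneg _)) h3 (by positivity)
              (by positivity)
        _ = ‖B‖ * ‖Real.exp (-(1 / 8) * p.1)‖ * ‖W p.2‖ := by ring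
  have hWh : ∀ d : ℝ, Real.exp (-d / 8) * Wh 1 W (d / 8) * H d =
      ∫ t, (Real.exp (-d / 8) * H d) * (W t * Real.cos (t * d / 8)) := by
    intro d
    rw [integral_const_mul]
    unfold Wh
    have : ∀ τ : ℝ, W τ * Real.cos (1 * τ * (d / 8)) = W τ * Real.cos (τ * d / 8) := by
      intro τ; rw [show 1 * τ * (d / 8) = τ * d / 8 by ring]
    simp only [this]
    ring
  have hswap := integral_integral_swap (f := fun (d t : ℝ) => (Real.exp (-d / 8) * H d) *
      (W t * Real.cos (t * d / 8))) (μ := volume.restrict (Ioi (0 : ℝ))) (ν := volume) hF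
  have hinner : ∀ t : ℝ, ∫ d in Ioi (0 : ℝ), (Real.exp (-d / 8) * H d) *
      (W t * Real.cos (t * d / 8)) =
        W t * ∫ d in Ioi (0 : ℝ), Real.exp (-d / 8) * Real.cos (t * d / 8) * H d := by
    intro t
    rw [← integral_const_mul]
    refine integral_congr_ae (Eventually.of_forall fun d => ?_)
    simp only []
    ring
  refine ⟨?_, ?_⟩
  · simp only [hWh]
    rw [hswap]
    exact integral_congr_ae (Eventually.of_forall hinner)
  · have := hF.integral_prod_right
    exact this.congr (Eventually.of_forall hinner)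

theorem hPN (h1 : StPHC) (h2 : StPHI) (h3 : StPQ) (h4 : StPS) : StPN := by
  intro n hn
  obtain ⟨c, hcc, hc0, hcz, hck, hexp, halt, -⟩ := h1 n hn
  obtain ⟨M, hM0, hM⟩ := cbd_PN n c hcc
  have hK : 0 ≤ K2 n := by
    unfold K2
    refine integral_nonneg fun τ => ?_
    simp only [Pi.zero_apply]
    positivity
  refine ⟨c, ⟨le_refl 0, fun k x h0 h1 => hc0 k x h0.le h1.le, fun k => (hcc k).measurable, ?_,
    fun p _ => Real.rpow_nonneg hK _, ?_, ?_, ?_⟩⟩
  · refine ⟨M, fun k x h0 h1 => ?_⟩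
    by_cases hk : k ∈ Finset.range (2 * n + 1)
    · exact (le_abs_self _).trans (hM k hk x h0.le h1.le)
    · rw [hck k x (by rw [Finset.mem_range] at hk; omega)]
      exact hM0
  · intro p f hp hf hfc
    have h5 : Qn n c f = fun y => ∫ τ in Ioi (0 : ℝ), Real.exp (-τ) * ‖Ph n τ f y‖ ^ 2 := by
      funext y
      exact (h2 n c hn hcc hexp halt f hf hfc y).2.2
    rw [h5]
    exact h3 n p f hn hp.le hf hfc
  · intro a ha0 ha1
    have h5 := h4 n c hn hcc hexp halt a 0 ha0 ha1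
    have h6 : ((a : ℂ) - Complex.I * ((0 : ℝ) : ℂ) * a) = (a : ℂ) := by
      push_cast
      ring
    rw [h6, hPF.2.2.2 n a, Complex.norm_real, Real.norm_eq_abs, sq_abs] at h5
    have h7 : ∀ d : ℝ, Real.exp (-(a * d)) * Real.cos (a * 0 * d) * kP n c (2 * a) d =
        Real.exp (-(a * d)) * kP n c (2 * a) d := by
      intro d
      rw [mul_zero, zero_mul, Real.cos_zero, mul_one]
    simp only [h7] at h5
    linarith
  · intro W hW
    have hH : Continuous fun d => kP n c (1 / 4) d := by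
      unfold kP
      refine continuous_finsetSum _ fun k _ => ?_
      have := hcc k
      fun_prop
    have hB : ∀ d, 0 < d → |kP n c (1 / 4) d| ≤
        ∑ k ∈ Finset.range (2 * n + 1), M * |Cn k (1 / 4)| := by
      intro d hd
      unfold kP
      refine (Finset.abs_sum_le_sum_abs _ _).trans (Finset.sum_le_sum fun k hk => ?_)
      rw [abs_mul]
      refine mul_le_mul_of_nonneg_right ?_ (abs_nonneg _)
      exact hM k hk _ (Real.exp_pos _).le (Real.exp_le_one_iff.2 (by linarith))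
    obtain ⟨hf1, hf2⟩ := fub_PN W hW _ hH _ hB
    rw [hf1, zero_mul, add_zero, ← integral_const_mul]
    obtain ⟨B, hBm⟩ := mmb_PN n
    have hWi := W_int_SC W hW
    refine integral_mono (hf2.const_mul 2) ?_ fun t => ?_
    · refine Integrable.mono' (hWi.norm.mul_const (B ^ 2)) ?_ (Eventually.of_forall fun t => ?_)
      · have h8 := mmc_PN n
        have h9 := hW.cont
        exact (Continuous.mul h9 (h8.norm.pow 2)).aestronglyMeasurable
      · rw [norm_mul]
        refine mul_le_mul_of_nonneg_left ?_ (norm_nonneg _)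
        rw [norm_pow, norm_norm]
        exact pow_le_pow_left₀ (norm_nonneg _) (hBm t) 2
    · have h5 := h4 n c hn hcc hexp halt (1 / 8) t (by norm_num) (by norm_num)
      have h6 : (((1 / 8 : ℝ) : ℂ) - Complex.I * (t : ℂ) * ((1 / 8 : ℝ) : ℂ)) =
          1 / 8 - Complex.I * (t : ℂ) / 8 := by
        push_cast
        ring
      rw [h6] at h5
      have h7 : ∀ d : ℝ, Real.exp (-(1 / 8 * d)) * Real.cos (1 / 8 * t * d) * kP n c (2 * (1 / 8)) d =
          Real.exp (-d / 8) * Real.cos (t * d / 8) * kP n c (1 / 4) d := by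
        intro d
        rw [show -(1 / 8 * d) = -d / 8 by ring, show 1 / 8 * t * d = t * d / 8 by ring,
          show (2 * (1 / 8) : ℝ) = 1 / 4 by norm_num]
      simp only [h7] at h5
      have h8 := mul_le_mul_of_nonneg_left h5 (hW.nonneg t)
      simp only []
      linarith

end Helper69.CS
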