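import Pool.Agent.Helper69.CS.St
import Pool.Agent.Helper62.RTV.RT

/-!
# MP_3dd6d4_an, project CS, module PQ (helper62): the square in `L^{p/2}`
-/

set_option autoImplicit false

open MeasureTheory Set Filter Topology
open scoped ENNReal NNReal

noncomputable section

namespace Helper69.CS

open Helper85.BP Helper69.CR Helper69.CR.DB Helper62.RTV

namespace PQ

/-- the measure `e^{-τ} dτ` on `(0,∞)`. -/
def rho : Measure ℝ :=
  (volume.restrict (Ioi (0 : ℝ))).withDensity (fun τ => ENNReal.ofReal (Real.exp (-τ)))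

theorem exp_int : IntegrableOn (fun τ : ℝ => Real.exp (-τ)) (Ioi 0) := by
  have := exp_neg_integrableOn_Ioi 0 (b := 1) one_pos
  refine this.congr_fun (fun x _ => ?_) measurableSet_Ioi
  simp

instance : IsFiniteMeasure rho := by
  unfold rho
  exact isFiniteMeasure_withDensity_ofReal exp_int.2

/-- the kernel -/
def kk (n : ℕ) (τ u : ℝ) : ℝ := if 0 < u ∧ u ≤ τ then pp n (Real.exp (-u)) else 0

theorem pp_cont (n : ℕ) : Continuous (pp n) := by
  unfold pp
  fun_prop

theorem pp_bdd (n : ℕ) : ∃ M : ℝ, 1 ≤ M ∧ ∀ u : ℝ, 0 ≤ u → |pp n (Real.exp (-u))| ≤ M := by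
  obtain ⟨M, hM⟩ := isCompact_Icc.exists_bound_of_continuousOn (s := Icc (0 : ℝ) 1)
    (pp_cont n).continuousOn
  refine ⟨|M| + 1, by have := abs_nonneg M; linarith, fun u hu => ?_⟩
  have h1 := hM (Real.exp (-u)) ⟨(Real.exp_pos _).le, Real.exp_le_one_iff.mpr (by linarith)⟩
  rw [Real.norm_eq_abs] at h1
  have := le_abs_self M
  linarith

theorem kk_meas (n : ℕ) : Measurable (Function.uncurry (kk n)) := by
  unfold Function.uncurry kk
  apply Measurable.ite
  · apply MeasurableSet.inter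
    · exact measurableSet_lt measurable_const measurable_snd
    · exact measurableSet_le measurable_snd measurable_fst
  · exact ((pp_cont n).measurable.comp (Real.measurable_exp.comp measurable_neg)).comp measurable_snd
  · exact measurable_const

theorem kk_bdd (n : ℕ) (M : ℝ) (hM : 1 ≤ M) (h : ∀ u : ℝ, 0 ≤ u → |pp n (Real.exp (-u))| ≤ M)
    (τ u : ℝ) : |kk n τ u| ≤ M := by
  unfold kk
  split_ifs with hc
  · exact h u hc.1.le
  · rw [abs_zero]; linarith

theorem int_rho (g : ℝ → ℝ) : ∫ τ, g τ ∂rho = ∫ τ in Ioi (0 : ℝ), Real.exp (-τ) * g τ := by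
  unfold rho
  have h1 : (fun τ : ℝ => ENNReal.ofReal (Real.exp (-τ))) =
      fun τ => ((Real.toNNReal (Real.exp (-τ)) : ℝ≥0) : ℝ≥0∞) := rfl
  rw [h1, integral_withDensity_eq_integral_smul (by fun_prop)]
  refine integral_congr_ae (Filter.Eventually.of_forall fun τ => ?_)
  simp only [NNReal.smul_def, smul_eq_mul]
  rw [Real.coe_toNNReal _ (Real.exp_pos _).le]

theorem Sv_eq (n : ℕ) (f : ℝ → ℂ) (τ y : ℝ) (hτ : 0 < τ) :
    Sv (fun _ => (-1 : ℝ) ^ n) (kk n) f τ y = Ph n τ f y := by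
  unfold Sv Ph
  congr 1
  · push_cast
    rfl
  · rw [intervalIntegral.integral_of_le hτ.le]
    have h1 : ∀ u ∈ Ioi (0 : ℝ), ((kk n τ u : ℝ) : ℂ) * f (y + u) =
        (Ioc (0 : ℝ) τ).indicator (fun u => ((pp n (Real.exp (-u)) : ℝ) : ℂ) * f (y + u)) u := by
      intro u hu
      unfold kk
      by_cases hc : u ≤ τ
      · rw [if_pos ⟨hu, hc⟩, indicator_of_mem (show u ∈ Ioc (0 : ℝ) τ from ⟨hu, hc⟩)]
      · rw [if_neg fun h => hc h.2, indicator_of_notMem fun h => hc h.2]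
        simp
    rw [setIntegral_congr_fun measurableSet_Ioi h1, setIntegral_indicator measurableSet_Ioc]
    congr 2
    ext u
    simp only [mem_inter_iff, mem_Ioi, mem_Ioc]
    tauto

theorem Vf_eq (n : ℕ) (f : ℝ → ℂ) (y : ℝ) :
    Vf rho (fun _ => (-1 : ℝ) ^ n) (kk n) f y =
      ∫ τ in Ioi (0 : ℝ), Real.exp (-τ) * ‖Ph n τ f y‖ ^ 2 := by
  unfold Vf
  rw [int_rho]
  refine setIntegral_congr_fun measurableSet_Ioi fun τ hτ => ?_
  rw [Sv_eq n f τ y hτ]

theorem K_int (n : ℕ) : IntegrableOn (fun τ => Real.exp (-τ) *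
    (1 + ∫ u in (0 : ℝ)..τ, |pp n (Real.exp (-u))|) ^ 2) (Ioi 0) := by
  obtain ⟨M, hM1, hM⟩ := pp_bdd n
  have hcont : Continuous fun τ : ℝ => ∫ u in (0 : ℝ)..τ, |pp n (Real.exp (-u))| := by
    apply intervalIntegral.continuous_primitive
    intro a b
    apply Continuous.intervalIntegrable
    exact ((pp_cont n).comp (Real.continuous_exp.comp continuous_neg)).abs
  have h2 : IntegrableOn (fun τ : ℝ => (1 + 4 * M) ^ 2 * Real.exp (-(1 / 2) * τ)) (Ioi 0) :=
    (exp_neg_integrableOn_Ioi 0 (by norm_num : (0 : ℝ) < 1 / 2)).const_mul _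
  refine h2.mono' (by fun_prop) ?_
  filter_upwards [ae_restrict_mem measurableSet_Ioi] with τ hτ
  have hτ0 : 0 < τ := hτ
  have h3 : ‖∫ u in (0 : ℝ)..τ, |pp n (Real.exp (-u))|‖ ≤ M * |τ - 0| := by
    apply intervalIntegral.norm_integral_le_of_norm_le_const
    intro u hu
    rw [Set.uIoc_of_le hτ0.le] at hu
    rw [Real.norm_eq_abs, abs_abs]
    exact hM u hu.1.le
  rw [sub_zero, abs_of_pos hτ0] at h3
  have h4 : 0 ≤ ∫ u in (0 : ℝ)..τ, |pp n (Real.exp (-u))| :=
    intervalIntegral.integral_nonneg hτ0.le fun u _ => abs_nonneg _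
  rw [Real.norm_eq_abs, abs_of_nonneg h4] at h3
  rw [Real.norm_eq_abs, abs_of_nonneg (by positivity)]
  have h5 : τ ≤ 4 * Real.exp (τ / 4) := by
    have := Real.add_one_le_exp (τ / 4)
    linarith
  have h6 : 1 ≤ Real.exp (τ / 4) := Real.one_le_exp (by positivity)
  have h7 : 1 + ∫ u in (0 : ℝ)..τ, |pp n (Real.exp (-u))| ≤ (1 + 4 * M) * Real.exp (τ / 4) := by
    nlinarith
  have h8 : (1 + ∫ u in (0 : ℝ)..τ, |pp n (Real.exp (-u))|) ^ 2 ≤
      ((1 + 4 * M) * Real.exp (τ / 4)) ^ 2 := pow_le_pow_left₀ (by positivity) h7 2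
  calc Real.exp (-τ) * (1 + ∫ u in (0 : ℝ)..τ, |pp n (Real.exp (-u))|) ^ 2
      ≤ Real.exp (-τ) * ((1 + 4 * M) * Real.exp (τ / 4)) ^ 2 := by gcongr
    _ = (1 + 4 * M) ^ 2 * Real.exp (-(1 / 2) * τ) := by
        rw [mul_pow, ← Real.exp_nat_mul, ← mul_assoc, mul_comm (Real.exp (-τ)), mul_assoc,
          ← Real.exp_add]
        congr 2
        push_cast
        ring

theorem K2_nonneg (n : ℕ) : 0 ≤ K2 n := by
  unfold K2
  exact integral_nonneg fun τ => by positivity

theorem Vf_le (n : ℕ) (f : ℝ → ℂ) (hf : Continuous f) (hf1 : ∀ y, ‖f y‖ ≤ 1) (y : ℝ) :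
    Vf rho (fun _ => (-1 : ℝ) ^ n) (kk n) f y ≤ K2 n := by
  rw [Vf_eq]
  unfold K2
  refine integral_mono_of_nonneg (Filter.Eventually.of_forall fun τ => by positivity) (K_int n) ?_
  filter_upwards [ae_restrict_mem measurableSet_Ioi] with τ hτ
  have hτ0 : 0 < τ := hτ
  have h1 : ‖Ph n τ f y‖ ≤ 1 + ∫ u in (0 : ℝ)..τ, |pp n (Real.exp (-u))| := by
    unfold Ph
    refine (norm_add_le _ _).trans (add_le_add ?_ ?_)
    · rw [norm_mul, norm_pow, norm_neg, norm_one, one_pow, one_mul]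
      exact hf1 y
    · refine (intervalIntegral.norm_integral_le_integral_norm hτ0.le).trans ?_
      apply intervalIntegral.integral_mono_on hτ0.le
      · apply Continuous.intervalIntegrable
        have := (pp_cont n)
        fun_prop
      · apply Continuous.intervalIntegrable
        exact ((pp_cont n).comp (Real.continuous_exp.comp continuous_neg)).abs
      · intro u _
        rw [norm_mul, Complex.norm_real, Real.norm_eq_abs]
        have := hf1 (y + u)
        have h0 := abs_nonneg (pp n (Real.exp (-u)))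
        nlinarith
  have h2 : ‖Ph n τ f y‖ ^ 2 ≤ (1 + ∫ u in (0 : ℝ)..τ, |pp n (Real.exp (-u))|) ^ 2 :=
    pow_le_pow_left₀ (norm_nonneg _) h1 2
  gcongr

end PQ

open PQ in
/-- MODULE PQ -/
theorem hPQ (hPL2 : StPL2) : StPQ := by
  intro n p f hn hp hf hfc
  obtain ⟨M, hM1, hM⟩ := pp_bdd n
  have hp0 : 0 < p := by linarith
  have key := rt_vec rho (fun _ => (-1 : ℝ) ^ n) (kk n) M (by linarith) measurable_const
    (kk_meas n) (fun _ => by rw [abs_pow, abs_neg, abs_one, one_pow]; exact hM1)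
    (kk_bdd n M hM1 hM) 1 (K2 n) one_pos.le (K2_nonneg n) (fun g hg hgc => by
      have e : (fun y => Real.exp y * Vf rho (fun _ => (-1 : ℝ) ^ n) (kk n) g y) = fun y =>
          Real.exp y * ∫ τ in Ioi (0 : ℝ), Real.exp (-τ) * ‖Ph n τ g y‖ ^ 2 := by
        funext y
        rw [Vf_eq]
      rw [e, one_mul]
      exact hPL2 n g hn hg hgc) (fun g hg _ hg1 y => Vf_le n g hg hg1 y) p (by linarith) f hf hfc
  simp_rw [Vf_eq] at key
  set V : ℝ → ℝ := fun y => ∫ τ in Ioi (0 : ℝ), Real.exp (-τ) * ‖Ph n τ f y‖ ^ 2 with hV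
  have hV0 : ∀ y, 0 ≤ V y := fun y => by
    rw [hV]
    exact integral_nonneg fun τ => by positivity
  have hp2 : 0 < p / 2 := by linarith
  have hL : ∫⁻ y, ‖V y‖ₑ ^ (p / 2) ∂mu = ∫⁻ y, ENNReal.ofReal (Real.exp y * V y ^ (p / 2)) := by
    rw [lint_mu]
    refine lintegral_congr fun y => ?_
    rw [ENNReal.ofReal_mul (Real.exp_pos _).le, ← ofReal_norm, Real.norm_eq_abs,
      abs_of_nonneg (hV0 y), ENNReal.ofReal_rpow_of_nonneg (hV0 y) hp2.le]
  have hNint : Integrable fun x => Real.exp x * ‖f x‖ ^ p := by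
    have hc : Continuous fun x => Real.exp x * ‖f x‖ ^ p :=
      Real.continuous_exp.mul (hf.norm.rpow_const fun _ => Or.inr hp0.le)
    refine hc.integrable_of_hasCompactSupport ?_
    have h3 : HasCompactSupport fun x => ‖f x‖ ^ p := by
      refine hfc.comp_left (g := fun c : ℂ => ‖c‖ ^ p) ?_
      simp [Real.zero_rpow hp0.ne']
    exact h3.mul_left
  have hR : ENNReal.ofReal (∫ x, Real.exp x * ‖f x‖ ^ p) = ∫⁻ y, ‖f y‖ₑ ^ p ∂mu := by
    rw [ofReal_integral_eq_lintegral_ofReal hNint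
      (Filter.Eventually.of_forall fun x => by simp only [Pi.zero_apply]; positivity), lint_mu]
    refine lintegral_congr fun y => ?_
    rw [ENNReal.ofReal_mul (Real.exp_pos _).le, ← ofReal_norm,
      ENNReal.ofReal_rpow_of_nonneg (norm_nonneg _) hp0.le]
  rw [one_mul, ENNReal.ofReal_mul (by have := K2_nonneg n; positivity), hR, ← hL] at key
  rw [eLpNorm_eq_lintegral_rpow_enorm_toReal (by simpa using hp2) ENNReal.ofReal_ne_top,
    ENNReal.toReal_ofReal hp2.le, Nm_eq hp0]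
  calc (∫⁻ y, ‖V y‖ₑ ^ (p / 2) ∂mu) ^ (1 / (p / 2))
      ≤ (ENNReal.ofReal (K2 n ^ (p / 2 - 1)) * ∫⁻ y, ‖f y‖ₑ ^ p ∂mu) ^ (1 / (p / 2)) := by
        gcongr
    _ = ENNReal.ofReal (K2 n ^ (1 - 2 / p)) * ((∫⁻ y, ‖f y‖ₑ ^ p ∂mu) ^ (1 / p)) ^ 2 := by
        rw [ENNReal.mul_rpow_of_nonneg _ _ (by positivity),
          ENNReal.ofReal_rpow_of_nonneg (by have := K2_nonneg n; positivity) (by positivity),
          ← Real.rpow_mul (K2_nonneg n), ← ENNReal.rpow_natCast (_ ^ (1 / p)), ← ENNReal.rpow_mul]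
        congr 3
        · field_simp
        · push_cast
          field_simp

end Helper69.CS
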