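import Pool.Agent.Helper69.CS.St
import Pool.Agent.Helper69.CR.M_PF

/-!
# Project CS, module PS: the symbols (helper48)
-/

set_option autoImplicit false

open MeasureTheory Set Filter Topology
open scoped ENNReal NNReal

noncomputable section

namespace Helper69.CS

open Helper85.BP Helper69.CR Helper69.CR.DB

private lemma lap_PS (k : ℕ) (b : ℝ) (hb : 0 < b) :
    IntegrableOn (fun u : ℝ => pp k (Real.exp (-u)) * Real.exp (-(b * u))) (Ioi 0) ∧
    (-1 : ℝ) ^ k + ∫ u in Ioi (0 : ℝ), pp k (Real.exp (-u)) * Real.exp (-(b * u)) = Cn k b := by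
  have hb' : (0 : ℝ) < ((b : ℝ) : ℂ).re := by simpa using hb
  obtain ⟨h1, h1'⟩ := hPF.2.1 k (b : ℂ) hb'
  have e : ∀ v : ℝ, ((pp k (Real.exp (-v)) : ℝ) : ℂ) * Complex.exp (-(v : ℂ) * b) =
      ((pp k (Real.exp (-v)) * Real.exp (-(b * v)) : ℝ) : ℂ) := by
    intro v
    push_cast
    congr 2
    ring
  simp only [e] at h1 h1'
  have hint : IntegrableOn (fun u : ℝ => pp k (Real.exp (-u)) * Real.exp (-(b * u))) (Ioi 0) := by
    have := h1.re
    refine this.congr (Eventually.of_forall fun u => ?_)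
    exact Complex.ofReal_re _
  refine ⟨hint, ?_⟩
  have h2 := hPF.1 k (b : ℂ) hb'
  have h3 := hPF.2.2.2 k b
  have h5 : ∫ v in Ioi (0 : ℝ), ((pp k (Real.exp (-v)) * Real.exp (-(b * v)) : ℝ) : ℂ) =
      ((∫ v in Ioi (0 : ℝ), pp k (Real.exp (-v)) * Real.exp (-(b * v)) : ℝ) : ℂ) := integral_ofReal
  rw [h3, ← h1', h5] at h2
  exact_mod_cast h2.symm

private lemma pp_bdd_PS (n : ℕ) : ∀ u : ℝ, 0 ≤ u → |pp n (Real.exp (-u))| ≤
    ∑ i ∈ Finset.range n, |pc n i| := by
  intro u hu
  unfold pp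
  refine (Finset.abs_sum_le_sum_abs _ _).trans (Finset.sum_le_sum fun i _ => ?_)
  rw [abs_mul]
  have h1 : |Real.exp (-u) ^ i| ≤ 1 := by
    rw [abs_of_nonneg (pow_nonneg (Real.exp_pos _).le _)]
    exact pow_le_one₀ (Real.exp_pos _).le (Real.exp_le_one_iff.2 (by linarith))
  calc |pc n i| * |Real.exp (-u) ^ i| ≤ |pc n i| * 1 :=
        mul_le_mul_of_nonneg_left h1 (abs_nonneg _)
    _ = |pc n i| := mul_one _

private lemma pp_cont_PS (n : ℕ) : Continuous (fun u : ℝ => pp n (Real.exp (-u))) := by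
  unfold pp
  fun_prop

/-- MODULE PS. -/
theorem hPS (h : StGEN) : StPS := by
  intro n c hn hc hexp halt a t ha ha4
  set z : ℂ := (a : ℂ) - Complex.I * (t : ℂ) * a with hz
  have hzre : z.re = a := by simp [hz]
  have hzim : z.im = -(t * a) := by simp [hz]
  set F : ℝ → ℂ := fun u => Complex.exp (-(z * u)) with hF
  have hFc : Continuous F := by
    rw [hF]; fun_prop
  have hFn : ∀ u : ℝ, ‖F u‖ = Real.exp (-(a * u)) := by
    intro u
    rw [hF]
    simp only [Complex.norm_exp, Complex.neg_re, Complex.mul_re, Complex.ofReal_re,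
      Complex.ofReal_im, mul_zero, sub_zero, hzre]
  have key := h (fun u => pp n (Real.exp (-u))) ((-1) ^ n) F a 1 _ (pp_cont_PS n) (pp_bdd_PS n) hFc ha
    (fun u _ => by rw [hFn, one_mul])
  obtain ⟨-, -, hE⟩ := key
  -- the left side
  have hzpos : 0 < z.re := by rw [hzre]; exact ha
  have hF0 : F 0 = 1 := by simp [hF]
  have hL : (((-1 : ℝ) ^ n : ℝ) : ℂ) * F 0 + ∫ u in Ioi (0 : ℝ), ((pp n (Real.exp (-u)) : ℝ) : ℂ) * F u =
      mm n z := by
    rw [hPF.1 n z hzpos, ← (hPF.2.1 n z hzpos).2, hF0]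
    push_cast
    rw [mul_one]
    congr 1
    refine integral_congr_ae (Eventually.of_forall fun u => ?_)
    simp only [hF]
    congr 2
    ring
  -- the product of exponentials
  have hprod : ∀ u d : ℝ, F u * (starRingEnd ℂ) (F (u + d)) =
      ((Real.exp (-(2 * a * u)) : ℝ) : ℂ) * Complex.exp (-((starRingEnd ℂ) z * d)) := by
    intro u d
    simp only [hF]
    rw [← Complex.exp_conj, ← Complex.exp_add, Complex.ofReal_exp, ← Complex.exp_add]
    congr 1
    have h2 : z + (starRingEnd ℂ) z = 2 * (a : ℂ) := by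
      rw [Complex.add_conj, hzre]; push_cast; ring
    simp only [map_neg, map_mul, Complex.conj_ofReal]
    push_cast
    linear_combination (-(u : ℂ)) * h2
  have hEre : ∀ d : ℝ, (Complex.exp (-((starRingEnd ℂ) z * d))).re =
      Real.exp (-(a * d)) * Real.cos (a * t * d) := by
    intro d
    rw [Complex.exp_re]
    have h1 : (-((starRingEnd ℂ) z * (d : ℂ))).re = -(a * d) := by
      rw [Complex.neg_re, Complex.mul_re, Complex.conj_re, hzre, Complex.ofReal_re, Complex.ofReal_im]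
      ring
    have h2 : (-((starRingEnd ℂ) z * (d : ℂ))).im = -(a * t * d) := by
      rw [Complex.neg_im, Complex.mul_im, Complex.conj_im, hzim, Complex.ofReal_re, Complex.ofReal_im]
      ring
    rw [h1, h2, Real.cos_neg]
  -- the real bracket
  have hbr : ∀ d : ℝ, (-1 : ℝ) ^ n * (1 - Real.exp (-d)) * pp n (Real.exp (-d)) +
      ∫ u in Ioi (0 : ℝ), pp n (Real.exp (-u)) * pp n (Real.exp (-(u + d))) *
        (1 - Real.exp (-(u + d))) * Real.exp (-(2 * a * u)) = kP n c (2 * a) d := by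
    intro d
    have h1 : ∀ u : ℝ, pp n (Real.exp (-u)) * pp n (Real.exp (-(u + d))) *
        (1 - Real.exp (-(u + d))) * Real.exp (-(2 * a * u)) =
        ∑ k ∈ Finset.range (2 * n + 1), c k (Real.exp (-d)) *
          (pp k (Real.exp (-u)) * Real.exp (-(2 * a * u))) := by
      intro u
      have h2 := hexp (Real.exp (-u)) (Real.exp (-d))
      have h3 : Real.exp (-u) * Real.exp (-d) = Real.exp (-(u + d)) := by
        rw [← Real.exp_add]; ring_nf
      rw [h3] at h2
      calc _ = (pp n (Real.exp (-u)) * ((1 - Real.exp (-(u + d))) * pp n (Real.exp (-(u + d))))) *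
            Real.exp (-(2 * a * u)) := by ring
        _ = _ := by
          rw [h2, Finset.sum_mul]
          refine Finset.sum_congr rfl fun k _ => ?_
          ring
    simp only [h1]
    have hint : ∀ k : ℕ, IntegrableOn (fun u : ℝ => pp k (Real.exp (-u)) *
        Real.exp (-(2 * a * u))) (Ioi 0) := fun k => (lap_PS k (2 * a) (by linarith)).1
    rw [integral_finsetSum _ (fun k _ => (hint k).const_mul _)]
    have h4 : (-1 : ℝ) ^ n * (1 - Real.exp (-d)) * pp n (Real.exp (-d)) =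
        ∑ k ∈ Finset.range (2 * n + 1), (-1) ^ k * c k (Real.exp (-d)) := by
      rw [← halt]; ring
    rw [h4, ← Finset.sum_add_distrib]
    unfold kP
    refine Finset.sum_congr rfl fun k _ => ?_
    rw [integral_const_mul, ← (lap_PS k (2 * a) (by linarith)).2]
    ring
  -- the integrand
  have hI : ∀ d : ℝ, ((((-1 : ℝ) ^ n * (1 - Real.exp (-d)) * pp n (Real.exp (-d)) : ℝ) : ℂ) *
        (F 0 * (starRingEnd ℂ) (F d)) +
      ∫ u in Ioi (0 : ℝ), ((pp n (Real.exp (-u)) * pp n (Real.exp (-(u + d))) *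
        (1 - Real.exp (-(u + d))) : ℝ) : ℂ) * (F u * (starRingEnd ℂ) (F (u + d)))).re =
      Real.exp (-(a * d)) * Real.cos (a * t * d) * kP n c (2 * a) d := by
    intro d
    have h0 : F 0 * (starRingEnd ℂ) (F d) = Complex.exp (-((starRingEnd ℂ) z * d)) := by
      have := hprod 0 d
      rw [zero_add] at this
      rw [this]
      simp
    have h1 : ∀ u : ℝ, ((pp n (Real.exp (-u)) * pp n (Real.exp (-(u + d))) *
        (1 - Real.exp (-(u + d))) : ℝ) : ℂ) * (F u * (starRingEnd ℂ) (F (u + d))) =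
        ((pp n (Real.exp (-u)) * pp n (Real.exp (-(u + d))) *
        (1 - Real.exp (-(u + d))) * Real.exp (-(2 * a * u)) : ℝ) : ℂ) *
          Complex.exp (-((starRingEnd ℂ) z * d)) := by
      intro u
      rw [hprod, Complex.ofReal_mul _ (Real.exp (-(2 * a * u)))]
      ring
    rw [h0]
    simp only [h1]
    have h5 : ∫ u in Ioi (0 : ℝ), ((pp n (Real.exp (-u)) * pp n (Real.exp (-(u + d))) *
        (1 - Real.exp (-(u + d))) * Real.exp (-(2 * a * u)) : ℝ) : ℂ) =
        ((∫ u in Ioi (0 : ℝ), pp n (Real.exp (-u)) * pp n (Real.exp (-(u + d))) *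
        (1 - Real.exp (-(u + d))) * Real.exp (-(2 * a * u)) : ℝ) : ℂ) := integral_ofReal
    rw [integral_mul_const, h5, ← add_mul, ← Complex.ofReal_add, Complex.re_ofReal_mul,
      hbr, hEre]
    ring
  have hnn : 0 ≤ ∫ τ in Ioi (0 : ℝ), Real.exp (-τ) * ‖(((-1 : ℝ) ^ n : ℝ) : ℂ) * F 0 +
      ∫ u in (0 : ℝ)..τ, ((pp n (Real.exp (-u)) : ℝ) : ℂ) * F u‖ ^ 2 :=
    integral_nonneg fun τ => mul_nonneg (Real.exp_pos _).le (sq_nonneg _)
  simp only [hI] at hE
  rw [hL] at hE
  rw [hE]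
  linarith

end Helper69.CS
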