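import Pool.Agent.Helper69.CS.St
import Pool.Agent.Helper69.CR.Top

/-!
# MP_3dd6d4_an, project CS, module REC: the recursion
-/

set_option autoImplicit false

open MeasureTheory Set Filter Topology
open scoped ENNReal NNReal

noncomputable section

namespace Helper69.CS

open Helper85.BP Helper69.CR Helper69.CR.DB

private lemma Cn_nn_REC (n : ℕ) {p : ℝ} (hp : 1 ≤ p) : 0 ≤ Cn n (1 / p) := by
  have hp0 : 0 < p := by linarith
  exact Cn_nonneg n _ (by positivity) (by rw [div_le_one hp0]; exact hp)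

private lemma Bd_mono_REC {k : ℕ} {p N N' : ℝ} (hp : 1 ≤ p) (h : Bd k p N) (hN : N ≤ N') :
    Bd k p N' := by
  intro v hv hs
  refine (h v hv hs).trans ?_
  gcongr
  exact Cn_nn_REC k hp

private lemma sharp_REC {n : ℕ} (hn : 1 ≤ n) {p : ℝ} (hp : 2 ≤ p) (h : p ≤ 4 ∨ n ≤ 2) :
    Bd n p 1 := by
  intro v hv hs
  rw [one_mul]
  exact OneD_bound (oneD_sharp n hn p hp h) (by linarith) (NB.of_cpt hv hs)

theorem hREC (h1 : StNR) (h2 : StST8) : StREC := by
  intro e l R1 R2 R3 hS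
  -- the easy cases
  have easy : ∀ (n : ℕ) (p : ℝ), 1 ≤ n → 4 ≤ p → (p ≤ 4 ∨ n ≤ 2) → Bd n p (1 + e p) := by
    intro n p hn hp h
    exact Bd_mono_REC (by linarith) (sharp_REC hn (by linarith) h) (by linarith [R3 p hp])
  -- `4 ≤ p < 8`
  have base : ∀ (n : ℕ) (p : ℝ), 1 ≤ n → 4 ≤ p → p < 8 → Bd n p (1 + e p) := by
    intro n p hn hp hp8
    rcases le_or_gt p 4 with h4 | h4
    · exact easy n p hn hp (Or.inl h4)
    rcases Nat.lt_or_ge n 3 with hn3 | hn3
    · exact easy n p hn hp (Or.inr (by omega))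
    obtain ⟨κ0, K, c, hN, hk, hK⟩ := hS n hn3
    have h3 := h2 n κ0 K c hn hN hk p h4 hp8
    refine Bd_mono_REC (by linarith) h3 ?_
    have hK8 := hK 8 le_rfl
    have hC : 0 ≤ Cn n (1 / 8) ^ 2 := sq_nonneg _
    have hr : (K 8 - κ0) / Cn n (1 / 8) ^ 2 ≤ l 8 := by
      rcases hC.eq_or_lt with h0 | h0
      · rw [← h0, div_zero]
        -- `l 8 ≥ 0` is not needed: `Cn n (1/8) > 0`
        exfalso
        have hpos : 0 < Cn n (1 / 8) := by
          unfold Cn
          refine Finset.prod_pos fun k _ => ?_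
          have : (0 : ℝ) ≤ k := Nat.cast_nonneg k
          exact div_pos (by linarith) (by linarith)
        have := pow_pos hpos 2
        linarith
      · rw [div_le_iff₀ h0]
        exact hK8
    have hp0 : 0 < p := by linarith
    have hθ0 : 0 ≤ 2 - 8 / p := by
      have : 8 / p ≤ 2 := by rw [div_le_iff₀ hp0]; linarith
      linarith
    have hθ1 : 2 - 8 / p ≤ 1 := by
      have : 1 ≤ 8 / p := by rw [le_div_iff₀ hp0]; linarith
      linarith
    have hc0 : 0 ≤ (2 - 8 / p) * (4 - (2 - 8 / p) ^ 2) / 6 := by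
      have : (2 - 8 / p) ^ 2 ≤ 1 := by nlinarith
      have h5 : 0 ≤ 4 - (2 - 8 / p) ^ 2 := by linarith
      positivity
    have h6 := mul_le_mul_of_nonneg_left hr hc0
    have h7 := R2 p h4 hp8
    linarith
  have key : ∀ j : ℕ, ∀ (n : ℕ) (p : ℝ), 1 ≤ n → 4 ≤ p → p < 8 * 2 ^ j → Bd n p (1 + e p) := by
    intro j
    induction j with
    | zero =>
      intro n p hn hp hp8
      exact base n p hn hp (by simpa using hp8)
    | succ j ih =>
      intro n p hn hp hpj
      rcases lt_or_ge p 8 with h8 | h8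
      · exact base n p hn hp h8
      rcases Nat.lt_or_ge n 3 with hn3 | hn3
      · exact easy n p hn hp (Or.inr (by omega))
      obtain ⟨κ0, K, c, hN, hk, hK⟩ := hS n hn3
      have hIH : ∀ k, 1 ≤ k → Bd k (p / 2) (1 + e (p / 2)) := fun k hk =>
        ih k (p / 2) hk (by linarith) (by rw [pow_succ] at hpj; linarith)
      have hN1 : 1 ≤ 1 + e (p / 2) := by linarith [R3 (p / 2) (by linarith)]
      intro f hf hs
      have h3 := h1 n κ0 K c hn hN p (1 + e (p / 2)) (by linarith) hN1 hIH f hf hs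
      refine le_of_sq (h3.trans ?_)
      rw [mul_pow]
      gcongr
      have hC := Cn_nn_REC n (p := p) (by linarith)
      have he : 0 ≤ 1 + e p := by linarith [R3 p hp]
      rw [← ENNReal.ofReal_pow (mul_nonneg he hC)]
      refine ENNReal.ofReal_le_ofReal ?_
      have h4 := hK p h8
      have h5 := R1 p h8
      have h6 : 0 ≤ κ0 := hN.k0
      have h7 : κ0 ≤ (1 + e (p / 2)) * κ0 := le_mul_of_one_le_left h6 hN1
      have h8' : (1 + e (p / 2) + l p) * Cn n (1 / p) ^ 2 ≤ (1 + e p) ^ 2 * Cn n (1 / p) ^ 2 :=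
        mul_le_mul_of_nonneg_right h5 (sq_nonneg _)
      calc (1 + e (p / 2)) * (Cn n (1 / p) ^ 2 - κ0) + K p
          ≤ (1 + e (p / 2) + l p) * Cn n (1 / p) ^ 2 := by linarith
        _ ≤ (1 + e p) ^ 2 * Cn n (1 / p) ^ 2 := h8'
        _ = ((1 + e p) * Cn n (1 / p)) ^ 2 := by ring
  intro n p hn hp
  obtain ⟨j, hj⟩ := pow_unbounded_of_one_lt (p / 8) (by norm_num : (1 : ℝ) < 2)
  exact key j n p hn hp (by linarith)

end Helper69.CS
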