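import Pool.Agent.Helper69.CS.St

/-!
# MP_3dd6d4_an, project CS, module RP: recursion numbers
-/

set_option autoImplicit false

noncomputable section

namespace Helper69.CS

theorem hRP : StRP := by
  refine ⟨fun p hp => ?_, fun p hp hp8 => ?_, fun p hp => ?_⟩
  · have hp0 : 0 < p := by linarith
    have e1 : 1 + 33 / 250 * (p / 2 - 4) / (p / 2) ^ 2 + 132 / 125 / p ^ 2 =
        1 + 2 * (33 / 250 * (p - 4) / p ^ 2) := by
      field_simp
      ring
    rw [e1]
    nlinarith [sq_nonneg (33 / 250 * (p - 4) / p ^ 2)]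
  · have hp0 : 0 < p := by linarith
    have e1 : 33 / 250 * (p - 4) / p ^ 2 -
        (2 - 8 / p) * (4 - (2 - 8 / p) ^ 2) / 6 * (132 / 125 / 8 ^ 2) =
        33 / 750 * (p - 4) * (8 - p) / p ^ 3 := by
      field_simp
      ring
    have e2 : 0 ≤ 33 / 750 * (p - 4) * (8 - p) / p ^ 3 := by
      apply div_nonneg _ (by positivity)
      apply mul_nonneg (mul_nonneg (by norm_num) (by linarith)) (by linarith)
    linarith
  · have hp0 : 0 < p := by linarith
    apply div_nonneg _ (by positivity)
    apply mul_nonneg (by norm_num) (by linarith)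

end Helper69.CS
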