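import Pool.Agent.Helper69.CS.St
import Pool.Agent.Helper72.BAM.RT2

/-!
# Module RT of project CS (MP_3dd6d4_an): Riesz–Thorin between `2` and `∞` for `KT m κ`.
-/

set_option autoImplicit false

open MeasureTheory Set Filter Topology
open scoped ENNReal NNReal

noncomputable section

namespace Helper69.CS

open Helper85.BP Helper69.CR Helper69.CR.DB
open Helper72.BA.P.RT2aux (Good three_lines real_final)

/-! ### holomorphy -/

private lemma exp_le_RT {Ω : Type*} (b : Ω → ℝ) (B : ℝ) (hB : ∀ ω, |b ω| ≤ B) (z : ℂ) (ω : Ω) :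
    ‖Complex.exp (z * (b ω : ℂ))‖ ≤ Real.exp (|z.re| * B) := by
  rw [Complex.norm_exp, Real.exp_le_exp]
  have : (z * (b ω : ℂ)).re = z.re * b ω := by simp
  rw [this]
  calc z.re * b ω ≤ |z.re * b ω| := le_abs_self _
    _ = |z.re| * |b ω| := abs_mul _ _
    _ ≤ |z.re| * B := mul_le_mul_of_nonneg_left (hB ω) (abs_nonneg _)

private lemma int_exp_RT {Ω : Type*} [MeasurableSpace Ω] {ν : Measure Ω} {a : Ω → ℂ} {b : Ω → ℝ}
    {B : ℝ} (ha : Integrable a ν) (hb : Measurable b) (hB : ∀ ω, |b ω| ≤ B) (z : ℂ) :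
    Integrable (fun ω => a ω * Complex.exp (z * (b ω : ℂ))) ν := by
  have hmeas : Measurable (fun ω => Complex.exp (z * (b ω : ℂ))) := by fun_prop
  exact ha.mul_bdd (c := Real.exp (|z.re| * B)) hmeas.aestronglyMeasurable
    (Eventually.of_forall (exp_le_RT b B hB z))

private lemma good_int_RT {Ω : Type*} [MeasurableSpace Ω] (ν : Measure Ω) (a : Ω → ℂ) (b : Ω → ℝ)
    (B : ℝ) (ha : Integrable a ν) (hb : Measurable b) (hB : ∀ ω, |b ω| ≤ B) :
    Good (fun z => ∫ ω, a ω * Complex.exp (z * (b ω : ℂ)) ∂ν) := by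
  have hE := exp_le_RT b B hB
  have hmeas : ∀ z : ℂ, Measurable (fun ω => Complex.exp (z * (b ω : ℂ))) := fun z => by fun_prop
  have hint := fun z : ℂ => int_exp_RT ha hb hB z
  refine ⟨?_, (∫ ω, ‖a ω‖ ∂ν) * Real.exp (1 * B), ?_⟩
  · intro z0
    have key := hasDerivAt_integral_of_dominated_loc_of_deriv_le (μ := ν) (𝕜 := ℂ)
      (F := fun z ω => a ω * Complex.exp (z * (b ω : ℂ)))
      (F' := fun z ω => a ω * (Complex.exp (z * (b ω : ℂ)) * (b ω : ℂ))) (x₀ := z0)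
      (s := Metric.ball z0 1)
      (bound := fun ω => ‖a ω‖ * (Real.exp ((|z0.re| + 1) * |B|) * |B|))
      (Metric.ball_mem_nhds z0 one_pos)
      (Eventually.of_forall fun z => (hint z).aestronglyMeasurable) (hint z0)
      (by
        refine ha.aestronglyMeasurable.mul ?_
        exact (Measurable.mul (hmeas z0) (by fun_prop)).aestronglyMeasurable)
      (Eventually.of_forall fun ω z hz => by
        have hz1 : |z.re| ≤ |z0.re| + 1 := by
          have h1 : |(z - z0).re| ≤ ‖z - z0‖ := Complex.abs_re_le_norm _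
          have h2 : ‖z - z0‖ < 1 := by simpa [dist_eq_norm] using hz
          have h3 : z.re = (z - z0).re + z0.re := by simp
          rw [h3]
          calc |(z - z0).re + z0.re| ≤ |(z - z0).re| + |z0.re| := abs_add_le _ _
            _ ≤ |z0.re| + 1 := by linarith
        rw [norm_mul, norm_mul]
        have h4 : ‖Complex.exp (z * (b ω : ℂ))‖ ≤ Real.exp ((|z0.re| + 1) * |B|) := by
          refine (hE z ω).trans (Real.exp_le_exp.2 ?_)
          calc |z.re| * B ≤ |z.re| * |B| := mul_le_mul_of_nonneg_left (le_abs_self _) (abs_nonneg _)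
            _ ≤ (|z0.re| + 1) * |B| := mul_le_mul_of_nonneg_right hz1 (abs_nonneg _)
        have h5 : ‖((b ω : ℝ) : ℂ)‖ ≤ |B| := by
          rw [Complex.norm_real, Real.norm_eq_abs]
          exact (hB ω).trans (le_abs_self _)
        gcongr)
      (ha.norm.mul_const _)
      (Eventually.of_forall fun ω z _ => by
        have h1 : HasDerivAt (fun z : ℂ => z * (b ω : ℂ)) (b ω : ℂ) z := by
          simpa using (hasDerivAt_id z).mul_const (b ω : ℂ)
        exact (h1.cexp).const_mul (a ω))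
    exact key.2.differentiableAt
  · intro z h0 h1
    have h2 : ∀ ω, ‖a ω * Complex.exp (z * (b ω : ℂ))‖ ≤ ‖a ω‖ * Real.exp (1 * B) := by
      intro ω
      rw [norm_mul]
      refine mul_le_mul_of_nonneg_left ((hE z ω).trans (Real.exp_le_exp.2 ?_)) (norm_nonneg _)
      have hB0 : 0 ≤ B := (abs_nonneg _).trans (hB ω)
      refine mul_le_mul_of_nonneg_right ?_ hB0
      rw [abs_of_nonneg h0]
      exact h1
    calc ‖∫ ω, a ω * Complex.exp (z * (b ω : ℂ)) ∂ν‖ ≤ ∫ ω, ‖a ω‖ * Real.exp (1 * B) ∂ν :=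
          norm_integral_le_of_norm_le (ha.norm.mul_const _) (Eventually.of_forall h2)
      _ = (∫ ω, ‖a ω‖ ∂ν) * Real.exp (1 * B) := integral_mul_const _ _

/-! ### the analytic families -/

private def lg (δ : ℝ) (c : ℂ) : ℝ := Real.log (‖c‖ + δ)

private def fz (p δ : ℝ) (z c : ℂ) : ℂ := c * Complex.exp ((p / 2 * (1 - z) - 1) * (lg δ c : ℂ))

private def gz (p δ : ℝ) (z c : ℂ) : ℂ :=
  (starRingEnd ℂ) c * Complex.exp ((p / 2 * (1 + z) - 1) * (lg δ c : ℂ))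

private def hz (p δ : ℝ) (c : ℂ) : ℂ := c * Complex.exp ((p / 2 - 1) * (lg δ c : ℂ))

private lemma lg_cont {δ : ℝ} (hδ : 0 < δ) : Continuous (lg δ) := by
  unfold lg
  refine Continuous.log (by fun_prop) (fun c => ?_)
  have := norm_nonneg c
  positivity

private lemma lg_bound {δ C : ℝ} (hδ : 0 < δ) {c : ℂ} (hc : ‖c‖ ≤ C) :
    |lg δ c| ≤ |Real.log δ| + |Real.log (C + δ)| := by
  unfold lg
  have h1 : Real.log δ ≤ Real.log (‖c‖ + δ) :=
    Real.log_le_log hδ (by linarith [norm_nonneg c])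
  have h2 : Real.log (‖c‖ + δ) ≤ Real.log (C + δ) :=
    Real.log_le_log (by linarith [norm_nonneg c]) (by linarith)
  rw [abs_le]
  constructor
  · linarith [neg_abs_le (Real.log δ), abs_nonneg (Real.log (C + δ))]
  · linarith [le_abs_self (Real.log (C + δ)), abs_nonneg (Real.log δ)]

private lemma norm_exp_lg {δ : ℝ} (hδ : 0 < δ) (w c : ℂ) :
    ‖Complex.exp (w * (lg δ c : ℂ))‖ = (‖c‖ + δ) ^ w.re := by
  have h0 : 0 < ‖c‖ + δ := by linarith [norm_nonneg c]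
  rw [Complex.norm_exp, Real.rpow_def_of_pos h0]
  congr 1
  simp [lg, mul_comm]

private lemma norm_fz {p δ : ℝ} (hδ : 0 < δ) (z c : ℂ) :
    ‖fz p δ z c‖ = ‖c‖ * (‖c‖ + δ) ^ (p / 2 * (1 - z.re) - 1) := by
  unfold fz
  rw [norm_mul, norm_exp_lg hδ]
  congr 2
  simp

private lemma norm_gz {p δ : ℝ} (hδ : 0 < δ) (z c : ℂ) :
    ‖gz p δ z c‖ = ‖c‖ * (‖c‖ + δ) ^ (p / 2 * (1 + z.re) - 1) := by
  unfold gz
  rw [norm_mul, norm_exp_lg hδ, Complex.norm_conj]
  congr 2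
  simp

private lemma fz_cont {p δ : ℝ} (hδ : 0 < δ) (z : ℂ) : Continuous (fz p δ z) := by
  unfold fz
  have := lg_cont hδ
  fun_prop

private lemma gz_cont {p δ : ℝ} (hδ : 0 < δ) (z : ℂ) : Continuous (gz p δ z) := by
  unfold gz
  have := lg_cont hδ
  have h2 : Continuous (fun c : ℂ => (starRingEnd ℂ) c) := Complex.continuous_conj
  fun_prop

private lemma hz_cont {p δ : ℝ} (hδ : 0 < δ) : Continuous (hz p δ) := by
  unfold hz
  have := lg_cont hδ
  fun_prop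

private lemma fz_mul_gz (p δ : ℝ) (z c t : ℂ) :
    fz p δ z c * gz p δ z t = hz p δ c * (starRingEnd ℂ) (hz p δ t) *
      Complex.exp (z * ((p / 2 * (lg δ t - lg δ c) : ℝ) : ℂ)) := by
  unfold fz gz hz
  rw [map_mul, ← Complex.exp_conj]
  have e1 : (starRingEnd ℂ) ((p / 2 - 1) * (lg δ t : ℂ)) = (p / 2 - 1) * (lg δ t : ℂ) := by
    have h : ((p : ℂ) / 2 - 1) * (lg δ t : ℂ) = (((p / 2 - 1) * lg δ t : ℝ) : ℂ) := by
      push_cast; ring
    rw [h, Complex.conj_ofReal]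
  rw [e1]
  have e2 : c * Complex.exp ((p / 2 * (1 - z) - 1) * (lg δ c : ℂ)) *
      ((starRingEnd ℂ) t * Complex.exp ((p / 2 * (1 + z) - 1) * (lg δ t : ℂ))) =
      c * (starRingEnd ℂ) t * (Complex.exp ((p / 2 * (1 - z) - 1) * (lg δ c : ℂ)) *
        Complex.exp ((p / 2 * (1 + z) - 1) * (lg δ t : ℂ))) := by ring
  have e3 : c * Complex.exp ((p / 2 - 1) * (lg δ c : ℂ)) *
      ((starRingEnd ℂ) t * Complex.exp ((p / 2 - 1) * (lg δ t : ℂ))) *
      Complex.exp (z * ((p / 2 * (lg δ t - lg δ c) : ℝ) : ℂ)) =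
      c * (starRingEnd ℂ) t * (Complex.exp ((p / 2 - 1) * (lg δ c : ℂ)) *
        Complex.exp ((p / 2 - 1) * (lg δ t : ℂ)) *
        Complex.exp (z * ((p / 2 * (lg δ t - lg δ c) : ℝ) : ℂ))) := by ring
  rw [e2, e3, ← Complex.exp_add, ← Complex.exp_add, ← Complex.exp_add]
  congr 2
  push_cast
  ring

private lemma norm_hz_le {p δ C : ℝ} (hp : 2 ≤ p) (hδ : 0 < δ) {c : ℂ} (hc : ‖c‖ ≤ C) :
    ‖hz p δ c‖ ≤ C * (C + δ) ^ (p / 2 - 1) := by
  unfold hz
  rw [norm_mul, norm_exp_lg hδ]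
  have h1 : ((p / 2 - 1 : ℂ)).re = p / 2 - 1 := by simp
  rw [h1]
  have hC : 0 ≤ C := (norm_nonneg c).trans hc
  refine mul_le_mul hc ?_ (by have := norm_nonneg c; positivity) hC
  exact Real.rpow_le_rpow (by have := norm_nonneg c; positivity) (by linarith) (by linarith)

/-! ### measurability and bound of `KT` -/

section KT

variable {m : ℝ → ℂ} {κ : ℝ → ℝ → ℂ} {M1 : ℝ} (hm : Measurable m)
  (hκ : Measurable (Function.uncurry κ)) (hi : ∀ y, IntegrableOn (κ y) (Ioi 0))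
  (hM : ∀ y, ‖m y‖ + ∫ u in Ioi (0 : ℝ), ‖κ y u‖ ≤ M1)

include hm hκ in
private lemma KT_meas {g : ℝ → ℂ} (hg : Measurable g) : Measurable (KT m κ g) := by
  unfold KT
  refine (hm.mul hg).add ?_
  refine StronglyMeasurable.measurable ?_
  refine StronglyMeasurable.integral_prod_right (f := fun y u => κ y u * g (y + u)) ?_
  refine Measurable.stronglyMeasurable ?_
  have h1 : Function.uncurry (fun y u => κ y u * g (y + u)) =
      fun q : ℝ × ℝ => Function.uncurry κ q * g (q.1 + q.2) := by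
    ext ⟨y, u⟩; rfl
  rw [h1]
  exact hκ.mul (hg.comp (measurable_fst.add measurable_snd))

include hi hM in
private lemma KT_bound {g : ℝ → ℂ} {S : ℝ} (hS : 0 ≤ S) (hg : ∀ x, ‖g x‖ ≤ S) (y : ℝ) :
    ‖KT m κ g y‖ ≤ M1 * S := by
  unfold KT
  have h1 : ‖∫ u in Ioi (0 : ℝ), κ y u * g (y + u)‖ ≤ ∫ u in Ioi (0 : ℝ), ‖κ y u‖ * S := by
    refine norm_integral_le_of_norm_le ((hi y).norm.mul_const S) (Eventually.of_forall fun u => ?_)
    rw [norm_mul]
    exact mul_le_mul_of_nonneg_left (hg _) (norm_nonneg _)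
  rw [integral_mul_const] at h1
  calc ‖m y * g y + ∫ u in Ioi (0 : ℝ), κ y u * g (y + u)‖
      ≤ ‖m y * g y‖ + ‖∫ u in Ioi (0 : ℝ), κ y u * g (y + u)‖ := norm_add_le _ _
    _ ≤ ‖m y‖ * S + (∫ u in Ioi (0 : ℝ), ‖κ y u‖) * S := by
        refine add_le_add ?_ h1
        rw [norm_mul]
        exact mul_le_mul_of_nonneg_left (hg _) (norm_nonneg _)
    _ = (‖m y‖ + ∫ u in Ioi (0 : ℝ), ‖κ y u‖) * S := by ring
    _ ≤ M1 * S := mul_le_mul_of_nonneg_right (hM y) hS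

end KT

/-! ### the analytic function -/

section core

variable {m : ℝ → ℂ} {κ : ℝ → ℝ → ℂ} {M1 : ℝ} (hm : Measurable m)
  (hκ : Measurable (Function.uncurry κ)) (hi : ∀ y, IntegrableOn (κ y) (Ioi 0))
  (hM : ∀ y, ‖m y‖ + ∫ u in Ioi (0 : ℝ), ‖κ y u‖ ≤ M1)

/-- the analytic function -/
private def HH (m : ℝ → ℂ) (κ : ℝ → ℝ → ℂ) (f : ℝ → ℂ) (p δ R : ℝ) (z : ℂ) : ℂ :=
  ∫ y, KT m κ (fun x => fz p δ z (f x)) y * gz p δ z (KT m κ f y) ∂(mu.restrict (Icc (-R) R))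

include hm hκ hi hM in
private lemma good_HH {f : ℝ → ℂ} (hf : Continuous f) {C : ℝ} (hC : ∀ x, ‖f x‖ ≤ C)
    (hTC : ∀ y, ‖KT m κ f y‖ ≤ C) {p δ : ℝ} (hp : 2 ≤ p) (hδ : 0 < δ) (R : ℝ) :
    Good (HH m κ f p δ R) := by
  have hC0 : 0 ≤ C := (norm_nonneg _).trans (hC 0)
  set ν : Measure ℝ := mu.restrict (Icc (-R) R) with hν
  have : IsFiniteMeasure ν := by
    rw [hν]
    exact ⟨by rw [Measure.restrict_apply_univ]; exact isCompact_Icc.measure_lt_top⟩
  set L : ℝ := |Real.log δ| + |Real.log (C + δ)| with hL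
  set Q : ℝ := C * (C + δ) ^ (p / 2 - 1) with hQ
  have hQ0 : 0 ≤ Q := by positivity
  have hTm : Measurable (KT m κ f) := KT_meas hm hκ hf.measurable
  have hgm : Measurable (fun y => (starRingEnd ℂ) (hz p δ (KT m κ f y))) :=
    Complex.continuous_conj.measurable.comp ((hz_cont hδ).measurable.comp hTm)
  have hfm : Measurable (fun y => hz p δ (f y)) := (hz_cont hδ).measurable.comp hf.measurable
  have hm1 : ∀ y, ‖m y‖ ≤ M1 := fun y => by
    have h1 := hM y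
    have h2 : 0 ≤ ∫ u in Ioi (0 : ℝ), ‖κ y u‖ := integral_nonneg fun _ => norm_nonneg _
    linarith
  have hM0 : 0 ≤ M1 := (norm_nonneg _).trans (hm1 0)
  -- the local part
  have ha1 : Integrable (fun y => m y * (hz p δ (f y) * (starRingEnd ℂ) (hz p δ (KT m κ f y)))) ν := by
    refine Integrable.of_bound (C := M1 * (Q * Q))
      (hm.mul (hfm.mul hgm)).aestronglyMeasurable (Eventually.of_forall fun y => ?_)
    rw [norm_mul, norm_mul, Complex.norm_conj]
    have h1 := norm_hz_le hp hδ (hC y)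
    have h2 := norm_hz_le hp hδ (hTC y)
    have h3 := hm1 y
    gcongr
  have hb1 : Measurable (fun y => (p / 2 * (lg δ (KT m κ f y) - lg δ (f y)) : ℝ)) :=
    measurable_const.mul (((lg_cont hδ).measurable.comp hTm).sub
      ((lg_cont hδ).measurable.comp hf.measurable))
  have hb1' : ∀ y, |(p / 2 * (lg δ (KT m κ f y) - lg δ (f y)) : ℝ)| ≤ p / 2 * (L + L) := by
    intro y
    rw [abs_mul, abs_of_nonneg (by linarith : 0 ≤ p / 2)]
    refine mul_le_mul_of_nonneg_left ?_ (by linarith)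
    calc |lg δ (KT m κ f y) - lg δ (f y)| ≤ |lg δ (KT m κ f y)| + |lg δ (f y)| := abs_sub _ _
      _ ≤ L + L := add_le_add (lg_bound hδ (hTC y)) (lg_bound hδ (hC y))
  have g1 := good_int_RT ν _ _ _ ha1 hb1 hb1'
  -- the integral part
  have hκint : Integrable (Function.uncurry κ) (ν.prod (volume.restrict (Ioi (0 : ℝ)))) := by
    rw [integrable_prod_iff hκ.aestronglyMeasurable]
    refine ⟨Eventually.of_forall fun y => hi y, ?_⟩
    refine Integrable.of_bound (C := M1) ?_ (Eventually.of_forall fun y => ?_)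
    · exact hκ.aestronglyMeasurable.norm.integral_prod_right'
    · rw [Real.norm_eq_abs, abs_of_nonneg (integral_nonneg fun _ => norm_nonneg _)]
      have h1 := hM y
      have h2 := norm_nonneg (m y)
      simp only [Function.uncurry] at *
      linarith
  have ha2 : Integrable (fun q : ℝ × ℝ => Function.uncurry κ q *
      (hz p δ (f (q.1 + q.2)) * (starRingEnd ℂ) (hz p δ (KT m κ f q.1))))
      (ν.prod (volume.restrict (Ioi (0 : ℝ)))) := by
    refine hκint.mul_bdd (c := Q * Q) ?_ (Eventually.of_forall fun q => ?_)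
    · exact ((hfm.comp (measurable_fst.add measurable_snd)).mul
        (hgm.comp measurable_fst)).aestronglyMeasurable
    · rw [norm_mul, Complex.norm_conj]
      have h1 := norm_hz_le hp hδ (hC (q.1 + q.2))
      have h2 := norm_hz_le hp hδ (hTC q.1)
      gcongr
  have hb2 : Measurable (fun q : ℝ × ℝ =>
      (p / 2 * (lg δ (KT m κ f q.1) - lg δ (f (q.1 + q.2))) : ℝ)) :=
    measurable_const.mul ((((lg_cont hδ).measurable.comp hTm).comp measurable_fst).sub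
      (((lg_cont hδ).measurable.comp hf.measurable).comp (measurable_fst.add measurable_snd)))
  have hb2' : ∀ q : ℝ × ℝ, |(p / 2 * (lg δ (KT m κ f q.1) - lg δ (f (q.1 + q.2))) : ℝ)| ≤
      p / 2 * (L + L) := by
    intro q
    rw [abs_mul, abs_of_nonneg (by linarith : 0 ≤ p / 2)]
    refine mul_le_mul_of_nonneg_left ?_ (by linarith)
    calc |lg δ (KT m κ f q.1) - lg δ (f (q.1 + q.2))|
        ≤ |lg δ (KT m κ f q.1)| + |lg δ (f (q.1 + q.2))| := abs_sub _ _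
      _ ≤ L + L := add_le_add (lg_bound hδ (hTC _)) (lg_bound hδ (hC _))
  have g2 := good_int_RT (ν.prod (volume.restrict (Ioi (0 : ℝ)))) _ _ _ ha2 hb2 hb2'
  -- the sum
  have heq : HH m κ f p δ R = fun z =>
      (∫ y, (m y * (hz p δ (f y) * (starRingEnd ℂ) (hz p δ (KT m κ f y)))) *
        Complex.exp (z * ((p / 2 * (lg δ (KT m κ f y) - lg δ (f y)) : ℝ) : ℂ)) ∂ν) +
      ∫ q, (Function.uncurry κ q *
        (hz p δ (f (q.1 + q.2)) * (starRingEnd ℂ) (hz p δ (KT m κ f q.1)))) *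
        Complex.exp (z * ((p / 2 * (lg δ (KT m κ f q.1) - lg δ (f (q.1 + q.2))) : ℝ) : ℂ))
        ∂(ν.prod (volume.restrict (Ioi (0 : ℝ)))) := by
    funext z
    rw [integral_prod _ (int_exp_RT ha2 hb2 hb2' z), ← integral_add (int_exp_RT ha1 hb1 hb1' z)
      (int_exp_RT ha2 hb2 hb2' z).integral_prod_left]
    unfold HH
    refine integral_congr_ae (Eventually.of_forall fun y => ?_)
    show (m y * fz p δ z (f y) + ∫ u in Ioi (0 : ℝ), κ y u * fz p δ z (f (y + u))) *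
      gz p δ z (KT m κ f y) = _
    rw [add_mul, ← integral_mul_const]
    congr 1
    · rw [mul_assoc, fz_mul_gz]
      ring
    · refine integral_congr_ae (Eventually.of_forall fun u => ?_)
      show κ y u * fz p δ z (f (y + u)) * gz p δ z (KT m κ f y) = _
      rw [mul_assoc, fz_mul_gz]
      simp only [Function.uncurry]
      ring
  rw [heq]
  obtain ⟨d1, B1, hB1⟩ := g1
  obtain ⟨d2, B2, hB2⟩ := g2
  exact ⟨d1.add d2, B1 + B2, fun z h0 h1 =>
    (norm_add_le _ _).trans (add_le_add (hB1 z h0 h1) (hB2 z h0 h1))⟩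

private lemma enorm_sq_RT (x : ℂ) {r : ℝ} (h : ‖x‖ ^ 2 = r) : ‖x‖ₑ ^ (2 : ℝ) = ENNReal.ofReal r := by
  rw [← ofReal_norm, ENNReal.ofReal_rpow_of_nonneg (norm_nonneg _) (by norm_num), Real.rpow_two, h]

private lemma fz_sq {p δ : ℝ} (hδ : 0 < δ) (z c : ℂ) (hz0 : z.re = 0) :
    ‖fz p δ z c‖ ^ 2 = ‖c‖ ^ 2 * (‖c‖ + δ) ^ (p - 2) := by
  have h0 : 0 < ‖c‖ + δ := by linarith [norm_nonneg c]
  rw [norm_fz hδ, hz0, mul_pow, ← Real.rpow_natCast ((‖c‖ + δ) ^ (p / 2 * (1 - 0) - 1)) 2,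
    ← Real.rpow_mul h0.le]
  congr 2
  push_cast
  ring

private lemma gz_sq {p δ : ℝ} (hδ : 0 < δ) (z c : ℂ) (hz0 : z.re = 0) :
    ‖gz p δ z c‖ ^ 2 = ‖c‖ ^ 2 * (‖c‖ + δ) ^ (p - 2) := by
  have h0 : 0 < ‖c‖ + δ := by linarith [norm_nonneg c]
  rw [norm_gz hδ, hz0, mul_pow, ← Real.rpow_natCast ((‖c‖ + δ) ^ (p / 2 * (1 + 0) - 1)) 2,
    ← Real.rpow_mul h0.le]
  congr 2
  push_cast
  ring

include hm hκ in
/-- the bound on the left line -/
private lemma HH_left {f : ℝ → ℂ} (hf : Continuous f) (hs : HasCompactSupport f) {M0 : ℝ}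
    (h2 : ∀ f : ℝ → ℂ, Continuous f → HasCompactSupport f →
      Nm 2 (KT m κ f) ≤ ENNReal.ofReal M0 * Nm 2 f)
    {p δ : ℝ} (hδ : 0 < δ) (R : ℝ) (z : ℂ) (hz0 : z.re = 0) :
    ‖HH m κ f p δ R z‖ₑ ≤ ENNReal.ofReal M0 *
      (∫⁻ y, ENNReal.ofReal (‖f y‖ ^ 2 * (‖f y‖ + δ) ^ (p - 2)) ∂mu) ^ (1 / 2 : ℝ) *
      (∫⁻ y, ENNReal.ofReal (‖KT m κ f y‖ ^ 2 * (‖KT m κ f y‖ + δ) ^ (p - 2))
        ∂(mu.restrict (Icc (-R) R))) ^ (1 / 2 : ℝ) := by
  set ν : Measure ℝ := mu.restrict (Icc (-R) R) with hν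
  have hTm : Measurable (KT m κ f) := KT_meas hm hκ hf.measurable
  have hfz : Continuous (fun x => fz p δ z (f x)) := (fz_cont hδ z).comp hf
  have hfs : HasCompactSupport (fun x => fz p δ z (f x)) := by
    refine hs.comp_left (g := fz p δ z) ?_
    simp [fz]
  have h3 := h2 _ hfz hfs
  rw [Nm_eq two_pos, Nm_eq two_pos] at h3
  have e1 : ∀ y, ‖fz p δ z (f y)‖ₑ ^ (2 : ℝ) =
      ENNReal.ofReal (‖f y‖ ^ 2 * (‖f y‖ + δ) ^ (p - 2)) := fun y =>
    enorm_sq_RT _ (fz_sq hδ z _ hz0)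
  have e2 : ∀ y, ‖gz p δ z (KT m κ f y)‖ₑ ^ (2 : ℝ) =
      ENNReal.ofReal (‖KT m κ f y‖ ^ 2 * (‖KT m κ f y‖ + δ) ^ (p - 2)) := fun y =>
    enorm_sq_RT _ (gz_sq hδ z _ hz0)
  simp only [e1] at h3
  have h4 : ‖HH m κ f p δ R z‖ₑ ≤
      ∫⁻ y, ‖KT m κ (fun x => fz p δ z (f x)) y‖ₑ * ‖gz p δ z (KT m κ f y)‖ₑ ∂ν := by
    unfold HH
    refine (enorm_integral_le_lintegral_enorm _).trans (le_of_eq ?_)
    refine lintegral_congr fun y => ?_
    rw [enorm_mul]
  have h5 := ENNReal.lintegral_mul_le_Lp_mul_Lq ν (p := 2) (q := 2)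
    (by norm_num [Real.holderConjugate_iff])
    (f := fun y => ‖KT m κ (fun x => fz p δ z (f x)) y‖ₑ)
    (g := fun y => ‖gz p δ z (KT m κ f y)‖ₑ)
    (KT_meas hm hκ hfz.measurable).enorm.aemeasurable
    ((gz_cont hδ z).measurable.comp hTm).enorm.aemeasurable
  simp only [Pi.mul_apply, e2] at h5
  refine (h4.trans h5).trans ?_
  refine mul_le_mul_left ?_ _
  refine le_trans ?_ h3
  refine ENNReal.rpow_le_rpow ?_ (by norm_num)
  exact lintegral_mono' Measure.restrict_le_self le_rfl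

include hm hκ hi hM in
/-- the bound on the right line -/
private lemma HH_right {f : ℝ → ℂ} (hf : Continuous f) {C : ℝ} (hTC : ∀ y, ‖KT m κ f y‖ ≤ C)
    {p δ : ℝ} (hp : 2 ≤ p) (hδ : 0 < δ) (R : ℝ) (z : ℂ) (hz1 : z.re = 1) :
    ‖HH m κ f p δ R z‖ ≤
      M1 * ∫ y, ‖KT m κ f y‖ * (‖KT m κ f y‖ + δ) ^ (p - 1) ∂(mu.restrict (Icc (-R) R)) := by
  set ν : Measure ℝ := mu.restrict (Icc (-R) R) with hν
  have : IsFiniteMeasure ν := by
    rw [hν]
    exact ⟨by rw [Measure.restrict_apply_univ]; exact isCompact_Icc.measure_lt_top⟩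
  have hTm : Measurable (KT m κ f) := KT_meas hm hκ hf.measurable
  rw [← integral_const_mul]
  unfold HH
  have hC0 : 0 ≤ C := (norm_nonneg _).trans (hTC 0)
  refine norm_integral_le_of_norm_le ?_ (Eventually.of_forall fun y => ?_)
  · refine Integrable.const_mul ?_ _
    refine Integrable.of_bound (C := C * (C + δ) ^ (p - 1)) ?_ (Eventually.of_forall fun y => ?_)
    · exact (hTm.norm.mul ((hTm.norm.add measurable_const).pow_const _)).aestronglyMeasurable
    · have h1 := hTC y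
      have h2 := norm_nonneg (KT m κ f y)
      rw [Real.norm_eq_abs, abs_of_nonneg (by positivity)]
      gcongr
      linarith
  · rw [norm_mul]
    have h1 : ∀ x, ‖fz p δ z (f x)‖ ≤ 1 := by
      intro x
      have h0 : 0 < ‖f x‖ + δ := by linarith [norm_nonneg (f x)]
      rw [norm_fz hδ, hz1]
      have : p / 2 * (1 - 1) - 1 = (-1 : ℝ) := by ring
      rw [this, Real.rpow_neg_one, ← div_eq_mul_inv, div_le_one h0]
      linarith
    have h3 := KT_bound hi hM zero_le_one h1 y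
    have h4 : ‖gz p δ z (KT m κ f y)‖ = ‖KT m κ f y‖ * (‖KT m κ f y‖ + δ) ^ (p - 1) := by
      rw [norm_gz hδ, hz1]
      congr 2
      ring
    rw [h4]
    rw [mul_one] at h3
    refine mul_le_mul_of_nonneg_right h3 ?_
    have h2 := norm_nonneg (KT m κ f y)
    positivity

/-- the value at `θ` -/
private lemma HH_theta (f : ℝ → ℂ) {p δ : ℝ} (hp : 0 < p) (hδ : 0 < δ) (R : ℝ) :
    HH m κ f p δ R ((1 - 2 / p : ℝ) : ℂ) =
      ((∫ y, ‖KT m κ f y‖ ^ 2 * (‖KT m κ f y‖ + δ) ^ (p - 2) ∂(mu.restrict (Icc (-R) R)) : ℝ) : ℂ) := by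
  unfold HH
  rw [← integral_complex_ofReal]
  refine integral_congr_ae (Eventually.of_forall fun y => ?_)
  have hp' : (p : ℂ) ≠ 0 := by exact_mod_cast hp.ne'
  have e1 : ((p : ℂ) / 2 * (1 - ((1 - 2 / p : ℝ) : ℂ)) - 1) = 0 := by
    push_cast; field_simp; ring
  have e2 : ((p : ℂ) / 2 * (1 + ((1 - 2 / p : ℝ) : ℂ)) - 1) = ((p - 2 : ℝ) : ℂ) := by
    push_cast; field_simp; ring
  have h0 : 0 < ‖KT m κ f y‖ + δ := by linarith [norm_nonneg (KT m κ f y)]
  have e3 : (fun x => fz p δ ((1 - 2 / p : ℝ) : ℂ) (f x)) = f := by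
    funext x
    unfold fz
    rw [e1]
    simp
  have e4 : gz p δ ((1 - 2 / p : ℝ) : ℂ) (KT m κ f y) =
      (starRingEnd ℂ) (KT m κ f y) * (((‖KT m κ f y‖ + δ) ^ (p - 2) : ℝ) : ℂ) := by
    unfold gz
    rw [e2, ← Complex.ofReal_mul, ← Complex.ofReal_exp, Real.rpow_def_of_pos h0]
    congr 3
    unfold lg
    ring
  simp only [e3, e4]
  rw [← mul_assoc, Complex.mul_conj, Complex.normSq_eq_norm_sq]
  push_cast
  ring

private lemma fin_RT (R : ℝ) : IsFiniteMeasure (mu.restrict (Icc (-R) R)) :=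
  ⟨by rw [Measure.restrict_apply_univ]; exact isCompact_Icc.measure_lt_top⟩

private lemma A_int {f : ℝ → ℂ} (hf : Continuous f) (hs : HasCompactSupport f) {p δ : ℝ}
    (hδ : 0 < δ) : Integrable (fun y => ‖f y‖ ^ 2 * (‖f y‖ + δ) ^ (p - 2)) mu := by
  refine Continuous.integrable_of_hasCompactSupport ?_ ?_
  · refine (hf.norm.pow 2).mul ((hf.norm.add continuous_const).rpow_const fun y => ?_)
    left
    have h1 := norm_nonneg (f y)
    have h2 : 0 < ‖f y‖ + δ := by linarith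
    exact h2.ne'
  · exact hs.comp_left (g := fun c : ℂ => ‖c‖ ^ 2 * (‖c‖ + δ) ^ (p - 2)) (by simp)

include hm hκ in
private lemma D_int {f : ℝ → ℂ} (hf : Continuous f) {C : ℝ} (hTC : ∀ y, ‖KT m κ f y‖ ≤ C)
    {p δ : ℝ} (hp : 2 ≤ p) (hδ : 0 < δ) (R : ℝ) :
    Integrable (fun y => ‖KT m κ f y‖ ^ 2 * (‖KT m κ f y‖ + δ) ^ (p - 2))
      (mu.restrict (Icc (-R) R)) := by
  have := fin_RT R
  have hTm : Measurable (KT m κ f) := KT_meas hm hκ hf.measurable
  have hC0 : 0 ≤ C := (norm_nonneg _).trans (hTC 0)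
  refine Integrable.of_bound (C := C ^ 2 * (C + δ) ^ (p - 2)) ?_ (Eventually.of_forall fun y => ?_)
  · exact ((hTm.norm.pow_const 2).mul ((hTm.norm.add measurable_const).pow_const _)).aestronglyMeasurable
  · have h1 := hTC y
    have h2 := norm_nonneg (KT m κ f y)
    rw [Real.norm_eq_abs, abs_of_nonneg (by positivity)]
    gcongr

include hm hκ hi hM in
private lemma core_RT {f : ℝ → ℂ} (hf : Continuous f) (hs : HasCompactSupport f) {M0 : ℝ}
    (hM0 : 0 ≤ M0)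
    (h2 : ∀ f : ℝ → ℂ, Continuous f → HasCompactSupport f →
      Nm 2 (KT m κ f) ≤ ENNReal.ofReal M0 * Nm 2 f)
    {C : ℝ} (hC : ∀ x, ‖f x‖ ≤ C) (hTC : ∀ y, ‖KT m κ f y‖ ≤ C)
    {p δ : ℝ} (hp : 2 ≤ p) (hδ : 0 < δ) (R : ℝ) :
    (∫ y, ‖KT m κ f y‖ ^ 2 * (‖KT m κ f y‖ + δ) ^ (p - 2) ∂(mu.restrict (Icc (-R) R))) ≤
      ((∫ y, ‖KT m κ f y‖ ^ 2 * (‖KT m κ f y‖ + δ) ^ (p - 2) ∂(mu.restrict (Icc (-R) R))) ^ (1 / 2 : ℝ) *
        (M0 ^ 2 * ∫ y, ‖f y‖ ^ 2 * (‖f y‖ + δ) ^ (p - 2) ∂mu) ^ (1 / 2 : ℝ)) ^ (1 - (1 - 2 / p)) *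
      (M1 * ∫ y, ‖KT m κ f y‖ * (‖KT m κ f y‖ + δ) ^ (p - 1) ∂(mu.restrict (Icc (-R) R))) ^ (1 - 2 / p) := by
  set D : ℝ := ∫ y, ‖KT m κ f y‖ ^ 2 * (‖KT m κ f y‖ + δ) ^ (p - 2) ∂(mu.restrict (Icc (-R) R)) with hD
  set A : ℝ := ∫ y, ‖f y‖ ^ 2 * (‖f y‖ + δ) ^ (p - 2) ∂mu with hA
  have hp0 : 0 < p := by linarith
  have hD0 : 0 ≤ D := integral_nonneg fun y => by
    have := norm_nonneg (KT m κ f y)
    positivity
  have hA0 : 0 ≤ A := integral_nonneg fun y => by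
    have := norm_nonneg (f y)
    positivity
  have hθ0 : 0 ≤ 1 - 2 / p := by
    rw [sub_nonneg, div_le_one hp0]; exact hp
  have hθ1 : 1 - 2 / p ≤ 1 := by
    have : 0 ≤ 2 / p := by positivity
    linarith
  have key := three_lines (good_HH hm hκ hi hM hf hC hTC hp hδ R)
    (a := D ^ (1 / 2 : ℝ) * (M0 ^ 2 * A) ^ (1 / 2 : ℝ))
    (b := M1 * ∫ y, ‖KT m κ f y‖ * (‖KT m κ f y‖ + δ) ^ (p - 1) ∂(mu.restrict (Icc (-R) R)))
    (by
      intro z hz
      have h3 := HH_left hm hκ hf hs h2 (p := p) hδ R z hz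
      rw [← ofReal_integral_eq_lintegral_ofReal (A_int hf hs hδ) (Eventually.of_forall fun y => by
          show 0 ≤ _
          have := norm_nonneg (f y)
          positivity),
        ← ofReal_integral_eq_lintegral_ofReal (D_int hm hκ hf hTC hp hδ R)
          (Eventually.of_forall fun y => by
          show 0 ≤ _
          have := norm_nonneg (KT m κ f y)
          positivity), ← hA, ← hD, ENNReal.ofReal_rpow_of_nonneg hA0 (by norm_num),
        ENNReal.ofReal_rpow_of_nonneg hD0 (by norm_num), ← ENNReal.ofReal_mul hM0,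
        ← ENNReal.ofReal_mul (by positivity), ← ofReal_norm,
        ENNReal.ofReal_le_ofReal_iff (by positivity)] at h3
      refine h3.trans (le_of_eq ?_)
      have e1 : (M0 ^ 2 * A) ^ (1 / 2 : ℝ) = M0 * A ^ (1 / 2 : ℝ) := by
        rw [Real.mul_rpow (by positivity) hA0, ← Real.sqrt_eq_rpow, Real.sqrt_sq hM0]
      rw [e1]
      ring)
    (fun z hz => HH_right hm hκ hi hM hf hTC hp hδ R z hz) (1 - 2 / p) hθ0 hθ1
  rw [HH_theta f hp0 hδ R, ← hD, Complex.norm_real, Real.norm_eq_abs, abs_of_nonneg hD0] at key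
  exact key

private lemma pw_RT {p : ℝ} (hp : 2 ≤ p) {t : ℝ} (ht : 0 ≤ t) : t ^ 2 * t ^ (p - 2) = t ^ p := by
  rcases ht.eq_or_lt with h | h
  · rw [← h, Real.zero_rpow (by linarith : p ≠ 0)]
    simp
  · rw [← Real.rpow_natCast t 2, ← Real.rpow_add h]
    congr 1
    push_cast
    ring

private lemma pw1_RT {p : ℝ} (hp : 2 ≤ p) {t : ℝ} (ht : 0 ≤ t) : t * t ^ (p - 1) = t ^ p := by
  rcases ht.eq_or_lt with h | h
  · rw [← h, Real.zero_rpow (by linarith : p ≠ 0)]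
    simp
  · nth_rewrite 1 [← Real.rpow_one t]
    rw [← Real.rpow_add h]
    congr 1
    ring

include hm hκ hi hM in
private lemma lim_RT {f : ℝ → ℂ} (hf : Continuous f) (hs : HasCompactSupport f) {M0 : ℝ}
    (hM0 : 0 ≤ M0)
    (h2 : ∀ f : ℝ → ℂ, Continuous f → HasCompactSupport f →
      Nm 2 (KT m κ f) ≤ ENNReal.ofReal M0 * Nm 2 f)
    {C : ℝ} (hC : ∀ x, ‖f x‖ ≤ C) (hTC : ∀ y, ‖KT m κ f y‖ ≤ C)
    {p : ℝ} (hp : 2 ≤ p) (R : ℝ) :
    (∫ y, ‖KT m κ f y‖ ^ p ∂(mu.restrict (Icc (-R) R))) ≤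
      ((∫ y, ‖KT m κ f y‖ ^ p ∂(mu.restrict (Icc (-R) R))) ^ (1 / 2 : ℝ) *
        (M0 ^ 2 * ∫ y, ‖f y‖ ^ p ∂mu) ^ (1 / 2 : ℝ)) ^ (1 - (1 - 2 / p)) *
      (M1 * ∫ y, ‖KT m κ f y‖ ^ p ∂(mu.restrict (Icc (-R) R))) ^ (1 - 2 / p) := by
  have := fin_RT R
  have hC0 : 0 ≤ C := (norm_nonneg _).trans (hC 0)
  have hTm : Measurable (KT m κ f) := KT_meas hm hκ hf.measurable
  have hp0 : 0 < p := by linarith
  have hθ0 : 0 ≤ 1 - 2 / p := by
    rw [sub_nonneg, div_le_one hp0]; exact hp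
  have hδ : ∀ k : ℕ, (0 : ℝ) < 1 / ((k : ℝ) + 1) := fun k => by positivity
  have hδ1 : ∀ k : ℕ, (1 : ℝ) / ((k : ℝ) + 1) ≤ 1 := fun k => by
    rw [div_le_one (by positivity)]
    have : (0 : ℝ) ≤ k := by positivity
    linarith
  have hlim : ∀ t q : ℝ, 0 ≤ q → Tendsto (fun k : ℕ => (t + 1 / ((k : ℝ) + 1)) ^ q) atTop
      (𝓝 (t ^ q)) := by
    intro t q hq
    have h1 : Tendsto (fun k : ℕ => t + 1 / ((k : ℝ) + 1)) atTop (𝓝 (t + 0)) :=
      tendsto_const_nhds.add tendsto_one_div_add_atTop_nhds_zero_nat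
    rw [add_zero] at h1
    exact h1.rpow_const (Or.inr hq)
  have hDl : Tendsto (fun k : ℕ => ∫ y, ‖KT m κ f y‖ ^ 2 *
      (‖KT m κ f y‖ + 1 / ((k : ℝ) + 1)) ^ (p - 2) ∂(mu.restrict (Icc (-R) R))) atTop
      (𝓝 (∫ y, ‖KT m κ f y‖ ^ p ∂(mu.restrict (Icc (-R) R)))) := by
    refine tendsto_integral_of_dominated_convergence (fun _ => C ^ 2 * (C + 1) ^ (p - 2)) ?_
      (integrable_const _) ?_ ?_
    · intro k
      exact (D_int hm hκ hf hTC hp (hδ k) R).aestronglyMeasurable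
    · intro k
      refine Eventually.of_forall fun y => ?_
      have h1 := hTC y
      have h3 := norm_nonneg (KT m κ f y)
      have h4 := hδ1 k
      have h5 := hδ k
      rw [Real.norm_eq_abs, abs_of_nonneg (by positivity)]
      gcongr
    · refine Eventually.of_forall fun y => ?_
      have h3 := norm_nonneg (KT m κ f y)
      rw [← pw_RT hp h3]
      exact (hlim _ _ (by linarith)).const_mul _
  have hD1l : Tendsto (fun k : ℕ => ∫ y, ‖KT m κ f y‖ *
      (‖KT m κ f y‖ + 1 / ((k : ℝ) + 1)) ^ (p - 1) ∂(mu.restrict (Icc (-R) R))) atTop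
      (𝓝 (∫ y, ‖KT m κ f y‖ ^ p ∂(mu.restrict (Icc (-R) R)))) := by
    refine tendsto_integral_of_dominated_convergence (fun _ => C * (C + 1) ^ (p - 1)) ?_
      (integrable_const _) ?_ ?_
    · intro k
      exact (hTm.norm.mul ((hTm.norm.add measurable_const).pow_const _)).aestronglyMeasurable
    · intro k
      refine Eventually.of_forall fun y => ?_
      have h1 := hTC y
      have h3 := norm_nonneg (KT m κ f y)
      have h4 := hδ1 k
      have h5 := hδ k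
      rw [Real.norm_eq_abs, abs_of_nonneg (by positivity)]
      gcongr
      linarith
    · refine Eventually.of_forall fun y => ?_
      have h3 := norm_nonneg (KT m κ f y)
      rw [← pw1_RT hp h3]
      exact (hlim _ _ (by linarith)).const_mul _
  have hAl : Tendsto (fun k : ℕ => ∫ y, ‖f y‖ ^ 2 *
      (‖f y‖ + 1 / ((k : ℝ) + 1)) ^ (p - 2) ∂mu) atTop (𝓝 (∫ y, ‖f y‖ ^ p ∂mu)) := by
    refine tendsto_integral_of_dominated_convergence
      (fun y => ‖f y‖ ^ 2 * (‖f y‖ + 1) ^ (p - 2)) ?_ (A_int hf hs one_pos) ?_ ?_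
    · intro k
      exact (A_int hf hs (hδ k)).aestronglyMeasurable
    · intro k
      refine Eventually.of_forall fun y => ?_
      have h3 := norm_nonneg (f y)
      have h4 := hδ1 k
      have h5 := hδ k
      rw [Real.norm_eq_abs, abs_of_nonneg (by positivity)]
      gcongr
    · refine Eventually.of_forall fun y => ?_
      have h3 := norm_nonneg (f y)
      rw [← pw_RT hp h3]
      exact (hlim _ _ (by linarith)).const_mul _
  refine le_of_tendsto_of_tendsto' hDl ?_ fun k => core_RT hm hκ hi hM hf hs hM0 h2 hC hTC hp (hδ k) R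
  refine Tendsto.mul ?_ ?_
  · refine Tendsto.rpow_const ?_ (Or.inr (by
      have : 0 ≤ 2 / p := by positivity
      linarith))
    refine Tendsto.mul ?_ ?_
    · exact hDl.rpow_const (Or.inr (by norm_num))
    · exact (hAl.const_mul _).rpow_const (Or.inr (by norm_num))
  · exact (hD1l.const_mul _).rpow_const (Or.inr hθ0)

end core

/-- MODULE RT. -/
theorem hRT : StRT := by
  intro m κ M0 M1 p hp hM0 hM1 hm hκ hi hM h2 f hf hs
  have hp0 : 0 < p := by linarith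
  obtain ⟨C0, hC0⟩ := hs.exists_bound_of_continuous hf
  have hC00 : 0 ≤ C0 := (norm_nonneg _).trans (hC0 0)
  have hT0 := KT_bound hi hM hC00 hC0
  have hC : ∀ x, ‖f x‖ ≤ C0 + M1 * C0 := fun x => (hC0 x).trans (by
    have : 0 ≤ M1 * C0 := by positivity
    linarith)
  have hTC : ∀ x, ‖KT m κ f x‖ ≤ C0 + M1 * C0 := fun x => (hT0 x).trans (by linarith)
  have hTm : Measurable (KT m κ f) := KT_meas hm hκ hf.measurable
  -- `∫ |f|^p`
  have hfi : Integrable (fun y => ‖f y‖ ^ p) mu := by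
    refine Continuous.integrable_of_hasCompactSupport ?_ ?_
    · exact hf.norm.rpow_const fun _ => Or.inr hp0.le
    · exact hs.comp_left (g := fun c : ℂ => ‖c‖ ^ p) (by simp [Real.zero_rpow hp0.ne'])
  have hE0 : 0 ≤ ∫ y, ‖f y‖ ^ p ∂mu := integral_nonneg fun y => by positivity
  have hen : ∀ x : ℂ, ‖x‖ₑ ^ p = ENNReal.ofReal (‖x‖ ^ p) := fun x => by
    rw [← ofReal_norm, ENNReal.ofReal_rpow_of_nonneg (norm_nonneg _) hp0.le]
  have hcut : ∀ k : ℕ, ∫⁻ y in Icc (-(k : ℝ)) k, ‖KT m κ f y‖ₑ ^ p ∂mu ≤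
      ENNReal.ofReal (M0 ^ 2 * M1 ^ (p - 2)) * ∫⁻ y, ‖f y‖ₑ ^ p ∂mu := by
    intro k
    have := fin_RT (k : ℝ)
    have h3 := lim_RT hm hκ hi hM hf hs hM0 h2 hC hTC hp (k : ℝ)
    have hN0 : 0 ≤ ∫ y, ‖KT m κ f y‖ ^ p ∂(mu.restrict (Icc (-(k : ℝ)) k)) :=
      integral_nonneg fun y => by positivity
    have h4 := real_final hp hN0 (by positivity) hM1 h3
    have hTi : Integrable (fun y => ‖KT m κ f y‖ ^ p) (mu.restrict (Icc (-(k : ℝ)) k)) := by
      refine Integrable.of_bound (C := (C0 + M1 * C0) ^ p) ?_ (Eventually.of_forall fun y => ?_)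
      · exact (hTm.norm.pow_const _).aestronglyMeasurable
      · rw [Real.norm_eq_abs, abs_of_nonneg (by positivity)]
        exact Real.rpow_le_rpow (norm_nonneg _) (hTC y) hp0.le
    simp only [hen]
    rw [← ofReal_integral_eq_lintegral_ofReal hTi (Eventually.of_forall fun y => by positivity),
      ← ofReal_integral_eq_lintegral_ofReal hfi (Eventually.of_forall fun y => by positivity),
      ← ENNReal.ofReal_mul (by positivity)]
    refine ENNReal.ofReal_le_ofReal (h4.trans (le_of_eq ?_))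
    ring
  have hcov : AECover mu atTop (fun k : ℕ => Icc (-(k : ℝ)) k) :=
    aecover_Icc (tendsto_neg_atTop_atBot.comp tendsto_natCast_atTop_atTop)
      tendsto_natCast_atTop_atTop
  have hall : ∫⁻ y, ‖KT m κ f y‖ₑ ^ p ∂mu ≤
      ENNReal.ofReal (M0 ^ 2 * M1 ^ (p - 2)) * ∫⁻ y, ‖f y‖ₑ ^ p ∂mu :=
    le_of_tendsto' (hcov.lintegral_tendsto_of_countably_generated
      (hTm.enorm.pow_const _).aemeasurable) hcut
  rw [Nm_eq hp0, Nm_eq hp0]
  have h5 := ENNReal.rpow_le_rpow hall (by positivity : (0 : ℝ) ≤ 1 / p)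
  rw [ENNReal.mul_rpow_of_nonneg _ _ (by positivity : (0 : ℝ) ≤ 1 / p),
    ENNReal.ofReal_rpow_of_nonneg (by positivity) (by positivity)] at h5
  refine h5.trans (le_of_eq ?_)
  congr 2
  rw [Real.mul_rpow (by positivity) (by positivity), ← Real.rpow_natCast M0 2,
    ← Real.rpow_mul hM0, ← Real.rpow_mul hM1]
  congr 2
  · push_cast; ring
  · field_simp

end Helper69.CS
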