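import Pool.Agent.Helper69.CS.St
import Pool.Agent.Helper71.P4.St

/-!
# MP_3dd6d4_an, project CS: small losses from the static part (project P4)
-/

set_option autoImplicit false

open MeasureTheory Set Filter Topology
open scoped ENNReal NNReal

noncomputable section

namespace Helper69.CS

open Helper85.BP Helper69.CR Helper69.CR.DB

lemma K2_nonneg (n : ℕ) : 0 ≤ K2 n := by
  unfold K2
  refine setIntegral_nonneg measurableSet_Ioi fun τ _ => ?_
  positivity

lemma small_phi (hPN : StPN) (hKQ : StKQ) (hNP : Helper71.P4.StNP) (n : ℕ) (hn : 8 ≤ n) :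
    Small (fun p => 132 / 125 / p ^ 2) n := by
  obtain ⟨c, hc⟩ := hPN n (by omega)
  refine ⟨0, _, c, hc, Real.rpow_nonneg (K2_nonneg n) _, fun p hp => ?_⟩
  have h1 := hNP n p hn hp
  have h2 : K2 n ^ (1 - 2 / p) ≤ (1 + 37 / 10 * Real.sqrt n + 4 * n) ^ (1 - 2 / p) := by
    apply Real.rpow_le_rpow (K2_nonneg n) (hKQ n (by omega))
    have hp0 : 0 < p := by linarith
    have : 2 / p ≤ 1 := by rw [div_le_one hp0]; linarith
    linarith
  simp only [sub_zero]
  exact h2.trans h1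

/-- `x = e^{-d}` -/
lemma subst_SM (g : ℝ → ℝ) :
    (IntegrableOn (fun d => g (Real.exp (-d))) (Ioi 0) ↔
      IntegrableOn (fun x => g x / x) (Ioo 0 1)) ∧
    ∫ d in Ioi (0 : ℝ), g (Real.exp (-d)) = ∫ x in Ioo (0 : ℝ) 1, g x / x := by
  have him : (fun d : ℝ => Real.exp (-d)) '' Ioi 0 = Ioo 0 1 := by
    ext x
    constructor
    · rintro ⟨d, hd, rfl⟩
      refine ⟨Real.exp_pos _, ?_⟩
      rw [← Real.exp_zero]
      exact Real.exp_lt_exp.2 (by linarith [mem_Ioi.1 hd])
    · rintro ⟨h0, h1⟩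
      refine ⟨-Real.log x, ?_, ?_⟩
      · simpa using Real.log_neg h0 h1
      · simp [Real.exp_log h0]
  have hder : ∀ d ∈ Ioi (0 : ℝ), HasDerivWithinAt (fun d : ℝ => Real.exp (-d)) (-Real.exp (-d))
      (Ioi 0) d := by
    intro d _
    have h : HasDerivAt (fun d : ℝ => Real.exp (-d)) (Real.exp (-d) * -1) d :=
      (Real.hasDerivAt_exp (-d)).comp d (hasDerivAt_neg d)
    rw [mul_neg_one] at h
    exact h.hasDerivWithinAt
  have hinj : InjOn (fun d : ℝ => Real.exp (-d)) (Ioi 0) := by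
    intro a _ b _ hab
    have := Real.exp_injective hab
    linarith
  have e : ∀ d : ℝ, |(-Real.exp (-d))| • (g (Real.exp (-d)) / Real.exp (-d)) =
      g (Real.exp (-d)) := by
    intro d
    rw [abs_neg, abs_of_pos (Real.exp_pos _), smul_eq_mul]
    field_simp
  constructor
  · have h := integrableOn_image_iff_integrableOn_abs_deriv_smul measurableSet_Ioi hder hinj
      (fun x => g x / x)
    rw [him] at h
    simp only [e] at h
    exact h.symm
  · have h := integral_image_eq_integral_abs_deriv_smul measurableSet_Ioi hder hinj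
      (fun x => g x / x)
    rw [him] at h
    simp only [e] at h
    exact h.symm

lemma small_tab (hTN : StTN) (hA3 : StA3) (hP1 : Helper71.P4.StP1) (hTNp : Helper71.P4.StTN)
    (hTB : Helper71.P4.StTB) (n : ℕ) (hn : 3 ≤ n) (hn7 : n ≤ 7) :
    Small (fun p => 132 / 125 / p ^ 2) n := by
  obtain ⟨M, M1, hnum, hM⟩ := hTB n hn hn7
  obtain ⟨ν, hν⟩ := hA3 n (by omega)
  obtain ⟨ρ, hρ⟩ := hM ν hν
  have htd : TD n ν ρ (fun k => 37 / 20 * Real.sqrt k) := by
    refine ⟨hν, fun k x _ _ => hρ.nonneg k x, hρ.meas, ?_, ?_, fun k h1 h2 x h3 h4 =>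
      hρ.pos k x h1 h2 h3 h4, fun k hk => hP1 k (by omega)⟩
    · obtain ⟨C, hC⟩ := hρ.bdd
      exact ⟨C, fun k x _ _ => hC k x⟩
    · intro k x hk
      rcases hk with hk | hk
      · exact hρ.low k x hk
      · exact hρ.high k x (by omega)
  obtain ⟨hl0, c, hc⟩ := hTN n ν ρ _ (by omega) htd
  refine ⟨1, _, c, hc, by have := hl0 8; linarith, fun p hp => ?_⟩
  have hp0 : 0 < p := by linarith
  -- the moments
  have hmx : ∀ k, Measurable fun x => ρ k x / x := fun k => (hρ.meas k).div measurable_id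
  have hik : ∀ k ∈ Finset.range (2 * n), IntegrableOn (fun x => ρ k x / x) (Ioo 0 1) := by
    intro k hk
    refine hρ.int0.mono' (hmx k).aestronglyMeasurable ?_
    refine (ae_restrict_mem measurableSet_Ioo).mono fun x hx => ?_
    rw [Real.norm_eq_abs, abs_of_nonneg (div_nonneg (hρ.nonneg k x) hx.1.le)]
    have h1 := Finset.single_le_sum (f := fun k => ρ k x) (fun k _ => hρ.nonneg k x) hk
    exact div_le_div_of_nonneg_right h1 hx.1.le
  set μ : ℕ → ℝ := fun k => if k ∈ Finset.range (2 * n) then ∫ x in Ioo (0 : ℝ) 1, ρ k x / x else 0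
    with hμ
  have hμ0 : ∀ k, 0 ≤ μ k := by
    intro k
    simp only [hμ]
    split_ifs
    · refine setIntegral_nonneg measurableSet_Ioo fun x hx => div_nonneg (hρ.nonneg k x) hx.1.le
    · exact le_rfl
  have hμe : ∀ k ∈ Finset.range (2 * n), μ k = ∫ x in Ioo (0 : ℝ) 1, ρ k x / x := by
    intro k hk
    simp only [hμ]
    rw [if_pos hk]
  have hs0 : ∑ k ∈ Finset.range (2 * n), μ k ≤ M := by
    rw [Finset.sum_congr rfl hμe, ← integral_finsetSum _ hik]
    refine le_trans (le_of_eq ?_) hρ.le0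
    congr 1
    funext x
    rw [Finset.sum_div]
  have hs1 : ∑ k ∈ Finset.range (2 * n), (k : ℝ) * μ k ≤ M1 := by
    have e1 : ∀ k ∈ Finset.range (2 * n), (k : ℝ) * μ k =
        ∫ x in Ioo (0 : ℝ) 1, (k : ℝ) * (ρ k x / x) := by
      intro k hk
      rw [hμe k hk, integral_const_mul]
    rw [Finset.sum_congr rfl e1, ← integral_finsetSum _ fun k hk => (hik k hk).const_mul _]
    refine le_trans (le_of_eq ?_) hρ.le1
    congr 1
    funext x
    rw [Finset.sum_div]
    refine Finset.sum_congr rfl fun k _ => ?_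
    ring
  have hfin := hTNp n M M1 hn hn7 hnum μ hμ0 hs0 hs1 p hp
  simp only [add_sub_cancel_left]
  refine le_trans ?_ hfin
  unfold lossT
  refine mul_le_mul_of_nonneg_left ?_ (by norm_num)
  have hg0 : ∀ k : ℕ, 0 ≤ 2 * (1 + 37 / 20 * Real.sqrt k) ^ (1 - 4 / p) := fun k => by positivity
  have hid : ∀ k ∈ Finset.range (2 * n), IntegrableOn (fun d => ρ k (Real.exp (-d))) (Ioi 0) :=
    fun k hk => (subst_SM (ρ k)).1.2 (hik k hk)
  have hmaj : IntegrableOn (fun d => ∑ k ∈ Finset.range (2 * n), ρ k (Real.exp (-d)) *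
      (2 * (1 + 37 / 20 * Real.sqrt k) ^ (1 - 4 / p))) (Ioi 0) :=
    integrable_finsetSum _ fun k hk => (hid k hk).mul_const _
  have h1 : ∫ d in Ioi (0 : ℝ), Real.exp (-d / p) * ∑ k ∈ Finset.range (2 * n),
      ρ k (Real.exp (-d)) * (2 * (1 + 37 / 20 * Real.sqrt k) ^ (1 - 4 / p)) ≤
      ∫ d in Ioi (0 : ℝ), ∑ k ∈ Finset.range (2 * n),
        ρ k (Real.exp (-d)) * (2 * (1 + 37 / 20 * Real.sqrt k) ^ (1 - 4 / p)) := by
    have hnn : ∀ d, 0 ≤ ∑ k ∈ Finset.range (2 * n),
        ρ k (Real.exp (-d)) * (2 * (1 + 37 / 20 * Real.sqrt k) ^ (1 - 4 / p)) := fun d =>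
      Finset.sum_nonneg fun k _ => mul_nonneg (hρ.nonneg k _) (hg0 k)
    refine integral_mono_of_nonneg (Eventually.of_forall fun d =>
      mul_nonneg (Real.exp_pos _).le (hnn d)) hmaj ?_
    refine (ae_restrict_mem measurableSet_Ioi).mono fun d hd => ?_
    have h2 : Real.exp (-d / p) ≤ 1 := by
      rw [Real.exp_le_one_iff]
      exact div_nonpos_of_nonpos_of_nonneg (by linarith [mem_Ioi.1 hd]) hp0.le
    calc Real.exp (-d / p) * _ ≤ 1 * _ := mul_le_mul_of_nonneg_right h2 (hnn d)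
      _ = _ := one_mul _
  refine h1.trans (le_of_eq ?_)
  rw [integral_finsetSum _ fun k hk => (hid k hk).mul_const _]
  refine Finset.sum_congr rfl fun k hk => ?_
  rw [integral_mul_const, hμe k hk, (subst_SM (ρ k)).2]

end Helper69.CS
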