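import Pool.Agent.Helper69.CS.St
import Pool.Agent.Helper26.P4.Alg
import Pool.Agent.Helper85.BPM.K2
import Pool.Agent.Helper69.CR.M_SC

/-!
# MP_3dd6d4_an, project CS, module TN: the TAB node
-/

set_option autoImplicit false

open MeasureTheory Set Filter Topology
open scoped ENNReal NNReal

noncomputable section

namespace Helper69.CS

open Helper85.BP Helper69.CR Helper69.CR.DB Helper26.P4

/-! ### measurability and integrability in `d` -/

lemma cpt_bdd_TN (f : ℝ → ℂ) (hfc : HasCompactSupport f) :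
    ∃ R : ℝ, 0 < R ∧ ∀ x, R < |x| → f x = 0 := by
  obtain ⟨R, hR⟩ := hfc.isCompact.isBounded.subset_closedBall 0
  refine ⟨max R 1, by positivity, fun x hx => ?_⟩
  by_contra h
  have h1 : x ∈ tsupport f := subset_tsupport _ h
  have h2 := hR h1
  rw [Metric.mem_closedBall, dist_zero_right, Real.norm_eq_abs] at h2
  exact absurd (lt_of_le_of_lt (le_max_left R 1) hx) (not_lt.mpr h2)

lemma gd_far_TN (f : ℝ → ℂ) (R : ℝ) (hR : ∀ x, R < |x| → f x = 0) (d : ℝ) (hd : 2 * R < |d|) :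
    gd f d = fun _ => 0 := by
  funext x
  unfold gd
  by_cases h : R < |x|
  · rw [hR x h, zero_mul]
  · have h2 : R < |x + d| := by
      have h3 : |d| ≤ |x + d| + |x| := by
        have := abs_sub_abs_le_abs_sub d (-x)
        rw [abs_neg, sub_neg_eq_add, add_comm d x] at this
        linarith
      linarith
    rw [hR _ h2, map_zero, mul_zero]

lemma Bop_gd_cont_TN (k : ℕ) (f : ℝ → ℂ) (hf : Continuous f) (hfc : HasCompactSupport f) (y : ℝ) :
    Continuous fun d => Bop k (gd f d) y := by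
  unfold Bop gd
  obtain ⟨C, hC⟩ := hf.bounded_above_of_compact_support hfc
  have nf := NB.of_cpt hf hfc
  have hi := int_gen (fun u => pp k (Real.exp (-u))) ((pp_cont k).comp (by fun_prop)) nf y
  refine (by fun_prop : Continuous fun d : ℝ => (-1 : ℂ) ^ k *
    (f y * (starRingEnd ℂ) (f (y + d)))).add ?_
  refine continuous_of_dominated (bound := fun u =>
    ‖((pp k (Real.exp (-u)) : ℝ) : ℂ) * f (y + u)‖ * C) (fun d => ?_) (fun d => ?_)
    (hi.norm.mul_const C) ?_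
  · have hp := pp_cont k
    exact (by fun_prop : Continuous fun u : ℝ => ((pp k (Real.exp (-u)) : ℝ) : ℂ) *
      (f (y + u) * (starRingEnd ℂ) (f (y + u + d)))).aestronglyMeasurable
  · refine Eventually.of_forall fun u => ?_
    rw [← mul_assoc, norm_mul, Complex.norm_conj]
    exact mul_le_mul_of_nonneg_left (hC _) (norm_nonneg _)
  · refine Eventually.of_forall fun u => ?_
    fun_prop

lemma Bop_gd_int_TN (k : ℕ) (f : ℝ → ℂ) (hf : Continuous f) (hfc : HasCompactSupport f) (y : ℝ) :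
    Integrable fun d => Bop k (gd f d) y := by
  refine (Bop_gd_cont_TN k f hf hfc y).integrable_of_hasCompactSupport ?_
  obtain ⟨R, hR0, hR⟩ := cpt_bdd_TN f hfc
  refine HasCompactSupport.intro (isCompact_Icc (a := -(2 * R)) (b := 2 * R)) fun d hd => ?_
  have h1 : 2 * R < |d| := by
    by_contra h
    exact hd (abs_le.1 (not_lt.1 h))
  rw [gd_far_TN f R hR d h1]
  unfold Bop
  simp

lemma PP_int_TN (n : ℕ) (c : ℕ → ℝ → ℝ) (hm : ∀ k, Measurable (c k)) (M : ℝ)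
    (h0 : ∀ k x, 0 < x → x < 1 → 0 ≤ c k x) (hM : ∀ k x, 0 < x → x < 1 → c k x ≤ M)
    (f : ℝ → ℂ) (hf : Continuous f) (hfc : HasCompactSupport f) (y : ℝ) :
    IntegrableOn (fun d => (PP n c d (gd f d) y).re) (Ioi 0) := by
  have h1 : IntegrableOn (fun d => PP n c d (gd f d) y) (Ioi 0) := by
    unfold PP
    refine integrable_finset_sum _ fun k _ => ?_
    refine Integrable.bdd_mul (c := M) (Bop_gd_int_TN k f hf hfc y).integrableOn ?_ ?_
    · refine (Complex.measurable_ofReal.comp ((hm k).comp ?_)).aestronglyMeasurable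
      exact (by fun_prop : Continuous fun d : ℝ => Real.exp (-d)).measurable
    · filter_upwards [ae_restrict_mem measurableSet_Ioi] with d hd
      have hx0 : 0 < Real.exp (-d) := Real.exp_pos _
      have hx1 : Real.exp (-d) < 1 := by
        rw [Real.exp_lt_one_iff]
        linarith [mem_Ioi.1 hd]
      rw [Complex.norm_real, Real.norm_eq_abs, abs_of_nonneg (h0 k _ hx0 hx1)]
      exact hM k _ hx0 hx1
  exact h1.re

/-- the rest of the table operator -/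
def SR (n : ℕ) (ρ : ℕ → ℝ → ℝ) (d : ℝ) (v : ℝ → ℂ) (y : ℝ) : ℂ :=
  ∑ k ∈ Finset.range (2 * n), (-ρ k (Real.exp (-d))) • SS k v y

lemma SR_meas (n : ℕ) (ρ : ℕ → ℝ → ℝ) (hm : ∀ k, Measurable (ρ k)) (f : ℝ → ℂ)
    (hf : Continuous f) :
    StronglyMeasurable (fun q : ℝ × ℝ => SR n ρ q.1 (gd f q.1) q.2) := by
  unfold SR
  have h0 := gd_cont f hf
  refine Finset.stronglyMeasurable_fun_sum _ fun k _ => ?_
  have hp := pp_cont k
  have h3 : StronglyMeasurable (fun q : ℝ × ℝ => -ρ k (Real.exp (-q.1))) := by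
    refine Measurable.stronglyMeasurable ?_
    exact ((hm k).comp (by fun_prop : Continuous fun q : ℝ × ℝ => Real.exp (-q.1)).measurable).neg
  refine h3.smul ?_
  unfold SS
  refine StronglyMeasurable.const_mul ?_ 2
  apply StronglyMeasurable.add
  · apply Continuous.stronglyMeasurable
    have h1 : Continuous fun q : ℝ × ℝ => gd f q.1 q.2 := h0
    fun_prop
  · have h2 : StronglyMeasurable (fun w : (ℝ × ℝ) × ℝ =>
        ((Real.exp (-w.2) * pp k (Real.exp (-w.2)) : ℝ) : ℂ) * gd f w.1.1 (w.1.2 + w.2)) := by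
      apply Continuous.stronglyMeasurable
      have h3 : Continuous fun w : (ℝ × ℝ) × ℝ => gd f w.1.1 (w.1.2 + w.2) :=
        h0.comp (by fun_prop : Continuous fun w : (ℝ × ℝ) × ℝ => (w.1.1, w.1.2 + w.2))
      fun_prop
    exact h2.integral_prod_right

/-- Minkowski for a family of operators applied to `f conj f(·+d)` -/
theorem mink_TN (p : ℝ) (hp : 2 < p) (T : ℝ → (ℝ → ℂ) → ℝ → ℂ) (f : ℝ → ℂ) (hf : Continuous f)
    (hfc : HasCompactSupport f)
    (hTm : StronglyMeasurable (fun q : ℝ × ℝ => T q.1 (gd f q.1) q.2)) (E : ℝ → ℝ≥0∞)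
    (hE : ∀ d, 0 < d → ∀ v : ℝ → ℂ, Continuous v → HasCompactSupport v →
      Nm (p / 2) (T d v) ≤ E d * Nm (p / 2) v) :
    (∫⁻ y, (‖f y‖ₑ ^ 2 + 2 * ∫⁻ d in Ioi (0 : ℝ), ‖T d (gd f d) y‖ₑ) ^ (p / 2) ∂mu) ^
          (1 / (p / 2)) ≤
      (1 + 2 * ∫⁻ d in Ioi (0 : ℝ), ENNReal.ofReal (Real.exp (-d / p)) * E d) * Nm p f ^ 2 := by
  have hp0 : 0 < p := by linarith
  have hr1 : 1 < p / 2 := by linarith
  have hr0 : 0 < p / 2 := by linarith
  have hsq : ∀ v : ℝ → ℂ, Nm p v ^ 2 = (∫⁻ y, (‖v y‖ₑ ^ 2) ^ (p / 2) ∂mu) ^ (1 / (p / 2)) := by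
    intro v
    rw [Nm_eq hp0, ← ENNReal.rpow_natCast, ← ENNReal.rpow_mul]
    congr 1
    · refine lintegral_congr fun y => ?_
      rw [← ENNReal.rpow_natCast, ← ENNReal.rpow_mul]
      congr 1
      push_cast
      ring
    · push_cast
      field_simp
  have hFm : Measurable (Function.uncurry fun d y : ℝ => ‖T d (gd f d) y‖ₑ) :=
    hTm.measurable.enorm
  have hmink := minkowski mu (volume.restrict (Ioi (0 : ℝ))) (fun d y => ‖T d (gd f d) y‖ₑ) hFm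
    (p / 2) hr1
  have hT : ∀ d, 0 < d → (∫⁻ y, ‖T d (gd f d) y‖ₑ ^ (p / 2) ∂mu) ^ (1 / (p / 2)) ≤
      ENNReal.ofReal (Real.exp (-d / p)) * E d * Nm p f ^ 2 := by
    intro d hd
    have hc : Continuous (gd f d) :=
      (gd_cont f hf).comp (by fun_prop : Continuous fun y : ℝ => (d, y))
    have h1 := hE d hd (gd f d) hc (gd_cpt f hfc d)
    rw [Nm_eq hr0 (T d (gd f d))] at h1
    refine h1.trans ?_
    have h2 : Nm (p / 2) (gd f d) ≤ Nm p f * (ENNReal.ofReal (Real.exp (-d / p)) * Nm p f) := by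
      have h3 := Nm_mul hp0 (u := f) (v := fun y => (starRingEnd ℂ) (f (y + d))) hf (by fun_prop)
      have h4 : Nm p (fun y => (starRingEnd ℂ) (f (y + d))) = Nm p (fun y => f (y + d)) :=
        Nm_conj p fun y => f (y + d)
      rw [h4, Nm_shift hp0] at h3
      exact h3
    calc E d * Nm (p / 2) (gd f d)
        ≤ E d * (Nm p f * (ENNReal.ofReal (Real.exp (-d / p)) * Nm p f)) := by gcongr
      _ = ENNReal.ofReal (Real.exp (-d / p)) * E d * Nm p f ^ 2 := by ring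
  have hf2 : Measurable fun y => ‖f y‖ₑ ^ 2 := hf.measurable.enorm.pow_const 2
  have hG2 : Measurable fun y => 2 * ∫⁻ d in Ioi (0 : ℝ), ‖T d (gd f d) y‖ₑ :=
    (hFm.lintegral_prod_left').const_mul 2
  calc (∫⁻ y, (‖f y‖ₑ ^ 2 + 2 * ∫⁻ d in Ioi (0 : ℝ), ‖T d (gd f d) y‖ₑ) ^ (p / 2) ∂mu) ^
          (1 / (p / 2))
      ≤ (∫⁻ y, (‖f y‖ₑ ^ 2) ^ (p / 2) ∂mu) ^ (1 / (p / 2)) +
          (∫⁻ y, (2 * ∫⁻ d in Ioi (0 : ℝ), ‖T d (gd f d) y‖ₑ) ^ (p / 2) ∂mu) ^ (1 / (p / 2)) :=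
        ENNReal.lintegral_Lp_add_le hf2.aemeasurable hG2.aemeasurable hr1.le
    _ ≤ Nm p f ^ 2 + 2 * ∫⁻ d in Ioi (0 : ℝ),
          (∫⁻ y, ‖T d (gd f d) y‖ₑ ^ (p / 2) ∂mu) ^ (1 / (p / 2)) := by
        rw [← hsq f]
        gcongr
        have e2 : ∀ y, (2 * ∫⁻ d in Ioi (0 : ℝ), ‖T d (gd f d) y‖ₑ) ^ (p / 2) =
            2 ^ (p / 2) * (∫⁻ d in Ioi (0 : ℝ), ‖T d (gd f d) y‖ₑ) ^ (p / 2) := fun y =>
          ENNReal.mul_rpow_of_nonneg _ _ hr0.le
        simp only [e2]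
        rw [lintegral_const_mul', ENNReal.mul_rpow_of_nonneg _ _ (by positivity),
          ← ENNReal.rpow_mul, mul_one_div_cancel hr0.ne', ENNReal.rpow_one]
        · gcongr
        · exact ENNReal.rpow_ne_top_of_nonneg hr0.le (by norm_num)
    _ ≤ Nm p f ^ 2 + 2 * ∫⁻ d in Ioi (0 : ℝ),
          ENNReal.ofReal (Real.exp (-d / p)) * E d * Nm p f ^ 2 := by
        gcongr 1
        gcongr 1
        refine setLIntegral_mono' measurableSet_Ioi fun d hd => hT d hd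
    _ ≤ _ := by
        rw [add_mul, one_mul, mul_assoc]
        gcongr
        rw [lintegral_mul_const' _ _ (ENNReal.pow_ne_top (Nm_ne_top p hf hfc))]

/-! ### the coefficients -/

/-- the coefficients of the node -/
def cT (n : ℕ) (ν ρ : ℕ → ℝ → ℝ) (k : ℕ) (x : ℝ) : ℝ :=
  if 1 ≤ k ∧ k < 2 * n then cc (fun j => ν j x) (fun j => ρ j x) k else 0

lemma cT_sum {E : Type*} [AddCommGroup E] [Module ℝ E] (n : ℕ) (hn : 1 ≤ n) (ν ρ : ℕ → ℝ → ℝ)
    (P : ℕ → ℝ) (hT : TD n ν ρ P) (x : ℝ) (F : ℕ → E) :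
    ∑ k ∈ Finset.range (2 * n + 1), cT n ν ρ k x • F k =
      ∑ k ∈ Finset.range (2 * n), ν k x • F k +
      ∑ k ∈ Finset.range (2 * n), ρ k x • ((-((k : ℝ) / (2 * k - 1))) • F (k - 1) +
      ((4 * (k : ℝ) ^ 2 - 2) / (4 * (k : ℝ) ^ 2 - 1)) • F k +
      (-((k : ℝ) / (2 * k + 1))) • F (k + 1)) := by
  have r0 : ρ 0 x = 0 := hT.zero 0 x (Or.inl (by omega))
  have r1 : ρ 1 x = 0 := hT.zero 1 x (Or.inl le_rfl)
  rw [shift_sum n hn (fun j => ν j x) (fun j => ρ j x) r0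
    (fun k hk => hT.zero k x (Or.inr (by omega))) F, Finset.sum_range_succ]
  have e1 : cT n ν ρ (2 * n) x = 0 := by
    unfold cT
    rw [if_neg (by omega)]
  rw [e1, zero_smul, add_zero]
  refine Finset.sum_congr rfl fun k hk => ?_
  have hk' := Finset.mem_range.1 hk
  congr 1
  unfold cT
  rcases Nat.eq_zero_or_pos k with h | h
  · rw [if_neg (by omega), h]
    unfold cc
    beta_reduce
    rw [Nat.zero_sub, zero_add, r0, r1, hT.nn.zero]
    simp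
  · rw [if_pos ⟨h, hk'⟩]

lemma cT_nonneg (n : ℕ) (ν ρ : ℕ → ℝ → ℝ) (P : ℕ → ℝ) (hT : TD n ν ρ P) (k : ℕ) (x : ℝ)
    (h0 : 0 < x) (h1 : x < 1) : 0 ≤ cT n ν ρ k x := by
  unfold cT
  split_ifs with h
  · exact hT.cpos k h.1 h.2 x h0 h1
  · exact le_rfl

lemma cT_meas (n : ℕ) (ν ρ : ℕ → ℝ → ℝ) (P : ℕ → ℝ) (hT : TD n ν ρ P) (k : ℕ) :
    Measurable (cT n ν ρ k) := by
  unfold cT
  by_cases h : 1 ≤ k ∧ k < 2 * n
  · simp only [if_pos h]
    unfold cc
    have h1 := (hT.nn.cont k).measurable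
    have h2 := hT.meas k
    have h3 := hT.meas (k + 1)
    have h4 := hT.meas (k - 1)
    exact ((h1.add (h2.const_mul _)).sub (h3.const_mul _)).sub (h4.const_mul _)
  · simp only [if_neg h]
    exact measurable_const

lemma nu_bdd_TN (n : ℕ) (ν : ℕ → ℝ → ℝ) (hc : ∀ k, Continuous (ν k)) :
    ∃ B : ℝ, 0 ≤ B ∧ ∀ k, k < 2 * n → ∀ x, 0 < x → x < 1 → |ν k x| ≤ B := by
  have h1 : ∀ k, ∃ B : ℝ, ∀ x ∈ Icc (0 : ℝ) 1, ‖ν k x‖ ≤ B := fun k =>
    isCompact_Icc.exists_bound_of_continuousOn (hc k).continuousOn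
  choose B hB using h1
  have hB0 : ∀ k, 0 ≤ B k := fun k => (norm_nonneg _).trans (hB k 0 (by simp))
  refine ⟨∑ k ∈ Finset.range (2 * n), B k, Finset.sum_nonneg fun k _ => hB0 k,
    fun k hk x hx0 hx1 => ?_⟩
  have h2 := hB k x ⟨hx0.le, hx1.le⟩
  rw [Real.norm_eq_abs] at h2
  exact h2.trans (Finset.single_le_sum (fun j _ => hB0 j) (Finset.mem_range.2 hk))

lemma cT_bdd (n : ℕ) (ν ρ : ℕ → ℝ → ℝ) (P : ℕ → ℝ) (hT : TD n ν ρ P) :
    ∃ M : ℝ, ∀ k x, 0 < x → x < 1 → cT n ν ρ k x ≤ M := by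
  obtain ⟨B, hB0, hB⟩ := nu_bdd_TN n ν hT.nn.cont
  obtain ⟨C, hC⟩ := hT.bdd
  have hC0 : 0 ≤ C := (hT.nonneg 0 (1 / 2) (by norm_num) (by norm_num)).trans
    (hC 0 (1 / 2) (by norm_num) (by norm_num))
  refine ⟨B + C, fun k x hx0 hx1 => ?_⟩
  unfold cT
  split_ifs with h
  · unfold cc
    beta_reduce
    have h1 := le_of_abs_le (hB k h.2 x hx0 hx1)
    have h2 := hC k x hx0 hx1
    have h2' := hT.nonneg k x hx0 hx1
    have h3 := hT.nonneg (k + 1) x hx0 hx1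
    have h4 := hT.nonneg (k - 1) x hx0 hx1
    have hk : (1 : ℝ) ≤ k := by exact_mod_cast h.1
    have e1 : (4 * (k : ℝ) ^ 2 - 2) / (4 * (k : ℝ) ^ 2 - 1) ≤ 1 := by
      rw [div_le_one (by nlinarith)]
      linarith
    have e2 : 0 ≤ ((k : ℝ) + 1) / (2 * k + 1) := by positivity
    have e3 : 0 ≤ ((k : ℝ) - 1) / (2 * k - 1) := div_nonneg (by linarith) (by linarith)
    have f1 : (4 * (k : ℝ) ^ 2 - 2) / (4 * (k : ℝ) ^ 2 - 1) * ρ k x ≤ 1 * ρ k x :=
      mul_le_mul_of_nonneg_right e1 h2'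
    have f2 := mul_nonneg e2 h3
    have f3 := mul_nonneg e3 h4
    linarith
  · positivity

/-- the symbols -/
lemma kP_le (n : ℕ) (hn : 1 ≤ n) (ν ρ : ℕ → ℝ → ℝ) (P : ℕ → ℝ) (hT : TD n ν ρ P) (b d : ℝ)
    (hb : 0 < b) (hb1 : b ≤ 1) (hd : 0 < d) :
    kP n (cT n ν ρ) b d ≤ kapb n b (Real.exp (-d)) := by
  have hC : ∀ k, 0 ≤ Cn k b := fun k => Cn_nonneg k _ hb hb1
  set x : ℝ := Real.exp (-d) with hx
  have hx0 : 0 < x := Real.exp_pos _
  have hx1 : x < 1 := by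
    rw [hx, Real.exp_lt_one_iff]
    linarith
  have h1 := cT_sum n hn ν ρ P hT x (fun j => Cn j b)
  simp only [smul_eq_mul] at h1
  unfold kP
  rw [← hx, h1, kapb_eq n ν hT.nn b x hb]
  have h2 : ∑ k ∈ Finset.range (2 * n), ρ k x * (-((k : ℝ) / (2 * k - 1)) * Cn (k - 1) b +
      (4 * (k : ℝ) ^ 2 - 2) / (4 * (k : ℝ) ^ 2 - 1) * Cn k b +
      -((k : ℝ) / (2 * k + 1)) * Cn (k + 1) b) ≤ 0 := by
    refine Finset.sum_nonpos fun k _ => ?_
    rcases Nat.eq_zero_or_pos k with h | h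
    · rw [h, hT.zero 0 x (Or.inl (by omega)), zero_mul]
    · obtain ⟨m, rfl⟩ : ∃ m, k = m + 1 := ⟨k - 1, by omega⟩
      refine mul_nonpos_of_nonneg_of_nonpos (hT.nonneg _ x hx0 hx1) ?_
      have h3 := sig_eq m b hb
      have h4 : 0 ≤ 2 * b ^ 2 / (((m : ℝ) + b) * (m + 1 + b)) * Cn m b :=
        mul_nonneg (by positivity) (hC m)
      have ea : 2 * ((m + 1 : ℕ) : ℝ) - 1 = 2 * m + 1 := by push_cast; ring
      have eb : 2 * ((m + 1 : ℕ) : ℝ) + 1 = 2 * m + 3 := by push_cast; ring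
      have ec : ((m + 1 : ℕ) : ℝ) = (m : ℝ) + 1 := by push_cast; ring
      rw [ea, eb, ec, Nat.add_sub_cancel]
      have e5 : m + 1 + 1 = m + 2 := rfl
      rw [e5]
      linarith
  linarith

/-- the operator identity -/
lemma TT_PP (n : ℕ) (hn : 1 ≤ n) (ν ρ : ℕ → ℝ → ℝ) (P : ℕ → ℝ) (hT : TD n ν ρ P) (d : ℝ)
    {v : ℝ → ℂ} (nv : NB v) (y : ℝ) :
    TT n d v y = PP n (cT n ν ρ) d v y + SR n ρ d v y := by
  have h1 := cT_sum n hn ν ρ P hT (Real.exp (-d)) (fun j => Bop j v y)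
  simp only [Complex.real_smul] at h1
  unfold PP
  rw [h1, TT_eq n ν hT.nn d nv y]
  simp only [Complex.real_smul]
  have h2 : SR n ρ d v y = -∑ k ∈ Finset.range (2 * n), ((ρ k (Real.exp (-d)) : ℝ) : ℂ) *
      (((-((k : ℝ) / (2 * k - 1)) : ℝ) : ℂ) * Bop (k - 1) v y +
        (((4 * (k : ℝ) ^ 2 - 2) / (4 * (k : ℝ) ^ 2 - 1) : ℝ) : ℂ) * Bop k v y +
        ((-((k : ℝ) / (2 * k + 1)) : ℝ) : ℂ) * Bop (k + 1) v y) := by
    unfold SR
    rw [← Finset.sum_neg_distrib]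
    refine Finset.sum_congr rfl fun k _ => ?_
    rcases Nat.eq_zero_or_pos k with h | h
    · rw [h, hT.zero 0 _ (Or.inl (by omega))]
      simp
    · rw [SS_eq k h nv y]
      simp only [Complex.real_smul]
      push_cast
      ring
  rw [h2]
  ring

/-- the rest of the node as an integral -/
lemma Qn_TN (n : ℕ) (hn : 1 ≤ n) (ν ρ : ℕ → ℝ → ℝ) (P : ℕ → ℝ) (hT : TD n ν ρ P) (f : ℝ → ℂ)
    (hf : Continuous f) (hfc : HasCompactSupport f) (y : ℝ) :
    Qn n (cT n ν ρ) f y = ‖f y‖ ^ 2 + 2 * ∫ d in Ioi (0 : ℝ), (SR n ρ d (gd f d) y).re := by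
  obtain ⟨M, hM⟩ := cT_bdd n ν ρ P hT
  have h1 := PP_int_TN n (cT n ν ρ) (cT_meas n ν ρ P hT) M
    (fun k x => cT_nonneg n ν ρ P hT k x) hM f hf hfc y
  obtain ⟨h2, h3⟩ := doubling n f hf hfc y
  have h4 : ∀ d, (SR n ρ d (gd f d) y).re =
      (TT n d (gd f d) y).re - (PP n (cT n ν ρ) d (gd f d) y).re := by
    intro d
    have hc : Continuous (gd f d) :=
      (gd_cont f hf).comp (by fun_prop : Continuous fun y : ℝ => (d, y))
    rw [TT_PP n hn ν ρ P hT d (NB.of_cpt hc (gd_cpt f hfc d)) y, Complex.add_re]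
    ring
  simp only [h4]
  unfold Qn
  rw [integral_sub h2 h1, h3]
  ring

/-- the bound of the rest -/
lemma SR_norm (hTSb : StTSb) (n : ℕ) (ν ρ : ℕ → ℝ → ℝ) (P : ℕ → ℝ) (hT : TD n ν ρ P) (p : ℝ)
    (hp : 4 < p) (d : ℝ) (hd : 0 < d) (v : ℝ → ℂ) (hv : Continuous v) (hs : HasCompactSupport v) :
    Nm (p / 2) (SR n ρ d v) ≤ ENNReal.ofReal (∑ k ∈ Finset.range (2 * n),
      ρ k (Real.exp (-d)) * (2 * (1 + P k) ^ (1 - 4 / p))) * Nm (p / 2) v := by
  have nv := NB.of_cpt hv hs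
  have hr : 1 ≤ p / 2 := by linarith
  have hx0 : 0 < Real.exp (-d) := Real.exp_pos _
  have hx1 : Real.exp (-d) < 1 := by
    rw [Real.exp_lt_one_iff]
    linarith
  have rn : ∀ k, 0 ≤ ρ k (Real.exp (-d)) := fun k => hT.nonneg k _ hx0 hx1
  have cS : ∀ k ∈ Finset.range (2 * n), Continuous fun y => (-ρ k (Real.exp (-d))) • SS k v y := by
    intro k _
    rcases Nat.eq_zero_or_pos k with h | h
    · have : (fun y => (-ρ k (Real.exp (-d))) • SS k v y) = fun _ => 0 := by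
        funext y
        rw [h, hT.zero 0 _ (Or.inl (by omega))]
        simp
      rw [this]
      exact continuous_const
    · exact smul_cont _ (SS_cont k h nv)
  have hP0 : ∀ k, 2 ≤ k → 0 ≤ P k := by
    intro k hk
    refine le_trans ?_ (hT.P k hk)
    exact intervalIntegral.integral_nonneg (by norm_num) fun s _ => abs_nonneg _
  have hterm : ∀ k ∈ Finset.range (2 * n),
      0 ≤ ρ k (Real.exp (-d)) * (2 * (1 + P k) ^ (1 - 4 / p)) := by
    intro k _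
    rcases Nat.lt_or_ge k 2 with h | h
    · rw [hT.zero k _ (Or.inl (by omega)), zero_mul]
    · have := hP0 k h
      exact mul_nonneg (rn k) (by positivity)
  have b2 : ∀ k ∈ Finset.range (2 * n), Nm (p / 2) (fun y => (-ρ k (Real.exp (-d))) • SS k v y) ≤
      ENNReal.ofReal (ρ k (Real.exp (-d)) * (2 * (1 + P k) ^ (1 - 4 / p))) * Nm (p / 2) v := by
    intro k hk
    rw [Nm_smul, abs_neg, abs_of_nonneg (rn k)]
    rcases Nat.lt_or_ge k 2 with h | h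
    · rw [hT.zero k _ (Or.inl (by omega))]
      simp
    · rw [ENNReal.ofReal_mul (rn k), mul_assoc]
      gcongr
      have h5 := hTSb.2 k (p / 2) (P k) v h (by linarith) (hT.P k h) hv hs
      have e6 : (1 : ℝ) - 2 / (p / 2) = 1 - 4 / p := by
        have : p ≠ 0 := by linarith
        field_simp
        ring
      rw [e6] at h5
      exact h5
  have t3 := Nm_sum hr (Finset.range (2 * n)) (fun k y => (-ρ k (Real.exp (-d))) • SS k v y) cS
  refine t3.trans ((Finset.sum_le_sum b2).trans (le_of_eq ?_))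
  rw [← Finset.sum_mul, ← ENNReal.ofReal_sum_of_nonneg hterm]

lemma int_bdd_TN (φ : ℝ → ℝ) (hm : Measurable φ) (C : ℝ) (hb : ∀ d, 0 < d → |φ d| ≤ C) (a : ℝ)
    (ha : 0 < a) : IntegrableOn (fun d => Real.exp (-(a * d)) * φ d) (Ioi 0) := by
  have h1 : IntegrableOn (fun d : ℝ => Real.exp (-(a * d))) (Ioi 0) := by
    have := integrableOn_exp_mul_Ioi (a := -a) (by linarith) 0
    simpa only [neg_mul] using this
  refine Integrable.mul_bdd (c := C) h1 hm.aestronglyMeasurable ?_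
  filter_upwards [ae_restrict_mem measurableSet_Ioi] with d hd
  rw [Real.norm_eq_abs]
  exact hb d hd

/-! ### the loss -/

/-- the integrand of the loss -/
def gL (n : ℕ) (ρ : ℕ → ℝ → ℝ) (P : ℕ → ℝ) (p d : ℝ) : ℝ :=
  ∑ k ∈ Finset.range (2 * n), ρ k (Real.exp (-d)) * (2 * (1 + P k) ^ (1 - 4 / p))

lemma expd_TN (d : ℝ) (hd : 0 < d) : 0 < Real.exp (-d) ∧ Real.exp (-d) < 1 := by
  refine ⟨Real.exp_pos _, ?_⟩
  rw [Real.exp_lt_one_iff]
  linarith

lemma P_nonneg_TN (n : ℕ) (ν ρ : ℕ → ℝ → ℝ) (P : ℕ → ℝ) (hT : TD n ν ρ P) (k : ℕ) (hk : 2 ≤ k) :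
    0 ≤ P k := by
  refine le_trans ?_ (hT.P k hk)
  exact intervalIntegral.integral_nonneg (by norm_num) fun s _ => abs_nonneg _

lemma gL_nonneg (n : ℕ) (ν ρ : ℕ → ℝ → ℝ) (P : ℕ → ℝ) (hT : TD n ν ρ P) (p d : ℝ) (hd : 0 < d) :
    0 ≤ gL n ρ P p d := by
  unfold gL
  obtain ⟨hx0, hx1⟩ := expd_TN d hd
  refine Finset.sum_nonneg fun k _ => ?_
  rcases Nat.lt_or_ge k 2 with h | h
  · rw [hT.zero k _ (Or.inl (by omega)), zero_mul]
  · have := P_nonneg_TN n ν ρ P hT k h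
    exact mul_nonneg (hT.nonneg k _ hx0 hx1) (by positivity)

lemma gL_meas (n : ℕ) (ν ρ : ℕ → ℝ → ℝ) (P : ℕ → ℝ) (hT : TD n ν ρ P) (p : ℝ) :
    Measurable (gL n ρ P p) := by
  unfold gL
  refine Finset.measurable_fun_sum _ fun k _ => ?_
  exact ((hT.meas k).comp (by fun_prop : Continuous fun d : ℝ => Real.exp (-d)).measurable).mul_const _

lemma gL_bdd (n : ℕ) (ν ρ : ℕ → ℝ → ℝ) (P : ℕ → ℝ) (hT : TD n ν ρ P) (p : ℝ) :
    ∃ C : ℝ, ∀ d, 0 < d → |gL n ρ P p d| ≤ C := by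
  obtain ⟨C, hC⟩ := hT.bdd
  refine ⟨∑ k ∈ Finset.range (2 * n), C * |2 * (1 + P k) ^ (1 - 4 / p)|, fun d hd => ?_⟩
  obtain ⟨hx0, hx1⟩ := expd_TN d hd
  unfold gL
  refine (Finset.abs_sum_le_sum_abs _ _).trans (Finset.sum_le_sum fun k _ => ?_)
  rw [abs_mul, abs_of_nonneg (hT.nonneg k _ hx0 hx1)]
  exact mul_le_mul_of_nonneg_right (hC k _ hx0 hx1) (abs_nonneg _)

lemma lossT_nonneg (n : ℕ) (ν ρ : ℕ → ℝ → ℝ) (P : ℕ → ℝ) (hT : TD n ν ρ P) (p : ℝ) :
    0 ≤ lossT n ρ P p := by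
  unfold lossT
  refine mul_nonneg (by norm_num) (setIntegral_nonneg measurableSet_Ioi fun d hd => ?_)
  exact mul_nonneg (Real.exp_pos _).le (gL_nonneg n ν ρ P hT p d hd)

lemma rest_TN (hTSb : StTSb) (n : ℕ) (hn : 1 ≤ n) (ν ρ : ℕ → ℝ → ℝ) (P : ℕ → ℝ)
    (hT : TD n ν ρ P) (p : ℝ) (f : ℝ → ℂ) (hp : 4 < p) (hf : Continuous f)
    (hfc : HasCompactSupport f) :
    eLpNorm (Qn n (cT n ν ρ) f) (ENNReal.ofReal (p / 2)) mu ≤
      ENNReal.ofReal (1 + lossT n ρ P p) * Nm p f ^ 2 := by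
  have hp0 : 0 < p := by linarith
  have hr0 : 0 < p / 2 := by linarith
  obtain ⟨C, hC⟩ := gL_bdd n ν ρ P hT p
  have hint : IntegrableOn (fun d => Real.exp (-d / p) * gL n ρ P p d) (Ioi 0) := by
    have h := int_bdd_TN _ (gL_meas n ν ρ P hT p) C hC (1 / p) (by positivity)
    refine h.congr (Eventually.of_forall fun d => ?_)
    beta_reduce
    congr 2
    ring
  have hpt : ∀ y, ‖Qn n (cT n ν ρ) f y‖ₑ ≤ ‖f y‖ₑ ^ 2 +
      2 * ∫⁻ d in Ioi (0 : ℝ), ‖SR n ρ d (gd f d) y‖ₑ := by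
    intro y
    rw [Qn_TN n hn ν ρ P hT f hf hfc y]
    refine (enorm_add_le _ _).trans ?_
    gcongr
    · rw [enorm_pow, enorm_norm]
    · rw [enorm_mul]
      have e2 : ‖(2 : ℝ)‖ₑ = 2 := by
        rw [← ofReal_norm, Real.norm_eq_abs, abs_of_pos (by norm_num : (0 : ℝ) < 2),
          ENNReal.ofReal_ofNat]
      rw [e2]
      gcongr
      refine (enorm_integral_le_lintegral_enorm _).trans ?_
      refine lintegral_mono fun d => ?_
      rw [← ofReal_norm, ← ofReal_norm]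
      refine ENNReal.ofReal_le_ofReal ?_
      rw [Real.norm_eq_abs]
      exact Complex.abs_re_le_norm _
  rw [eLpNorm_eq_lintegral_rpow_enorm_toReal (by simpa using hr0) ENNReal.ofReal_ne_top,
    ENNReal.toReal_ofReal hr0.le]
  have h1 : (∫⁻ y, ‖Qn n (cT n ν ρ) f y‖ₑ ^ (p / 2) ∂mu) ^ (1 / (p / 2)) ≤
      (∫⁻ y, (‖f y‖ₑ ^ 2 + 2 * ∫⁻ d in Ioi (0 : ℝ), ‖SR n ρ d (gd f d) y‖ₑ) ^ (p / 2) ∂mu) ^
        (1 / (p / 2)) := by
    gcongr with y
    exact hpt y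
  refine h1.trans ((mink_TN p (by linarith) (SR n ρ) f hf hfc (SR_meas n ρ hT.meas f hf)
    (fun d => ENNReal.ofReal (gL n ρ P p d)) (fun d hd v hv hs =>
      SR_norm hTSb n ν ρ P hT p hp d hd v hv hs)).trans (le_of_eq ?_))
  congr 1
  have h2 : ∫⁻ d in Ioi (0 : ℝ), ENNReal.ofReal (Real.exp (-d / p)) *
      ENNReal.ofReal (gL n ρ P p d) =
      ENNReal.ofReal (∫ d in Ioi (0 : ℝ), Real.exp (-d / p) * gL n ρ P p d) := by
    rw [ofReal_integral_eq_lintegral_ofReal hint]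
    · refine lintegral_congr fun d => ?_
      rw [ENNReal.ofReal_mul (Real.exp_pos _).le]
    · filter_upwards [ae_restrict_mem measurableSet_Ioi] with d hd
      exact mul_nonneg (Real.exp_pos _).le (gL_nonneg n ν ρ P hT p d hd)
  have h3 : lossT n ρ P p = 2 * ∫ d in Ioi (0 : ℝ), Real.exp (-d / p) * gL n ρ P p d := rfl
  rw [h2, ENNReal.ofReal_add zero_le_one (lossT_nonneg n ν ρ P hT p), ENNReal.ofReal_one, h3,
    ENNReal.ofReal_mul (by norm_num), ENNReal.ofReal_ofNat]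

/-! ### the symbols -/

lemma kP_meas (n : ℕ) (ν ρ : ℕ → ℝ → ℝ) (P : ℕ → ℝ) (hT : TD n ν ρ P) (b : ℝ) :
    Measurable (kP n (cT n ν ρ) b) := by
  unfold kP
  refine Finset.measurable_fun_sum _ fun k _ => ?_
  exact ((cT_meas n ν ρ P hT k).comp
    (by fun_prop : Continuous fun d : ℝ => Real.exp (-d)).measurable).mul_const _

lemma kP_nonneg (n : ℕ) (ν ρ : ℕ → ℝ → ℝ) (P : ℕ → ℝ) (hT : TD n ν ρ P) (b d : ℝ) (hb : 0 < b)
    (hb1 : b ≤ 1) (hd : 0 < d) : 0 ≤ kP n (cT n ν ρ) b d := by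
  obtain ⟨hx0, hx1⟩ := expd_TN d hd
  unfold kP
  exact Finset.sum_nonneg fun k _ => mul_nonneg (cT_nonneg n ν ρ P hT k _ hx0 hx1)
    (Cn_nonneg k b hb hb1)

lemma kapb_meas_TN (n : ℕ) (ν ρ : ℕ → ℝ → ℝ) (P : ℕ → ℝ) (hT : TD n ν ρ P) (b : ℝ) (hb : 0 < b) :
    Measurable (fun d => kapb n b (Real.exp (-d))) := by
  have h : (fun d => kapb n b (Real.exp (-d))) =
      fun d => ∑ k ∈ Finset.range (2 * n), ν k (Real.exp (-d)) * Cn k b :=
    funext fun d => kapb_eq n ν hT.nn b _ hb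
  rw [h]
  refine Finset.measurable_fun_sum _ fun k _ => ?_
  exact ((hT.nn.cont k).measurable.comp
    (by fun_prop : Continuous fun d : ℝ => Real.exp (-d)).measurable).mul_const _

lemma kapb_bdd_TN (n : ℕ) (ν ρ : ℕ → ℝ → ℝ) (P : ℕ → ℝ) (hT : TD n ν ρ P) (b : ℝ) (hb : 0 < b) :
    ∃ C : ℝ, ∀ d, 0 < d → |kapb n b (Real.exp (-d))| ≤ C := by
  obtain ⟨B, hB0, hB⟩ := nu_bdd_TN n ν hT.nn.cont
  refine ⟨∑ k ∈ Finset.range (2 * n), B * |Cn k b|, fun d hd => ?_⟩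
  obtain ⟨hx0, hx1⟩ := expd_TN d hd
  rw [kapb_eq n ν hT.nn b _ hb]
  refine (Finset.abs_sum_le_sum_abs _ _).trans (Finset.sum_le_sum fun k hk => ?_)
  rw [abs_mul]
  exact mul_le_mul_of_nonneg_right (hB k (Finset.mem_range.1 hk) _ hx0 hx1) (abs_nonneg _)

lemma mono_TN (n : ℕ) (hn : 1 ≤ n) (ν ρ : ℕ → ℝ → ℝ) (P : ℕ → ℝ) (hT : TD n ν ρ P) (b a : ℝ)
    (hb : 0 < b) (hb1 : b ≤ 1) (ha : 0 < a) (ω : ℝ → ℝ) (hω : Continuous ω) (h0 : ∀ d, 0 ≤ ω d)
    (D : ℝ) (hD : ∀ d, ω d ≤ D) :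
    ∫ d in Ioi (0 : ℝ), Real.exp (-(a * d)) * (ω d * kP n (cT n ν ρ) b d) ≤
      ∫ d in Ioi (0 : ℝ), Real.exp (-(a * d)) * (ω d * kapb n b (Real.exp (-d))) := by
  obtain ⟨C, hC⟩ := kapb_bdd_TN n ν ρ P hT b hb
  have hD0 : 0 ≤ D := (h0 0).trans (hD 0)
  have hC' : ∀ d, 0 < d → |kP n (cT n ν ρ) b d| ≤ C := by
    intro d hd
    rw [abs_of_nonneg (kP_nonneg n ν ρ P hT b d hb hb1 hd)]
    exact (kP_le n hn ν ρ P hT b d hb hb1 hd).trans ((le_abs_self _).trans (hC d hd))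
  refine setIntegral_mono_on ?_ ?_ measurableSet_Ioi fun d hd => ?_
  · refine int_bdd_TN _ (hω.measurable.mul (kP_meas n ν ρ P hT b)) (D * C) (fun d hd => ?_) a ha
    rw [Pi.mul_apply, abs_mul, abs_of_nonneg (h0 d)]
    exact mul_le_mul (hD d) (hC' d hd) (abs_nonneg _) hD0
  · refine int_bdd_TN _ (hω.measurable.mul (kapb_meas_TN n ν ρ P hT b hb)) (D * C)
      (fun d hd => ?_) a ha
    rw [Pi.mul_apply, abs_mul, abs_of_nonneg (h0 d)]
    exact mul_le_mul (hD d) (hC d hd) (abs_nonneg _) hD0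
  · exact mul_le_mul_of_nonneg_left (mul_le_mul_of_nonneg_left
      (kP_le n hn ν ρ P hT b d hb hb1 hd) (h0 d)) (Real.exp_pos _).le

lemma fub_TN (W : ℝ → ℝ) (hW : Adm 1 W) (φ : ℝ → ℝ) (hm : Measurable φ) (C : ℝ)
    (hb : ∀ d, 0 < d → |φ d| ≤ C) (a : ℝ) (ha : 0 < a) :
    Integrable (fun t => W t * ∫ d in Ioi (0 : ℝ),
      Real.exp (-(a * d)) * Real.cos (a * t * d) * φ d) ∧
    ∫ t, W t * (∫ d in Ioi (0 : ℝ), Real.exp (-(a * d)) * Real.cos (a * t * d) * φ d) =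
      ∫ d in Ioi (0 : ℝ), Real.exp (-(a * d)) * (Wh 1 W (a * d) * φ d) := by
  have hWi := W_int_SC W hW
  have hφ := int_bdd_TN φ hm C hb a ha
  have hprod : Integrable (fun q : ℝ × ℝ => W q.1 * (Real.exp (-(a * q.2)) * φ q.2))
      (volume.prod (volume.restrict (Ioi (0 : ℝ)))) := hWi.mul_prod hφ
  have hF : Integrable (fun q : ℝ × ℝ => W q.1 * (Real.exp (-(a * q.2)) *
      Real.cos (a * q.1 * q.2) * φ q.2)) (volume.prod (volume.restrict (Ioi (0 : ℝ)))) := by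
    have h := hprod.mul_bdd (c := 1) (g := fun q : ℝ × ℝ => Real.cos (a * q.1 * q.2))
      (by fun_prop : Continuous fun q : ℝ × ℝ => Real.cos (a * q.1 * q.2)).aestronglyMeasurable
      (Eventually.of_forall fun q => by
        rw [Real.norm_eq_abs]
        exact Real.abs_cos_le_one _)
    refine h.congr (Eventually.of_forall fun q => ?_)
    beta_reduce
    ring
  refine ⟨?_, ?_⟩
  · have h := hF.integral_prod_left
    refine h.congr (Eventually.of_forall fun t => ?_)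
    exact integral_const_mul (W t) fun d =>
      Real.exp (-(a * d)) * Real.cos (a * t * d) * φ d
  · have h := integral_integral_swap (μ := volume) (ν := volume.restrict (Ioi (0 : ℝ)))
      (f := fun t d : ℝ => W t * (Real.exp (-(a * d)) * Real.cos (a * t * d) * φ d)) hF
    have e1 : ∀ t, ∫ d in Ioi (0 : ℝ), W t * (Real.exp (-(a * d)) * Real.cos (a * t * d) * φ d) =
        W t * ∫ d in Ioi (0 : ℝ), Real.exp (-(a * d)) * Real.cos (a * t * d) * φ d := fun t =>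
      integral_const_mul _ _
    have e2 : ∀ d, ∫ t, W t * (Real.exp (-(a * d)) * Real.cos (a * t * d) * φ d) =
        Real.exp (-(a * d)) * (Wh 1 W (a * d) * φ d) := by
      intro d
      unfold Wh
      rw [← integral_mul_const, ← integral_const_mul]
      refine integral_congr_ae (Eventually.of_forall fun t => ?_)
      beta_reduce
      have e3 : 1 * t * (a * d) = a * t * d := by ring
      rw [e3]
      ring
    simp only [e1, e2] at h
    exact h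

theorem hTN (hTSb : StTSb) (hSCb : StSCb) : StTN := by
  intro n ν ρ P hn hT
  refine ⟨lossT_nonneg n ν ρ P hT, cT n ν ρ, ?_⟩
  refine ⟨zero_le_one, fun k x h0 h1 => cT_nonneg n ν ρ P hT k x h0 h1, cT_meas n ν ρ P hT,
    cT_bdd n ν ρ P hT, fun p _ => ?_, fun p f hp hf hfc => rest_TN hTSb n hn ν ρ P hT p f hp hf hfc,
    fun a ha0 ha1 => ?_, fun W hW => ?_⟩
  · have := lossT_nonneg n ν ρ P hT p
    linarith
  · have h1 := (hSCb n a hn ha0 ha1).1 0
    have h2 := mono_TN n hn ν ρ P hT (2 * a) a (by linarith) (by linarith) ha0 (fun _ => 1)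
      continuous_const (fun _ => zero_le_one) 1 (fun _ => le_rfl)
    have e1 : ‖mm n ((a : ℂ) - Complex.I * ((0 : ℝ) : ℂ) * a)‖ ^ 2 = Cn n a ^ 2 := by
      have e2 : (a : ℂ) - Complex.I * ((0 : ℝ) : ℂ) * a = (a : ℂ) := by simp
      rw [e2, hPF.2.2.2 n a, Complex.norm_real, Real.norm_eq_abs, sq_abs]
    rw [e1] at h1
    simp only [mul_zero, zero_mul, Real.cos_zero, mul_one] at h1
    simp only [one_mul] at h2
    rw [h1]
    linarith
  · obtain ⟨w0, -, -, wc, -, ⟨D, hD⟩, -⟩ := Helper85.BP.P.Wh_ptw 1 one_pos W hW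
    have hb0 : (0 : ℝ) < 1 / 4 := by norm_num
    obtain ⟨C, hC⟩ := kapb_bdd_TN n ν ρ P hT (1 / 4) hb0
    have hm := kapb_meas_TN n ν ρ P hT (1 / 4) hb0
    have h1 := mono_TN n hn ν ρ P hT (1 / 4) (1 / 8) hb0 (by norm_num) (by norm_num)
      (fun d => Wh 1 W (1 / 8 * d)) (by fun_prop) (fun d => w0 _) D (fun d => hD _)
    obtain ⟨i1, i2⟩ := fub_TN W hW _ hm C hC (1 / 8) (by norm_num)
    have h3 : ∀ t, W t * ‖mm n (1 / 8 - Complex.I * (t : ℂ) / 8)‖ ^ 2 = W t + 2 * (W t *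
        ∫ d in Ioi (0 : ℝ), Real.exp (-(1 / 8 * d)) * Real.cos (1 / 8 * t * d) *
          kapb n (1 / 4) (Real.exp (-d))) := by
      intro t
      have h4 := (hSCb n (1 / 8) hn (by norm_num) (by norm_num)).1 t
      have e4 : ((1 / 8 : ℝ) : ℂ) - Complex.I * (t : ℂ) * ((1 / 8 : ℝ) : ℂ) =
          1 / 8 - Complex.I * (t : ℂ) / 8 := by
        push_cast
        ring
      have e5 : (2 : ℝ) * (1 / 8) = 1 / 4 := by norm_num
      rw [e4, e5] at h4
      rw [h4]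
      ring
    simp only [h3]
    rw [integral_add (W_int_SC W hW) (i1.const_mul 2), integral_const_mul, i2]
    have e6 : ∀ d : ℝ, Real.exp (-d / 8) * Wh 1 W (d / 8) * kP n (cT n ν ρ) (1 / 4) d =
        Real.exp (-(1 / 8 * d)) * (Wh 1 W (1 / 8 * d) * kP n (cT n ν ρ) (1 / 4) d) := by
      intro d
      have e7 : -d / 8 = -(1 / 8 * d) := by ring
      have e8 : d / 8 = 1 / 8 * d := by ring
      rw [e7, e8, mul_assoc]
    simp only [e6]
    linarith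

end Helper69.CS
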