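import Pool.Agent.Helper69.CS.St
import Pool.Agent.Helper26.P4.Alg
import Pool.Agent.Helper69.CR.M_IS2
import Pool.Agent.Helper69.CR.M_KR

/-!
# MP_3dd6d4_an, project CS, module TSb: `2tB_k` on `L^r`
-/

set_option autoImplicit false

open MeasureTheory Set Filter Topology
open scoped ENNReal NNReal

noncomputable section

namespace Helper69.CS

open Helper85.BP Helper69.CR Helper69.CR.DB

private lemma iso_TSb (k : ℕ) {v : ℝ → ℂ} (hv : Continuous v) (hs : HasCompactSupport v) :
    Nm 2 (Bop k v) = Nm 2 v := by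
  obtain ⟨h1, h2⟩ := (hIS2 hKR).1 k v hv hs
  unfold Nm
  rw [eL (by norm_num), eL (by norm_num)]
  congr 1
  have e : ∀ (w : ℝ → ℂ) (y : ℝ), ‖w y‖ ^ (2 : ℝ) * Real.exp y = ‖w y‖ ^ 2 * Real.exp y := by
    intro w y
    rw [Real.rpow_two]
  simp only [e]
  have h3 : Integrable (fun y => ‖v y‖ ^ 2 * Real.exp y) := by
    apply Continuous.integrable_of_hasCompactSupport
    · fun_prop
    · have h4 : HasCompactSupport (fun y => ‖v y‖ ^ 2) := by
        have := hs.norm
        exact this.comp_left (g := fun x : ℝ => x ^ 2) (by norm_num)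
      exact h4.mul_right
  rw [← ofReal_integral_eq_lintegral_ofReal h1 (ae_of_all _ fun y => by positivity),
    ← ofReal_integral_eq_lintegral_ofReal h3 (ae_of_all _ fun y => by positivity), h2]

private lemma M0_TSb (k : ℕ) (hk : 1 ≤ k) {v : ℝ → ℂ} (hv : Continuous v)
    (hs : HasCompactSupport v) : Nm 2 (SS k v) ≤ ENNReal.ofReal 2 * Nm 2 v := by
  have hNB := NB.of_cpt hv hs
  rw [show SS k v = _ from funext fun y => Helper26.P4.SS_eq k hk hNB y]
  have hk' : (1 : ℝ) ≤ k := by exact_mod_cast hk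
  set a : ℝ := -((k : ℝ) / (2 * k - 1)) with ha
  set b : ℝ := (4 * (k : ℝ) ^ 2 - 2) / (4 * (k : ℝ) ^ 2 - 1) with hb
  set c : ℝ := -((k : ℝ) / (2 * k + 1)) with hc
  have hsum : |a| + |b| + |c| = 2 := by
    have h1 : (0 : ℝ) < 2 * k - 1 := by linarith
    have h2 : (0 : ℝ) < 2 * k + 1 := by linarith
    have h3 : 4 * (k : ℝ) ^ 2 - 1 = (2 * k - 1) * (2 * k + 1) := by ring
    have h4 : (0 : ℝ) ≤ 4 * (k : ℝ) ^ 2 - 2 := by nlinarith
    have h5 : (0 : ℝ) ≤ b := by
      rw [hb, h3]
      positivity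
    have h6 : |a| = (k : ℝ) / (2 * k - 1) := by
      rw [ha, abs_neg, abs_of_nonneg (by positivity)]
    have h7 : |c| = (k : ℝ) / (2 * k + 1) := by
      rw [hc, abs_neg, abs_of_nonneg (by positivity)]
    have h1' := h1.ne'
    have h2' := h2.ne'
    rw [h6, h7, abs_of_nonneg h5, hb, h3, div_add_div _ _ h1' (mul_ne_zero h1' h2'),
      div_add_div _ _ (mul_ne_zero h1' (mul_ne_zero h1' h2')) h2',
      div_eq_iff (mul_ne_zero (mul_ne_zero h1' (mul_ne_zero h1' h2')) h2')]
    ring
  have c1 := Helper26.P4.Bop_cont (k - 1) hNB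
  have c2 := Helper26.P4.Bop_cont k hNB
  have c3 := Helper26.P4.Bop_cont (k + 1) hNB
  calc Nm 2 (fun y => a • Bop (k - 1) v y + b • Bop k v y + c • Bop (k + 1) v y)
      ≤ Nm 2 (fun y => a • Bop (k - 1) v y + b • Bop k v y) + Nm 2 (fun y => c • Bop (k + 1) v y) :=
        Nm_add (by norm_num) (((Helper26.P4.smul_cont a c1)).add (Helper26.P4.smul_cont b c2))
          (Helper26.P4.smul_cont c c3)
    _ ≤ (Nm 2 (fun y => a • Bop (k - 1) v y) + Nm 2 (fun y => b • Bop k v y)) +
          Nm 2 (fun y => c • Bop (k + 1) v y) := by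
        gcongr
        exact Nm_add (by norm_num) (Helper26.P4.smul_cont a c1) (Helper26.P4.smul_cont b c2)
    _ = ENNReal.ofReal 2 * Nm 2 v := by
        rw [Helper26.P4.Nm_smul, Helper26.P4.Nm_smul, Helper26.P4.Nm_smul, iso_TSb _ hv hs,
          iso_TSb _ hv hs, iso_TSb _ hv hs, ← add_mul, ← add_mul,
          ← ENNReal.ofReal_add (abs_nonneg _) (abs_nonneg _),
          ← ENNReal.ofReal_add (by positivity) (abs_nonneg _), hsum]

private lemma sub_TSb (g : ℝ → ℝ) (hg : Continuous g) :
    IntegrableOn (fun u => Real.exp (-u) * g (Real.exp (-u))) (Ioi 0) ∧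
    ∫ u in Ioi (0 : ℝ), Real.exp (-u) * g (Real.exp (-u)) = ∫ s in (0 : ℝ)..1, g s := by
  obtain ⟨M, hM⟩ : ∃ M, ∀ x ∈ Icc (0 : ℝ) 1, ‖g x‖ ≤ M :=
    isCompact_Icc.exists_bound_of_continuousOn hg.continuousOn
  have hi : IntegrableOn (fun u => Real.exp (-u) * g (Real.exp (-u))) (Ioi 0) := by
    have h1 : IntegrableOn (fun u : ℝ => M * Real.exp (-u)) (Ioi 0) :=
      (integrableOn_exp_neg_Ioi 0).const_mul M
    refine Integrable.mono' h1 (by fun_prop) ?_
    refine (ae_restrict_iff' measurableSet_Ioi).2 (ae_of_all _ fun u hu => ?_)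
    have hu' : (0 : ℝ) < u := hu
    rw [norm_mul, Real.norm_of_nonneg (Real.exp_pos _).le, mul_comm]
    exact mul_le_mul_of_nonneg_right
      (hM _ ⟨(Real.exp_pos _).le, Real.exp_le_one_iff.2 (by linarith)⟩) (Real.exp_pos _).le
  refine ⟨hi, ?_⟩
  have hd : ∀ u ∈ Ici (0 : ℝ), HasDerivAt (fun u => -∫ s in (0 : ℝ)..Real.exp (-u), g s)
      (Real.exp (-u) * g (Real.exp (-u))) u := by
    intro u _
    have h1 : HasDerivAt (fun x => ∫ s in (0 : ℝ)..x, g s) (g (Real.exp (-u))) (Real.exp (-u)) :=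
      intervalIntegral.integral_hasDerivAt_right (hg.intervalIntegrable _ _)
        (hg.stronglyMeasurableAtFilter _ _) hg.continuousAt
    have h2 : HasDerivAt (fun u : ℝ => Real.exp (-u)) (Real.exp (-u) * (-1)) u :=
      (hasDerivAt_neg u).exp
    have h3 := (h1.comp u h2).neg
    refine h3.congr_deriv ?_
    ring
  have ht : Tendsto (fun u => -∫ s in (0 : ℝ)..Real.exp (-u), g s) atTop (𝓝 0) := by
    have h1 : Continuous (fun x => -∫ s in (0 : ℝ)..x, g s) :=
      (intervalIntegral.continuous_primitive (fun a b => hg.intervalIntegrable a b) 0).neg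
    have h2 : Tendsto (fun u : ℝ => Real.exp (-u)) atTop (𝓝 0) :=
      Real.tendsto_exp_neg_atTop_nhds_zero
    have h3 := (h1.tendsto 0).comp h2
    simpa [Function.comp_def] using h3
  have h := integral_Ioi_of_hasDerivAt_of_tendsto' hd hi ht
  rw [h]
  simp

/-- **MODULE TSb** -/
theorem hTSb (h : StRT) : StTSb := by
  refine ⟨fun k s hk => ?_, fun k r P v hk hr hP hv hs => ?_⟩
  · obtain ⟨m, rfl⟩ : ∃ m, k = m + 1 := ⟨k - 1, by omega⟩
    have := Helper26.P4.three_term m s
    rw [this, Nat.add_sub_cancel]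
    push_cast
    have e1 : 2 * ((m : ℝ) + 1) - 1 = 2 * m + 1 := by ring
    have e2 : 2 * ((m : ℝ) + 1) + 1 = 2 * m + 3 := by ring
    rw [e1, e2]
  · have hP0 : 0 ≤ P := le_trans
      (intervalIntegral.integral_nonneg (by norm_num) fun s _ => abs_nonneg _) hP
    set m : ℝ → ℂ := fun _ => 2 * (-1) ^ k with hm
    set κ : ℝ → ℝ → ℂ := fun _ u =>
      ((2 * (Real.exp (-u) * pp k (Real.exp (-u))) : ℝ) : ℂ) with hκ
    have hKT : ∀ w : ℝ → ℂ, KT m κ w = SS k w := by
      intro w
      funext y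
      unfold KT SS
      rw [hm, hκ, mul_add, ← integral_const_mul]
      congr 1
      · ring
      · congr 1
        funext u
        push_cast
        ring
    have hpc := Helper26.P4.pp_cont k
    have hκc : Continuous (fun u => Real.exp (-u) * pp k (Real.exp (-u))) := by
      have := hpc.comp (by fun_prop : Continuous fun u : ℝ => Real.exp (-u))
      exact (by fun_prop : Continuous fun u : ℝ => Real.exp (-u)).mul this
    have hsub := sub_TSb (pp k) hpc
    have hsub' := sub_TSb (fun s => |pp k s|) hpc.abs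
    have hb := h m κ 2 (2 * (1 + P)) r hr (by norm_num) (by positivity) (by fun_prop) ?_ ?_ ?_ ?_ v hv hs
    · rw [hKT] at hb
      refine hb.trans (le_of_eq ?_)
      congr 2
      have hr0 : r ≠ 0 := by linarith
      rw [Real.mul_rpow (by norm_num) (by positivity), ← mul_assoc,
        ← Real.rpow_add (by norm_num)]
      have : 2 / r + (1 - 2 / r) = 1 := by ring
      rw [this, Real.rpow_one]
    · -- measurability
      have : Function.uncurry κ = fun q : ℝ × ℝ =>
          ((2 * (Real.exp (-q.2) * pp k (Real.exp (-q.2))) : ℝ) : ℂ) := by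
        funext q
        rfl
      rw [this]
      refine Continuous.measurable ?_
      exact Complex.continuous_ofReal.comp (continuous_const.mul (hκc.comp continuous_snd))
    · -- integrability
      intro y
      have := (hsub.1.const_mul 2).ofReal (𝕜 := ℂ)
      exact this
    · -- the bound in L^∞
      intro y
      have e1 : ∀ u, ‖κ y u‖ = 2 * (Real.exp (-u) * |pp k (Real.exp (-u))|) := by
        intro u
        rw [hκ]
        simp only [Complex.norm_real]
        rw [Real.norm_eq_abs, abs_mul, abs_mul, abs_of_pos (Real.exp_pos _), abs_two]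
      simp only [e1]
      rw [integral_const_mul, hsub'.2]
      have e2 : ‖m y‖ = 2 := by
        rw [hm]
        simp
      rw [e2]
      linarith
    · intro w hw hws
      rw [hKT]
      exact M0_TSb k (by omega) hw hws

end Helper69.CS
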