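import Pool.Agent.Helper69.CS.M_GEN
import Pool.Agent.Helper69.CS.M_RT
import Pool.Agent.Helper69.CS.M_PHC
import Pool.Agent.Helper69.CS.M_PHI
import Pool.Agent.Helper69.CS.M_PL2
import Pool.Agent.Helper69.CS.M_PQ
import Pool.Agent.Helper69.CS.M_PS
import Pool.Agent.Helper69.CS.M_PN
import Pool.Agent.Helper69.CS.M_TSb
import Pool.Agent.Helper69.CS.M_TN
import Pool.Agent.Helper69.CS.M_REC
import Pool.Agent.Helper69.CS.M_RP
import Pool.Agent.Helper69.CS.M_SLK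
import Pool.Agent.Helper69.CS.M_FC
import Pool.Agent.Helper69.CS.M_SM
import Pool.Agent.Helper53.P4T.Top
import Pool.Agent.Helper84.P4M.M_GEN
import Pool.Agent.Helper9.P4M.M_NC
import Pool.Agent.Helper48.P4M.M_AM
import Pool.Agent.Helper7.P4M.M_NM
import Pool.Agent.Helper94.P4M.M_J
import Pool.Agent.Helper91.P4M.M_NP
import Pool.Agent.Helper60.P4M.M_X1
import Pool.Agent.Helper92.P4M.M_KER
import Pool.Agent.Helper67.P4M.M_X2
import Pool.Agent.Helper68.P4M.M_TN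
import Pool.Agent.Helper89.P4M.M_P1

/-!
# MP_3dd6d4_an, project CS: assembly (critical mode, all `n ≥ 1`, all `p ≥ 2`)
-/

set_option autoImplicit false

noncomputable section

namespace Helper69.CS

open Helper69.CR

/-- the PHI node, all `n` -/
theorem phi_node : StPN := hPN hPHC hPHI (hPQ (hPL2 hPHC hPHI)) (hPS hGEN)

/-- the TAB node -/
theorem tab_node (hSCb : StSCb) : StTN := hTN (hTSb hRT) hSCb

/-- `∫_0^1 |p_n| ≤ 1.85 √n` -/
theorem int_abs (hU : Helper71.P4.StU) (hX0 : Helper71.P4.StX0) (hPS' : Helper71.P4.StPS) :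
    Helper71.P4.StP1 :=
  Helper71.P4.hP1 (Helper71.P4.hGEN (Helper71.P4.hAM hX0 (Helper71.P4.hX1 hU)
    (Helper71.P4.hX2 hU))) hPS' Helper71.P4.hKER

theorem small_all (hSCb : StSCb) (hKQ : StKQ) (hU : Helper71.P4.StU) (hX0 : Helper71.P4.StX0)
    (hPS' : Helper71.P4.StPS) (n : ℕ) (hn : 3 ≤ n) : Small (fun p => 132 / 125 / p ^ 2) n := by
  rcases Nat.lt_or_ge 7 n with h | h
  · exact small_phi phi_node hKQ (Helper71.P4.hNP Helper71.P4.hNM) n h
  · exact small_tab (tab_node hSCb) (hA3 Pool.Agent.Helper35.QP.hQ hA1 (hA2 hKR))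
      (int_abs hU hX0 hPS') (Helper71.P4.hTN Helper71.P4.hNC) Helper53.P4T.hTB n hn h

/-- the one-dimensional estimate, `p ≥ 4` -/
theorem bd_all (hNR : StNR) (hST8 : StST8) (hSCb : StSCb) (hKQ : StKQ) (hU : Helper71.P4.StU)
    (hX0 : Helper71.P4.StX0) (hPS' : Helper71.P4.StPS) (n : ℕ) (p : ℝ) (hn : 1 ≤ n) (hp : 4 ≤ p) :
    Bd n p (1 + 33 / 250 * (p - 4) / p ^ 2) :=
  hREC hNR hST8 (fun p => 33 / 250 * (p - 4) / p ^ 2) (fun p => 132 / 125 / p ^ 2) hRP.1 hRP.2.1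
    hRP.2.2 (small_all hSCb hKQ hU hX0 hPS') n p hn hp

/-- the factor on the critical mode: `1` if `p ≤ 4` or `n ≤ 2` -/
def crit_factor (n : ℕ) (p : ℝ) : ℝ :=
  if p ≤ 4 ∨ n ≤ 2 then 1 else 1 + 33 / 250 * (p - 4) / p ^ 2

theorem crit_all (hNR : StNR) (hST8 : StST8) (hSCb : StSCb) (hKQ : StKQ) (hU : Helper71.P4.StU)
    (hX0 : Helper71.P4.StX0) (hPS' : Helper71.P4.StPS) (n : ℕ) (hn : 1 ≤ n) (p : ℝ) (hp : 2 ≤ p)
    (f : SchwartzMap ℂ ℂ)
    (hf : ∀ (θ : ℝ) (z : ℂ),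
      f (Complex.exp (θ * Complex.I) * z) = Complex.exp (((2 * n : ℕ) : ℂ) * θ * Complex.I) * f z) :
    MeasureTheory.eLpNorm
        (fun z : ℂ => ∫ ξ : ℂ,
          Complex.exp (2 * (Real.pi : ℂ) * Complex.I * ((z.re * ξ.re + z.im * ξ.im : ℝ) : ℂ)) *
            ((starRingEnd ℂ ξ / ξ) ^ n *
              ∫ w : ℂ, Complex.exp (-(2 * (Real.pi : ℂ) * Complex.I *
                ((w.re * ξ.re + w.im * ξ.im : ℝ) : ℂ))) * f w))
        (ENNReal.ofReal p) MeasureTheory.volume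
      ≤ ENNReal.ofReal (crit_factor n p * Cn n (1 / p)) *
        MeasureTheory.eLpNorm (fun z : ℂ => f z) (ENNReal.ofReal p) MeasureTheory.volume ∧
    crit_factor n p * Cn n (1 / p) ≤ (n : ℝ) ^ (1 - 2 / p) * (p - 1) := by
  by_cases h : p ≤ 4 ∨ n ≤ 2
  · have e : crit_factor n p = 1 := if_pos h
    rw [e, one_mul]
    exact ⟨crit_sharp n hn p hp h f hf, hNU n p hn hp⟩
  · have e : crit_factor n p = 1 + 33 / 250 * (p - 4) / p ^ 2 := if_neg h
    push Not at h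
    rw [e]
    refine ⟨mode_of_Bd n hn p hp _ ?_ (bd_all hNR hST8 hSCb hKQ hU hX0 hPS' n p hn h.1.le) f hf,
      hSLK n p (by omega) h.1.le⟩
    have := hRP.2.2 p h.1.le
    linarith

end Helper69.CS
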