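import Mathlib

/-!
# Minkowski's integral inequality
-/

set_option autoImplicit false

open MeasureTheory Set Filter Topology
open scoped ENNReal NNReal

noncomputable section

namespace Helper69.CS

/-- Minkowski's integral inequality in `L^r`, `r > 1`. -/
theorem minkowski {α β : Type*} [MeasurableSpace α] [MeasurableSpace β] (μ : Measure α)
    (ν : Measure β) [SigmaFinite μ] [SFinite ν] (F : β → α → ℝ≥0∞)
    (hF : Measurable (Function.uncurry F)) (r : ℝ) (hr : 1 < r) :
    (∫⁻ y, (∫⁻ d, F d y ∂ν) ^ r ∂μ) ^ (1 / r) ≤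
      ∫⁻ d, (∫⁻ y, F d y ^ r ∂μ) ^ (1 / r) ∂ν := by
  have hr0 : 0 < r := by linarith
  set G : α → ℝ≥0∞ := fun y => ∫⁻ d, F d y ∂ν with hG
  have hGm : Measurable G := hF.lintegral_prod_left'
  set R : ℝ≥0∞ := ∫⁻ d, (∫⁻ y, F d y ^ r ∂μ) ^ (1 / r) ∂ν with hR
  set g : ℕ → α → ℝ≥0∞ := fun N y => (spanningSets μ N).indicator (fun y => min (G y) N) y with hg
  have hgm : ∀ N, Measurable (g N) := fun N =>
    (hGm.min measurable_const).indicator (measurableSet_spanningSets μ N)
  have hgG : ∀ N y, g N y ≤ G y := by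
    intro N y
    simp only [hg]
    by_cases hy : y ∈ spanningSets μ N
    · rw [indicator_of_mem hy]
      exact min_le_left _ _
    · rw [indicator_of_notMem hy]
      exact zero_le
  have hfin : ∀ N, ∫⁻ y, g N y ^ r ∂μ ≠ ∞ := by
    intro N
    have h1 : ∫⁻ y, g N y ^ r ∂μ ≤ ∫⁻ y in spanningSets μ N, (N : ℝ≥0∞) ^ r ∂μ := by
      rw [← lintegral_indicator (measurableSet_spanningSets μ N)]
      refine lintegral_mono fun y => ?_
      simp only [hg]
      by_cases hy : y ∈ spanningSets μ N
      · rw [indicator_of_mem hy, indicator_of_mem hy]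
        exact ENNReal.rpow_le_rpow (min_le_right _ _) hr0.le
      · rw [indicator_of_notMem hy, indicator_of_notMem hy, ENNReal.zero_rpow_of_pos hr0]
    refine ne_top_of_le_ne_top ?_ h1
    rw [setLIntegral_const]
    exact ENNReal.mul_ne_top (ENNReal.rpow_ne_top_of_nonneg hr0.le (ENNReal.natCast_ne_top N))
      (measure_spanningSets_lt_top μ N).ne
  have key : ∀ N, (∫⁻ y, g N y ^ r ∂μ) ^ (1 / r) ≤ R := by
    intro N
    set A : ℝ≥0∞ := ∫⁻ y, g N y ^ r ∂μ with hA
    by_cases hA0 : A = 0
    · rw [hA0, ENNReal.zero_rpow_of_pos (by positivity)]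
      exact zero_le
    have hq : r.HolderConjugate (r / (r - 1)) := Real.HolderConjugate.conjExponent hr
    have h1 : A ≤ ∫⁻ y, ∫⁻ d, F d y * g N y ^ (r - 1) ∂ν ∂μ := by
      rw [hA]
      refine lintegral_mono fun y => ?_
      have e1 : ∫⁻ d, F d y * g N y ^ (r - 1) ∂ν = G y * g N y ^ (r - 1) := by
        have hm : Measurable fun d => F d y := hF.comp measurable_prodMk_right
        rw [lintegral_mul_const _ hm]
      rw [e1]
      by_cases h0 : g N y = 0
      · rw [h0, ENNReal.zero_rpow_of_pos hr0]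
        exact zero_le
      have htop : g N y ≠ ∞ := by
        simp only [hg]
        by_cases hy : y ∈ spanningSets μ N
        · rw [indicator_of_mem hy]
          exact ne_top_of_le_ne_top (ENNReal.natCast_ne_top N) (min_le_right _ _)
        · rw [indicator_of_notMem hy]
          exact ENNReal.zero_ne_top
      have e2 : g N y ^ r = g N y * g N y ^ (r - 1) := by
        nth_rewrite 2 [← ENNReal.rpow_one (g N y)]
        rw [← ENNReal.rpow_add _ _ h0 htop]
        congr 1
        ring
      rw [e2]
      gcongr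
      exact hgG N y
    have h2 : ∫⁻ y, ∫⁻ d, F d y * g N y ^ (r - 1) ∂ν ∂μ =
        ∫⁻ d, ∫⁻ y, F d y * g N y ^ (r - 1) ∂μ ∂ν := by
      refine lintegral_lintegral_swap ?_
      refine Measurable.aemeasurable ?_
      have m1 : Measurable fun q : α × β => F q.2 q.1 := hF.comp (by fun_prop : Measurable fun q : α × β => (q.2, q.1))
      have m2 : Measurable fun q : α × β => g N q.1 ^ (r - 1) := ((hgm N).comp measurable_fst).pow_const _
      exact m1.mul m2
    have h3 : ∀ d, ∫⁻ y, F d y * g N y ^ (r - 1) ∂μ ≤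
        (∫⁻ y, F d y ^ r ∂μ) ^ (1 / r) * A ^ (1 - 1 / r) := by
      intro d
      have h4 := ENNReal.lintegral_mul_le_Lp_mul_Lq μ hq (f := F d) (g := fun y => g N y ^ (r - 1))
        (hF.comp measurable_prodMk_left).aemeasurable ((hgm N).pow_const _).aemeasurable
      simp only [Pi.mul_apply] at h4
      refine h4.trans (le_of_eq ?_)
      congr 1
      rw [hA]
      have e3 : ∀ y, (g N y ^ (r - 1)) ^ (r / (r - 1)) = g N y ^ r := by
        intro y
        rw [← ENNReal.rpow_mul]
        congr 1
        have : r - 1 ≠ 0 := by linarith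
        field_simp
      simp only [e3]
      congr 1
      have : r - 1 ≠ 0 := by linarith
      field_simp
    have h5 : A ≤ R * A ^ (1 - 1 / r) := by
      refine (h1.trans (le_of_eq h2)).trans ?_
      refine (lintegral_mono h3).trans (le_of_eq ?_)
      rw [lintegral_mul_const']
      exact ENNReal.rpow_ne_top_of_nonneg (by
        rw [sub_nonneg, div_le_one hr0]
        exact hr.le) (hfin N)
    have h6 : A ^ (1 / r) * A ^ (1 - 1 / r) ≤ R * A ^ (1 - 1 / r) := by
      rw [← ENNReal.rpow_add _ _ hA0 (hfin N)]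
      have : 1 / r + (1 - 1 / r) = 1 := by ring
      rw [this, ENNReal.rpow_one]
      exact h5
    have hp1 : A ^ (1 - 1 / r) ≠ 0 := by
      intro h
      rw [ENNReal.rpow_eq_zero_iff] at h
      rcases h with h | h
      · exact hA0 h.1
      · exact hfin N h.1
    have hp2 : A ^ (1 - 1 / r) ≠ ∞ := ENNReal.rpow_ne_top_of_nonneg (by
        rw [sub_nonneg, div_le_one hr0]
        exact hr.le) (hfin N)
    exact (ENNReal.mul_le_mul_iff_left hp1 hp2).1 h6
  have hlim : ∫⁻ y, G y ^ r ∂μ = ⨆ N, ∫⁻ y, g N y ^ r ∂μ := by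
    rw [← lintegral_iSup (fun N => (hgm N).pow_const _)]
    · refine lintegral_congr fun y => ?_
      have hsup : (⨆ N, g N y) = G y := by
        apply le_antisymm (iSup_le fun N => hgG N y)
        have hy : y ∈ ⋃ N, spanningSets μ N := by
          rw [iUnion_spanningSets]
          trivial
        obtain ⟨M, hM⟩ := mem_iUnion.1 hy
        have hcase : (⨆ N : ℕ, min (G y) (N : ℝ≥0∞)) = G y := by
          rw [← inf_iSup_eq]
          have : (⨆ N : ℕ, (N : ℝ≥0∞)) = ∞ := ENNReal.iSup_natCast
          rw [this]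
          exact inf_top_eq _
        rw [← hcase]
        refine iSup_le fun N => ?_
        refine le_trans ?_ (le_iSup _ (max N M))
        simp only [hg]
        rw [indicator_of_mem (monotone_spanningSets μ (le_max_right N M) hM)]
        refine min_le_min le_rfl ?_
        exact_mod_cast le_max_left N M
      rw [← hsup]
      exact ((ENNReal.orderIsoRpow r hr0).map_iSup (fun N => g N y))
    · intro N M hNM y
      beta_reduce
      refine ENNReal.rpow_le_rpow ?_ hr0.le
      simp only [hg]
      by_cases hy : y ∈ spanningSets μ N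
      · rw [indicator_of_mem hy, indicator_of_mem (monotone_spanningSets μ hNM hy)]
        refine min_le_min le_rfl ?_
        exact_mod_cast hNM
      · rw [indicator_of_notMem hy]
        exact zero_le
  change (∫⁻ y, G y ^ r ∂μ) ^ (1 / r) ≤ R
  rw [hlim]
  have h7 : (⨆ N, ∫⁻ y, g N y ^ r ∂μ) ≤ R ^ r := by
    refine iSup_le fun N => ?_
    have h8 := ENNReal.rpow_le_rpow (key N) hr0.le
    rwa [← ENNReal.rpow_mul, one_div_mul_cancel hr0.ne', ENNReal.rpow_one] at h8
  have h9 := ENNReal.rpow_le_rpow h7 (by positivity : (0 : ℝ) ≤ 1 / r)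
  rwa [← ENNReal.rpow_mul R, mul_one_div_cancel hr0.ne', ENNReal.rpow_one] at h9

end Helper69.CS
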