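import Pool.Agent.Helper69.CS.M_DI
import Pool.Agent.Helper69.CS.M_MI
import Pool.Agent.Helper69.CR.M_DD

/-!
# MP_3dd6d4_an, project CS: the doubling step in `L^{p/2}`
-/

set_option autoImplicit false

open MeasureTheory Set Filter Topology
open scoped ENNReal NNReal

noncomputable section

namespace Helper69.CS

open Helper85.BP Helper69.CR Helper69.CR.DB

instance mu_sigma : SigmaFinite mu := by
  unfold mu
  exact SigmaFinite.withDensity_ofReal _

instance mu_locfin : IsLocallyFiniteMeasure mu := by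
  unfold mu
  exact IsLocallyFiniteMeasure.withDensity_ofReal (by fun_prop)

lemma Nm_ne_top (p : ℝ) {v : ℝ → ℂ} (hv : Continuous v) (hs : HasCompactSupport v) : Nm p v ≠ ∞ :=
  (hv.memLp_of_hasCompactSupport hs).2.ne

lemma Nm_eq {p : ℝ} (hp : 0 < p) (v : ℝ → ℂ) : Nm p v = (∫⁻ y, ‖v y‖ₑ ^ p ∂mu) ^ (1 / p) := by
  unfold Nm
  rw [eLpNorm_eq_lintegral_rpow_enorm_toReal (by simpa using hp) ENNReal.ofReal_ne_top,
    ENNReal.toReal_ofReal hp.le]

lemma Nm_shift {p : ℝ} (hp : 0 < p) (v : ℝ → ℂ) (d : ℝ) :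
    Nm p (fun y => v (y + d)) = ENNReal.ofReal (Real.exp (-d / p)) * Nm p v := by
  rw [Nm_eq hp, Nm_eq hp, lint_mu, lint_mu]
  have e1 : ∀ y, ENNReal.ofReal (Real.exp y) * ‖v (y + d)‖ₑ ^ p =
      ENNReal.ofReal (Real.exp (-d)) * (ENNReal.ofReal (Real.exp (y + d)) * ‖v (y + d)‖ₑ ^ p) := by
    intro y
    rw [← mul_assoc, ← ENNReal.ofReal_mul (Real.exp_pos _).le, ← Real.exp_add]
    congr 3
    ring
  simp only [e1]
  rw [lintegral_const_mul', lintegral_add_right_eq_self (μ := (volume : Measure ℝ))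
    (fun y : ℝ => ENNReal.ofReal (Real.exp y) * ‖v y‖ₑ ^ p) d,
    ENNReal.mul_rpow_of_nonneg _ _ (by positivity),
    ENNReal.ofReal_rpow_of_nonneg (Real.exp_pos _).le (by positivity), ← Real.exp_mul]
  · congr 3
    ring
  · exact ENNReal.ofReal_ne_top

lemma TT_meas (n : ℕ) (f : ℝ → ℂ) (hf : Continuous f) :
    StronglyMeasurable (fun q : ℝ × ℝ => TT n q.1 (gd f q.1) q.2) := by
  unfold TT
  have h0 := gd_cont f hf
  have hp : Continuous (pp n) := by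
    unfold pp
    fun_prop
  apply StronglyMeasurable.add
  · apply Continuous.stronglyMeasurable
    have h1 : Continuous fun q : ℝ × ℝ => gd f q.1 q.2 := h0
    fun_prop
  · have h2 : StronglyMeasurable (fun w : (ℝ × ℝ) × ℝ =>
        ((pp n (Real.exp (-w.2)) * pp n (Real.exp (-w.2) * Real.exp (-w.1.1)) : ℝ) : ℂ) *
          gd f w.1.1 (w.1.2 + w.2)) := by
      apply Continuous.stronglyMeasurable
      have h3 : Continuous fun w : (ℝ × ℝ) × ℝ => gd f w.1.1 (w.1.2 + w.2) :=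
        h0.comp (by fun_prop : Continuous fun w : (ℝ × ℝ) × ℝ => (w.1.1, w.1.2 + w.2))
      fun_prop
    exact h2.integral_prod_right

/-- the doubling step: a bound for `T_d` on `L^{p/2}` gives a bound for `B_n` on `L^p` -/
theorem dbl_bound (n : ℕ) (p : ℝ) (hp : 2 < p) (E : ℝ → ℝ≥0∞)
    (hE : ∀ d, 0 < d → ∀ v : ℝ → ℂ, Continuous v → HasCompactSupport v →
      Nm (p / 2) (TT n d v) ≤ E d * Nm (p / 2) v)
    (f : ℝ → ℂ) (hf : Continuous f) (hfc : HasCompactSupport f) :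
    Nm p (Bop n f) ^ 2 ≤
      (1 + 2 * ∫⁻ d in Ioi (0 : ℝ), ENNReal.ofReal (Real.exp (-d / p)) * E d) * Nm p f ^ 2 := by
  have hp0 : 0 < p := by linarith
  have hr1 : 1 < p / 2 := by linarith
  have hr0 : 0 < p / 2 := by linarith
  have hTm := TT_meas n f hf
  -- the two summands
  have hsq : ∀ v : ℝ → ℂ, Nm p v ^ 2 = (∫⁻ y, (‖v y‖ₑ ^ 2) ^ (p / 2) ∂mu) ^ (1 / (p / 2)) := by
    intro v
    rw [Nm_eq hp0, ← ENNReal.rpow_natCast, ← ENNReal.rpow_mul]
    congr 1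
    · refine lintegral_congr fun y => ?_
      rw [← ENNReal.rpow_natCast, ← ENNReal.rpow_mul]
      congr 1
      push_cast
      ring
    · push_cast
      field_simp
  have hpt : ∀ y, ‖Bop n f y‖ₑ ^ 2 ≤ ‖f y‖ₑ ^ 2 +
      2 * ∫⁻ d in Ioi (0 : ℝ), ‖TT n d (gd f d) y‖ₑ := by
    intro y
    obtain ⟨h1, h2⟩ := doubling n f hf hfc y
    have e1 : ∀ z : ℂ, ‖z‖ₑ ^ 2 = ENNReal.ofReal (‖z‖ ^ 2) := by
      intro z
      rw [ENNReal.ofReal_pow (norm_nonneg _), ofReal_norm]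
    rw [e1, e1, h2]
    refine (ENNReal.ofReal_add_le).trans ?_
    gcongr
    rw [ENNReal.ofReal_mul (by norm_num), ENNReal.ofReal_ofNat]
    gcongr
    calc ENNReal.ofReal (∫ d in Ioi (0 : ℝ), (TT n d (gd f d) y).re)
        ≤ ENNReal.ofReal ‖∫ d in Ioi (0 : ℝ), (TT n d (gd f d) y).re‖ :=
          ENNReal.ofReal_le_ofReal (Real.le_norm_self _)
      _ = ‖∫ d in Ioi (0 : ℝ), (TT n d (gd f d) y).re‖ₑ := ofReal_norm _
      _ ≤ ∫⁻ d in Ioi (0 : ℝ), ‖(TT n d (gd f d) y).re‖ₑ := enorm_integral_le_lintegral_enorm _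
      _ ≤ ∫⁻ d in Ioi (0 : ℝ), ‖TT n d (gd f d) y‖ₑ := by
          refine lintegral_mono fun d => ?_
          rw [← ofReal_norm, ← ofReal_norm]
          refine ENNReal.ofReal_le_ofReal ?_
          rw [Real.norm_eq_abs]
          exact Complex.abs_re_le_norm _
  have hFm : Measurable (Function.uncurry fun d y : ℝ => ‖TT n d (gd f d) y‖ₑ) :=
    hTm.measurable.enorm
  have hmink := minkowski mu (volume.restrict (Ioi (0 : ℝ))) (fun d y => ‖TT n d (gd f d) y‖ₑ) hFm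
    (p / 2) hr1
  have hT : ∀ d, 0 < d → (∫⁻ y, ‖TT n d (gd f d) y‖ₑ ^ (p / 2) ∂mu) ^ (1 / (p / 2)) ≤
      ENNReal.ofReal (Real.exp (-d / p)) * E d * Nm p f ^ 2 := by
    intro d hd
    have hc : Continuous (gd f d) :=
      (gd_cont f hf).comp (by fun_prop : Continuous fun y : ℝ => (d, y))
    have h1 := hE d hd (gd f d) hc (gd_cpt f hfc d)
    rw [Nm_eq hr0 (TT n d (gd f d))] at h1
    refine h1.trans ?_
    have h2 : Nm (p / 2) (gd f d) ≤ Nm p f * (ENNReal.ofReal (Real.exp (-d / p)) * Nm p f) := by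
      have h3 := Nm_mul hp0 (u := f) (v := fun y => (starRingEnd ℂ) (f (y + d))) hf (by fun_prop)
      have h4 : Nm p (fun y => (starRingEnd ℂ) (f (y + d))) = Nm p (fun y => f (y + d)) :=
        Nm_conj p fun y => f (y + d)
      rw [h4, Nm_shift hp0] at h3
      exact h3
    calc E d * Nm (p / 2) (gd f d)
        ≤ E d * (Nm p f * (ENNReal.ofReal (Real.exp (-d / p)) * Nm p f)) := by gcongr
      _ = ENNReal.ofReal (Real.exp (-d / p)) * E d * Nm p f ^ 2 := by ring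
  rw [hsq (Bop n f)]
  have hf2 : Measurable fun y => ‖f y‖ₑ ^ 2 := hf.measurable.enorm.pow_const 2
  have hG2 : Measurable fun y => 2 * ∫⁻ d in Ioi (0 : ℝ), ‖TT n d (gd f d) y‖ₑ :=
    (hFm.lintegral_prod_left').const_mul 2
  calc (∫⁻ y, (‖Bop n f y‖ₑ ^ 2) ^ (p / 2) ∂mu) ^ (1 / (p / 2))
      ≤ (∫⁻ y, (‖f y‖ₑ ^ 2 + 2 * ∫⁻ d in Ioi (0 : ℝ), ‖TT n d (gd f d) y‖ₑ) ^ (p / 2) ∂mu) ^
          (1 / (p / 2)) := by
        gcongr with y
        exact hpt y
    _ ≤ (∫⁻ y, (‖f y‖ₑ ^ 2) ^ (p / 2) ∂mu) ^ (1 / (p / 2)) +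
          (∫⁻ y, (2 * ∫⁻ d in Ioi (0 : ℝ), ‖TT n d (gd f d) y‖ₑ) ^ (p / 2) ∂mu) ^ (1 / (p / 2)) :=
        ENNReal.lintegral_Lp_add_le hf2.aemeasurable hG2.aemeasurable hr1.le
    _ ≤ Nm p f ^ 2 + 2 * ∫⁻ d in Ioi (0 : ℝ),
          (∫⁻ y, ‖TT n d (gd f d) y‖ₑ ^ (p / 2) ∂mu) ^ (1 / (p / 2)) := by
        rw [← hsq f]
        gcongr
        have e2 : ∀ y, (2 * ∫⁻ d in Ioi (0 : ℝ), ‖TT n d (gd f d) y‖ₑ) ^ (p / 2) =
            2 ^ (p / 2) * (∫⁻ d in Ioi (0 : ℝ), ‖TT n d (gd f d) y‖ₑ) ^ (p / 2) := fun y =>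
          ENNReal.mul_rpow_of_nonneg _ _ hr0.le
        simp only [e2]
        rw [lintegral_const_mul', ENNReal.mul_rpow_of_nonneg _ _ (by positivity),
          ← ENNReal.rpow_mul, mul_one_div_cancel hr0.ne', ENNReal.rpow_one]
        · gcongr
        · exact ENNReal.rpow_ne_top_of_nonneg hr0.le (by norm_num)
    _ ≤ Nm p f ^ 2 + 2 * ∫⁻ d in Ioi (0 : ℝ),
          ENNReal.ofReal (Real.exp (-d / p)) * E d * Nm p f ^ 2 := by
        gcongr 1
        gcongr 1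
        refine setLIntegral_mono' measurableSet_Ioi fun d hd => hT d hd
    _ ≤ _ := by
        rw [add_mul, one_mul, mul_assoc]
        gcongr
        rw [lintegral_mul_const' _ _ (ENNReal.pow_ne_top (Nm_ne_top p hf hfc))]

end Helper69.CS
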