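import Pool.Agent.Helper69.CR.St

/-!
# MP_3dd6d4_an, project CS (critical mode, `p > 4`): the doubling identity for general `n`
-/

set_option autoImplicit false

open MeasureTheory Set Filter Topology

noncomputable section

namespace Helper69.CS

open Helper85.BP Helper69.CR

/-- `T_d v (y) = (-1)^n p_n(e^{-d}) v(y) + ∫_0^∞ p_n(e^{-u}) p_n(e^{-u} e^{-d}) v(y+u) du` -/
def TT (n : ℕ) (d : ℝ) (v : ℝ → ℂ) (y : ℝ) : ℂ :=
  (((-1) ^ n * pp n (Real.exp (-d)) : ℝ) : ℂ) * v y +
    ∫ u in Ioi (0 : ℝ), ((pp n (Real.exp (-u)) * pp n (Real.exp (-u) * Real.exp (-d)) : ℝ) : ℂ) *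
      v (y + u)

/-- `f(y) conj f(y+d)` -/
def gd (f : ℝ → ℂ) (d y : ℝ) : ℂ := f y * (starRingEnd ℂ) (f (y + d))

private lemma pp_cont_DI (n : ℕ) : Continuous (pp n) := by
  unfold pp
  fun_prop

private lemma bdd_DI {E : Type*} [NormedAddCommGroup E] (φ : ℝ → E) (hc : HasCompactSupport φ) :
    ∃ R : ℝ, 0 < R ∧ ∀ x, R < |x| → φ x = 0 := by
  obtain ⟨R, hR⟩ := hc.isCompact.isBounded.subset_closedBall 0
  refine ⟨max R 1, by positivity, fun x hx => ?_⟩
  by_contra h
  have h1 : x ∈ tsupport φ := subset_tsupport _ h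
  have h2 := hR h1
  rw [Metric.mem_closedBall, dist_zero_right, Real.norm_eq_abs] at h2
  exact absurd (lt_of_le_of_lt (le_max_left R 1) hx) (not_lt.mpr h2)

private lemma shift_DI (φ : ℝ → ℂ) (v : ℝ) :
    ∫ d in Ioi (0:ℝ), φ (v + d) = ∫ u in Ioi v, φ u := by
  have h := (measurePreserving_add_left volume v).setIntegral_preimage_emb
    (measurableEmbedding_addLeft v) φ (Ioi v)
  rw [← h]
  simp

private lemma sq_DI (φ : ℝ → ℂ) (hφ : Continuous φ) (hc : HasCompactSupport φ) :
    ‖∫ u in Ioi (0:ℝ), φ u‖ ^ 2 =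
      2 * ∫ v in Ioi (0:ℝ), ∫ d in Ioi (0:ℝ), (φ v * (starRingEnd ℂ) (φ (v + d))).re := by
  have hint : Integrable φ := hφ.integrable_of_hasCompactSupport hc
  obtain ⟨R, hR0, hR⟩ := bdd_DI φ hc
  set A := ∫ u in Ioi (0:ℝ), φ u with hA
  set Φ : ℝ → ℂ := fun v => A - ∫ u in (0:ℝ)..v, φ u with hΦ
  have h1 : ∀ v, ∫ d in Ioi (0:ℝ), φ (v + d) = Φ v := by
    intro v
    rw [shift_DI]
    have h2 := intervalIntegral.integral_interval_add_Ioi (hint.integrableOn (s := Ioi (0:ℝ)))
      (hint.integrableOn (s := Ioi v))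
    simp only [hΦ]
    rw [hA, ← h2]
    ring
  have hd : ∀ v, HasDerivAt Φ (-φ v) v := by
    intro v
    have h3 := intervalIntegral.integral_hasDerivAt_right (hint.intervalIntegrable (a := 0) (b := v))
      (hφ.stronglyMeasurableAtFilter _ _) hφ.continuousAt
    have h4 := h3.const_sub A
    exact h4
  have hΦ0 : ∀ v, R < v → Φ v = 0 := by
    intro v hv
    rw [← h1 v]
    have : ∀ d ∈ Ioi (0:ℝ), φ (v + d) = 0 := by
      intro d hd
      apply hR
      rw [abs_of_pos (by linarith [mem_Ioi.mp hd])]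
      linarith [mem_Ioi.mp hd]
    rw [setIntegral_congr_fun measurableSet_Ioi this]
    simp
  have hΦc : Continuous Φ := continuous_iff_continuousAt.mpr fun v => (hd v).continuousAt
  have hN : ∀ v, HasDerivAt (fun x => ‖Φ x‖ ^ 2) (2 * inner ℝ (Φ v) (-φ v)) v := fun v => (hd v).norm_sq
  have hint2 : Integrable (fun v => 2 * inner ℝ (Φ v) (-φ v)) := by
    apply Continuous.integrable_of_hasCompactSupport
    · fun_prop
    · refine hc.mono ?_
      intro x hx
      simp only [Function.mem_support] at hx ⊢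
      intro h0
      apply hx
      rw [h0]
      simp
  have hlim : Tendsto (fun x => ‖Φ x‖ ^ 2) atTop (𝓝 0) := by
    apply tendsto_const_nhds.congr'
    filter_upwards [eventually_gt_atTop R] with v hv
    rw [hΦ0 v hv]
    simp
  have key := integral_Ioi_of_hasDerivAt_of_tendsto' (a := 0) (fun x _ => hN x) hint2.integrableOn hlim
  have hΦ00 : Φ 0 = A := by simp [hΦ]
  rw [hΦ00] at key
  have key2 : ‖A‖ ^ 2 = 2 * ∫ v in Ioi (0:ℝ), inner ℝ (Φ v) (φ v) := by
    have : ∫ x in Ioi (0:ℝ), 2 * inner ℝ (Φ x) (-φ x) = -(2 * ∫ v in Ioi (0:ℝ), inner ℝ (Φ v) (φ v)) := by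
      rw [← integral_const_mul, ← integral_neg]
      congr 1
      ext v
      rw [inner_neg_right]
      ring
    rw [this] at key
    linarith
  rw [key2]
  congr 1
  apply setIntegral_congr_fun measurableSet_Ioi
  intro v _
  have hs : Integrable (fun d => φ (v + d)) := hint.comp_add_left v
  show inner ℝ (Φ v) (φ v) = ∫ d in Ioi (0:ℝ), (φ v * (starRingEnd ℂ) (φ (v + d))).re
  have e1 : ∫ d in Ioi (0:ℝ), (φ v * (starRingEnd ℂ) (φ (v + d))).re =
      (∫ d in Ioi (0:ℝ), φ v * (starRingEnd ℂ) (φ (v + d))).re := by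
    have hi : IntegrableOn (fun d => φ v * (starRingEnd ℂ) (φ (v + d))) (Ioi (0:ℝ)) := by
      apply Integrable.integrableOn
      apply Integrable.const_mul
      exact (Complex.conjCLE.toContinuousLinearMap.integrable_comp hs)
    exact Complex.reCLM.integral_comp_comm hi
  rw [e1, integral_const_mul, integral_conj, h1 v, Complex.inner, mul_comm]

private def q_DI (n : ℕ) (v : ℝ) : ℝ := pp n (Real.exp (-v))

private lemma q_cont_DI (n : ℕ) : Continuous (q_DI n) := by
  unfold q_DI
  exact (pp_cont_DI n).comp (by fun_prop)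

lemma gd_cont (f : ℝ → ℂ) (hf : Continuous f) : Continuous (fun p : ℝ × ℝ => gd f p.1 p.2) := by
  unfold gd
  fun_prop

lemma gd_cpt (f : ℝ → ℂ) (hfc : HasCompactSupport f) (d : ℝ) : HasCompactSupport (gd f d) :=
  hfc.mul_right

private lemma B_DI (n : ℕ) (f : ℝ → ℂ) (hf : Continuous f) (hfc : HasCompactSupport f) (y : ℝ) :
    ‖Bop n f y‖ ^ 2 =
      ‖f y‖ ^ 2 + 2 * (∫ d in Ioi (0 : ℝ), (-1) ^ n * q_DI n d * (gd f d y).re) +
        2 * ∫ v in Ioi (0 : ℝ), ∫ d in Ioi (0 : ℝ),
          q_DI n v * q_DI n (v + d) * (gd f d (y + v)).re := by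
  have hq := q_cont_DI n
  set φ : ℝ → ℂ := fun u => ((q_DI n u : ℝ) : ℂ) * f (y + u) with hφ
  have hφ1 : Continuous φ := by
    rw [hφ]
    fun_prop
  have hφ2 : HasCompactSupport φ := by
    rw [hφ]
    apply HasCompactSupport.mul_left
    exact hfc.comp_homeomorph (Homeomorph.addLeft y)
  have hint : Integrable φ := hφ1.integrable_of_hasCompactSupport hφ2
  have hB : Bop n f y = (-1) ^ n * f y + ∫ u in Ioi (0:ℝ), φ u := rfl
  have hexp : ∀ a b : ℂ, ‖(-1) ^ n * a + b‖ ^ 2 =
      ‖a‖ ^ 2 + 2 * ((-1) ^ n * (a * (starRingEnd ℂ) b).re) + ‖b‖ ^ 2 := by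
    intro a b
    rcases neg_one_pow_eq_or ℂ n with h | h
    · have h' : ((-1 : ℝ)) ^ n = 1 := by exact_mod_cast h
      rw [h, h', ← Complex.normSq_eq_norm_sq, ← Complex.normSq_eq_norm_sq,
        ← Complex.normSq_eq_norm_sq, one_mul, Complex.normSq_add]
      ring
    · have h' : ((-1 : ℝ)) ^ n = -1 := by exact_mod_cast h
      rw [h, h', ← Complex.normSq_eq_norm_sq, ← Complex.normSq_eq_norm_sq,
        ← Complex.normSq_eq_norm_sq, Complex.normSq_add, neg_one_mul, Complex.normSq_neg, neg_mul, Complex.neg_re]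
      ring
  rw [hB, hexp]
  have t2 : 2 * ((-1) ^ n * (f y * (starRingEnd ℂ) (∫ u in Ioi (0:ℝ), φ u)).re) =
      2 * (∫ d in Ioi (0 : ℝ), (-1) ^ n * q_DI n d * (gd f d y).re) := by
    have e1 : (f y * (starRingEnd ℂ) (∫ u in Ioi (0:ℝ), φ u)).re =
        ∫ d in Ioi (0:ℝ), (f y * (starRingEnd ℂ) (φ d)).re := by
      have hi : IntegrableOn (fun d => f y * (starRingEnd ℂ) (φ d)) (Ioi (0:ℝ)) := by
        apply Integrable.integrableOn
        apply Integrable.const_mul
        exact (Complex.conjCLE.toContinuousLinearMap.integrable_comp hint)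
      rw [← integral_conj, ← integral_const_mul]
      exact (Complex.reCLM.integral_comp_comm hi).symm
    rw [e1, ← integral_const_mul]
    congr 1
    apply integral_congr_ae
    filter_upwards with d
    have e2 : f y * (starRingEnd ℂ) (φ d) = ((q_DI n d : ℝ) : ℂ) * gd f d y := by
      rw [hφ]
      simp only [gd]
      rw [map_mul, Complex.conj_ofReal]
      ring
    rw [e2, Complex.re_ofReal_mul]
    ring
  have t3 : ‖∫ u in Ioi (0:ℝ), φ u‖ ^ 2 =
      2 * ∫ v in Ioi (0 : ℝ), ∫ d in Ioi (0 : ℝ),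
          q_DI n v * q_DI n (v + d) * (gd f d (y + v)).re := by
    rw [sq_DI φ hφ1 hφ2]
    congr 1
    apply integral_congr_ae
    filter_upwards with v
    apply integral_congr_ae
    filter_upwards with d
    have e2 : φ v * (starRingEnd ℂ) (φ (v + d)) =
        ((q_DI n v * q_DI n (v + d) : ℝ) : ℂ) * gd f d (y + v) := by
      rw [hφ]
      simp only [gd]
      rw [map_mul, Complex.conj_ofReal, add_assoc y v d]
      push_cast
      ring
    rw [e2, Complex.re_ofReal_mul]
  rw [t2, t3]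

/-- the doubling identity -/
theorem doubling (n : ℕ) (f : ℝ → ℂ) (hf : Continuous f) (hfc : HasCompactSupport f) (y : ℝ) :
    IntegrableOn (fun d => (TT n d (gd f d) y).re) (Ioi 0) ∧
    ‖Bop n f y‖ ^ 2 = ‖f y‖ ^ 2 + 2 * ∫ d in Ioi (0 : ℝ), (TT n d (gd f d) y).re := by
  have hq := q_cont_DI n
  have hg := gd_cont f hf
  obtain ⟨R, hR0, hR⟩ := bdd_DI f hfc
  have g0 : ∀ d x, R < |x| → gd f d x = 0 := by
    intro d x h
    unfold gd
    rw [hR x h, zero_mul]
  have g1 : ∀ d x, R < |x + d| → gd f d x = 0 := by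
    intro d x h
    unfold gd
    rw [hR _ h, map_zero, mul_zero]
  -- the two dimensional integrand
  set Φ : ℝ × ℝ → ℝ := fun w => q_DI n w.1 * q_DI n (w.1 + w.2) * (gd f w.2 (y + w.1)).re with hΦ
  have hΦc : Continuous Φ := by
    rw [hΦ]
    have h1 : Continuous fun w : ℝ × ℝ => gd f w.2 (y + w.1) :=
      hg.comp (by fun_prop : Continuous fun w : ℝ × ℝ => (w.2, y + w.1))
    exact ((hq.comp continuous_fst).mul (hq.comp (by fun_prop))).mul (Complex.continuous_re.comp h1)
  have hΦs : HasCompactSupport Φ := by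
    apply HasCompactSupport.intro (K := Icc (-(R + |y|)) (R + |y|) ×ˢ Icc (-(2 * R)) (2 * R))
      (isCompact_Icc.prod isCompact_Icc)
    intro w hw
    rw [hΦ]
    beta_reduce
    by_cases h1 : R < |y + w.1|
    · rw [g0 _ _ h1]
      simp
    by_cases h2 : R < |y + w.1 + w.2|
    · rw [g1 _ _ h2]
      simp
    · exfalso
      apply hw
      rw [not_lt, abs_le] at h1 h2
      have h3 := neg_abs_le y
      have h4 := le_abs_self y
      refine ⟨⟨by linarith [h1.1], by linarith [h1.2]⟩, ⟨by linarith [h1.2, h2.1], by linarith [h1.1, h2.2]⟩⟩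
  have hΦi : Integrable Φ (volume.prod volume) := hΦc.integrable_of_hasCompactSupport hΦs
  have hΦr : Integrable Φ ((volume.restrict (Ioi (0:ℝ))).prod (volume.restrict (Ioi (0:ℝ)))) := by
    rw [Measure.prod_restrict]
    exact hΦi.integrableOn
  -- the real part of `TT`
  have hre : ∀ d : ℝ, (TT n d (gd f d) y).re =
      (-1) ^ n * q_DI n d * (gd f d y).re + ∫ v in Ioi (0:ℝ), Φ (v, d) := by
    intro d
    have hi : IntegrableOn (fun u : ℝ => ((pp n (Real.exp (-u)) * pp n (Real.exp (-u) * Real.exp (-d)) : ℝ) : ℂ) *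
        gd f d (y + u)) (Ioi 0) := by
      apply Integrable.integrableOn
      apply Continuous.integrable_of_hasCompactSupport
      · have h1 : Continuous fun u : ℝ => gd f d (y + u) :=
          hg.comp (by fun_prop : Continuous fun u : ℝ => (d, y + u))
        have h2 := pp_cont_DI n
        fun_prop
      · apply HasCompactSupport.mul_left
        exact (gd_cpt f hfc d).comp_homeomorph (Homeomorph.addLeft y)
    unfold TT
    rw [Complex.add_re, Complex.re_ofReal_mul]
    congr 1
    have h3 := Complex.reCLM.integral_comp_comm hi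
    simp only [Complex.reCLM_apply] at h3
    rw [← h3]
    apply setIntegral_congr_fun measurableSet_Ioi
    intro v _
    simp only [hΦ, q_DI]
    rw [Complex.re_ofReal_mul, neg_add, Real.exp_add]
  have hi1 : IntegrableOn (fun d => (-1) ^ n * q_DI n d * (gd f d y).re) (Ioi 0) := by
    apply Integrable.integrableOn
    apply Continuous.integrable_of_hasCompactSupport
    · have h1 : Continuous fun d : ℝ => gd f d y :=
        hg.comp (by fun_prop : Continuous fun d : ℝ => (d, y))
      have h2 : Continuous fun d : ℝ => (gd f d y).re := Complex.continuous_re.comp h1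
      fun_prop
    · apply HasCompactSupport.intro (K := Icc (-(R + |y|)) (R + |y|)) isCompact_Icc
      intro d hd
      by_cases h2 : R < |y + d|
      · rw [g1 _ _ h2]
        simp
      · exfalso
        apply hd
        rw [not_lt, abs_le] at h2
        have h3 := neg_abs_le y
        have h4 := le_abs_self y
        exact ⟨by linarith [h2.1], by linarith [h2.2]⟩
  have hi2 : IntegrableOn (fun d => ∫ v in Ioi (0:ℝ), Φ (v, d)) (Ioi 0) := hΦr.integral_prod_right
  refine ⟨?_, ?_⟩
  · refine (hi1.add hi2).congr ?_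
    filter_upwards with d
    rw [hre]
    rfl
  · rw [B_DI n f hf hfc y, integral_congr_ae (Eventually.of_forall fun d => hre d), integral_add hi1 hi2,
      mul_add, ← add_assoc]
    congr 2
    exact integral_integral_swap (f := fun v d => Φ (v, d)) hΦr

end Helper69.CS
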