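import Pool.Agent.Helper69.CS.St

/-!
# MP_3dd6d4_an, project CS, module GEN (helper7): the basic identity with the positive square

With Ψ(τ) = c F(0) + ∫_0^τ φF and T(τ) = ∫_τ^∞ (1-e^{-s}) φ(s) F(s) ds the derivative of
the function (1-e^{-τ}) ‖Ψ‖² + 2 ⟨Ψ, T⟩ is e^{-τ} ‖Ψ‖² + 2 ⟨φF, T⟩.
-/

set_option autoImplicit false

open MeasureTheory Set Filter Topology
open scoped ENNReal NNReal

noncomputable section

namespace Helper69.CS

open Helper85.BP Helper69.CR Helper69.CR.DB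

private lemma exp_int_GEN {α : ℝ} (hα : 0 < α) (K : ℝ) :
    IntegrableOn (fun u => K * Real.exp (-(α * u))) (Ioi 0) := by
  have h := (exp_neg_integrableOn_Ioi 0 hα).const_mul K
  simpa [neg_mul, IntegrableOn] using h

private lemma bnd_int_GEN {E : Type*} [NormedAddCommGroup E] {f : ℝ → E} (hf : Continuous f)
    {α K : ℝ} (hα : 0 < α) (hb : ∀ u, 0 ≤ u → ‖f u‖ ≤ K * Real.exp (-(α * u))) :
    IntegrableOn f (Ioi 0) := by
  refine (exp_int_GEN hα K).mono' hf.aestronglyMeasurable.restrict ?_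
  filter_upwards [ae_restrict_mem measurableSet_Ioi] with u hu
  exact hb u (le_of_lt hu)

private lemma shift_GEN (g : ℝ → ℂ) (v : ℝ) :
    ∫ d in Ioi (0 : ℝ), g (v + d) = ∫ u in Ioi v, g u := by
  have h := (measurePreserving_add_left volume v).setIntegral_preimage_emb
    (measurableEmbedding_addLeft v) g (Ioi v)
  rw [← h]
  simp

private lemma bdd_GEN {g : ℝ → ℂ} (hi : IntegrableOn g (Ioi 0)) (τ : ℝ)
    (hτ : 0 ≤ τ) : ‖∫ u in (0 : ℝ)..τ, g u‖ ≤ ∫ u in Ioi (0 : ℝ), ‖g u‖ := by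
  refine (intervalIntegral.norm_integral_le_integral_norm hτ).trans ?_
  rw [intervalIntegral.integral_of_le hτ]
  exact setIntegral_mono_set hi.norm (Eventually.of_forall fun _ => norm_nonneg _)
    (Ioc_subset_Ioi_self.eventuallyLE)

/-- the one dimensional part of the identity. -/
private lemma oneD_GEN (w : ℝ → ℂ) (a : ℂ) (α K : ℝ) (hw : Continuous w) (hα : 0 < α)
    (hb : ∀ u, 0 ≤ u → ‖w u‖ ≤ K * Real.exp (-(α * u))) :
    IntegrableOn (fun τ => Real.exp (-τ) * ‖a + ∫ u in (0 : ℝ)..τ, w u‖ ^ 2) (Ioi 0) ∧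
    IntegrableOn (fun u => inner ℝ (w u)
      (∫ d in Ioi (0 : ℝ), ((1 - Real.exp (-(u + d)) : ℝ) : ℂ) * w (u + d))) (Ioi 0) ∧
    ‖a + ∫ u in Ioi (0 : ℝ), w u‖ ^ 2 =
      (∫ τ in Ioi (0 : ℝ), Real.exp (-τ) * ‖a + ∫ u in (0 : ℝ)..τ, w u‖ ^ 2) +
      2 * (inner ℝ a (∫ d in Ioi (0 : ℝ), ((1 - Real.exp (-d) : ℝ) : ℂ) * w d) +
        ∫ u in Ioi (0 : ℝ), inner ℝ (w u)
          (∫ d in Ioi (0 : ℝ), ((1 - Real.exp (-(u + d)) : ℝ) : ℂ) * w (u + d))) := by
  have hi : IntegrableOn w (Ioi 0) := bnd_int_GEN hw hα hb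
  set G : ℝ → ℂ := fun s => ((1 - Real.exp (-s) : ℝ) : ℂ) * w s with hG
  have hGc : Continuous G := by
    rw [hG]
    fun_prop
  have hGb : ∀ u, 0 ≤ u → ‖G u‖ ≤ K * Real.exp (-(α * u)) := by
    intro u hu
    have h1 : 0 ≤ 1 - Real.exp (-u) := by
      have : Real.exp (-u) ≤ 1 := Real.exp_le_one_iff.mpr (by linarith)
      linarith
    have h2 : 1 - Real.exp (-u) ≤ 1 := by
      have := Real.exp_pos (-u)
      linarith
    have h3 : ‖G u‖ = (1 - Real.exp (-u)) * ‖w u‖ := by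
      rw [hG]
      simp only [norm_mul, Complex.norm_real, Real.norm_eq_abs, abs_of_nonneg h1]
    rw [h3]
    exact (mul_le_of_le_one_left (norm_nonneg _) h2).trans (hb u hu)
  have hGi : IntegrableOn G (Ioi 0) := bnd_int_GEN hGc hα hGb
  set AT : ℂ := ∫ s in Ioi (0 : ℝ), G s with hAT
  let Ψ : ℝ → ℂ := fun τ => a + ∫ u in (0 : ℝ)..τ, w u
  let T : ℝ → ℂ := fun τ => AT - ∫ u in (0 : ℝ)..τ, G u
  have hΨd : ∀ τ, HasDerivAt Ψ (w τ) τ := by
    intro τ
    exact (intervalIntegral.integral_hasDerivAt_right (hw.intervalIntegrable 0 τ)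
      (hw.stronglyMeasurableAtFilter _ _) hw.continuousAt).const_add a
  have hTd : ∀ τ, HasDerivAt T (-G τ) τ := by
    intro τ
    exact (intervalIntegral.integral_hasDerivAt_right (hGc.intervalIntegrable 0 τ)
      (hGc.stronglyMeasurableAtFilter _ _) hGc.continuousAt).const_sub AT
  have hΨc : Continuous Ψ := continuous_iff_continuousAt.mpr fun v => (hΨd v).continuousAt
  have hTc : Continuous T := continuous_iff_continuousAt.mpr fun v => (hTd v).continuousAt
  have hTe : ∀ τ, 0 ≤ τ → ∫ d in Ioi (0 : ℝ), G (τ + d) = T τ := by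
    intro τ hτ
    rw [shift_GEN]
    have h2 := intervalIntegral.integral_interval_add_Ioi hGi
      (hGi.mono_set (Ioi_subset_Ioi hτ))
    simp only [T]
    rw [hAT, ← h2]
    ring
  have hΨb : ∀ τ, 0 ≤ τ → ‖Ψ τ‖ ≤ ‖a‖ + ∫ u in Ioi (0 : ℝ), ‖w u‖ := fun τ hτ =>
    (norm_add_le _ _).trans (by linarith [bdd_GEN hi τ hτ])
  have hTb : ∀ τ, 0 ≤ τ → ‖T τ‖ ≤ ‖AT‖ + ∫ u in Ioi (0 : ℝ), ‖G u‖ := fun τ hτ =>
    (norm_sub_le _ _).trans (by linarith [bdd_GEN hGi τ hτ])
  -- integrability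
  have i1 : IntegrableOn (fun τ => Real.exp (-τ) * ‖Ψ τ‖ ^ 2) (Ioi 0) := by
    refine bnd_int_GEN (α := 1) (K := (‖a‖ + ∫ u in Ioi (0 : ℝ), ‖w u‖) ^ 2) ?_ one_pos ?_
    · fun_prop
    · intro u hu
      rw [norm_mul, Real.norm_eq_abs, Real.norm_eq_abs, abs_of_pos (Real.exp_pos _),
        abs_of_nonneg (by positivity), one_mul, mul_comm]
      exact mul_le_mul_of_nonneg_right (pow_le_pow_left₀ (norm_nonneg _) (hΨb u hu) 2)
        (Real.exp_pos _).le
  have i2 : IntegrableOn (fun τ => inner ℝ (w τ) (T τ)) (Ioi 0) := by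
    refine bnd_int_GEN (α := α) (K := K * (‖AT‖ + ∫ u in Ioi (0 : ℝ), ‖G u‖)) ?_ hα ?_
    · fun_prop
    · intro u hu
      refine (norm_inner_le_norm _ _).trans ?_
      calc ‖w u‖ * ‖T u‖ ≤ (K * Real.exp (-(α * u))) * (‖AT‖ + ∫ u in Ioi (0 : ℝ), ‖G u‖) :=
            mul_le_mul (hb u hu) (hTb u hu) (norm_nonneg _) ((norm_nonneg _).trans (hb u hu))
        _ = _ := by ring
  have e2 : ∀ u ∈ Ioi (0 : ℝ), inner ℝ (w u) (∫ d in Ioi (0 : ℝ), G (u + d)) =
      inner ℝ (w u) (T u) := by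
    intro u hu
    rw [hTe u (le_of_lt hu)]
  refine ⟨i1, ?_, ?_⟩
  · exact i2.congr_fun (fun u hu => (e2 u hu).symm) measurableSet_Ioi
  -- the derivative
  let Kf : ℝ → ℝ := fun τ => (1 - Real.exp (-τ)) * ‖Ψ τ‖ ^ 2 + 2 * inner ℝ (Ψ τ) (T τ)
  have hK : ∀ τ, HasDerivAt Kf (Real.exp (-τ) * ‖Ψ τ‖ ^ 2 + 2 * inner ℝ (w τ) (T τ)) τ := by
    intro τ
    have h1 : HasDerivAt (fun τ : ℝ => 1 - Real.exp (-τ)) (Real.exp (-τ)) τ := by
      have h := ((hasDerivAt_neg τ).exp).const_sub 1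
      refine h.congr_deriv ?_
      ring
    have h2 := (hΨd τ).norm_sq
    have h3 := (hΨd τ).inner ℝ (hTd τ)
    have h4 := (h1.mul h2).add (h3.const_mul 2)
    refine h4.congr_deriv ?_
    have h5 : inner ℝ (Ψ τ) (-G τ) = -((1 - Real.exp (-τ)) * inner ℝ (Ψ τ) (w τ)) := by
      rw [inner_neg_right]
      have : G τ = (1 - Real.exp (-τ)) • w τ := by
        rw [hG]
        simp only [Complex.real_smul]
      rw [this, inner_smul_right]
    rw [h5]
    ring
  have hlimΨ : Tendsto Ψ atTop (𝓝 (a + ∫ u in Ioi (0 : ℝ), w u)) :=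
    tendsto_const_nhds.add (intervalIntegral_tendsto_integral_Ioi 0 hi tendsto_id)
  have hlimT : Tendsto T atTop (𝓝 (AT - AT)) :=
    tendsto_const_nhds.sub (intervalIntegral_tendsto_integral_Ioi 0 hGi tendsto_id)
  rw [sub_self] at hlimT
  have hlim1 : Tendsto (fun τ : ℝ => 1 - Real.exp (-τ)) atTop (𝓝 (1 - 0)) :=
    tendsto_const_nhds.sub (Real.tendsto_exp_neg_atTop_nhds_zero)
  have hlimK : Tendsto Kf atTop (𝓝 ((1 - 0) * ‖a + ∫ u in Ioi (0 : ℝ), w u‖ ^ 2 +
      2 * inner ℝ (a + ∫ u in Ioi (0 : ℝ), w u) (0 : ℂ))) :=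
    (hlim1.mul (hlimΨ.norm.pow 2)).add ((hlimΨ.inner hlimT).const_mul 2)
  have key := integral_Ioi_of_hasDerivAt_of_tendsto' (a := 0) (fun x _ => hK x)
    (i1.add (i2.const_mul 2)) hlimK
  rw [integral_add i1 (i2.const_mul 2), integral_const_mul] at key
  have hK0 : Kf 0 = 2 * inner ℝ a AT := by
    simp [Kf, Ψ, T]
  rw [hK0, inner_zero_right] at key
  have e3 : ∫ u in Ioi (0 : ℝ), inner ℝ (w u) (∫ d in Ioi (0 : ℝ), G (u + d)) =
      ∫ u in Ioi (0 : ℝ), inner ℝ (w u) (T u) := setIntegral_congr_fun measurableSet_Ioi e2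
  show ‖a + ∫ u in Ioi (0 : ℝ), w u‖ ^ 2 =
      (∫ τ in Ioi (0 : ℝ), Real.exp (-τ) * ‖Ψ τ‖ ^ 2) +
      2 * (inner ℝ a AT + ∫ u in Ioi (0 : ℝ), inner ℝ (w u) (∫ d in Ioi (0 : ℝ), G (u + d)))
  rw [e3]
  linarith only [key]

theorem hGEN : StGEN := by
  intro φ c F α C M hφ hφb hF hα hFb
  have hM0 : 0 ≤ M := (abs_nonneg _).trans (hφb 0 le_rfl)
  have hC0 : 0 ≤ C := by
    have h := (norm_nonneg _).trans (hFb 0 le_rfl)
    simpa using h
  set w : ℝ → ℂ := fun u => (φ u : ℂ) * F u with hw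
  have hwc : Continuous w := by
    rw [hw]
    fun_prop
  have hwb : ∀ u, 0 ≤ u → ‖w u‖ ≤ (M * C) * Real.exp (-(α * u)) := by
    intro u hu
    rw [hw]
    simp only [norm_mul, Complex.norm_real, Real.norm_eq_abs]
    calc |φ u| * ‖F u‖ ≤ M * (C * Real.exp (-(α * u))) :=
          mul_le_mul (hφb u hu) (hFb u hu) (norm_nonneg _) hM0
      _ = _ := by ring
  obtain ⟨i1, -, key⟩ := oneD_GEN w ((c : ℂ) * F 0) α (M * C) hwc hα hwb
  -- the two dimensional integrand
  let Φ : ℝ × ℝ → ℝ := fun q =>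
    (((φ q.1 * φ (q.1 + q.2) * (1 - Real.exp (-(q.1 + q.2))) : ℝ) : ℂ) *
      (F q.1 * (starRingEnd ℂ) (F (q.1 + q.2)))).re
  have hΦc : Continuous Φ := by
    have hs : Continuous fun q : ℝ × ℝ => q.1 + q.2 := by fun_prop
    have h1 : Continuous fun q : ℝ × ℝ => F (q.1 + q.2) := hF.comp hs
    have h2 : Continuous fun q : ℝ × ℝ => F q.1 := hF.comp continuous_fst
    have h3 : Continuous fun q : ℝ × ℝ => φ (q.1 + q.2) := hφ.comp hs
    have h4 : Continuous fun q : ℝ × ℝ => φ q.1 := hφ.comp continuous_fst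
    have h5 : Continuous fun q : ℝ × ℝ => (starRingEnd ℂ) (F (q.1 + q.2)) :=
      Complex.continuous_conj.comp h1
    exact Complex.continuous_re.comp ((Complex.continuous_ofReal.comp
      ((h4.mul h3).mul (by fun_prop))).mul (h2.mul h5))
  have hnorm : ∀ u d : ℝ, 0 ≤ u → 0 ≤ d →
      ‖((φ u * φ (u + d) * (1 - Real.exp (-(u + d))) : ℝ) : ℂ) *
        (F u * (starRingEnd ℂ) (F (u + d)))‖ ≤
      ((M * C) * Real.exp (-(α * u))) * ((M * C) * Real.exp (-(α * d))) := by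
    intro u d hu hd
    have h1 : 0 ≤ 1 - Real.exp (-(u + d)) := by
      have : Real.exp (-(u + d)) ≤ 1 := Real.exp_le_one_iff.mpr (by linarith)
      linarith
    have h2 : 1 - Real.exp (-(u + d)) ≤ 1 := by
      have := Real.exp_pos (-(u + d))
      linarith
    have h3 : ‖((φ u * φ (u + d) * (1 - Real.exp (-(u + d))) : ℝ) : ℂ) *
        (F u * (starRingEnd ℂ) (F (u + d)))‖ =
        (1 - Real.exp (-(u + d))) * (‖w u‖ * ‖w (u + d)‖) := by
      rw [hw]
      simp only [norm_mul, Complex.norm_real, Real.norm_eq_abs, RCLike.norm_conj,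
        abs_of_nonneg h1]
      ring
    rw [h3]
    have h4 : ‖w (u + d)‖ ≤ (M * C) * Real.exp (-(α * d)) := by
      refine (hwb (u + d) (by linarith)).trans ?_
      refine mul_le_mul_of_nonneg_left (Real.exp_le_exp.mpr ?_) (by positivity)
      have : 0 ≤ α * u := by positivity
      nlinarith
    have h5 : 0 ≤ ‖w u‖ * ‖w (u + d)‖ := by positivity
    refine (mul_le_of_le_one_left h5 h2).trans ?_
    exact mul_le_mul (hwb u hu) h4 (norm_nonneg _) ((norm_nonneg _).trans (hwb u hu))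
  have hΦb : ∀ u d : ℝ, 0 ≤ u → 0 ≤ d → ‖Φ (u, d)‖ ≤
      ((M * C) * Real.exp (-(α * u))) * ((M * C) * Real.exp (-(α * d))) := fun u d hu hd =>
    (Complex.abs_re_le_norm _).trans (hnorm u d hu hd)
  have hΦr : Integrable Φ ((volume.restrict (Ioi (0 : ℝ))).prod (volume.restrict (Ioi (0 : ℝ)))) := by
    have hg : Integrable (fun q : ℝ × ℝ => ((M * C) * Real.exp (-(α * q.1))) *
        ((M * C) * Real.exp (-(α * q.2))))
        ((volume.restrict (Ioi (0 : ℝ))).prod (volume.restrict (Ioi (0 : ℝ)))) :=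
      (exp_int_GEN hα (M * C)).mul_prod (exp_int_GEN hα (M * C))
    refine hg.mono' hΦc.aestronglyMeasurable ?_
    rw [Measure.prod_restrict]
    filter_upwards [ae_restrict_mem (measurableSet_Ioi.prod measurableSet_Ioi)] with q hq
    exact hΦb q.1 q.2 (le_of_lt hq.1) (le_of_lt hq.2)
  -- the inner product as an integral
  have e1 : ∀ u ∈ Ioi (0 : ℝ), inner ℝ (w u)
      (∫ d in Ioi (0 : ℝ), ((1 - Real.exp (-(u + d)) : ℝ) : ℂ) * w (u + d)) =
      ∫ d in Ioi (0 : ℝ), Φ (u, d) := by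
    intro u hu
    have hu0 : 0 ≤ u := le_of_lt hu
    have hi : IntegrableOn (fun d => ((1 - Real.exp (-(u + d)) : ℝ) : ℂ) * w (u + d)) (Ioi 0) := by
      refine bnd_int_GEN (α := α) (K := M * C) ?_ hα ?_
      · fun_prop
      · intro d hd
        have h1 : 0 ≤ 1 - Real.exp (-(u + d)) := by
          have : Real.exp (-(u + d)) ≤ 1 := Real.exp_le_one_iff.mpr (by linarith)
          linarith
        have h2 : 1 - Real.exp (-(u + d)) ≤ 1 := by
          have := Real.exp_pos (-(u + d))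
          linarith
        rw [norm_mul, Complex.norm_real, Real.norm_eq_abs, abs_of_nonneg h1]
        refine (mul_le_of_le_one_left (norm_nonneg _) h2).trans ((hwb (u + d) (by linarith)).trans ?_)
        refine mul_le_mul_of_nonneg_left (Real.exp_le_exp.mpr ?_) (by positivity)
        have : 0 ≤ α * u := by positivity
        nlinarith
    rw [← integral_inner hi]
    refine setIntegral_congr_fun measurableSet_Ioi fun d _ => ?_
    simp only [Φ, hw]
    rw [Complex.inner]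
    simp only [map_mul, Complex.conj_ofReal]
    have : (((1 - Real.exp (-(u + d)) : ℝ) : ℂ) * (((φ (u + d) : ℝ) : ℂ) * F (u + d))) *
        (((φ u : ℝ) : ℂ) * (starRingEnd ℂ) (F u)) =
        (starRingEnd ℂ) (((φ u * φ (u + d) * (1 - Real.exp (-(u + d))) : ℝ) : ℂ) *
          (F u * (starRingEnd ℂ) (F (u + d)))) := by
      simp only [map_mul, Complex.conj_ofReal, Complex.conj_conj]
      push_cast
      ring
    rw [this, Complex.conj_re]
  have e1' : ∫ u in Ioi (0 : ℝ), inner ℝ (w u)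
      (∫ d in Ioi (0 : ℝ), ((1 - Real.exp (-(u + d)) : ℝ) : ℂ) * w (u + d)) =
      ∫ d in Ioi (0 : ℝ), ∫ u in Ioi (0 : ℝ), Φ (u, d) := by
    rw [setIntegral_congr_fun measurableSet_Ioi e1]
    exact integral_integral_swap (f := fun u d => Φ (u, d)) hΦr
  -- the atom
  have hiG : IntegrableOn (fun d => ((1 - Real.exp (-d) : ℝ) : ℂ) * w d) (Ioi 0) := by
    refine bnd_int_GEN (α := α) (K := M * C) ?_ hα ?_
    · fun_prop
    · intro d hd
      have h1 : 0 ≤ 1 - Real.exp (-d) := by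
        have : Real.exp (-d) ≤ 1 := Real.exp_le_one_iff.mpr (by linarith)
        linarith
      have h2 : 1 - Real.exp (-d) ≤ 1 := by
        have := Real.exp_pos (-d)
        linarith
      rw [norm_mul, Complex.norm_real, Real.norm_eq_abs, abs_of_nonneg h1]
      exact (mul_le_of_le_one_left (norm_nonneg _) h2).trans (hwb d hd)
  have hatom : ∀ d : ℝ, inner ℝ ((c : ℂ) * F 0) (((1 - Real.exp (-d) : ℝ) : ℂ) * w d) =
      (((c * (1 - Real.exp (-d)) * φ d : ℝ) : ℂ) * (F 0 * (starRingEnd ℂ) (F d))).re := by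
    intro d
    rw [Complex.inner]
    have : (((1 - Real.exp (-d) : ℝ) : ℂ) * w d) * (starRingEnd ℂ) ((c : ℂ) * F 0) =
        (starRingEnd ℂ) (((c * (1 - Real.exp (-d)) * φ d : ℝ) : ℂ) *
          (F 0 * (starRingEnd ℂ) (F d))) := by
      rw [hw]
      simp only [map_mul, Complex.conj_ofReal, Complex.conj_conj]
      push_cast
      ring
    rw [this, Complex.conj_re]
  have i3 : IntegrableOn (fun d =>
      (((c * (1 - Real.exp (-d)) * φ d : ℝ) : ℂ) * (F 0 * (starRingEnd ℂ) (F d))).re) (Ioi 0) := by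
    have h := Integrable.const_inner (𝕜 := ℝ) ((c : ℂ) * F 0) hiG
    exact h.congr (Eventually.of_forall hatom)
  have e3 : inner ℝ ((c : ℂ) * F 0) (∫ d in Ioi (0 : ℝ), ((1 - Real.exp (-d) : ℝ) : ℂ) * w d) =
      ∫ d in Ioi (0 : ℝ),
        (((c * (1 - Real.exp (-d)) * φ d : ℝ) : ℂ) * (F 0 * (starRingEnd ℂ) (F d))).re := by
    rw [← integral_inner hiG]
    exact integral_congr_ae (Eventually.of_forall hatom)
  -- the integrand of the statement
  have hD : ∀ d ∈ Ioi (0 : ℝ), (((c * (1 - Real.exp (-d)) * φ d : ℝ) : ℂ) *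
      (F 0 * (starRingEnd ℂ) (F d)) +
      ∫ u in Ioi (0 : ℝ), ((φ u * φ (u + d) * (1 - Real.exp (-(u + d))) : ℝ) : ℂ) *
        (F u * (starRingEnd ℂ) (F (u + d)))).re =
      (((c * (1 - Real.exp (-d)) * φ d : ℝ) : ℂ) * (F 0 * (starRingEnd ℂ) (F d))).re +
        ∫ u in Ioi (0 : ℝ), Φ (u, d) := by
    intro d hd
    rw [Complex.add_re]
    congr 1
    have hi : IntegrableOn (fun u => ((φ u * φ (u + d) * (1 - Real.exp (-(u + d))) : ℝ) : ℂ) *
        (F u * (starRingEnd ℂ) (F (u + d)))) (Ioi 0) := by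
      refine bnd_int_GEN (α := α) (K := (M * C) * ((M * C) * Real.exp (-(α * d)))) ?_ hα ?_
      · have hs : Continuous fun u : ℝ => u + d := by fun_prop
        have h1 : Continuous fun u : ℝ => F (u + d) := hF.comp hs
        have h3 : Continuous fun u : ℝ => φ (u + d) := hφ.comp hs
        have h5 : Continuous fun u : ℝ => (starRingEnd ℂ) (F (u + d)) :=
          Complex.continuous_conj.comp h1
        exact (Complex.continuous_ofReal.comp ((hφ.mul h3).mul (by fun_prop))).mul (hF.mul h5)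
      · intro u hu
        refine (hnorm u d hu (le_of_lt hd)).trans (le_of_eq ?_)
        ring
    exact (Complex.reCLM.integral_comp_comm hi).symm
  have i4 : IntegrableOn (fun d => ∫ u in Ioi (0 : ℝ), Φ (u, d)) (Ioi 0) := hΦr.integral_prod_right
  refine ⟨i1, ?_, ?_⟩
  · exact (i3.add i4).congr_fun (fun d hd => (hD d hd).symm) measurableSet_Ioi
  · rw [setIntegral_congr_fun measurableSet_Ioi hD, integral_add i3 i4, ← e1', ← e3]
    exact key

end Helper69.CS
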