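import Pool.Agent.Helper69.CS.St
import Pool.Agent.Helper71.P4.St
import Pool.Agent.Helper85.CP.St

/-!
# Module KQ of project CS (MP_3dd6d4_an): `K2` in the variable `τ`.
-/

set_option autoImplicit false

open MeasureTheory Set Filter Topology
open scoped ENNReal NNReal

noncomputable section

namespace Helper69.CS

open Helper69.CR

private lemma pp_cont_KQ (n : ℕ) : Continuous (pp n) := by
  unfold pp
  fun_prop

private lemma FF_lint_KQ (n : ℕ) (s : ℝ) (h0 : 0 < s) (h1 : s < 1) :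
    0 ≤ Helper85.CP.FF n s ∧
    ENNReal.ofReal (Helper85.CP.FF n s) = ∫⁻ t in Ioo s 1, ENNReal.ofReal (|pp n t| / t) := by
  have hcont : ContinuousOn (fun t : ℝ => |pp n t| / t) (Icc s 1) := by
    intro t ht
    have ht0 : 0 < t := lt_of_lt_of_le h0 ht.1
    exact ((pp_cont_KQ n).abs.continuousAt.div continuousAt_id ht0.ne').continuousWithinAt
  have hint : IntegrableOn (fun t : ℝ => |pp n t| / t) (Ioo s 1) :=
    (hcont.integrableOn_Icc).mono_set Ioo_subset_Icc_self
  have hnn : ∀ t ∈ Ioo s 1, 0 ≤ |pp n t| / t := fun t ht =>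
    div_nonneg (abs_nonneg _) (h0.trans ht.1).le
  have hFF : Helper85.CP.FF n s = ∫ t in Ioo s 1, |pp n t| / t := by
    unfold Helper85.CP.FF
    rw [intervalIntegral.integral_of_le h1.le, integral_Ioc_eq_integral_Ioo]
  refine ⟨?_, ?_⟩
  · rw [hFF]
    exact setIntegral_nonneg measurableSet_Ioo hnn
  · rw [hFF]
    exact ofReal_integral_eq_lintegral_ofReal hint
      ((ae_restrict_iff' measurableSet_Ioo).2 (Filter.Eventually.of_forall hnn))

/-- MODULE KQ. -/
theorem hKQ (h : Helper71.P4.StK2) (h' : Helper85.CP.StKE) : StKQ := by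
  intro n hn
  have hb : 0 ≤ 1 + 37 / 10 * Real.sqrt n + 4 * (n : ℝ) := by positivity
  have e1 : K2 n = ∫ s in Ioo (0 : ℝ) 1, (1 + Helper85.CP.FF n s) ^ 2 := by
    have := (h' n).2.2
    unfold Helper85.CP.K2 at this
    rw [intervalIntegral.integral_of_le zero_le_one, integral_Ioc_eq_integral_Ioo] at this
    exact this
  rw [e1]
  by_cases hi : IntegrableOn (fun s : ℝ => (1 + Helper85.CP.FF n s) ^ 2) (Ioo (0 : ℝ) 1)
  · have e2 : ENNReal.ofReal (∫ s in Ioo (0 : ℝ) 1, (1 + Helper85.CP.FF n s) ^ 2) =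
        ∫⁻ s in Ioo (0 : ℝ) 1, ENNReal.ofReal ((1 + Helper85.CP.FF n s) ^ 2) :=
      ofReal_integral_eq_lintegral_ofReal hi (Filter.Eventually.of_forall fun s => sq_nonneg _)
    have e3 : ∫⁻ s in Ioo (0 : ℝ) 1, ENNReal.ofReal ((1 + Helper85.CP.FF n s) ^ 2) =
        ∫⁻ s in Ioo (0 : ℝ) 1, (1 + ∫⁻ t in Ioo s 1, ENNReal.ofReal (|pp n t| / t)) ^ 2 := by
      refine setLIntegral_congr_fun measurableSet_Ioo ?_
      intro s hs
      obtain ⟨h0, h1⟩ := FF_lint_KQ n s hs.1 hs.2
      simp only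
      rw [← h1, ENNReal.ofReal_pow (by linarith), ENNReal.ofReal_add zero_le_one h0,
        ENNReal.ofReal_one]
    have h2 := h n hn
    rw [← e3, ← e2] at h2
    exact (ENNReal.ofReal_le_ofReal_iff hb).1 h2
  · rw [integral_undef hi]
    exact hb

end Helper69.CS
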