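import Pool.Agent.Helper69.CS.St

/-!
# MP_3dd6d4_an, project CS: module NR (the doubling step for a node)
-/

set_option autoImplicit false

open MeasureTheory Set Filter Topology
open scoped ENNReal NNReal

noncomputable section

namespace Helper69.CS

open Helper85.BP Helper69.CR Helper69.CR.DB

private lemma pp_cont_NR (k : ℕ) : Continuous (pp k) := by
  unfold pp
  fun_prop

private lemma Bop_meas_NR (k : ℕ) (f : ℝ → ℂ) (hf : Continuous f) :
    StronglyMeasurable (fun q : ℝ × ℝ => Bop k (gd f q.1) q.2) := by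
  unfold Bop
  have h0 := gd_cont f hf
  have hp := pp_cont_NR k
  apply StronglyMeasurable.add
  · apply Continuous.stronglyMeasurable
    have h1 : Continuous fun q : ℝ × ℝ => gd f q.1 q.2 := h0
    fun_prop
  · have h2 : StronglyMeasurable (fun w : (ℝ × ℝ) × ℝ =>
        ((pp k (Real.exp (-w.2)) : ℝ) : ℂ) * gd f w.1.1 (w.1.2 + w.2)) := by
      apply Continuous.stronglyMeasurable
      have h3 : Continuous fun w : (ℝ × ℝ) × ℝ => gd f w.1.1 (w.1.2 + w.2) :=
        h0.comp (by fun_prop : Continuous fun w : (ℝ × ℝ) × ℝ => (w.1.1, w.1.2 + w.2))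
      fun_prop
    exact h2.integral_prod_right

private lemma Bop_meas1_NR (k : ℕ) (f : ℝ → ℂ) (hf : Continuous f) :
    StronglyMeasurable (Bop k f) := by
  have hp := pp_cont_NR k
  have : Bop k f = fun y => (-1) ^ k * f y +
      ∫ u in Ioi (0 : ℝ), ((pp k (Real.exp (-u)) : ℝ) : ℂ) * f (y + u) := rfl
  rw [this]
  apply StronglyMeasurable.add
  · apply Continuous.stronglyMeasurable
    fun_prop
  · have h2 : StronglyMeasurable (fun w : ℝ × ℝ =>
        ((pp k (Real.exp (-w.2)) : ℝ) : ℂ) * f (w.1 + w.2)) := by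
      apply Continuous.stronglyMeasurable
      fun_prop
    exact h2.integral_prod_right

private lemma PP_meas_NR (n : ℕ) (c : ℕ → ℝ → ℝ) (hc : ∀ k, Measurable (c k)) (f : ℝ → ℂ)
    (hf : Continuous f) : StronglyMeasurable (fun q : ℝ × ℝ => PP n c q.1 (gd f q.1) q.2) := by
  unfold PP
  apply Finset.stronglyMeasurable_fun_sum
  intro k _
  refine StronglyMeasurable.mul ?_ (Bop_meas_NR k f hf)
  apply Measurable.stronglyMeasurable
  have h1 : Measurable fun q : ℝ × ℝ => c k (Real.exp (-q.1)) :=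
    (hc k).comp (by fun_prop)
  exact Complex.measurable_ofReal.comp h1

private lemma Qn_meas_NR (n : ℕ) (c : ℕ → ℝ → ℝ) (hc : ∀ k, Measurable (c k)) (f : ℝ → ℂ)
    (hf : Continuous f) : Measurable (Qn n c f) := by
  have h1 : Measurable fun y => ‖Bop n f y‖ ^ 2 := (Bop_meas1_NR n f hf).measurable.norm.pow_const 2
  have h2 : StronglyMeasurable fun q : ℝ × ℝ => (PP n c q.2 (gd f q.2) q.1).re :=
    (Complex.measurable_re.comp
      ((PP_meas_NR n c hc f hf).measurable.comp measurable_swap)).stronglyMeasurable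
  have h3 : StronglyMeasurable fun y => ∫ d in Ioi (0 : ℝ), (PP n c d (gd f d) y).re :=
    h2.integral_prod_right
  have : Qn n c f = fun y => ‖Bop n f y‖ ^ 2 -
      2 * ∫ d in Ioi (0 : ℝ), (PP n c d (gd f d) y).re := rfl
  rw [this]
  exact h1.sub (h3.measurable.const_mul 2)

private lemma Cn_nonneg_NR (k : ℕ) {a : ℝ} (h0 : 0 < a) (h1 : a ≤ 1) : 0 ≤ Cn k a := by
  unfold Cn
  refine Finset.prod_nonneg fun i _ => ?_
  have : (0 : ℝ) ≤ i := Nat.cast_nonneg i
  exact div_nonneg (by linarith) (by linarith)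

private lemma kP_nonneg_NR {n : ℕ} {c : ℕ → ℝ → ℝ} (hpos : ∀ k x, 0 < x → x < 1 → 0 ≤ c k x)
    {b : ℝ} (h0 : 0 < b) (h1 : b ≤ 1) {d : ℝ} (hd : 0 < d) : 0 ≤ kP n c b d := by
  unfold kP
  refine Finset.sum_nonneg fun k _ => mul_nonneg (hpos k _ (Real.exp_pos _) ?_)
    (Cn_nonneg_NR k h0 h1)
  rw [Real.exp_lt_one_iff]
  linarith

private lemma kP_int_NR (n : ℕ) (c : ℕ → ℝ → ℝ) (hm : ∀ k, Measurable (c k))
    (hpos : ∀ k x, 0 < x → x < 1 → 0 ≤ c k x) (M : ℝ) (hM : ∀ k x, 0 < x → x < 1 → c k x ≤ M)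
    {b : ℝ} (h0 : 0 < b) (h1 : b ≤ 1) {a : ℝ} (ha : 0 < a) :
    IntegrableOn (fun d => Real.exp (-(a * d)) * kP n c b d) (Ioi (0 : ℝ)) := by
  have hkm : Measurable fun d => kP n c b d := by
    unfold kP
    refine Finset.measurable_fun_sum _ fun k _ => ?_
    exact ((hm k).comp (by fun_prop)).mul_const _
  have he : IntegrableOn (fun d : ℝ => Real.exp (-(a * d))) (Ioi (0 : ℝ)) := by
    have := integrableOn_exp_mul_Ioi (a := -a) (by linarith) 0
    refine this.congr_fun (fun d _ => ?_) measurableSet_Ioi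
    simp only [neg_mul]
  set S : ℝ := ∑ k ∈ Finset.range (2 * n + 1), M * Cn k b with hS
  refine Integrable.mono' (he.mul_const S) ?_ ?_
  · exact ((by fun_prop : Measurable fun d : ℝ => Real.exp (-(a * d))).mul hkm).aestronglyMeasurable
  · rw [ae_restrict_iff' measurableSet_Ioi]
    refine Eventually.of_forall fun d hd => ?_
    have hd' : 0 < d := hd
    have hk0 := kP_nonneg_NR (n := n) hpos h0 h1 hd'
    rw [Real.norm_eq_abs, abs_of_nonneg (mul_nonneg (Real.exp_pos _).le hk0)]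
    refine mul_le_mul_of_nonneg_left ?_ (Real.exp_pos _).le
    rw [hS]
    unfold kP
    refine Finset.sum_le_sum fun k _ => mul_le_mul_of_nonneg_right ?_ (Cn_nonneg_NR k h0 h1)
    refine hM k _ (Real.exp_pos _) ?_
    rw [Real.exp_lt_one_iff]
    linarith

private lemma Bop0_NR (v : ℝ → ℂ) : Bop 0 v = v := by
  funext y
  unfold Bop pp
  simp

private lemma PP_bound_NR {n : ℕ} {c : ℕ → ℝ → ℝ} (hpos : ∀ k x, 0 < x → x < 1 → 0 ≤ c k x)
    {r N : ℝ} (hr : 1 < r) (hN : 1 ≤ N) (hB : ∀ k, 1 ≤ k → Bd k r N) {d : ℝ} (hd : 0 < d)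
    {v : ℝ → ℂ} (hv : Continuous v) (hs : HasCompactSupport v) :
    Nm r (PP n c d v) ≤ ENNReal.ofReal (N * kP n c (1 / r) d) * Nm r v := by
  have hr0 : 0 < r := by linarith
  have h1r : 1 / r ≤ 1 := by rw [div_le_one hr0]; exact hr.le
  have h1r0 : 0 < 1 / r := by positivity
  have hx1 : Real.exp (-d) < 1 := by
    rw [Real.exp_lt_one_iff]
    linarith
  have hk : ∀ k, Nm r (Bop k v) ≤ ENNReal.ofReal (N * Cn k (1 / r)) * Nm r v := by
    intro k
    rcases Nat.eq_zero_or_pos k with h | h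
    · subst h
      rw [Bop0_NR]
      have e : Cn 0 (1 / r) = 1 := by unfold Cn; simp
      rw [e, mul_one]
      calc Nm r v = 1 * Nm r v := (one_mul _).symm
        _ ≤ ENNReal.ofReal N * Nm r v := by
            gcongr
            rw [← ENNReal.ofReal_one]
            exact ENNReal.ofReal_le_ofReal hN
    · exact hB k h v hv hs
  have hr1 : (1 : ℝ≥0∞) ≤ ENNReal.ofReal r := by
    rw [← ENNReal.ofReal_one]
    exact ENNReal.ofReal_le_ofReal hr.le
  have hsum : Nm r (PP n c d v) ≤ ∑ k ∈ Finset.range (2 * n + 1),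
      Nm r (fun y => ((c k (Real.exp (-d)) : ℝ) : ℂ) * Bop k v y) := by
    have := eLpNorm_sum_le (μ := mu) (p := ENNReal.ofReal r) (s := Finset.range (2 * n + 1))
      (f := fun k y => ((c k (Real.exp (-d)) : ℝ) : ℂ) * Bop k v y)
      (fun k _ => ((Bop_meas1_NR k v hv).const_mul _).aestronglyMeasurable) hr1
    unfold Nm
    refine le_trans (le_of_eq ?_) this
    congr 1
    funext y
    unfold PP
    rw [Finset.sum_apply]
  refine hsum.trans ?_
  have hterm : ∀ k, Nm r (fun y => ((c k (Real.exp (-d)) : ℝ) : ℂ) * Bop k v y) ≤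
      ENNReal.ofReal (N * (c k (Real.exp (-d)) * Cn k (1 / r))) * Nm r v := by
    intro k
    have hc0 := hpos k _ (Real.exp_pos (-d)) hx1
    rw [Nm_cmul r _ hc0]
    calc ENNReal.ofReal (c k (Real.exp (-d))) * Nm r (Bop k v)
        ≤ ENNReal.ofReal (c k (Real.exp (-d))) *
            (ENNReal.ofReal (N * Cn k (1 / r)) * Nm r v) := by
          gcongr
          exact hk k
      _ = ENNReal.ofReal (N * (c k (Real.exp (-d)) * Cn k (1 / r))) * Nm r v := by
          rw [← mul_assoc, ← ENNReal.ofReal_mul hc0]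
          congr 2
          ring
  calc ∑ k ∈ Finset.range (2 * n + 1), Nm r (fun y => ((c k (Real.exp (-d)) : ℝ) : ℂ) * Bop k v y)
      ≤ ∑ k ∈ Finset.range (2 * n + 1),
          ENNReal.ofReal (N * (c k (Real.exp (-d)) * Cn k (1 / r))) * Nm r v :=
        Finset.sum_le_sum fun k _ => hterm k
    _ = ENNReal.ofReal (N * kP n c (1 / r) d) * Nm r v := by
        rw [← Finset.sum_mul, ← ENNReal.ofReal_sum_of_nonneg]
        · congr 2
          unfold kP
          rw [Finset.mul_sum]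
        · intro k _
          exact mul_nonneg (by linarith)
            (mul_nonneg (hpos k _ (Real.exp_pos _) hx1) (Cn_nonneg_NR k h1r0 h1r))

theorem hNR : StNR := by
  intro n κ0 K c hn hnode p N hp hN hB f hf hfc
  obtain ⟨M, hM⟩ := hnode.bdd
  have hp0 : 0 < p := by linarith
  have hr1 : 1 < p / 2 := by linarith
  have hr0 : 0 < p / 2 := by linarith
  have hpinv : 1 / p ≤ 1 / 4 := by
    rw [div_le_div_iff₀ hp0 (by norm_num)]
    linarith
  have hb0 : 0 < 2 * (1 / p) := by positivity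
  have hb1 : 2 * (1 / p) ≤ 1 := by linarith
  have hbe : 1 / (p / 2) = 2 * (1 / p) := by
    field_simp
  have hTm := PP_meas_NR n c hnode.meas f hf
  have hQm := Qn_meas_NR n c hnode.meas f hf
  have hsq : ∀ v : ℝ → ℂ, Nm p v ^ 2 = (∫⁻ y, (‖v y‖ₑ ^ 2) ^ (p / 2) ∂mu) ^ (1 / (p / 2)) := by
    intro v
    rw [Nm_eq hp0, ← ENNReal.rpow_natCast, ← ENNReal.rpow_mul]
    congr 1
    · refine lintegral_congr fun y => ?_
      rw [← ENNReal.rpow_natCast, ← ENNReal.rpow_mul]
      congr 1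
      push_cast
      ring
    · push_cast
      field_simp
  have hpt : ∀ y, ‖Bop n f y‖ₑ ^ 2 ≤ ‖Qn n c f y‖ₑ +
      2 * ∫⁻ d in Ioi (0 : ℝ), ‖PP n c d (gd f d) y‖ₑ := by
    intro y
    have h2 : ‖Bop n f y‖ ^ 2 = Qn n c f y + 2 * ∫ d in Ioi (0 : ℝ), (PP n c d (gd f d) y).re := by
      unfold Qn
      ring
    have e1 : ∀ z : ℂ, ‖z‖ₑ ^ 2 = ENNReal.ofReal (‖z‖ ^ 2) := by
      intro z
      rw [ENNReal.ofReal_pow (norm_nonneg _), ofReal_norm]
    rw [e1, h2]
    refine (ENNReal.ofReal_add_le).trans ?_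
    have hq : ENNReal.ofReal (Qn n c f y) ≤ ‖Qn n c f y‖ₑ := by
      rw [← ofReal_norm]
      exact ENNReal.ofReal_le_ofReal (Real.le_norm_self _)
    refine add_le_add hq ?_
    rw [ENNReal.ofReal_mul (by norm_num), ENNReal.ofReal_ofNat]
    gcongr
    calc ENNReal.ofReal (∫ d in Ioi (0 : ℝ), (PP n c d (gd f d) y).re)
        ≤ ENNReal.ofReal ‖∫ d in Ioi (0 : ℝ), (PP n c d (gd f d) y).re‖ :=
          ENNReal.ofReal_le_ofReal (Real.le_norm_self _)
      _ = ‖∫ d in Ioi (0 : ℝ), (PP n c d (gd f d) y).re‖ₑ := ofReal_norm _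
      _ ≤ ∫⁻ d in Ioi (0 : ℝ), ‖(PP n c d (gd f d) y).re‖ₑ := enorm_integral_le_lintegral_enorm _
      _ ≤ ∫⁻ d in Ioi (0 : ℝ), ‖PP n c d (gd f d) y‖ₑ := by
          refine lintegral_mono fun d => ?_
          rw [← ofReal_norm, ← ofReal_norm]
          refine ENNReal.ofReal_le_ofReal ?_
          rw [Real.norm_eq_abs]
          exact Complex.abs_re_le_norm _
  have hFm : Measurable (Function.uncurry fun d y : ℝ => ‖PP n c d (gd f d) y‖ₑ) :=
    hTm.measurable.enorm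
  have hmink := minkowski mu (volume.restrict (Ioi (0 : ℝ)))
    (fun d y => ‖PP n c d (gd f d) y‖ₑ) hFm (p / 2) hr1
  have hT : ∀ d, 0 < d → (∫⁻ y, ‖PP n c d (gd f d) y‖ₑ ^ (p / 2) ∂mu) ^ (1 / (p / 2)) ≤
      ENNReal.ofReal (N * (Real.exp (-(1 / p * d)) * kP n c (2 * (1 / p)) d)) * Nm p f ^ 2 := by
    intro d hd
    have hc : Continuous (gd f d) :=
      (gd_cont f hf).comp (by fun_prop : Continuous fun y : ℝ => (d, y))
    have h1 := PP_bound_NR (n := n) hnode.pos hr1 hN hB hd hc (gd_cpt f hfc d)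
    rw [Nm_eq hr0 (PP n c d (gd f d)), hbe] at h1
    refine (le_of_eq (by rw [hbe])).trans (h1.trans ?_)
    have h2 : Nm (p / 2) (gd f d) ≤ Nm p f * (ENNReal.ofReal (Real.exp (-d / p)) * Nm p f) := by
      have h3 := Nm_mul hp0 (u := f) (v := fun y => (starRingEnd ℂ) (f (y + d))) hf (by fun_prop)
      have h4 : Nm p (fun y => (starRingEnd ℂ) (f (y + d))) = Nm p (fun y => f (y + d)) :=
        Nm_conj p fun y => f (y + d)
      rw [h4, Nm_shift hp0] at h3
      exact h3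
    have e3 : -d / p = -(1 / p * d) := by ring
    rw [e3] at h2
    calc ENNReal.ofReal (N * kP n c (2 * (1 / p)) d) * Nm (p / 2) (gd f d)
        ≤ ENNReal.ofReal (N * kP n c (2 * (1 / p)) d) *
            (Nm p f * (ENNReal.ofReal (Real.exp (-(1 / p * d))) * Nm p f)) := by gcongr
      _ = (ENNReal.ofReal (Real.exp (-(1 / p * d))) *
            ENNReal.ofReal (N * kP n c (2 * (1 / p)) d)) * Nm p f ^ 2 := by ring
      _ = _ := by
          rw [← ENNReal.ofReal_mul (Real.exp_pos _).le]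
          congr 2
          ring
  have hint := kP_int_NR n c hnode.meas hnode.pos M hM hb0 hb1 (a := 1 / p) (by positivity)
  have hnn : ∀ d, 0 < d → 0 ≤ Real.exp (-(1 / p * d)) * kP n c (2 * (1 / p)) d := fun d hd =>
    mul_nonneg (Real.exp_pos _).le (kP_nonneg_NR hnode.pos hb0 hb1 hd)
  set I0 : ℝ := ∫ d in Ioi (0 : ℝ), Real.exp (-(1 / p * d)) * kP n c (2 * (1 / p)) d with hI0
  have hI0n : 0 ≤ I0 := setIntegral_nonneg measurableSet_Ioi fun d hd => hnn d hd
  have hsymb : 2 * I0 + κ0 ≤ Cn n (1 / p) ^ 2 := hnode.symb0 (1 / p) (by positivity) hpinv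
  have hlint : ∫⁻ d in Ioi (0 : ℝ),
      ENNReal.ofReal (N * (Real.exp (-(1 / p * d)) * kP n c (2 * (1 / p)) d)) =
      ENNReal.ofReal (N * I0) := by
    rw [hI0, ← integral_const_mul]
    rw [ofReal_integral_eq_lintegral_ofReal (hint.const_mul N)]
    rw [EventuallyLE, ae_restrict_iff' measurableSet_Ioi]
    exact Eventually.of_forall fun d hd => mul_nonneg (by linarith) (hnn d hd)
  have hrest : (∫⁻ y, ‖Qn n c f y‖ₑ ^ (p / 2) ∂mu) ^ (1 / (p / 2)) ≤
      ENNReal.ofReal (K p) * Nm p f ^ 2 := by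
    have h := hnode.rest p f hp hf hfc
    rw [eLpNorm_eq_lintegral_rpow_enorm_toReal (by simpa using hr0) ENNReal.ofReal_ne_top,
      ENNReal.toReal_ofReal hr0.le] at h
    exact h
  rw [hsq (Bop n f)]
  have hf2 : Measurable fun y => ‖Qn n c f y‖ₑ := hQm.enorm
  calc (∫⁻ y, (‖Bop n f y‖ₑ ^ 2) ^ (p / 2) ∂mu) ^ (1 / (p / 2))
      ≤ (∫⁻ y, (‖Qn n c f y‖ₑ + 2 * ∫⁻ d in Ioi (0 : ℝ), ‖PP n c d (gd f d) y‖ₑ) ^ (p / 2) ∂mu) ^
          (1 / (p / 2)) := by
        gcongr with y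
        exact hpt y
    _ ≤ (∫⁻ y, ‖Qn n c f y‖ₑ ^ (p / 2) ∂mu) ^ (1 / (p / 2)) +
          (∫⁻ y, (2 * ∫⁻ d in Ioi (0 : ℝ), ‖PP n c d (gd f d) y‖ₑ) ^ (p / 2) ∂mu) ^
            (1 / (p / 2)) := by
        have hG2 : Measurable fun y => 2 * ∫⁻ d in Ioi (0 : ℝ), ‖PP n c d (gd f d) y‖ₑ :=
          (hFm.lintegral_prod_left').const_mul 2
        exact ENNReal.lintegral_Lp_add_le hf2.aemeasurable hG2.aemeasurable hr1.le
    _ ≤ ENNReal.ofReal (K p) * Nm p f ^ 2 + 2 * ∫⁻ d in Ioi (0 : ℝ),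
          (∫⁻ y, ‖PP n c d (gd f d) y‖ₑ ^ (p / 2) ∂mu) ^ (1 / (p / 2)) := by
        refine add_le_add hrest ?_
        have e2 : ∀ y, (2 * ∫⁻ d in Ioi (0 : ℝ), ‖PP n c d (gd f d) y‖ₑ) ^ (p / 2) =
            2 ^ (p / 2) * (∫⁻ d in Ioi (0 : ℝ), ‖PP n c d (gd f d) y‖ₑ) ^ (p / 2) := fun y =>
          ENNReal.mul_rpow_of_nonneg _ _ hr0.le
        simp only [e2]
        rw [lintegral_const_mul', ENNReal.mul_rpow_of_nonneg _ _ (by positivity),
          ← ENNReal.rpow_mul, mul_one_div_cancel hr0.ne', ENNReal.rpow_one]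
        · gcongr
        · exact ENNReal.rpow_ne_top_of_nonneg hr0.le (by norm_num)
    _ ≤ ENNReal.ofReal (K p) * Nm p f ^ 2 + 2 * ∫⁻ d in Ioi (0 : ℝ),
          ENNReal.ofReal (N * (Real.exp (-(1 / p * d)) * kP n c (2 * (1 / p)) d)) *
            Nm p f ^ 2 := by
        gcongr 1
        gcongr 1
        refine setLIntegral_mono' measurableSet_Ioi fun d hd => hT d hd
    _ = (ENNReal.ofReal (K p) + ENNReal.ofReal (2 * (N * I0))) * Nm p f ^ 2 := by
        rw [lintegral_mul_const' _ _ (ENNReal.pow_ne_top (Nm_ne_top p hf hfc)), hlint,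
          ENNReal.ofReal_mul (by norm_num : (0 : ℝ) ≤ 2), ENNReal.ofReal_ofNat]
        ring
    _ ≤ _ := by
        gcongr
        rw [← ENNReal.ofReal_add (hnode.Kn p hp) (by positivity)]
        refine ENNReal.ofReal_le_ofReal ?_
        nlinarith

end Helper69.CS
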