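import Pool.Agent.Helper69.CS.St

/-!
# MP_3dd6d4_an, project CS, module PZ8 (port of M_PZ of project CR): analyticity of `Φ` (helper68)
-/

set_option autoImplicit false

open MeasureTheory Set Filter Topology

noncomputable section

namespace Helper69.CS

open Helper85.BP Helper69.CR Helper69.CR.DB

/-- holomorphy of a parametric integral over a finite measure. -/
private theorem holo_PZ8 {α : Type*} [MeasurableSpace α] (μ : Measure α) [IsFiniteMeasure μ]
    (U : Set ℂ) (hU : IsOpen U) (K : ℂ → α → ℂ) (C : ℝ)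
    (hm : ∀ z ∈ U, AEStronglyMeasurable (K z) μ)
    (hd : ∀ᵐ x ∂μ, DifferentiableOn ℂ (fun z => K z x) U)
    (hC : ∀ᵐ x ∂μ, ∀ z ∈ U, ‖K z x‖ ≤ C) :
    DifferentiableOn ℂ (fun z => ∫ x, K z x ∂μ) U := by
  intro z0 hz0
  obtain ⟨r, hr, hball⟩ := Metric.isOpen_iff.mp hU z0 hz0
  have hr2 : 0 < r / 2 := by positivity
  have hr4 : 0 < r / 4 := by positivity
  have hsub : ∀ z ∈ Metric.ball z0 (r / 2), Metric.closedBall z (r / 4) ⊆ U := by
    intro z hz w hw
    apply hball
    rw [Metric.mem_ball] at hz ⊢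
    rw [Metric.mem_closedBall] at hw
    calc dist w z0 ≤ dist w z + dist z z0 := dist_triangle _ _ _
      _ < r := by linarith
  have hmemU : ∀ z ∈ Metric.ball z0 (r / 2), z ∈ U := fun z hz =>
    hsub z hz (Metric.mem_closedBall_self hr4.le)
  have hderiv : ∀ᵐ x ∂μ, ∀ z ∈ Metric.ball z0 (r / 2),
      HasDerivAt (fun w => K w x) (deriv (fun w => K w x) z) z := by
    filter_upwards [hd] with x hx z hz
    exact (hx.differentiableAt (hU.mem_nhds (hmemU z hz))).hasDerivAt
  have hF'm : AEStronglyMeasurable (fun x => deriv (fun w => K w x) z0) μ := by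
    set a : ℕ → ℂ := fun k => ((r / 4 / ((k : ℝ) + 1) : ℝ) : ℂ) with ha
    have ha0 : ∀ k, a k ≠ 0 := by
      intro k
      rw [ha]
      simp only [ne_eq, Complex.ofReal_eq_zero]
      positivity
    have halim : Tendsto a atTop (𝓝[≠] 0) := by
      rw [tendsto_nhdsWithin_iff]
      refine ⟨?_, Filter.Eventually.of_forall ha0⟩
      have h1 : Tendsto (fun k : ℕ => r / 4 / ((k : ℝ) + 1)) atTop (𝓝 0) := by
        have h2 := (tendsto_one_div_add_atTop_nhds_zero_nat (𝕜 := ℝ)).const_mul (r / 4)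
        rw [mul_zero] at h2
        refine h2.congr fun k => ?_
        ring
      have h3 := (Complex.continuous_ofReal.tendsto 0).comp h1
      rwa [Complex.ofReal_zero] at h3
    have hmem : ∀ k, z0 + a k ∈ U := by
      intro k
      apply hsub z0 (Metric.mem_ball_self hr2)
      rw [Metric.mem_closedBall, dist_self_add_left, ha]
      simp only [Complex.norm_real, Real.norm_eq_abs]
      rw [abs_of_pos (by positivity)]
      have : (0 : ℝ) ≤ k := Nat.cast_nonneg k
      exact div_le_self hr4.le (by linarith)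
    refine aestronglyMeasurable_of_tendsto_ae atTop (f := fun (k : ℕ) x =>
      (a k)⁻¹ • (K (z0 + a k) x - K z0 x)) (fun k => ?_) ?_
    · exact ((hm _ (hmem k)).sub (hm _ hz0)).const_smul (a k)⁻¹
    · filter_upwards [hderiv] with x hx
      have h1 := (hx z0 (Metric.mem_ball_self hr2)).tendsto_slope_zero
      exact h1.comp halim
  have hbound : ∀ᵐ x ∂μ, ∀ z ∈ Metric.ball z0 (r / 2),
      ‖deriv (fun w => K w x) z‖ ≤ C / (r / 4) := by
    filter_upwards [hd, hC] with x hx hCx z hz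
    apply Complex.norm_deriv_le_of_forall_mem_sphere_norm_le hr4
    · apply DifferentiableOn.diffContOnCl
      refine hx.mono ?_
      exact Metric.closure_ball_subset_closedBall.trans (hsub z hz)
    · intro w hw
      exact hCx w (hsub z hz (Metric.sphere_subset_closedBall hw))
  have hmev : ∀ᶠ z in 𝓝 z0, AEStronglyMeasurable (K z) μ := by
    filter_upwards [hU.mem_nhds hz0] with z hz using hm z hz
  have hint : Integrable (K z0) μ := by
    refine (integrable_const C).mono' (hm z0 hz0) ?_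
    filter_upwards [hC] with x hx using hx z0 hz0
  have key := hasDerivAt_integral_of_dominated_loc_of_deriv_le (μ := μ) (F := K)
    (F' := fun z x => deriv (fun w => K w x) z) (x₀ := z0) (s := Metric.ball z0 (r / 2))
    (bound := fun _ => C / (r / 4)) (Metric.ball_mem_nhds z0 hr2) hmev hint hF'm hbound
    (integrable_const _) hderiv
  exact key.2.differentiableAt.differentiableWithinAt

private theorem pw_zero_PZ8 (w : ℂ) : pw w 0 = 0 := by
  unfold pw
  simp

private theorem norm_pw_PZ8 (w c : ℂ) (hc : c ≠ 0) : ‖pw w c‖ = ‖c‖ ^ w.re := by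
  have h : 0 < ‖c‖ := norm_pos_iff.mpr hc
  unfold pw
  rw [norm_mul, Complex.norm_cpow_eq_rpow_re_of_pos h, Complex.sub_re, Complex.one_re,
    Real.rpow_sub_one h.ne']
  field_simp

private theorem bound_pw_PZ8 (w c : ℂ) (h0 : 0 ≤ w.re) (h4 : w.re ≤ 8) :
    ‖pw w c‖ ≤ (1 + ‖c‖) ^ (8 : ℝ) := by
  by_cases hc : c = 0
  · rw [hc, pw_zero_PZ8, norm_zero]
    positivity
  · rw [norm_pw_PZ8 w c hc]
    have h := norm_nonneg c
    calc ‖c‖ ^ w.re ≤ (1 + ‖c‖) ^ w.re := Real.rpow_le_rpow h (by linarith) h0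
      _ ≤ (1 + ‖c‖) ^ (8 : ℝ) := Real.rpow_le_rpow_of_exponent_le (by linarith) h4

private theorem cont_pw_PZ8 (w : ℂ) (hw : 0 < w.re) : Continuous (pw w) := by
  rw [continuous_iff_continuousAt]
  intro c
  by_cases hc : c = 0
  · subst hc
    unfold ContinuousAt
    rw [pw_zero_PZ8]
    have h1 : Tendsto (fun c : ℂ => ‖c‖ ^ w.re) (𝓝 0) (𝓝 0) := by
      have h2 : Continuous fun c : ℂ => ‖c‖ ^ w.re :=
        continuous_norm.rpow_const fun c => Or.inr hw.le
      have h3 := h2.tendsto 0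
      rwa [norm_zero, Real.zero_rpow hw.ne'] at h3
    refine squeeze_zero_norm (fun c => ?_) h1
    by_cases hc : c = 0
    · rw [hc, pw_zero_PZ8, norm_zero]
      positivity
    · rw [norm_pw_PZ8 w c hc]
  · unfold pw
    apply ContinuousAt.mul continuousAt_id
    apply ContinuousAt.cpow
    · exact (Complex.continuous_ofReal.comp continuous_norm).continuousAt
    · exact continuousAt_const
    · left
      rw [Complex.ofReal_re]
      exact norm_pos_iff.mpr hc

private theorem hol_pw_PZ8 (c : ℂ) : Differentiable ℂ (fun w => pw w c) := by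
  by_cases hc : c = 0
  · subst hc
    have : (fun w => pw w 0) = fun _ => 0 := funext pw_zero_PZ8
    rw [this]
    exact differentiable_const 0
  · intro w
    unfold pw
    apply DifferentiableAt.const_mul
    apply DifferentiableAt.const_cpow
    · exact differentiableAt_id.sub_const 1
    · left
      have : (0 : ℝ) < ‖c‖ := norm_pos_iff.mpr hc
      exact_mod_cast this.ne'

/-- the larger strip. -/
private def U_PZ8 : Set ℂ := {z : ℂ | -1 < z.re ∧ z.re < 2}

private theorem isOpen_U_PZ8 : IsOpen U_PZ8 := by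
  have h1 : IsOpen {z : ℂ | -1 < z.re} := isOpen_lt continuous_const Complex.continuous_re
  have h2 : IsOpen {z : ℂ | z.re < 2} := isOpen_lt Complex.continuous_re continuous_const
  exact h1.inter h2

private theorem a8_re_PZ8 (z : ℂ) : (a8 z).re = 1 / 4 - z.re / 8 := by
  unfold a8
  rw [Complex.sub_re]
  have h1 : ((1 : ℂ) / 4).re = 1 / 4 := by
    have : (1 : ℂ) / 4 = ((1 / 4 : ℝ) : ℂ) := by norm_num
    rw [this, Complex.ofReal_re]
  have h2 : (z / 8).re = z.re / 8 := by
    have : z / 8 = z / ((8 : ℝ) : ℂ) := by norm_num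
    rw [this, Complex.div_ofReal_re]
  rw [h1, h2]

private theorem norm_exp_PZ8 (a : ℂ) (ha : |a.re| ≤ 1) (y : ℝ) :
    ‖Complex.exp (a * y)‖ ≤ Real.exp |y| := by
  rw [Complex.norm_exp]
  apply Real.exp_le_exp.mpr
  have h1 : (a * (y : ℂ)).re = a.re * y := by simp
  rw [h1]
  calc a.re * y ≤ |a.re * y| := le_abs_self _
    _ = |a.re| * |y| := abs_mul _ _
    _ ≤ 1 * |y| := mul_le_mul_of_nonneg_right ha (abs_nonneg y)
    _ = |y| := one_mul _

private theorem f8_hol_PZ8 (p : ℝ) (F : ℝ → ℂ) (y : ℝ) : Differentiable ℂ (fun z => f8 p F z y) := by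
  unfold f8 a8
  have h1 : Differentiable ℂ (fun z : ℂ => Complex.exp (-(1 / 4 - z / 8) * (y : ℂ))) := by fun_prop
  have h2 : Differentiable ℂ (fun z : ℂ => (p : ℂ) * (1 / 4 - z / 8)) := by fun_prop
  exact h1.mul ((hol_pw_PZ8 (F y)).comp h2)

private theorem g8_hol_PZ8 (p : ℝ) (χ : ℝ → ℝ) (h : ℝ → ℂ) (y : ℝ) :
    Differentiable ℂ (fun z => g8 p χ h z y) := by
  unfold g8 a8
  have h1 : Differentiable ℂ (fun z : ℂ => Complex.exp ((1 / 4 - z / 8) * (y : ℂ))) := by fun_prop
  have h2 : Differentiable ℂ (fun z : ℂ => (p : ℂ) * (1 - (1 / 4 - z / 8))) := by fun_prop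
  exact (h1.const_mul _).mul ((hol_pw_PZ8 ((starRingEnd ℂ) (h y))).comp h2)

private theorem f8_cont_PZ8 (p : ℝ) (F : ℝ → ℂ) (hp : 4 < p) (hF : Continuous F) (z : ℂ)
    (hz : z ∈ U_PZ8) : Continuous (f8 p F z) := by
  unfold f8
  have h1 : Continuous (pw ((p : ℂ) * a8 z)) := by
    apply cont_pw_PZ8
    rw [Complex.re_ofReal_mul, a8_re_PZ8]
    have := hz.2
    apply mul_pos <;> linarith
  exact (by fun_prop : Continuous fun y : ℝ => Complex.exp (-(a8 z) * (y : ℂ))).mul (h1.comp hF)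

private theorem g8_cont_PZ8 (p : ℝ) (χ : ℝ → ℝ) (h : ℝ → ℂ) (hp : 4 < p) (hχ : Continuous χ)
    (hh : Continuous h) (z : ℂ) (hz : z ∈ U_PZ8) : Continuous (g8 p χ h z) := by
  unfold g8
  have h1 : Continuous (pw ((p : ℂ) * (1 - a8 z))) := by
    apply cont_pw_PZ8
    rw [Complex.re_ofReal_mul, Complex.sub_re, a8_re_PZ8, Complex.one_re]
    have := hz.1
    apply mul_pos <;> linarith
  exact ((Complex.continuous_ofReal.comp hχ).mul
    (by fun_prop : Continuous fun y : ℝ => Complex.exp (a8 z * (y : ℂ)))).mul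
    (h1.comp (Complex.continuous_conj.comp hh))

private theorem f8_bound_PZ8 (p : ℝ) (F : ℝ → ℂ) (hp : 4 < p) (hp4 : p < 8) (z : ℂ)
    (hz : z ∈ U_PZ8) (y : ℝ) : ‖f8 p F z y‖ ≤ Real.exp |y| * (1 + ‖F y‖) ^ (8 : ℝ) := by
  obtain ⟨h1, h2⟩ := hz
  unfold f8
  rw [norm_mul]
  refine mul_le_mul (norm_exp_PZ8 _ ?_ y) (bound_pw_PZ8 _ _ ?_ ?_) (norm_nonneg _) (Real.exp_pos _).le
  · rw [Complex.neg_re, abs_neg, a8_re_PZ8, abs_le]
    constructor <;> linarith
  · rw [Complex.re_ofReal_mul, a8_re_PZ8]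
    apply mul_nonneg <;> linarith
  · rw [Complex.re_ofReal_mul, a8_re_PZ8]
    nlinarith

private theorem g8_bound_PZ8 (p : ℝ) (χ : ℝ → ℝ) (h : ℝ → ℂ) (hp : 4 < p) (hp4 : p < 8) (z : ℂ)
    (hz : z ∈ U_PZ8) (y : ℝ) :
    ‖g8 p χ h z y‖ ≤ |χ y| * Real.exp |y| * (1 + ‖h y‖) ^ (8 : ℝ) := by
  obtain ⟨h1, h2⟩ := hz
  unfold g8
  rw [norm_mul, norm_mul, Complex.norm_real, Real.norm_eq_abs]
  have h3 : ‖pw ((p : ℂ) * (1 - a8 z)) ((starRingEnd ℂ) (h y))‖ ≤ (1 + ‖h y‖) ^ (8 : ℝ) := by
    have h4 := bound_pw_PZ8 ((p : ℂ) * (1 - a8 z)) ((starRingEnd ℂ) (h y)) ?_ ?_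
    · rwa [Complex.norm_conj] at h4
    · rw [Complex.re_ofReal_mul, Complex.sub_re, a8_re_PZ8, Complex.one_re]
      apply mul_nonneg <;> linarith
    · rw [Complex.re_ofReal_mul, Complex.sub_re, a8_re_PZ8, Complex.one_re]
      nlinarith
  refine mul_le_mul (mul_le_mul_of_nonneg_left (norm_exp_PZ8 _ ?_ y) (abs_nonneg _)) h3
    (norm_nonneg _) (by positivity)
  rw [a8_re_PZ8, abs_le]
  constructor <;> linarith

/-- everything on the larger strip. -/
private theorem main_PZ8 (n : ℕ) (p : ℝ) (χ : ℝ → ℝ) (F h : ℝ → ℂ) (hp : 4 < p) (hp4 : p < 8)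
    (hχ : Continuous χ) (hχs : HasCompactSupport χ) (hF : Continuous F)
    (hFs : HasCompactSupport F) (hh : Continuous h) :
    DifferentiableOn ℂ (Phi8 n p χ F h) U_PZ8 ∧
      ∃ C : ℝ, ∀ z ∈ U_PZ8, ‖Phi8 n p χ F h z‖ ≤ C := by
  -- radius
  obtain ⟨R1, hR1⟩ := hχs.isCompact.isBounded.subset_closedBall 0
  obtain ⟨R2, hR2⟩ := hFs.isCompact.isBounded.subset_closedBall 0
  set R : ℝ := max (max R1 R2) 1 with hR
  have hRpos : 0 < R := lt_of_lt_of_le one_pos (le_max_right _ _)
  have hχ0 : ∀ y, y ∉ Icc (-R) R → χ y = 0 := by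
    intro y hy
    by_contra hne
    apply hy
    have h1 := hR1 (subset_tsupport χ (Function.mem_support.mpr hne))
    rw [Metric.mem_closedBall, Real.dist_eq, sub_zero] at h1
    rw [mem_Icc, ← abs_le]
    exact h1.trans ((le_max_left _ _).trans (le_max_left _ _))
  have hF0 : ∀ y, y ∉ Icc (-R) R → F y = 0 := by
    intro y hy
    by_contra hne
    apply hy
    have h1 := hR2 (subset_tsupport F (Function.mem_support.mpr hne))
    rw [Metric.mem_closedBall, Real.dist_eq, sub_zero] at h1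
    rw [mem_Icc, ← abs_le]
    exact h1.trans ((le_max_right _ _).trans (le_max_left _ _))
  have hfz0 : ∀ z y, y ∉ Icc (-R) R → f8 p F z y = 0 := by
    intro z y hy
    unfold f8
    rw [hF0 y hy, pw_zero_PZ8, mul_zero]
  have hgz0 : ∀ z y, y ∉ Icc (-R) R → g8 p χ h z y = 0 := by
    intro z y hy
    unfold g8
    rw [hχ0 y hy]
    simp
  -- bounds
  obtain ⟨A, hA⟩ := (isCompact_Icc (a := -R) (b := R)).exists_bound_of_continuousOn
    (f := fun y => Real.exp |y| * (1 + ‖F y‖) ^ (8 : ℝ)) (by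
      apply Continuous.continuousOn
      apply Continuous.mul (by fun_prop)
      exact (by fun_prop : Continuous fun y => 1 + ‖F y‖).rpow_const
        fun y => Or.inr (by norm_num))
  have hAf : ∀ z ∈ U_PZ8, ∀ y, ‖f8 p F z y‖ ≤ |A| := by
    intro z hz y
    by_cases hy : y ∈ Icc (-R) R
    · have h1 := f8_bound_PZ8 p F hp hp4 z hz y
      have h2 := hA y hy
      rw [Real.norm_eq_abs] at h2
      exact h1.trans ((le_abs_self _).trans (h2.trans (le_abs_self _)))
    · rw [hfz0 z y hy, norm_zero]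
      positivity
  obtain ⟨B, hB⟩ := (isCompact_Icc (a := -R) (b := R)).exists_bound_of_continuousOn
    (f := fun y => |χ y| * Real.exp |y| * (1 + ‖h y‖) ^ (8 : ℝ)) (by
      apply Continuous.continuousOn
      apply Continuous.mul (by fun_prop)
      exact (by fun_prop : Continuous fun y => 1 + ‖h y‖).rpow_const
        fun y => Or.inr (by norm_num))
  have hBf : ∀ z ∈ U_PZ8, ∀ y, ‖g8 p χ h z y‖ ≤ |B| := by
    intro z hz y
    by_cases hy : y ∈ Icc (-R) R
    · have h1 := g8_bound_PZ8 p χ h hp hp4 z hz y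
      have h2 := hB y hy
      rw [Real.norm_eq_abs] at h2
      exact h1.trans ((le_abs_self _).trans (h2.trans (le_abs_self _)))
    · rw [hgz0 z y hy, norm_zero]
      positivity
  have hppc : Continuous fun u : ℝ => pp n (Real.exp (-u)) := by
    unfold pp
    fun_prop
  obtain ⟨P, hP⟩ := (isCompact_Icc (a := 0) (b := 2 * R)).exists_bound_of_continuousOn
    (f := fun u => pp n (Real.exp (-u))) hppc.continuousOn
  -- the kernel
  set J : ℂ → ℝ → ℂ := fun z y => ∫ u in Ioc 0 (2 * R),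
    ((pp n (Real.exp (-u)) : ℝ) : ℂ) * f8 p F z (y + u) with hJ
  set K : ℂ → ℝ → ℂ := fun z y => ((-1) ^ n * f8 p F z y + J z y) * g8 p χ h z y with hK
  have hPhi : ∀ z, Phi8 n p χ F h z = ∫ y in Icc (-R) R, K z y := by
    intro z
    unfold Phi8
    rw [← setIntegral_univ, setIntegral_eq_of_subset_of_forall_sdiff_eq_zero
      MeasurableSet.univ (subset_univ (Icc (-R) R)) (fun y hy => by
        rw [hgz0 z y hy.2, mul_zero])]
    apply setIntegral_congr_fun measurableSet_Icc
    intro y hy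
    simp only [hK, Bop]
    congr 2
    rw [hJ]
    simp only
    refine setIntegral_eq_of_subset_of_forall_sdiff_eq_zero measurableSet_Ioi
      Ioc_subset_Ioi_self fun u hu => ?_
    rw [hfz0 z (y + u), mul_zero]
    rintro ⟨-, h2⟩
    apply hu.2
    rw [mem_Icc] at hy
    exact ⟨hu.1, by linarith⟩
  have hJint : ∀ y, ∀ᵐ u ∂(volume.restrict (Ioc 0 (2 * R))), ∀ z ∈ U_PZ8,
      ‖((pp n (Real.exp (-u)) : ℝ) : ℂ) * f8 p F z (y + u)‖ ≤ |P| * |A| := by
    intro y
    filter_upwards [ae_restrict_mem measurableSet_Ioc] with u hu z hz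
    rw [norm_mul, Complex.norm_real]
    exact mul_le_mul ((hP u (Ioc_subset_Icc_self hu)).trans (le_abs_self _)) (hAf z hz _)
      (norm_nonneg _) (abs_nonneg _)
  have hJb : ∀ z ∈ U_PZ8, ∀ y, ‖J z y‖ ≤ |P| * |A| * (2 * R) := by
    intro z hz y
    have h1 := norm_setIntegral_le_of_norm_le_const_ae (μ := volume) (s := Ioc 0 (2 * R))
      (f := fun u => ((pp n (Real.exp (-u)) : ℝ) : ℂ) * f8 p F z (y + u)) (C := |P| * |A|)
      measure_Ioc_lt_top (by
        filter_upwards [hJint y] with u hu using hu z hz)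
    rw [Real.volume_real_Ioc_of_le (by linarith), sub_zero] at h1
    exact h1
  have hJm : ∀ z ∈ U_PZ8, StronglyMeasurable (J z) := by
    intro z hz
    have hc : Continuous (fun q : ℝ × ℝ => ((pp n (Real.exp (-q.2)) : ℝ) : ℂ) *
        f8 p F z (q.1 + q.2)) := by
      have h1 : Continuous fun q : ℝ × ℝ => ((pp n (Real.exp (-q.2)) : ℝ) : ℂ) :=
        Complex.continuous_ofReal.comp (hppc.comp continuous_snd)
      exact h1.mul ((f8_cont_PZ8 p F hp hF z hz).comp (continuous_fst.add continuous_snd))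
    exact hc.stronglyMeasurable.integral_prod_right
  have hJd : ∀ y, DifferentiableOn ℂ (fun z => J z y) U_PZ8 := by
    intro y
    apply holo_PZ8 _ U_PZ8 isOpen_U_PZ8 _ (|P| * |A|)
    · intro z hz
      apply Continuous.aestronglyMeasurable
      exact (Complex.continuous_ofReal.comp hppc).mul ((f8_cont_PZ8 p F hp hF z hz).comp
        (continuous_const.add continuous_id))
    · refine Filter.Eventually.of_forall fun u => ?_
      exact ((f8_hol_PZ8 p F (y + u)).const_mul _).differentiableOn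
    · exact hJint y
  have hKm : ∀ z ∈ U_PZ8, StronglyMeasurable (K z) := by
    intro z hz
    exact ((((f8_cont_PZ8 p F hp hF z hz).stronglyMeasurable).const_mul _).add (hJm z hz)).mul
      (g8_cont_PZ8 p χ h hp hχ hh z hz).stronglyMeasurable
  have hKb : ∀ z ∈ U_PZ8, ∀ y, ‖K z y‖ ≤ (|A| + |P| * |A| * (2 * R)) * |B| := by
    intro z hz y
    simp only [hK]
    rw [norm_mul]
    refine mul_le_mul ?_ (hBf z hz y) (norm_nonneg _) (by positivity)
    refine (norm_add_le _ _).trans (add_le_add ?_ (hJb z hz y))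
    rw [norm_mul, norm_pow, norm_neg, norm_one, one_pow, one_mul]
    exact hAf z hz y
  constructor
  · have h1 : DifferentiableOn ℂ (fun z => ∫ y in Icc (-R) R, K z y) U_PZ8 := by
      apply holo_PZ8 _ U_PZ8 isOpen_U_PZ8 _ ((|A| + |P| * |A| * (2 * R)) * |B|)
      · exact fun z hz => (hKm z hz).aestronglyMeasurable
      · refine Filter.Eventually.of_forall fun y => ?_
        exact (((f8_hol_PZ8 p F y).const_mul _).differentiableOn.add (hJd y)).mul
          (g8_hol_PZ8 p χ h y).differentiableOn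
      · exact Filter.Eventually.of_forall fun y z hz => hKb z hz y
    exact h1.congr fun z _ => hPhi z
  · refine ⟨(|A| + |P| * |A| * (2 * R)) * |B| * (2 * R), fun z hz => ?_⟩
    rw [hPhi z]
    have h1 := norm_setIntegral_le_of_norm_le_const (μ := volume) (s := Icc (-R) R)
      (f := K z) (C := (|A| + |P| * |A| * (2 * R)) * |B|) (by simp) (fun y _ => hKb z hz y)
    rw [Real.volume_real_Icc_of_le (by linarith)] at h1
    calc _ ≤ _ := h1
      _ = _ := by ring

theorem hPZ8 : StPZ8 := by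
  intro n p χ F h hp hp4 hχ hχs hF hFs hh
  obtain ⟨h1, C, hC⟩ := main_PZ8 n p χ F h hp hp4 hχ hχs hF hFs hh
  refine ⟨?_, ?_, C, ?_⟩
  · refine h1.continuousOn.mono ?_
    rintro z ⟨hz1, hz2⟩
    exact ⟨by linarith, by linarith⟩
  · refine h1.mono ?_
    rintro z ⟨hz1, hz2⟩
    exact ⟨by linarith, by linarith⟩
  · intro z hz1 hz2
    exact hC z ⟨by linarith, by linarith⟩

end Helper69.CS
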