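import Pool.Agent.Helper69.CS.St
import Pool.Agent.Helper69.CR.M_PF
import Pool.Agent.Helper26.P4.Alg

/-!
# Project CS, module SCb: the scalar identity for general `a` (port of helper13's M_SC)
-/

set_option autoImplicit false

open MeasureTheory Set Filter Topology

namespace Helper69.CS

open Helper85.BP Helper69.CR Helper26.P4

/-- `c` coefficients of the kernel -/
noncomputable def bj_SCb (a : ℝ) (n j : ℕ) : ℝ :=
  pc n j * ((-1) ^ n + ∑ i ∈ Finset.range n, pc n i / ((i : ℝ) + j + 2 * a))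

theorem exp_int_SCb (s : ℝ) (hs : 0 < s) :
    IntegrableOn (fun v : ℝ => Real.exp (-s * v)) (Ioi 0) ∧
      ∫ v in Ioi (0 : ℝ), Real.exp (-s * v) = 1 / s := by
  refine ⟨integrableOn_exp_mul_Ioi (by linarith) 0, ?_⟩
  rw [integral_exp_mul_Ioi (by linarith) 0]
  simp

theorem kap_SCb (a : ℝ) (ha : 0 < a) (n : ℕ) (x : ℝ) : kapb n (2 * a) x = ∑ j ∈ Finset.range n, bj_SCb a n j * x ^ j := by
  unfold kapb
  have h1 : ∀ v : ℝ, pp n (Real.exp (-v)) * pp n (Real.exp (-v) * x) * Real.exp (-(2 * a * v)) =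
      ∑ j ∈ Finset.range n, ∑ i ∈ Finset.range n,
        (pc n i * pc n j * x ^ j) * Real.exp (-((i : ℝ) + j + 2 * a) * v) := by
    intro v
    simp only [pp]
    rw [Finset.sum_mul_sum, Finset.sum_mul, Finset.sum_comm]
    refine Finset.sum_congr rfl fun j _ => ?_
    rw [Finset.sum_mul]
    refine Finset.sum_congr rfl fun i _ => ?_
    rw [mul_pow, ← Real.exp_nat_mul, ← Real.exp_nat_mul]
    have : Real.exp (-((j : ℝ) + i + 2 * a) * v) =
        Real.exp ((j : ℝ) * -v) * Real.exp ((i : ℝ) * -v) * Real.exp (-(2 * a * v)) := by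
      rw [← Real.exp_add, ← Real.exp_add]; ring_nf
    rw [this]
    ring
  simp only [h1]
  have hint : ∀ j i : ℕ, IntegrableOn (fun v : ℝ => (pc n i * pc n j * x ^ j) *
      Real.exp (-((i : ℝ) + j + 2 * a) * v)) (Ioi 0) := fun j i =>
    (exp_int_SCb _ (by positivity)).1.const_mul _
  rw [integral_finsetSum _ (fun j _ => integrable_finsetSum _ (fun i _ => hint j i))]
  have h2 : ∀ j ∈ Finset.range n, ∫ v in Ioi (0 : ℝ), ∑ i ∈ Finset.range n,
        (pc n i * pc n j * x ^ j) * Real.exp (-((i : ℝ) + j + 2 * a) * v) =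
      ∑ i ∈ Finset.range n, (pc n i * pc n j * x ^ j) * (1 / ((i : ℝ) + j + 2 * a)) := by
    intro j _
    rw [integral_finsetSum _ (fun i _ => hint j i)]
    refine Finset.sum_congr rfl fun i _ => ?_
    rw [integral_const_mul, (exp_int_SCb _ (by positivity)).2]
  rw [Finset.sum_congr rfl h2]
  simp only [pp, bj_SCb]
  rw [Finset.mul_sum, ← Finset.sum_add_distrib]
  refine Finset.sum_congr rfl fun j _ => ?_
  rw [mul_add, add_mul, Finset.mul_sum, Finset.sum_mul]
  congr 1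
  · ring
  · refine Finset.sum_congr rfl fun i _ => ?_
    ring

/-- `Re (1/(z+j))`, `z = 1/4 - it/4` -/
noncomputable def rr_SCb (a t : ℝ) (j : ℕ) : ℝ := (a + j) / ((a + j) ^ 2 + (a * t) ^ 2)

/-- `Im (1/(z+j))` -/
noncomputable def ss_SCb (a t : ℝ) (j : ℕ) : ℝ := (a * t) / ((a + j) ^ 2 + (a * t) ^ 2)

theorem inv_SCb (a : ℝ) (ha : 0 < a) (t : ℝ) (j : ℕ) :
    (1 / (((a : ℂ) - Complex.I * (t : ℂ) * a) + (j : ℂ))) = (rr_SCb a t j : ℂ) + (ss_SCb a t j : ℂ) * Complex.I := by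
  have hD : (0 : ℝ) < (a + j) ^ 2 + (a * t) ^ 2 := by positivity
  have hDc : (((a + j) ^ 2 + (a * t) ^ 2 : ℝ) : ℂ) ≠ 0 := by exact_mod_cast hD.ne'
  have h1 : (((a : ℂ) - Complex.I * (t : ℂ) * a) + (j : ℂ)) * (((a + j : ℝ) : ℂ) + ((a * t : ℝ) : ℂ) * Complex.I) =
      (((a + j) ^ 2 + (a * t) ^ 2 : ℝ) : ℂ) := by
    push_cast
    linear_combination (-(t : ℂ) ^ 2 * (a : ℂ) ^ 2) * Complex.I_sq
  have h2 : (((a : ℂ) - Complex.I * (t : ℂ) * a) + (j : ℂ)) ≠ 0 := by
    intro h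
    rw [h, zero_mul] at h1
    exact hDc h1.symm
  rw [div_eq_iff h2]
  unfold rr_SCb ss_SCb
  rw [Complex.ofReal_div, Complex.ofReal_div, div_mul_eq_mul_div, ← add_div, div_mul_eq_mul_div, eq_div_iff hDc,
    one_mul, ← h1]
  ring

theorem lap_SCb (a : ℝ) (ha : 0 < a) (t : ℝ) (j : ℕ) :
    IntegrableOn (fun d : ℝ => Real.exp (-(a * d)) * Real.cos (a * t * d) * Real.exp (-d) ^ j) (Ioi 0) ∧
      ∫ d in Ioi (0 : ℝ), Real.exp (-(a * d)) * Real.cos (a * t * d) * Real.exp (-d) ^ j = rr_SCb a t j := by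
  set c : ℂ := -(((a : ℂ) - Complex.I * (t : ℂ) * a) + (j : ℂ)) with hc
  have hre : c.re = -(a + j) := by
    simp [hc, Complex.add_re, Complex.sub_re]
  have him : c.im = a * t := by
    simp [hc, Complex.add_im, Complex.sub_im, mul_comm]
  have hneg : c.re < 0 := by
    rw [hre]
    have : (0 : ℝ) ≤ j := Nat.cast_nonneg j
    linarith
  have hI := integrableOn_exp_mul_complex_Ioi hneg 0
  have hE := integral_exp_mul_complex_Ioi hneg 0
  have hpt : ∀ d : ℝ, Real.exp (-(a * d)) * Real.cos (a * t * d) * Real.exp (-d) ^ j =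
      RCLike.re (Complex.exp (c * (d : ℂ))) := by
    intro d
    show _ = (Complex.exp (c * (d : ℂ))).re
    rw [Complex.exp_re]
    have h1 : (c * (d : ℂ)).re = -(a + j) * d := by
      rw [Complex.mul_re, hre, Complex.ofReal_re, Complex.ofReal_im]; ring
    have h2 : (c * (d : ℂ)).im = a * t * d := by
      rw [Complex.mul_im, him, Complex.ofReal_re, Complex.ofReal_im]; ring
    rw [h1, h2, ← Real.exp_nat_mul]
    have : Real.exp (-(a + (j : ℝ)) * d) = Real.exp (-(a * d)) * Real.exp ((j : ℝ) * -d) := by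
      rw [← Real.exp_add]; ring_nf
    rw [this]; ring
  simp only [hpt]
  refine ⟨hI.re, ?_⟩
  rw [integral_re hI, hE]
  show (-Complex.exp (c * ((0 : ℝ) : ℂ)) / c).re = _
  rw [Complex.ofReal_zero, mul_zero, Complex.exp_zero]
  have : (-1 : ℂ) / c = 1 / (((a : ℂ) - Complex.I * (t : ℂ) * a) + (j : ℂ)) := by
    rw [hc, neg_div_neg_eq]
  rw [this, inv_SCb a ha]
  simp

theorem part1_SCb (hPF : StPF) (a : ℝ) (ha : 0 < a) (n : ℕ) (t : ℝ) :
    ‖mm n ((a : ℂ) - Complex.I * (t : ℂ) * a)‖ ^ 2 =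
      1 + 2 * ∑ j ∈ Finset.range n, bj_SCb a n j * rr_SCb a t j := by
  have hz : (0 : ℝ) < ((a : ℂ) - Complex.I * (t : ℂ) * a : ℂ).re := by
    simpa using ha
  rw [hPF.1 n _ hz]
  have h1 : ((-1 : ℂ) ^ n + ∑ i ∈ Finset.range n, ((pc n i : ℝ) : ℂ) / (((a : ℂ) - Complex.I * (t : ℂ) * a) + i)) =
      (((-1) ^ n + ∑ i ∈ Finset.range n, pc n i * rr_SCb a t i : ℝ) : ℂ) +
        ((∑ i ∈ Finset.range n, pc n i * ss_SCb a t i : ℝ) : ℂ) * Complex.I := by
    push_cast
    rw [Finset.sum_mul, add_assoc, ← Finset.sum_add_distrib]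
    congr 1
    refine Finset.sum_congr rfl fun i _ => ?_
    rw [div_eq_mul_one_div, inv_SCb a ha]
    ring
  rw [h1, Complex.sq_norm, Complex.normSq_add_mul_I]
  set R : ℝ := ∑ i ∈ Finset.range n, pc n i * rr_SCb a t i with hR
  set S : ℝ := ∑ i ∈ Finset.range n, pc n i * ss_SCb a t i with hS
  have hsq : ((-1 : ℝ) ^ n) ^ 2 = 1 := by rw [← pow_mul, mul_comm, pow_mul]; norm_num
  have hRS : R ^ 2 + S ^ 2 = ∑ i ∈ Finset.range n, ∑ j ∈ Finset.range n,
      pc n i * pc n j * ((rr_SCb a t i + rr_SCb a t j) / ((i : ℝ) + j + 2 * a)) := by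
    rw [hR, hS, sq, sq, Finset.sum_mul_sum, Finset.sum_mul_sum, ← Finset.sum_add_distrib]
    refine Finset.sum_congr rfl fun i _ => ?_
    rw [← Finset.sum_add_distrib]
    refine Finset.sum_congr rfl fun j _ => ?_
    unfold rr_SCb ss_SCb
    have hi : (0 : ℝ) < (a + i) ^ 2 + (a * t) ^ 2 := by positivity
    have hj : (0 : ℝ) < (a + j) ^ 2 + (a * t) ^ 2 := by positivity
    have hij : (0 : ℝ) < (i : ℝ) + j + 1 / 2 := by positivity
    rw [div_add_div _ _ hi.ne' hj.ne']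
    field_simp
    ring
  have hsym : ∑ i ∈ Finset.range n, ∑ j ∈ Finset.range n,
      pc n i * pc n j * ((rr_SCb a t i + rr_SCb a t j) / ((i : ℝ) + j + 2 * a)) =
      2 * ∑ j ∈ Finset.range n, ∑ i ∈ Finset.range n,
        pc n j * (pc n i / ((i : ℝ) + j + 2 * a)) * rr_SCb a t j := by
    have e1 : ∑ i ∈ Finset.range n, ∑ j ∈ Finset.range n,
        pc n i * pc n j * ((rr_SCb a t i + rr_SCb a t j) / ((i : ℝ) + j + 2 * a)) =
        ∑ i ∈ Finset.range n, ∑ j ∈ Finset.range n, pc n i * pc n j * (rr_SCb a t i / ((i : ℝ) + j + 2 * a)) +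
        ∑ i ∈ Finset.range n, ∑ j ∈ Finset.range n, pc n i * pc n j * (rr_SCb a t j / ((i : ℝ) + j + 2 * a)) := by
      rw [← Finset.sum_add_distrib]
      refine Finset.sum_congr rfl fun i _ => ?_
      rw [← Finset.sum_add_distrib]
      refine Finset.sum_congr rfl fun j _ => ?_
      ring
    have e2 : ∑ i ∈ Finset.range n, ∑ j ∈ Finset.range n,
        pc n i * pc n j * (rr_SCb a t i / ((i : ℝ) + j + 2 * a)) =
        ∑ j ∈ Finset.range n, ∑ i ∈ Finset.range n,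
          pc n j * (pc n i / ((i : ℝ) + j + 2 * a)) * rr_SCb a t j := by
      refine Finset.sum_congr rfl fun i _ => Finset.sum_congr rfl fun j _ => ?_
      rw [add_comm (i : ℝ) (j : ℝ)]; ring
    have e3 : ∑ i ∈ Finset.range n, ∑ j ∈ Finset.range n,
        pc n i * pc n j * (rr_SCb a t j / ((i : ℝ) + j + 2 * a)) =
        ∑ j ∈ Finset.range n, ∑ i ∈ Finset.range n,
          pc n j * (pc n i / ((i : ℝ) + j + 2 * a)) * rr_SCb a t j := by
      rw [Finset.sum_comm]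
      refine Finset.sum_congr rfl fun i _ => Finset.sum_congr rfl fun j _ => ?_
      ring
    rw [e1, e2, e3]; ring
  have hb : ∑ j ∈ Finset.range n, bj_SCb a n j * rr_SCb a t j = (-1) ^ n * R +
      ∑ j ∈ Finset.range n, ∑ i ∈ Finset.range n,
        pc n j * (pc n i / ((i : ℝ) + j + 2 * a)) * rr_SCb a t j := by
    rw [hR, Finset.mul_sum, ← Finset.sum_add_distrib]
    refine Finset.sum_congr rfl fun j _ => ?_
    unfold bj_SCb
    rw [mul_add, add_mul, Finset.mul_sum, Finset.sum_mul]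
    congr 1
    ring
  rw [hb]
  have : R ^ 2 + S ^ 2 = 2 * ∑ j ∈ Finset.range n, ∑ i ∈ Finset.range n,
        pc n j * (pc n i / ((i : ℝ) + j + 2 * a)) * rr_SCb a t j := by rw [hRS, hsym]
  linear_combination hsq + this

theorem hSCb : StSCb := by
  intro n a _ ha _
  refine ⟨fun t => ?_, fun ν hν x => kapb_eq n ν hν (2 * a) x (by positivity)⟩
  rw [part1_SCb hPF a ha]
  congr 2
  have h1 : ∀ d : ℝ, Real.exp (-(a * d)) * Real.cos (a * t * d) * kapb n (2 * a) (Real.exp (-d)) =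
      ∑ j ∈ Finset.range n, bj_SCb a n j *
        (Real.exp (-(a * d)) * Real.cos (a * t * d) * Real.exp (-d) ^ j) := by
    intro d
    rw [kap_SCb a ha, Finset.mul_sum]
    refine Finset.sum_congr rfl fun j _ => ?_
    ring
  simp only [h1]
  rw [integral_finsetSum _ (fun j _ => ((lap_SCb a ha t j).1).const_mul _)]
  refine Finset.sum_congr rfl fun j _ => ?_
  rw [integral_const_mul, (lap_SCb a ha t j).2]

end Helper69.CS
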