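import Pool.Agent.Helper69.CS.St

/-!
# MP_3dd6d4_an, project CS, module SLK: the constant
-/

set_option autoImplicit false

open Set

namespace Helper69.CS

open Helper69.CR

private theorem atanh_SLK (u x : ℝ) (hu0 : 0 ≤ u) (hu1 : u < 1) (hx0 : 0 ≤ x) (hx1 : x ≤ 1) :
    Real.log (1 + u * x) - Real.log (1 - u * x) ≤ x * (Real.log (1 + u) - Real.log (1 - u)) := by
  have hux : u * x ≤ u := mul_le_of_le_one_right hu0 hx1
  have h1 := Real.hasSum_log_sub_log_of_abs_lt_one (x := u * x)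
    (by rw [abs_of_nonneg (mul_nonneg hu0 hx0)]; linarith)
  have h2 := (Real.hasSum_log_sub_log_of_abs_lt_one (x := u)
    (by rw [abs_of_nonneg hu0]; exact hu1)).mul_left x
  refine hasSum_le (fun k => ?_) h1 h2
  have h3 : (u * x) ^ (2 * k + 1) ≤ x * u ^ (2 * k + 1) := by
    rw [mul_pow, mul_comm]
    refine mul_le_mul_of_nonneg_right ?_ (pow_nonneg hu0 _)
    exact pow_le_of_le_one hx0 hx1 (by omega)
  have h4 : (0 : ℝ) ≤ 2 * (1 / (2 * (k : ℝ) + 1)) := by positivity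
  calc 2 * (1 / (2 * (k : ℝ) + 1)) * (u * x) ^ (2 * k + 1)
      ≤ 2 * (1 / (2 * (k : ℝ) + 1)) * (x * u ^ (2 * k + 1)) := mul_le_mul_of_nonneg_left h3 h4
    _ = x * (2 * (1 / (2 * (k : ℝ) + 1)) * u ^ (2 * k + 1)) := by ring

private theorem key_SLK (n : ℕ) (hn : 1 ≤ n) (x : ℝ) (hx0 : 0 ≤ x) (hx1 : x ≤ 1) :
    (2 * (n : ℝ) + 1 + x) / (2 * (n : ℝ) + 1 - x) ≤ (((n : ℝ) + 1) / n) ^ x := by
  have hn0 : (1 : ℝ) ≤ n := by exact_mod_cast hn
  have hn1 : (0 : ℝ) < n := by linarith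
  have hm : (0 : ℝ) < 2 * (n : ℝ) + 1 := by positivity
  have hd : (0 : ℝ) < 2 * (n : ℝ) + 1 - x := by linarith
  have h := atanh_SLK (1 / (2 * (n : ℝ) + 1)) x (by positivity)
    (by rw [div_lt_one hm]; linarith) hx0 hx1
  have e1 : 1 + 1 / (2 * (n : ℝ) + 1) * x = (2 * (n : ℝ) + 1 + x) / (2 * (n : ℝ) + 1) := by
    field_simp
  have e2 : 1 - 1 / (2 * (n : ℝ) + 1) * x = (2 * (n : ℝ) + 1 - x) / (2 * (n : ℝ) + 1) := by
    field_simp
  have e3 : 1 + 1 / (2 * (n : ℝ) + 1) = (2 * ((n : ℝ) + 1)) / (2 * (n : ℝ) + 1) := by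
    field_simp; ring
  have e4 : 1 - 1 / (2 * (n : ℝ) + 1) = (2 * (n : ℝ)) / (2 * (n : ℝ) + 1) := by
    field_simp; ring
  rw [e1, e2, e3, e4, ← Real.log_div (by positivity) (by positivity),
    ← Real.log_div (by positivity) (by positivity), div_div_div_cancel_right₀ hm.ne',
    div_div_div_cancel_right₀ hm.ne', mul_div_mul_left _ _ (two_ne_zero)] at h
  rw [Real.rpow_def_of_pos (by positivity), mul_comm (Real.log _) x,
    ← Real.log_le_iff_le_exp (div_pos (by positivity) hd)]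
  exact h

private theorem log3_SLK : 2 * Real.log 3 ≤ 7 / 3 - 132 / 1000 := by
  have h1 : (29 : ℝ) * Real.log 3 ≤ 46 * Real.log 2 := by
    have e1 : (29 : ℝ) * Real.log 3 = Real.log (3 ^ 29) := by
      rw [Real.log_pow]; norm_num
    have e2 : (46 : ℝ) * Real.log 2 = Real.log (2 ^ 46) := by
      rw [Real.log_pow]; norm_num
    rw [e1, e2]
    exact Real.log_le_log (by norm_num) (by norm_num)
  have h2 := Real.log_two_lt_d9
  linarith

/-- the difference of the logarithms for `n = 3` -/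
private noncomputable def gg_SLK (x : ℝ) : ℝ :=
  (1 - 2 * x) * Real.log 3 -
    (Real.log (2 - x) + Real.log (3 - x) - Real.log (1 + x) - Real.log (2 + x)) -
    132 / 1000 * x + 528 / 1000 * x ^ 2

private theorem gg_deriv_SLK (x : ℝ) (h0 : 0 ≤ x) (h1 : x ≤ 1 / 4) :
    HasDerivAt gg_SLK (-2 * Real.log 3 + (1 / (2 - x) + 1 / (3 - x) + 1 / (1 + x) + 1 / (2 + x)) -
      132 / 1000 + 1056 / 1000 * x) x := by
  have a1 : HasDerivAt (fun x : ℝ => (1 - 2 * x) * Real.log 3) (-2 * Real.log 3) x := by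
    have := (((hasDerivAt_id x).const_mul 2).const_sub 1).mul_const (Real.log 3)
    simpa using this
  have a2 : HasDerivAt (fun x : ℝ => Real.log (2 - x)) (-1 / (2 - x)) x := by
    have := ((hasDerivAt_id x).const_sub 2).log (by simp only [id]; linarith)
    simpa using this
  have a3 : HasDerivAt (fun x : ℝ => Real.log (3 - x)) (-1 / (3 - x)) x := by
    have := ((hasDerivAt_id x).const_sub 3).log (by simp only [id]; linarith)
    simpa using this
  have a4 : HasDerivAt (fun x : ℝ => Real.log (1 + x)) (1 / (1 + x)) x := by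
    have := ((hasDerivAt_id x).const_add 1).log (by simp only [id]; linarith)
    simpa using this
  have a5 : HasDerivAt (fun x : ℝ => Real.log (2 + x)) (1 / (2 + x)) x := by
    have := ((hasDerivAt_id x).const_add 2).log (by simp only [id]; linarith)
    simpa using this
  have a6 : HasDerivAt (fun x : ℝ => (132 / 1000 : ℝ) * x) (132 / 1000) x := by
    have := (hasDerivAt_id x).const_mul (132 / 1000 : ℝ)
    simpa using this
  have a7 : HasDerivAt (fun x : ℝ => (528 / 1000 : ℝ) * x ^ 2) (528 / 1000 * (2 * x)) x := by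
    have := ((hasDerivAt_id x).pow 2).const_mul (528 / 1000 : ℝ)
    simpa using this
  have h := ((a1.sub (((a2.add a3).sub a4).sub a5)).sub a6).add a7
  have e : gg_SLK = (fun x : ℝ => (1 - 2 * x) * Real.log 3 -
    (Real.log (2 - x) + Real.log (3 - x) - Real.log (1 + x) - Real.log (2 + x)) -
    132 / 1000 * x + 528 / 1000 * x ^ 2) := rfl
  rw [e]
  refine h.congr_deriv ?_
  ring

private theorem gg_nonneg_SLK (x : ℝ) (h0 : 0 ≤ x) (h1 : x ≤ 1 / 4) : 0 ≤ gg_SLK x := by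
  have hz : gg_SLK 0 = 0 := by
    unfold gg_SLK
    simp
  have hm : MonotoneOn gg_SLK (Icc 0 (1 / 4)) := by
    apply monotoneOn_of_deriv_nonneg (convex_Icc _ _)
    · intro y hy
      exact (gg_deriv_SLK y hy.1 hy.2).continuousAt.continuousWithinAt
    · intro y hy
      rw [interior_Icc] at hy
      exact (gg_deriv_SLK y hy.1.le hy.2.le).differentiableAt.differentiableWithinAt
    · intro y hy
      rw [interior_Icc] at hy
      rw [(gg_deriv_SLK y hy.1.le hy.2.le).deriv]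
      have hy0 := hy.1
      have hy1 := hy.2
      have b1 : 1 ≤ 1 / (2 - y) + 1 / (2 + y) := by
        have p1 : (0 : ℝ) < 2 - y := by linarith
        have p2 : (0 : ℝ) < 2 + y := by linarith
        rw [div_add_div _ _ p1.ne' p2.ne', le_div_iff₀ (mul_pos p1 p2)]
        nlinarith
      have b2 : 1 / 3 + y / 9 ≤ 1 / (3 - y) := by
        have p1 : (0 : ℝ) < 3 - y := by linarith
        rw [le_div_iff₀ p1]
        nlinarith
      have b3 : 1 - y ≤ 1 / (1 + y) := by
        have p1 : (0 : ℝ) < 1 + y := by linarith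
        rw [le_div_iff₀ p1]
        nlinarith
      have b4 := log3_SLK
      linarith
  have := hm (left_mem_Icc.2 (by norm_num)) ⟨h0, h1⟩ h0
  rwa [hz] at this

private theorem base_SLK (x : ℝ) (h0 : 0 < x) (h1 : x ≤ 1 / 4) :
    (1 + 132 / 1000 * x - 528 / 1000 * x ^ 2) * ((2 - x) / (1 + x) * ((3 - x) / (2 + x))) ≤
      (3 : ℝ) ^ (1 - 2 * x) := by
  have p1 : (0 : ℝ) < 2 - x := by linarith
  have p2 : (0 : ℝ) < 3 - x := by linarith
  have p3 : (0 : ℝ) < 1 + x := by linarith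
  have p4 : (0 : ℝ) < 2 + x := by linarith
  have h := gg_nonneg_SLK x h0.le h1
  unfold gg_SLK at h
  have e1 : (2 - x) / (1 + x) * ((3 - x) / (2 + x)) =
      Real.exp (Real.log (2 - x) + Real.log (3 - x) - Real.log (1 + x) - Real.log (2 + x)) := by
    rw [Real.exp_sub, Real.exp_sub, Real.exp_add, Real.exp_log p1, Real.exp_log p2,
      Real.exp_log p3, Real.exp_log p4]
    field_simp
  have e2 : 1 + 132 / 1000 * x - 528 / 1000 * x ^ 2 ≤
      Real.exp (132 / 1000 * x - 528 / 1000 * x ^ 2) := by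
    have := Real.add_one_le_exp (132 / 1000 * x - 528 / 1000 * x ^ 2)
    linarith
  rw [e1, Real.rpow_def_of_pos (by norm_num : (0 : ℝ) < 3)]
  refine le_trans (mul_le_mul_of_nonneg_right e2 (Real.exp_pos _).le) ?_
  rw [← Real.exp_add]
  apply Real.exp_le_exp.2
  linarith

theorem hSLK : StSLK := by
  intro n p hn hp
  have hp0 : 0 < p := by linarith
  have ha0 : 0 < 1 / p := by positivity
  have ha1 : 1 / p ≤ 1 / 4 := one_div_le_one_div_of_le (by norm_num) hp
  have e0 : (2 : ℝ) / p = 2 * (1 / p) := by ring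
  have hc0 : 0 ≤ 1 + 33 / 250 * (p - 4) / p ^ 2 := by
    have : 0 ≤ 33 / 250 * (p - 4) / p ^ 2 := by
      apply div_nonneg
      · nlinarith
      · positivity
    linarith
  induction n, hn using Nat.le_induction with
  | base =>
    have h := base_SLK (1 / p) ha0 ha1
    unfold Cn
    rw [Finset.prod_range_succ, Finset.prod_range_succ, Finset.prod_range_one]
    push_cast
    rw [e0]
    have e1 : (0 + 1 - 1 / p) / (0 + 1 / p) = p - 1 := by
      field_simp; ring
    have e2 : 1 + 33 / 250 * (p - 4) / p ^ 2 =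
        1 + 132 / 1000 * (1 / p) - 528 / 1000 * (1 / p) ^ 2 := by
      field_simp; ring
    rw [e1, e2]
    have e3 : (1 + 132 / 1000 * (1 / p) - 528 / 1000 * (1 / p) ^ 2) *
        ((p - 1) * ((1 + 1 - 1 / p) / (1 + 1 / p)) * ((2 + 1 - 1 / p) / (2 + 1 / p))) =
        ((1 + 132 / 1000 * (1 / p) - 528 / 1000 * (1 / p) ^ 2) *
          ((2 - 1 / p) / (1 + 1 / p) * ((3 - 1 / p) / (2 + 1 / p)))) * (p - 1) := by
      rw [show (1 : ℝ) + 1 - 1 / p = 2 - 1 / p by ring, show (2 : ℝ) + 1 - 1 / p = 3 - 1 / p by ring]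
      ring
    rw [e3]
    exact mul_le_mul_of_nonneg_right h (by linarith)
  | succ n hn ih =>
    have hn3 : (3 : ℝ) ≤ n := by exact_mod_cast hn
    have hn1 : (0 : ℝ) < n := by linarith
    have h1 : Cn (n + 1) (1 / p) = Cn n (1 / p) * (((n : ℝ) + 1 - 1 / p) / ((n : ℝ) + 1 / p)) := by
      unfold Cn
      rw [Finset.prod_range_succ]
    have h2 := key_SLK n (by omega) (1 - 2 / p) (by rw [e0]; linarith) (by rw [e0]; linarith)
    have h3 : (2 * (n : ℝ) + 1 + (1 - 2 / p)) / (2 * (n : ℝ) + 1 - (1 - 2 / p)) =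
        ((n : ℝ) + 1 - 1 / p) / ((n : ℝ) + 1 / p) := by
      rw [show 2 * (n : ℝ) + 1 + (1 - 2 / p) = 2 * ((n : ℝ) + 1 - 1 / p) by rw [e0]; ring,
        show 2 * (n : ℝ) + 1 - (1 - 2 / p) = 2 * ((n : ℝ) + 1 / p) by rw [e0]; ring,
        mul_div_mul_left _ _ two_ne_zero]
    rw [h3] at h2
    rw [h1]
    have h4 : 0 ≤ ((n : ℝ) + 1 - 1 / p) / ((n : ℝ) + 1 / p) :=
      div_nonneg (by linarith) (by positivity)
    have h5 : 0 ≤ (n : ℝ) ^ (1 - 2 / p) * (p - 1) :=
      mul_nonneg (Real.rpow_nonneg hn1.le _) (by linarith)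
    calc (1 + 33 / 250 * (p - 4) / p ^ 2) *
          (Cn n (1 / p) * (((n : ℝ) + 1 - 1 / p) / ((n : ℝ) + 1 / p)))
        = ((1 + 33 / 250 * (p - 4) / p ^ 2) * Cn n (1 / p)) *
            (((n : ℝ) + 1 - 1 / p) / ((n : ℝ) + 1 / p)) := by ring
      _ ≤ ((n : ℝ) ^ (1 - 2 / p) * (p - 1)) * (((n : ℝ) + 1) / n) ^ (1 - 2 / p) :=
          mul_le_mul ih h2 h4 h5
      _ = ((n : ℝ) * (((n : ℝ) + 1) / n)) ^ (1 - 2 / p) * (p - 1) := by
          rw [Real.mul_rpow hn1.le (by positivity)]; ring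
      _ = (((n + 1 : ℕ) : ℝ)) ^ (1 - 2 / p) * (p - 1) := by
          rw [mul_div_cancel₀ _ hn1.ne']; push_cast; rfl

end Helper69.CS
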