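import Pool.Agent.Helper69.CS.St
import Pool.Agent.Helper69.CR.M_PZ
import Pool.Agent.Helper69.CR.M_WA
import Pool.Agent.Helper69.CR.M_PF
import Pool.Agent.Helper85.BS_P

/-!
# MP_3dd6d4_an, project CS, module ST8: Stein interpolation between the nodes 4 and 8 (helper36)
-/

set_option autoImplicit false

open MeasureTheory Set Filter Topology
open scoped ENNReal NNReal

noncomputable section

namespace Helper69.CS

open Helper85.BP Helper85.BP.P Helper85.BS Helper69.CR Helper69.CR.DB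

private theorem supp_bound_ST8 (g : ℝ → ℂ) (hgs : HasCompactSupport g) :
    ∃ R : ℝ, 0 ≤ R ∧ ∀ x, R < |x| → g x = 0 := by
  obtain ⟨R, hR⟩ := hgs.isCompact.isBounded.subset_closedBall (0 : ℝ)
  refine ⟨|R|, abs_nonneg _, fun x hx => ?_⟩
  by_contra h
  have h1 := hR (subset_tsupport g h)
  rw [Metric.mem_closedBall, dist_zero_right, Real.norm_eq_abs] at h1
  linarith [le_abs_self R]

private theorem Bop_cont_ST8 (n : ℕ) (g : ℝ → ℂ) (hg : Continuous g) (hgs : HasCompactSupport g) :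
    Continuous (Bop n g) := by
  unfold Bop
  refine (continuous_const.mul hg).add ?_
  rw [continuous_iff_continuousAt]
  intro y0
  obtain ⟨R, hR0, hR⟩ := supp_bound_ST8 g hgs
  obtain ⟨M, hM⟩ := hgs.exists_bound_of_continuous hg
  have hpc : Continuous (fun u : ℝ => pp n (Real.exp (-u))) := by
    unfold pp
    fun_prop
  obtain ⟨M2, hM2⟩ := isCompact_Icc.exists_bound_of_continuousOn
    (f := fun u : ℝ => pp n (Real.exp (-u))) (s := Icc (-(R + |y0| + 1)) (R + |y0| + 1))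
    hpc.continuousOn
  have hM0 : 0 ≤ M := (norm_nonneg _).trans (hM 0)
  apply continuousAt_of_dominated
    (bound := (Icc (-(R + |y0| + 1)) (R + |y0| + 1)).indicator (fun _ => |M2| * M))
  · refine Filter.Eventually.of_forall fun y => Continuous.aestronglyMeasurable ?_
    exact (Complex.continuous_ofReal.comp hpc).mul (hg.comp (continuous_const.add continuous_id))
  · have hev : ∀ᶠ y in 𝓝 y0, |y| < |y0| + 1 := by
      have h := (continuous_abs.tendsto y0).eventually (gt_mem_nhds (lt_add_one |y0|))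
      exact h
    filter_upwards [hev] with y hy
    refine Filter.Eventually.of_forall fun u => ?_
    by_cases hu : u ∈ Icc (-(R + |y0| + 1)) (R + |y0| + 1)
    · rw [indicator_of_mem hu, norm_mul, Complex.norm_real]
      exact mul_le_mul ((hM2 u hu).trans (le_abs_self _)) (hM _) (norm_nonneg _) (abs_nonneg _)
    · rw [indicator_of_notMem hu]
      have h1 : R < |y + u| := by
        rw [mem_Icc, not_and_or, not_le, not_le] at hu
        rcases hu with h | h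
        · rw [lt_abs]
          right
          have := neg_abs_le y
          have := le_abs_self y
          linarith
        · rw [lt_abs]
          left
          have := neg_abs_le y
          linarith
      rw [hR _ h1, mul_zero, norm_zero]
  · rw [integrable_indicator_iff measurableSet_Icc]
    refine integrableOn_const (hs := ?_)
    exact ne_of_lt ((Measure.restrict_apply_le _ _).trans_lt measure_Icc_lt_top)
  · refine Filter.Eventually.of_forall fun u => ?_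
    exact (continuous_const.mul (hg.comp (continuous_id.add continuous_const))).continuousAt

private theorem cs_ST8 (w : ℝ → ℂ) (a b : ℝ → ℝ) (ha : Integrable a) (hb : Integrable b)
    (ha0 : ∀ y, 0 ≤ a y) (hb0 : ∀ y, 0 ≤ b y) (hw : ∀ y, ‖w y‖ ^ 2 ≤ a y * b y) :
    ‖∫ y, w y‖ ^ 2 ≤ (∫ y, a y) * ∫ y, b y := by
  have hA : 0 ≤ ∫ y, a y := integral_nonneg ha0
  have hB : 0 ≤ ∫ y, b y := integral_nonneg hb0
  have hX : 0 ≤ ‖∫ y, w y‖ := norm_nonneg _
  have key : ∀ x : ℝ, 0 ≤ (∫ y, a y) * (x * x) + (-2 * ‖∫ y, w y‖) * x + ∫ y, b y := by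
    intro x
    rcases le_or_gt x 0 with hx | hx
    · nlinarith [mul_nonneg hA (mul_self_nonneg x), mul_nonneg hX (neg_nonneg.2 hx)]
    · have h1 : ‖∫ y, w y‖ ≤ ∫ y, (x * a y + x⁻¹ * b y) / 2 := by
        apply norm_integral_le_of_norm_le
        · exact ((ha.const_mul x).add (hb.const_mul x⁻¹)).div_const 2
        · refine Filter.Eventually.of_forall fun y => ?_
          have h2 := hw y
          have h3 : (x * a y) * (x⁻¹ * b y) = a y * b y := by
            field_simp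
          have h4 : 0 ≤ x * a y := mul_nonneg hx.le (ha0 y)
          have h5 : 0 ≤ x⁻¹ * b y := mul_nonneg (inv_nonneg.2 hx.le) (hb0 y)
          have h6 : ‖w y‖ ^ 2 ≤ ((x * a y + x⁻¹ * b y) / 2) ^ 2 := by
            nlinarith [sq_nonneg (x * a y - x⁻¹ * b y)]
          exact (pow_le_pow_iff_left₀ (norm_nonneg _) (by positivity) two_ne_zero).1 h6
      rw [integral_div, integral_add (ha.const_mul x) (hb.const_mul x⁻¹), integral_const_mul,
        integral_const_mul] at h1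
      have h2 : x * ‖∫ y, w y‖ ≤ x * ((x * (∫ y, a y) + x⁻¹ * ∫ y, b y) / 2) :=
        mul_le_mul_of_nonneg_left h1 hx.le
      have h3 : x * (x⁻¹ * ∫ y, b y) = ∫ y, b y := by
        field_simp
      nlinarith
  have := discrim_le_zero key
  unfold discrim at this
  nlinarith

private theorem a8_re_ST8 (z : ℂ) : (a8 z).re = 1 / 4 - z.re / 8 := by
  simp [a8]

private theorem pw_norm_ST8 (w c : ℂ) (hw : 0 < w.re) : ‖pw w c‖ = ‖c‖ ^ w.re := by
  by_cases hc : c = 0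
  · subst hc
    simp [pw, Real.zero_rpow hw.ne']
  · exact hPZ.2.1 w c hc

private theorem pw_zero_ST8 (w : ℂ) : pw w 0 = 0 := by
  simp [pw]

private theorem re_mul_ST8 (p : ℝ) (w : ℂ) : ((p : ℂ) * w).re = p * w.re := by
  simp

private theorem g8_norm_ST8 (p : ℝ) (hp : 0 < p) (χ : ℝ → ℝ) (hχ0 : ∀ y, 0 ≤ χ y)
    (h : ℝ → ℂ) (z : ℂ) (hz0 : 0 ≤ z.re)
    (y : ℝ) : ‖g8 p χ h z y‖ =
      χ y * Real.exp ((1 / 4 - z.re / 8) * y) * ‖h y‖ ^ (p * (3 / 4 + z.re / 8)) := by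
  unfold g8
  have e : (1 - a8 z).re = 3 / 4 + z.re / 8 := by
    rw [Complex.sub_re, a8_re_ST8, Complex.one_re]
    ring
  have h1 : 0 < ((p : ℂ) * (1 - a8 z)).re := by
    rw [re_mul_ST8, e]
    apply mul_pos hp
    linarith
  rw [norm_mul, norm_mul, pw_norm_ST8 _ _ h1, re_mul_ST8, e, Complex.norm_exp, Complex.norm_real,
    Real.norm_eq_abs, abs_of_nonneg (hχ0 y), RCLike.norm_conj]
  congr 3
  rw [Complex.mul_re, a8_re_ST8, Complex.ofReal_re, Complex.ofReal_im]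
  ring

private theorem f8_cont_ST8 (p : ℝ) (hp : 0 < p) (F : ℝ → ℂ) (hF : Continuous F)
    (z : ℂ) (hz1 : z.re ≤ 1) : Continuous (f8 p F z) := by
  have h1 : 0 < ((p : ℂ) * a8 z).re := by
    rw [re_mul_ST8, a8_re_ST8]
    apply mul_pos hp
    linarith
  have h2 := (hPZ.1 _ h1).comp hF
  unfold f8
  refine Continuous.mul ?_ h2
  fun_prop

private theorem f8_supp_ST8 (p : ℝ) (F : ℝ → ℂ) (hFs : HasCompactSupport F)
    (z : ℂ) : HasCompactSupport (f8 p F z) := by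
  refine hFs.mono fun y hy => ?_
  rw [Function.mem_support] at hy ⊢
  intro h
  apply hy
  unfold f8
  rw [h, pw_zero_ST8, mul_zero]

private theorem re_mul_exp_ST8 (a : ℝ) (x : ℝ) (hx : 0 ≤ x) (k : ℕ) :
    (x ^ a) ^ k = x ^ (a * k) := by
  rw [Real.rpow_mul hx, Real.rpow_natCast]

/-- `phP P t` of `pw (p/P) ∘ F`. -/
private theorem phP_ST8 (P p : ℝ) (hP : 0 < P) (hp : 0 < p) (F : ℝ → ℂ) (t : ℝ) (y : ℝ) :
    Complex.exp (-((1 / P : ℝ) - Complex.I * t / P) * y) *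
      pw (p * ((1 / P : ℝ) - Complex.I * t / P)) (F y) =
      phP P t (fun y => pw ((p / P : ℝ) : ℂ) (F y)) y := by
  unfold phP
  simp only
  by_cases hF : F y = 0
  · rw [hF, pw_zero_ST8, pw_zero_ST8]
    simp
  · have hn : (0 : ℝ) < ‖F y‖ := norm_pos_iff.2 hF
    have hn' : ((‖F y‖ : ℝ) : ℂ) ≠ 0 := by exact_mod_cast hn.ne'
    have hG : ‖pw ((p / P : ℝ) : ℂ) (F y)‖ = ‖F y‖ ^ (p / P) := by
      rw [pw_norm_ST8 _ _ (by rw [Complex.ofReal_re]; positivity), Complex.ofReal_re]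
    rw [hG, Real.log_rpow hn]
    unfold pw
    have e2 : ((‖F y‖ : ℝ) : ℂ) ^ ((p : ℂ) * ((1 / P : ℝ) - Complex.I * t / P) - 1) =
        ((‖F y‖ : ℝ) : ℂ) ^ (((p / P : ℝ) : ℂ) - 1) *
          Complex.exp (-(Complex.I * (t * (p / P * Real.log ‖F y‖) : ℝ))) := by
      rw [Complex.cpow_def_of_ne_zero hn', Complex.cpow_def_of_ne_zero hn', ← Complex.exp_add,
        ← Complex.ofReal_log hn.le]
      congr 1
      push_cast
      ring
    rw [e2]
    have e3 : Complex.exp (-((1 / P : ℝ) - Complex.I * t / P) * y) =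
        ((Real.exp (-y / P) : ℝ) : ℂ) * Complex.exp (Complex.I * ((t * (y / P) : ℝ) : ℂ)) := by
      rw [Complex.ofReal_exp, ← Complex.exp_add]
      congr 1
      push_cast
      ring
    rw [e3]
    have e4 : Complex.exp (Complex.I * ((t * (y / P - p / P * Real.log ‖F y‖) : ℝ) : ℂ)) =
        Complex.exp (Complex.I * ((t * (y / P) : ℝ) : ℂ)) *
          Complex.exp (-(Complex.I * ((t * (p / P * Real.log ‖F y‖) : ℝ) : ℂ))) := by
      rw [← Complex.exp_add]
      congr 1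
      push_cast
      ring
    rw [e4]
    ring

private theorem f8_zero_ST8 (p : ℝ) (hp : 0 < p) (F : ℝ → ℂ) (τ : ℝ) :
    f8 p F (Complex.I * τ) = ph (τ / 2) (fun y => pw ((p / 4 : ℝ) : ℂ) (F y)) := by
  funext y
  have h1 := phP_ST8 4 p (by norm_num) hp F (τ / 2) y
  have e1 : a8 (Complex.I * τ) = ((1 / (4 : ℝ) : ℝ) : ℂ) - Complex.I * ((τ / 2 : ℝ) : ℂ) / ((4 : ℝ) : ℂ) := by
    unfold a8
    push_cast
    ring
  unfold f8
  rw [e1, h1]
  unfold phP ph
  rfl

private theorem f8_one_ST8 (p : ℝ) (hp : 0 < p) (F : ℝ → ℂ) (τ : ℝ) :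
    f8 p F (1 + Complex.I * τ) = phP 8 τ (fun y => pw ((p / 8 : ℝ) : ℂ) (F y)) := by
  funext y
  have h1 := phP_ST8 8 p (by norm_num) hp F τ y
  have e1 : a8 (1 + Complex.I * τ) = ((1 / (8 : ℝ) : ℝ) : ℂ) - Complex.I * (τ : ℂ) / ((8 : ℝ) : ℂ) := by
    unfold a8
    push_cast
    ring
  unfold f8
  rw [e1, h1]

/-- the bound on a vertical line. -/
private theorem side_ST8
    (n : ℕ) (p : ℝ) (F h : ℝ → ℂ) (hp : 0 < p) (hF : Continuous F)
    (hFs : HasCompactSupport F) (χ : ℝ → ℝ) (hχ : Continuous χ) (hχs : HasCompactSupport χ)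
    (hχ0 : ∀ y, 0 ≤ χ y) (hh : Continuous h) (z : ℂ) (x : ℝ) (hx : z.re = x)
    (hx0 : 0 ≤ x) (hx1 : x ≤ 1) :
    ‖Phi8 n p χ F h z‖ ^ 2 ≤
      (∫ y, Real.exp ((1 / 2 - x / 4) * y) * ‖Bop n (f8 p F z) y‖ ^ 2 *
        (χ y * ‖h y‖ ^ (p * (1 / 2 + x / 4)))) * ∫ y, χ y * ‖h y‖ ^ p := by
  have hcb : Continuous fun y => χ y * ‖h y‖ ^ p :=
    hχ.mul (hh.norm.rpow_const fun _ => Or.inr hp.le)
  have hib : Integrable fun y => χ y * ‖h y‖ ^ p :=
    hcb.integrable_of_hasCompactSupport hχs.mul_right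
  have hb0 : ∀ y, 0 ≤ χ y * ‖h y‖ ^ p := fun y => mul_nonneg (hχ0 y) (by positivity)
  have hc := f8_cont_ST8 p hp F hF z (by rw [hx]; exact hx1)
  have hs := f8_supp_ST8 p F hFs z
  have hBc := Bop_cont_ST8 n _ hc hs
  have hca : Continuous fun y => Real.exp ((1 / 2 - x / 4) * y) *
      ‖Bop n (f8 p F z) y‖ ^ 2 * (χ y * ‖h y‖ ^ (p * (1 / 2 + x / 4))) := by
    have h1 : Continuous fun y => ‖h y‖ ^ (p * (1 / 2 + x / 4)) :=
      hh.norm.rpow_const fun _ => Or.inr (by positivity)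
    exact ((Real.continuous_exp.comp (by fun_prop)).mul (hBc.norm.pow 2)).mul (hχ.mul h1)
  have hia : Integrable fun y => Real.exp ((1 / 2 - x / 4) * y) *
      ‖Bop n (f8 p F z) y‖ ^ 2 * (χ y * ‖h y‖ ^ (p * (1 / 2 + x / 4))) :=
    hca.integrable_of_hasCompactSupport (hχs.mul_right.mul_left)
  refine cs_ST8 (fun y => Bop n (f8 p F z) y * g8 p χ h z y) _ (fun y => χ y * ‖h y‖ ^ p) hia hib
    (fun y => mul_nonneg (by positivity) (mul_nonneg (hχ0 y) (by positivity))) hb0 ?_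
  intro y
  rw [norm_mul, g8_norm_ST8 p hp χ hχ0 h _ (by rw [hx]; exact hx0), hx, mul_pow, mul_pow,
    mul_pow, re_mul_exp_ST8 _ _ (norm_nonneg _), ← Real.exp_nat_mul]
  have e1 : ((2 : ℕ) : ℝ) * ((1 / 4 - x / 8) * y) = (1 / 2 - x / 4) * y := by
    push_cast
    ring
  have e2 : p * (3 / 4 + x / 8) * ((2 : ℕ) : ℝ) = p * (1 / 2 + x / 4) + p := by
    push_cast
    ring
  rw [e1, e2, Real.rpow_add_of_nonneg (norm_nonneg _) (by positivity) hp.le]
  apply le_of_eq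
  ring

private theorem a8_theta_ST8 (p : ℝ) (hp : 0 < p) :
    a8 ((2 - 8 / p : ℝ) : ℂ) = ((1 / p : ℝ) : ℂ) := by
  have h : ((p : ℝ) : ℂ) ≠ 0 := by exact_mod_cast hp.ne'
  unfold a8
  push_cast
  field_simp
  ring

private theorem theta_ST8 (n : ℕ) (p : ℝ) (f : ℝ → ℂ) (hp2 : 2 < p) (χ : ℝ → ℝ) :
    Phi8 n p χ (fun y => (Real.exp (y / p) : ℂ) * f y)
      (fun y => (Real.exp (y / p) : ℂ) * Bop n f y) ((2 - 8 / p : ℝ) : ℂ) =
      ((∫ y, χ y * ‖(Real.exp (y / p) : ℂ) * Bop n f y‖ ^ p : ℝ) : ℂ) := by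
  have hp : 0 < p := by linarith
  have hpc : ((p : ℝ) : ℂ) ≠ 0 := by exact_mod_cast hp.ne'
  have e1 : (p : ℂ) * ((1 / p : ℝ) : ℂ) = 1 := by
    push_cast
    field_simp
  have e2 : (p : ℂ) * (1 - ((1 / p : ℝ) : ℂ)) - 1 = ((p - 2 : ℝ) : ℂ) := by
    push_cast
    field_simp
    ring
  have hfz : f8 p (fun y => (Real.exp (y / p) : ℂ) * f y) ((2 - 8 / p : ℝ) : ℂ) = f := by
    funext y
    unfold f8 pw
    rw [a8_theta_ST8 p hp, e1, sub_self, Complex.cpow_zero, mul_one, ← mul_assoc,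
      Complex.ofReal_exp, ← Complex.exp_add]
    have : -((1 / p : ℝ) : ℂ) * (y : ℂ) + ((y / p : ℝ) : ℂ) = 0 := by
      push_cast
      ring
    rw [this, Complex.exp_zero, one_mul]
  unfold Phi8
  rw [hfz, ← integral_complex_ofReal]
  congr 1
  funext y
  unfold g8 pw
  rw [a8_theta_ST8 p hp, e2]
  set b : ℂ := Bop n f y with hb
  set h : ℂ := (Real.exp (y / p) : ℂ) * b with hh
  have e3 : Complex.exp (((1 / p : ℝ) : ℂ) * y) = ((Real.exp (y / p) : ℝ) : ℂ) := by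
    rw [Complex.ofReal_exp]
    congr 1
    push_cast
    ring
  rw [e3, RCLike.norm_conj]
  have e4 : ((‖h‖ : ℝ) : ℂ) ^ ((p - 2 : ℝ) : ℂ) = ((‖h‖ ^ (p - 2) : ℝ) : ℂ) :=
    (Complex.ofReal_cpow (norm_nonneg _) _).symm
  rw [e4]
  have e5 : ‖h‖ ^ p = ‖h‖ ^ 2 * ‖h‖ ^ (p - 2) := by
    rw [← Real.rpow_natCast, ← Real.rpow_add_of_nonneg (norm_nonneg _) (by norm_num)
      (by linarith)]
    congr 1
    push_cast
    ring
  have e6 : h * (starRingEnd ℂ) h = ((‖h‖ ^ 2 : ℝ) : ℂ) := by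
    rw [Complex.mul_conj, Complex.normSq_eq_norm_sq]
  calc b * (((χ y : ℝ) : ℂ) * ((Real.exp (y / p) : ℝ) : ℂ) *
        ((starRingEnd ℂ) h * ((‖h‖ ^ (p - 2) : ℝ) : ℂ)))
      = ((χ y : ℝ) : ℂ) * (((Real.exp (y / p) : ℂ) * b) * (starRingEnd ℂ) h) *
        ((‖h‖ ^ (p - 2) : ℝ) : ℂ) := by ring
    _ = ((χ y : ℝ) : ℂ) * ((‖h‖ ^ 2 : ℝ) : ℂ) * ((‖h‖ ^ (p - 2) : ℝ) : ℂ) := by
        rw [← hh, e6]
    _ = _ := by
        rw [e5]
        push_cast
        ring

private theorem mm_cont_ST8 (n : ℕ) :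
    ContinuousOn (fun z => mm n (a8 z)) {z : ℂ | 0 ≤ z.re ∧ z.re ≤ 1} := by
  unfold mm
  refine continuousOn_finsetProd _ fun k _ => ?_
  refine ContinuousOn.div ?_ ?_ fun z hz => ?_
  · unfold a8
    fun_prop
  · unfold a8
    fun_prop
  · intro h
    have h1 := congrArg Complex.re h
    rw [Complex.add_re, a8_re_ST8, Complex.natCast_re, Complex.zero_re] at h1
    have h2 := hz.2
    have h3 : (0 : ℝ) ≤ k := Nat.cast_nonneg k
    linarith

private theorem mm_diff_ST8 (n : ℕ) :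
    DifferentiableOn ℂ (fun z => mm n (a8 z)) {z : ℂ | 0 < z.re ∧ z.re < 1} := by
  unfold mm
  refine DifferentiableOn.fun_finsetProd fun k _ => ?_
  refine DifferentiableOn.div ?_ ?_ fun z hz => ?_
  · unfold a8
    fun_prop
  · unfold a8
    fun_prop
  · intro h
    have h1 := congrArg Complex.re h
    rw [Complex.add_re, a8_re_ST8, Complex.natCast_re, Complex.zero_re] at h1
    have h2 := hz.2
    have h3 : (0 : ℝ) ≤ k := Nat.cast_nonneg k
    linarith

private theorem measB_ST8 (n : ℕ) (G : ℝ → ℂ) (hG : Continuous G) :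
    StronglyMeasurable (fun q : ℝ × ℝ => Bop n (phP 8 q.1 G) q.2) := by
  have hp : Continuous (pp n) := by
    unfold pp
    fun_prop
  have hGm : Measurable G := hG.measurable
  have hm : Measurable (fun q : ℝ × ℝ => phP 8 q.1 G q.2) := by
    unfold phP
    fun_prop
  unfold Bop
  apply StronglyMeasurable.add
  · exact (hm.const_mul _).stronglyMeasurable
  · have h2 : StronglyMeasurable (fun w : (ℝ × ℝ) × ℝ =>
        ((pp n (Real.exp (-w.2)) : ℝ) : ℂ) * phP 8 w.1.1 G (w.1.2 + w.2)) := by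
      apply Measurable.stronglyMeasurable
      have h3 : Measurable (fun w : (ℝ × ℝ) × ℝ => phP 8 w.1.1 G (w.1.2 + w.2)) :=
        hm.comp (by fun_prop : Measurable fun w : (ℝ × ℝ) × ℝ => (w.1.1, w.1.2 + w.2))
      have h4 : Measurable (fun w : (ℝ × ℝ) × ℝ => ((pp n (Real.exp (-w.2)) : ℝ) : ℂ)) := by
        have := hp.measurable
        fun_prop
      exact h4.mul h3
    exact h2.integral_prod_right

private theorem conj_ST8 : (4 : ℝ).HolderConjugate (4 / 3) := by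
  rw [Real.holderConjugate_iff]
  norm_num

private theorem avg8_ST8 (h3 : StV8) (n : ℕ) (κ0 : ℝ) (K : ℝ → ℝ) (c : ℕ → ℝ → ℝ) (W : ℝ → ℝ)
    (G : ℝ → ℂ) (Hf : ℝ → ℝ) (hn : 1 ≤ n) (hN : Node n κ0 K c) (hK : κ0 ≤ K 8) (hW : Adm 1 W)
    (hG : Continuous G) (hGs : HasCompactSupport G) (hH : Continuous Hf) (hH0 : ∀ y, 0 ≤ Hf y) :
    ∫⁻ t, ENNReal.ofReal (W t) *
      ∫⁻ y, ENNReal.ofReal (Real.exp (y / 4) * ‖Bop n (phP 8 t G) y‖ ^ 2 * Hf y) ≤
      (ENNReal.ofReal ((∫ t, W t * ‖mm n (1 / 8 - Complex.I * (t : ℂ) / 8)‖ ^ 2) +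
        (K 8 - κ0) * ∫ t, W t) *
      ENNReal.ofReal (∫ y, ‖G y‖ ^ 8) ^ (1 / 4 : ℝ)) *
        (∫⁻ y, ENNReal.ofReal (Hf y) ^ (4 / 3 : ℝ)) ^ (3 / 4 : ℝ) := by
  obtain ⟨hi, hb⟩ := h3 n κ0 K c W G hn hN hK hW hG hGs
  have hB := measB_ST8 n G hG
  have hWm : Measurable W := hW.cont.measurable
  have hB2 : Measurable fun q : ℝ × ℝ => ‖Bop n (phP 8 q.1 G) q.2‖ ^ 2 :=
    hB.measurable.norm.pow_const 2
  have hHm : Measurable Hf := hH.measurable
  have hmm : Measurable (Function.uncurry fun t y : ℝ => ENNReal.ofReal (W t) *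
      ENNReal.ofReal (Real.exp (y / 4) * ‖Bop n (phP 8 t G) y‖ ^ 2 * Hf y)) := by
    show Measurable (fun q : ℝ × ℝ => ENNReal.ofReal (W q.1) *
      ENNReal.ofReal (Real.exp (q.2 / 4) * ‖Bop n (phP 8 q.1 G) q.2‖ ^ 2 * Hf q.2))
    have h1 : Measurable fun q : ℝ × ℝ => ENNReal.ofReal (W q.1) := by fun_prop
    have h2 : Measurable fun q : ℝ × ℝ =>
        Real.exp (q.2 / 4) * ‖Bop n (phP 8 q.1 G) q.2‖ ^ 2 * Hf q.2 := by
      refine Measurable.mul (Measurable.mul (by fun_prop) hB2) (by fun_prop)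
    exact h1.mul h2.ennreal_ofReal
  set S : ℝ → ℝ := fun y => ∫ t, W t * ‖Bop n (phP 8 t G) y‖ ^ 2 with hS
  have hS0 : ∀ y, 0 ≤ S y := fun y => integral_nonneg fun t => mul_nonneg (hW.nonneg t) (by positivity)
  have hSm : Measurable S := by
    have h1 : StronglyMeasurable fun q : ℝ × ℝ => W q.1 * ‖Bop n (phP 8 q.1 G) q.2‖ ^ 2 :=
      ((hWm.comp measurable_fst).mul hB2).stronglyMeasurable
    exact h1.integral_prod_left.measurable
  have e1 : ∫⁻ t, ENNReal.ofReal (W t) *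
      ∫⁻ y, ENNReal.ofReal (Real.exp (y / 4) * ‖Bop n (phP 8 t G) y‖ ^ 2 * Hf y) =
      ∫⁻ y, ((fun y => ENNReal.ofReal (Real.exp (y / 4)) * ENNReal.ofReal (S y)) *
        fun y => ENNReal.ofReal (Hf y)) y := by
    calc _ = ∫⁻ t, ∫⁻ y, ENNReal.ofReal (W t) *
          ENNReal.ofReal (Real.exp (y / 4) * ‖Bop n (phP 8 t G) y‖ ^ 2 * Hf y) := by
          refine lintegral_congr fun t => ?_
          rw [lintegral_const_mul' _ _ ENNReal.ofReal_ne_top]
      _ = ∫⁻ y, ∫⁻ t, ENNReal.ofReal (W t) *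
          ENNReal.ofReal (Real.exp (y / 4) * ‖Bop n (phP 8 t G) y‖ ^ 2 * Hf y) :=
          lintegral_lintegral_swap hmm.aemeasurable
      _ = _ := by
          refine lintegral_congr fun y => ?_
          have h1 : ENNReal.ofReal (S y) =
              ∫⁻ t, ENNReal.ofReal (W t * ‖Bop n (phP 8 t G) y‖ ^ 2) :=
            ofReal_integral_eq_lintegral_ofReal (hi y)
              (Filter.Eventually.of_forall fun t => mul_nonneg (hW.nonneg t) (by positivity))
          rw [Pi.mul_apply, h1, ← lintegral_const_mul' _ _ ENNReal.ofReal_ne_top,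
            ← lintegral_mul_const' _ _ ENNReal.ofReal_ne_top]
          refine lintegral_congr fun t => ?_
          have h2 := hW.nonneg t
          have h3 := hH0 y
          rw [← ENNReal.ofReal_mul h2, ← ENNReal.ofReal_mul (by positivity),
            ← ENNReal.ofReal_mul (by positivity)]
          congr 1
          ring
  rw [e1]
  refine (ENNReal.lintegral_mul_le_Lp_mul_Lq volume conj_ST8 (by fun_prop) (by fun_prop)).trans ?_
  have e2 : (∫⁻ y, (ENNReal.ofReal (Real.exp (y / 4)) * ENNReal.ofReal (S y)) ^ (4 : ℝ)) ^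
      (1 / (4 : ℝ)) = eLpNorm S (ENNReal.ofReal 4) mu := by
    rw [eLpNorm_eq_lintegral_rpow_enorm_toReal (by simp) ENNReal.ofReal_ne_top,
      ENNReal.toReal_ofReal (by norm_num), lint_mu]
    congr 1
    refine lintegral_congr fun y => ?_
    rw [ENNReal.mul_rpow_of_nonneg _ _ (by norm_num),
      ENNReal.ofReal_rpow_of_nonneg (Real.exp_pos _).le (by norm_num), ← Real.exp_mul]
    congr 2
    · congr 1
      ring
    · rw [← ofReal_norm, Real.norm_eq_abs, abs_of_nonneg (hS0 y)]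
  have e3 : (1 / (4 / 3 : ℝ)) = 3 / 4 := by norm_num
  rw [e2, e3]
  gcongr

/-- the final algebra. -/
private theorem alg_ST8 (p C A N J : ℝ) (hp4 : 4 < p) (hp8 : p < 8) (hC : 0 < C) (hA : 1 ≤ A)
    (hN : 0 ≤ N) (hJ : 0 ≤ J)
    (h : J ^ 2 / C ^ 2 ≤ (Real.sqrt N * Real.sqrt J * J) ^ (1 - (2 - 8 / p)) *
      (A * N ^ (1 / 4 : ℝ) * J ^ (3 / 4 : ℝ) * J) ^ (2 - 8 / p)) :
    J ≤ (C * (1 + (2 - 8 / p) / 2 * (A - 1))) ^ p * N := by
  have hp : 0 < p := by linarith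
  have t1 : 0 < 1 - (2 - 8 / p) := by
    rw [show 1 - (2 - 8 / p) = (8 - p) / p by field_simp; ring]
    exact div_pos (by linarith) hp
  have t2 : 0 < 2 - 8 / p := by
    rw [show 2 - 8 / p = 2 * (p - 4) / p by field_simp; ring]
    exact div_pos (by linarith) hp
  have hA0 : 0 < A := by linarith
  have hfac : 0 ≤ C * (1 + (2 - 8 / p) / 2 * (A - 1)) := by
    have : 0 ≤ (2 - 8 / p) / 2 * (A - 1) := mul_nonneg (by linarith) (by linarith)
    positivity
  rcases hJ.eq_or_lt with hJ0 | hJ0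
  · rw [← hJ0]
    positivity
  have e1 : (Real.sqrt N * Real.sqrt J * J) ^ (1 - (2 - 8 / p)) *
      (A * N ^ (1 / 4 : ℝ) * J ^ (3 / 4 : ℝ) * J) ^ (2 - 8 / p) =
      A ^ (2 - 8 / p) * N ^ (2 / p) * J ^ (2 - 2 / p) := by
    rw [Real.mul_rpow (by positivity) hJ, Real.mul_rpow (by positivity)
      (by positivity), Real.mul_rpow (by positivity) hJ, Real.mul_rpow (by positivity) (by positivity),
      Real.mul_rpow hA0.le (by positivity), Real.sqrt_eq_rpow, Real.sqrt_eq_rpow,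
      ← Real.rpow_mul hN, ← Real.rpow_mul hJ, ← Real.rpow_mul hN, ← Real.rpow_mul hJ]
    have a1 : N ^ (2 / p) = N ^ (1 / 2 * (1 - (2 - 8 / p))) * N ^ (1 / 4 * (2 - 8 / p)) := by
      rw [← Real.rpow_add_of_nonneg hN (by positivity) (by positivity)]
      congr 1
      ring
    have a2 : J ^ (2 - 2 / p) = J ^ (1 / 2 * (1 - (2 - 8 / p))) * J ^ (1 - (2 - 8 / p)) *
        (J ^ (3 / 4 * (2 - 8 / p)) * J ^ (2 - 8 / p)) := by
      rw [← Real.rpow_add hJ0, ← Real.rpow_add hJ0, ← Real.rpow_add hJ0]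
      congr 1
      ring
    rw [a1, a2]
    ring
  rw [e1, div_le_iff₀ (by positivity)] at h
  have h2 : J ^ (2 / p) ≤ C ^ 2 * A ^ (2 - 8 / p) * N ^ (2 / p) := by
    have h3 : J ^ (2 : ℕ) = J ^ (2 / p) * J ^ (2 - 2 / p) := by
      rw [← Real.rpow_add hJ0, ← Real.rpow_natCast]
      congr 1
      push_cast
      ring
    rw [h3] at h
    have h4 : 0 < J ^ (2 - 2 / p) := Real.rpow_pos_of_pos hJ0 _
    by_contra hcon
    rw [not_le] at hcon
    have h5 := mul_lt_mul_of_pos_right hcon h4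
    linarith
  have h6 := Real.rpow_le_rpow (by positivity) h2 (by positivity : (0 : ℝ) ≤ p / 2)
  have e7 : 2 / p * (p / 2) = 1 := by field_simp
  rw [← Real.rpow_mul hJ, Real.mul_rpow (by positivity) (by positivity), ← Real.rpow_mul hN,
    e7, Real.rpow_one, Real.rpow_one] at h6
  refine h6.trans ?_
  apply mul_le_mul_of_nonneg_right _ hN
  have h7 : A ^ ((2 - 8 / p) / 2) ≤ 1 + (2 - 8 / p) / 2 * (A - 1) := by
    have h8 := _root_.rpow_one_add_le_one_add_mul_self (s := A - 1) (by linarith)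
      (p := (2 - 8 / p) / 2) (by linarith) (by linarith)
    have h9 : 1 + (A - 1) = A := by ring
    rw [h9] at h8
    exact h8
  have h10 : (C ^ 2 * A ^ (2 - 8 / p)) ^ (p / 2) = (C * A ^ ((2 - 8 / p) / 2)) ^ p := by
    have h11 : C ^ 2 * A ^ (2 - 8 / p) = (C * A ^ ((2 - 8 / p) / 2)) ^ (2 : ℝ) := by
      rw [Real.mul_rpow hC.le (by positivity), ← Real.rpow_mul hA0.le]
      congr 1
      · rw [Real.rpow_two]
      · congr 1
        ring
    rw [h11, ← Real.rpow_mul (by positivity)]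
    congr 1
    ring
  rw [h10]
  apply Real.rpow_le_rpow (by positivity) _ hp.le
  exact mul_le_mul_of_nonneg_left h7 hC.le

private theorem core_ST8 (h1 : StWE) (h2 : StT4g) (h3 : StV8) (h4 : StPZ8)
    (n : ℕ) (κ0 : ℝ) (K : ℝ → ℝ) (c : ℕ → ℝ → ℝ) (hn : 1 ≤ n) (hNode : Node n κ0 K c)
    (hK : κ0 ≤ K 8) (p : ℝ) (f : ℝ → ℂ) (hp4 : 4 < p) (hp8 : p < 8) (hf : Continuous f)
    (hfs : HasCompactSupport f) (χ : ℝ → ℝ) (hχ : Continuous χ) (hχs : HasCompactSupport χ)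
    (hχ0 : ∀ y, 0 ≤ χ y) (hχ1 : ∀ y, χ y ≤ 1) :
    ∫ y, χ y * ‖(Real.exp (y / p) : ℂ) * Bop n f y‖ ^ p ≤
      (Cn n (1 / p) * (1 + (2 - 8 / p) * (4 - (2 - 8 / p) ^ 2) / 6 *
        ((K 8 - κ0) / Cn n (1 / 8) ^ 2))) ^ p * ∫ y, ‖(Real.exp (y / p) : ℂ) * f y‖ ^ p := by
  have hp : 0 < p := by linarith
  have hθ := theta_ST8 n p f (by linarith) χ
  set F : ℝ → ℂ := fun y => (Real.exp (y / p) : ℂ) * f y with hFd
  set h : ℝ → ℂ := fun y => (Real.exp (y / p) : ℂ) * Bop n f y with hhd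
  have hexp : Continuous fun y : ℝ => (Real.exp (y / p) : ℂ) :=
    Complex.continuous_ofReal.comp (Real.continuous_exp.comp (by fun_prop))
  have hF : Continuous F := hexp.mul hf
  have hFs : HasCompactSupport F := hfs.mul_left
  have hh : Continuous h := hexp.mul (Bop_cont_ST8 n f hf hfs)
  have hsm : (fun y => χ y * ‖(Real.exp (y / p) : ℂ) * Bop n f y‖ ^ p) =
      fun y => χ y * ‖h y‖ ^ p := rfl
  have hsn : (fun y => ‖(Real.exp (y / p) : ℂ) * f y‖ ^ p) = fun y => ‖F y‖ ^ p := rfl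
  rw [hsm, hsn]
  rw [hsm] at hθ
  set N : ℝ := ∫ y, ‖F y‖ ^ p with hN
  set J : ℝ := ∫ y, χ y * ‖h y‖ ^ p with hJ
  have hN0 : 0 ≤ N := integral_nonneg fun y => by positivity
  have hJ0 : 0 ≤ J := integral_nonneg fun y => mul_nonneg (hχ0 y) (by positivity)
  have hJi : Integrable fun y => χ y * ‖h y‖ ^ p :=
    (hχ.mul (hh.norm.rpow_const fun _ => Or.inr hp.le)).integrable_of_hasCompactSupport
      hχs.mul_right
  set θ : ℝ := 2 - 8 / p with hθd
  have t0 : 0 < θ := by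
    rw [hθd, show 2 - 8 / p = 2 * (p - 4) / p by field_simp; ring]
    exact div_pos (by linarith) hp
  have t1 : θ < 1 := by
    have : 0 < 1 - (2 - 8 / p) := by
      rw [show 1 - (2 - 8 / p) = (8 - p) / p by field_simp; ring]
      exact div_pos (by linarith) hp
    linarith
  obtain ⟨hΦc, hΦd, CΦ, hΦb⟩ := h4 n p χ F h hp4 hp8 hχ hχs hF hFs hh
  obtain ⟨hW8, hW4, hm8, hi8, hi4⟩ := h1 n θ hn t0 t1
  -- the denominator
  have hm1 : ∀ z : ℂ, 0 ≤ z.re → z.re ≤ 1 → 1 ≤ ‖mm n (a8 z)‖ := fun z h0 h1 =>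
    hWA.1 n (a8 z) (by rw [a8_re_ST8]; linarith) (by rw [a8_re_ST8]; linarith)
  have hm0 : ∀ z : ℂ, 0 ≤ z.re → z.re ≤ 1 → mm n (a8 z) ≠ 0 := by
    intro z h0 h1 h2
    have := hm1 z h0 h1
    rw [h2, norm_zero] at this
    linarith
  set H : ℂ → ℂ := fun z => Phi8 n p χ F h z ^ 2 / mm n (a8 z) ^ 2 with hHd
  have hHc : ContinuousOn H {z : ℂ | 0 ≤ z.re ∧ z.re ≤ 1} :=
    (hΦc.pow 2).div ((mm_cont_ST8 n).pow 2) fun z hz => pow_ne_zero 2 (hm0 z hz.1 hz.2)
  have hHdf : DifferentiableOn ℂ H {z : ℂ | 0 < z.re ∧ z.re < 1} :=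
    (hΦd.pow 2).div ((mm_diff_ST8 n).pow 2) fun z hz => pow_ne_zero 2 (hm0 z hz.1.le hz.2.le)
  have hHb : ∀ z : ℂ, 0 ≤ z.re → z.re ≤ 1 → ‖H z‖ ≤ CΦ ^ 2 * (1 + |z.im|) ^ 4 := by
    intro z h0 h1
    have hHn : ‖H z‖ ≤ ‖Phi8 n p χ F h z‖ ^ 2 := by
      rw [hHd]
      simp only
      rw [norm_div, norm_pow, norm_pow]
      exact div_le_self (by positivity) (one_le_pow₀ (hm1 z h0 h1))
    refine hHn.trans ?_
    have h2 := hΦb z h0 h1
    have h3 : ‖Phi8 n p χ F h z‖ ^ 2 ≤ CΦ ^ 2 := pow_le_pow_left₀ (norm_nonneg _) h2 2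
    have h4 : 1 ≤ (1 + |z.im|) ^ 4 := one_le_pow₀ (by linarith [abs_nonneg z.im])
    calc ‖Phi8 n p χ F h z‖ ^ 2 ≤ CΦ ^ 2 * 1 := by linarith
      _ ≤ _ := mul_le_mul_of_nonneg_left h4 (sq_nonneg _)
  have hpo := poisson_mul4 θ t0 t1 H hHc hHdf (CΦ ^ 2) hHb
  obtain ⟨hP0c, hP1c, hP0p, hP1p, -, -, -⟩ := P_facts θ t0 t1
  -- left side
  have hleft : ‖H θ‖ₑ = ENNReal.ofReal (J ^ 2 / Cn n (1 / p) ^ 2) := by
    rw [← ofReal_norm]
    congr 1
    rw [hHd]
    simp only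
    rw [hθ, a8_theta_ST8 p hp, hPF.2.2.2 n (1 / p), norm_div, norm_pow, norm_pow,
      Complex.norm_real, Complex.norm_real, Real.norm_eq_abs, Real.norm_eq_abs, sq_abs, sq_abs]
  have hCpos' : ∀ a : ℝ, 0 < a → a < 1 → 0 < Cn n a := by
    intro a ha ha1
    unfold Cn
    refine Finset.prod_pos fun k _ => ?_
    have h3 : (0 : ℝ) ≤ k := Nat.cast_nonneg k
    exact div_pos (by linarith) (by linarith)
  have hCpos : 0 < Cn n (1 / p) := hCpos' _ (by positivity) (by rw [div_lt_one hp]; linarith)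
  have hC8 : 0 < Cn n (1 / 8) := hCpos' _ (by norm_num) (by norm_num)
  -- side 0
  have hG4 : Continuous fun y => pw ((p / 4 : ℝ) : ℂ) (F y) :=
    (hPZ.1 _ (by rw [Complex.ofReal_re]; positivity)).comp hF
  have hG4s : HasCompactSupport fun y => pw ((p / 4 : ℝ) : ℂ) (F y) := by
    refine hFs.mono fun y hy => ?_
    rw [Function.mem_support] at hy ⊢
    intro h0
    apply hy
    rw [h0, pw_zero_ST8]
  have hG8 : Continuous fun y => pw ((p / 8 : ℝ) : ℂ) (F y) :=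
    (hPZ.1 _ (by rw [Complex.ofReal_re]; positivity)).comp hF
  have hG8s : HasCompactSupport fun y => pw ((p / 8 : ℝ) : ℂ) (F y) := by
    refine hFs.mono fun y hy => ?_
    rw [Function.mem_support] at hy ⊢
    intro h0
    apply hy
    rw [h0, pw_zero_ST8]
  have hH0c : Continuous fun y => χ y * ‖h y‖ ^ (p / 2) :=
    hχ.mul (hh.norm.rpow_const fun _ => Or.inr (by positivity))
  have hH1c : Continuous fun y => χ y * ‖h y‖ ^ (3 * p / 4) :=
    hχ.mul (hh.norm.rpow_const fun _ => Or.inr (by positivity))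
  obtain ⟨hTi, hTb⟩ := h2 n (W4 n θ) _ _ hn hW4 hG4 hG4s hH0c (hχs.mul_right)
  rw [hi4] at hTb
  have hN4 : ∫ y, ‖pw ((p / 4 : ℝ) : ℂ) (F y)‖ ^ 4 = N := by
    rw [hN]
    congr 1
    funext y
    rw [pw_norm_ST8 _ _ (by rw [Complex.ofReal_re]; positivity), Complex.ofReal_re,
      re_mul_exp_ST8 _ _ (norm_nonneg _)]
    congr 1
    push_cast
    ring
  have hN8 : ∫ y, ‖pw ((p / 8 : ℝ) : ℂ) (F y)‖ ^ 8 = N := by
    rw [hN]
    congr 1
    funext y
    rw [pw_norm_ST8 _ _ (by rw [Complex.ofReal_re]; positivity), Complex.ofReal_re,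
      re_mul_exp_ST8 _ _ (norm_nonneg _)]
    congr 1
    push_cast
    ring
  have hH2 : ∫ y, (χ y * ‖h y‖ ^ (p / 2)) ^ 2 ≤ J := by
    rw [hJ]
    refine integral_mono_of_nonneg (Filter.Eventually.of_forall fun y => by positivity) hJi
      (Filter.Eventually.of_forall fun y => ?_)
    simp only
    rw [mul_pow, re_mul_exp_ST8 _ _ (norm_nonneg _)]
    have e : p / 2 * ((2 : ℕ) : ℝ) = p := by
      push_cast
      ring
    rw [e]
    have e3 : χ y ^ 2 ≤ χ y := by nlinarith [hχ0 y, hχ1 y]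
    gcongr
  set V0 : ℝ → ℝ := fun t => ∫ y, Real.exp (y / 2) *
    ‖Bop n (ph t (fun y => pw ((p / 4 : ℝ) : ℂ) (F y))) y‖ ^ 2 * (χ y * ‖h y‖ ^ (p / 2)) with hV0d
  have hV0 : ∀ t, 0 ≤ V0 t := fun t => integral_nonneg fun y =>
    mul_nonneg (by positivity) (mul_nonneg (hχ0 y) (by positivity))
  have hs0 : ∀ τ : ℝ, ‖Phi8 n p χ F h (Complex.I * τ)‖ ^ 2 ≤ V0 (τ / 2) * J := by
    intro τ
    have e := side_ST8 n p F h hp hF hFs χ hχ hχs hχ0 hh (Complex.I * τ) 0 (by simp) le_rfl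
      zero_le_one
    rw [f8_zero_ST8 p hp F τ] at e
    refine e.trans (le_of_eq ?_)
    rw [hV0d, hJ]
    simp only
    congr 2
    funext y
    rw [show (1 / 2 - (0 : ℝ) / 4) * y = y / 2 by ring,
      show p * (1 / 2 + (0 : ℝ) / 4) = p / 2 by ring]
  have hS0 : (ENNReal.ofReal (1 - θ))⁻¹ * ∫⁻ τ : ℝ, ENNReal.ofReal (P0 θ τ) *
      ‖H (Complex.I * τ)‖ₑ ≤ ENNReal.ofReal (Real.sqrt N * Real.sqrt J * J) := by
    have h1 : ∫⁻ τ : ℝ, ENNReal.ofReal (P0 θ τ) * ‖H (Complex.I * τ)‖ₑ ≤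
        ENNReal.ofReal (1 - θ) * ENNReal.ofReal (Real.sqrt N * Real.sqrt J * J) := by
      have hgi : Integrable fun τ : ℝ => (W4 n θ (τ / 2) * V0 (τ / 2)) * (J / 2) :=
        (hTi.comp_div (two_ne_zero)).mul_const _
      calc ∫⁻ τ : ℝ, ENNReal.ofReal (P0 θ τ) * ‖H (Complex.I * τ)‖ₑ
          ≤ ∫⁻ τ : ℝ, ENNReal.ofReal ((W4 n θ (τ / 2) * V0 (τ / 2)) * (J / 2)) := by
            refine lintegral_mono fun τ => ?_
            rw [← ofReal_norm, ← ENNReal.ofReal_mul (hP0p τ).le]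
            apply ENNReal.ofReal_le_ofReal
            have e1 : a8 (Complex.I * τ) = 1 / 4 - Complex.I * ((τ / 2 : ℝ) : ℂ) / 4 := by
              unfold a8
              push_cast
              ring
            have e2 := hs0 τ
            rw [hHd]
            simp only
            rw [norm_div, norm_pow, norm_pow, e1]
            unfold W4
            rw [show 2 * (τ / 2) = τ by ring]
            calc P0 θ τ * (‖Phi8 n p χ F h (Complex.I * τ)‖ ^ 2 /
                  ‖mm n (1 / 4 - Complex.I * ((τ / 2 : ℝ) : ℂ) / 4)‖ ^ 2)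
                ≤ P0 θ τ * ((V0 (τ / 2) * J) /
                  ‖mm n (1 / 4 - Complex.I * ((τ / 2 : ℝ) : ℂ) / 4)‖ ^ 2) := by
                  refine mul_le_mul_of_nonneg_left ?_ (hP0p τ).le
                  gcongr
              _ = _ := by ring
        _ = ENNReal.ofReal ((∫ t, W4 n θ t * V0 t) * J) := by
            rw [← ofReal_integral_eq_lintegral_ofReal hgi
              (Filter.Eventually.of_forall fun τ =>
                mul_nonneg (mul_nonneg (hW4.nonneg _) (hV0 _)) (by positivity))]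
            congr 1
            rw [integral_mul_const, Measure.integral_comp_div (fun t => W4 n θ t * V0 t) 2]
            rw [abs_of_pos (by norm_num : (0 : ℝ) < 2), smul_eq_mul]
            ring
        _ ≤ ENNReal.ofReal ((1 - θ) * (Real.sqrt N * Real.sqrt J * J)) := by
            apply ENNReal.ofReal_le_ofReal
            rw [hN4] at hTb
            have h3 : ∫ t, W4 n θ t * V0 t ≤ (1 - θ) * Real.sqrt N * Real.sqrt J :=
              hTb.trans (mul_le_mul_of_nonneg_left (Real.sqrt_le_sqrt hH2)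
                (mul_nonneg (by linarith) (Real.sqrt_nonneg _)))
            calc (∫ t, W4 n θ t * V0 t) * J ≤ ((1 - θ) * Real.sqrt N * Real.sqrt J) * J :=
                  mul_le_mul_of_nonneg_right h3 hJ0
              _ = _ := by ring
        _ = _ := by rw [ENNReal.ofReal_mul (by linarith)]
    calc _ ≤ (ENNReal.ofReal (1 - θ))⁻¹ * (ENNReal.ofReal (1 - θ) *
          ENNReal.ofReal (Real.sqrt N * Real.sqrt J * J)) := by
          gcongr
      _ = _ := by
          rw [← mul_assoc, ENNReal.inv_mul_cancel (by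
            rw [ne_eq, ENNReal.ofReal_eq_zero, not_le]
            linarith) ENNReal.ofReal_ne_top, one_mul]
  -- side 1
  set A : ℝ := 1 + (4 - θ ^ 2) / 3 * ((K 8 - κ0) / Cn n (1 / 8) ^ 2) with hAd
  have hℓ : 0 ≤ (K 8 - κ0) / Cn n (1 / 8) ^ 2 := div_nonneg (by linarith) (by positivity)
  have hθ2 : 0 ≤ 4 - θ ^ 2 := by nlinarith
  have hA1 : 1 ≤ A := by
    have : 0 ≤ (4 - θ ^ 2) / 3 * ((K 8 - κ0) / Cn n (1 / 8) ^ 2) := by positivity
    linarith
  set V1 : ℝ → ℝ := fun t => ∫ y, Real.exp (y / 4) *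
    ‖Bop n (phP 8 t (fun y => pw ((p / 8 : ℝ) : ℂ) (F y))) y‖ ^ 2 *
      (χ y * ‖h y‖ ^ (3 * p / 4)) with hV1d
  have hV1 : ∀ t, 0 ≤ V1 t := fun t => integral_nonneg fun y =>
    mul_nonneg (by positivity) (mul_nonneg (hχ0 y) (by positivity))
  have hs1 : ∀ τ : ℝ, ‖Phi8 n p χ F h (1 + Complex.I * τ)‖ ^ 2 ≤ V1 τ * J := by
    intro τ
    have e := side_ST8 n p F h hp hF hFs χ hχ hχs hχ0 hh (1 + Complex.I * τ) 1 (by simp)
      zero_le_one le_rfl
    rw [f8_one_ST8 p hp F τ] at e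
    refine e.trans (le_of_eq ?_)
    rw [hV1d, hJ]
    simp only
    congr 2
    funext y
    rw [show (1 / 2 - (1 : ℝ) / 4) * y = y / 4 by ring,
      show p * (1 / 2 + (1 : ℝ) / 4) = 3 * p / 4 by ring]
  have hV1l : ∀ τ : ℝ, ENNReal.ofReal (V1 τ) = ∫⁻ y, ENNReal.ofReal (Real.exp (y / 4) *
      ‖Bop n (phP 8 τ (fun y => pw ((p / 8 : ℝ) : ℂ) (F y))) y‖ ^ 2 *
        (χ y * ‖h y‖ ^ (3 * p / 4))) := by
    intro τ
    rw [hV1d]
    simp only
    refine ofReal_integral_eq_lintegral_ofReal ?_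
      (Filter.Eventually.of_forall fun y =>
        mul_nonneg (by positivity) (mul_nonneg (hχ0 y) (by positivity)))
    have hc : Continuous (Bop n (phP 8 τ (fun y => pw ((p / 8 : ℝ) : ℂ) (F y)))) := by
      rw [← f8_one_ST8 p hp F τ]
      exact Bop_cont_ST8 n _ (f8_cont_ST8 p hp F hF _ (by simp)) (f8_supp_ST8 p F hFs _)
    have hca : Continuous fun y => Real.exp (y / 4) *
        ‖Bop n (phP 8 τ (fun y => pw ((p / 8 : ℝ) : ℂ) (F y))) y‖ ^ 2 *
          (χ y * ‖h y‖ ^ (3 * p / 4)) :=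
      ((Real.continuous_exp.comp (by fun_prop)).mul (hc.norm.pow 2)).mul hH1c
    exact hca.integrable_of_hasCompactSupport (hχs.mul_right.mul_left)
  have havg := avg8_ST8 h3 n κ0 K c (W8 n θ) _ (fun y => χ y * ‖h y‖ ^ (3 * p / 4)) hn hNode hK
    hW8 hG8 hG8s hH1c (fun y => mul_nonneg (hχ0 y) (by positivity))
  rw [hi8, hN8] at havg
  have hH43 : (∫⁻ y, ENNReal.ofReal (χ y * ‖h y‖ ^ (3 * p / 4)) ^ (4 / 3 : ℝ)) ^ (3 / 4 : ℝ) ≤
      ENNReal.ofReal (J ^ (3 / 4 : ℝ)) := by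
    rw [← ENNReal.ofReal_rpow_of_nonneg hJ0 (by norm_num)]
    refine ENNReal.rpow_le_rpow ?_ (by norm_num)
    rw [hJ, ofReal_integral_eq_lintegral_ofReal hJi
      (Filter.Eventually.of_forall fun y => mul_nonneg (hχ0 y) (by positivity))]
    refine lintegral_mono fun y => ?_
    have hb : 0 ≤ χ y * ‖h y‖ ^ (3 * p / 4) := mul_nonneg (hχ0 y) (by positivity)
    rw [ENNReal.ofReal_rpow_of_nonneg hb (by norm_num)]
    apply ENNReal.ofReal_le_ofReal
    rw [Real.mul_rpow (hχ0 y) (by positivity), ← Real.rpow_mul (norm_nonneg _),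
      show 3 * p / 4 * (4 / 3) = p by ring]
    apply mul_le_mul_of_nonneg_right _ (by positivity)
    have h5 : χ y ^ (4 / 3 : ℝ) ≤ χ y ^ (1 : ℝ) :=
      Real.rpow_le_rpow_of_exponent_ge' (hχ0 y) (hχ1 y) (by norm_num) (by norm_num)
    rwa [Real.rpow_one] at h5
  have hMle : θ + (K 8 - κ0) * ∫ t, W8 n θ t ≤ θ * A := by
    have h5 : (K 8 - κ0) * ∫ t, W8 n θ t ≤ (K 8 - κ0) * (θ * (4 - θ ^ 2) / 3 / Cn n (1 / 8) ^ 2) :=
      mul_le_mul_of_nonneg_left hm8 (by linarith)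
    have h6 : θ * A = θ + (K 8 - κ0) * (θ * (4 - θ ^ 2) / 3 / Cn n (1 / 8) ^ 2) := by
      rw [hAd]
      ring
    linarith
  have hS1 : (ENNReal.ofReal θ)⁻¹ * ∫⁻ τ : ℝ, ENNReal.ofReal (P1 θ τ) *
      ‖H (1 + Complex.I * τ)‖ₑ ≤
      ENNReal.ofReal (A * N ^ (1 / 4 : ℝ) * J ^ (3 / 4 : ℝ) * J) := by
    have h1 : ∫⁻ τ : ℝ, ENNReal.ofReal (P1 θ τ) * ‖H (1 + Complex.I * τ)‖ₑ ≤
        ENNReal.ofReal θ * ENNReal.ofReal (A * N ^ (1 / 4 : ℝ) * J ^ (3 / 4 : ℝ) * J) := by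
      calc ∫⁻ τ : ℝ, ENNReal.ofReal (P1 θ τ) * ‖H (1 + Complex.I * τ)‖ₑ
          ≤ ∫⁻ τ : ℝ, (ENNReal.ofReal (W8 n θ τ) * ∫⁻ y, ENNReal.ofReal (Real.exp (y / 4) *
              ‖Bop n (phP 8 τ (fun y => pw ((p / 8 : ℝ) : ℂ) (F y))) y‖ ^ 2 *
                (χ y * ‖h y‖ ^ (3 * p / 4)))) * ENNReal.ofReal J := by
            refine lintegral_mono fun τ => ?_
            rw [← hV1l τ, ← ofReal_norm, ← ENNReal.ofReal_mul (hP1p τ).le,
              ← ENNReal.ofReal_mul (hW8.nonneg τ),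
              ← ENNReal.ofReal_mul (mul_nonneg (hW8.nonneg τ) (hV1 τ))]
            apply ENNReal.ofReal_le_ofReal
            have e1 : a8 (1 + Complex.I * τ) = 1 / 8 - Complex.I * τ / 8 := by
              unfold a8
              ring
            have e2 := hs1 τ
            rw [hHd]
            simp only
            rw [norm_div, norm_pow, norm_pow, e1]
            unfold W8
            calc P1 θ τ * (‖Phi8 n p χ F h (1 + Complex.I * τ)‖ ^ 2 /
                  ‖mm n (1 / 8 - Complex.I * τ / 8)‖ ^ 2)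
                ≤ P1 θ τ * ((V1 τ * J) / ‖mm n (1 / 8 - Complex.I * τ / 8)‖ ^ 2) := by
                  refine mul_le_mul_of_nonneg_left ?_ (hP1p τ).le
                  gcongr
              _ = _ := by ring
        _ = (∫⁻ τ : ℝ, (ENNReal.ofReal (W8 n θ τ) * ∫⁻ y, ENNReal.ofReal (Real.exp (y / 4) *
              ‖Bop n (phP 8 τ (fun y => pw ((p / 8 : ℝ) : ℂ) (F y))) y‖ ^ 2 *
                (χ y * ‖h y‖ ^ (3 * p / 4))))) * ENNReal.ofReal J := by
            rw [lintegral_mul_const' _ _ ENNReal.ofReal_ne_top]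
        _ ≤ (ENNReal.ofReal (θ * A) * ENNReal.ofReal (N ^ (1 / 4 : ℝ)) *
              ENNReal.ofReal (J ^ (3 / 4 : ℝ))) * ENNReal.ofReal J := by
            refine mul_le_mul_left (havg.trans ?_) _
            rw [← ENNReal.ofReal_rpow_of_nonneg hN0 (by norm_num)]
            gcongr
        _ = _ := by
            rw [← ENNReal.ofReal_mul (by positivity), ← ENNReal.ofReal_mul (by positivity),
              ← ENNReal.ofReal_mul (by positivity), ← ENNReal.ofReal_mul t0.le]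
            congr 1
            ring
    calc _ ≤ (ENNReal.ofReal θ)⁻¹ * (ENNReal.ofReal θ *
          ENNReal.ofReal (A * N ^ (1 / 4 : ℝ) * J ^ (3 / 4 : ℝ) * J)) := by
          gcongr
      _ = _ := by
          rw [← mul_assoc, ENNReal.inv_mul_cancel (by
            rw [ne_eq, ENNReal.ofReal_eq_zero, not_le]
            linarith) ENNReal.ofReal_ne_top, one_mul]
  have h1θ : 0 ≤ 1 - θ := by linarith
  have hfin : ENNReal.ofReal (J ^ 2 / Cn n (1 / p) ^ 2) ≤
      ENNReal.ofReal ((Real.sqrt N * Real.sqrt J * J) ^ (1 - θ) *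
        (A * N ^ (1 / 4 : ℝ) * J ^ (3 / 4 : ℝ) * J) ^ θ) := by
    rw [← hleft, ENNReal.ofReal_mul (by positivity),
      ← ENNReal.ofReal_rpow_of_nonneg (by positivity) h1θ,
      ← ENNReal.ofReal_rpow_of_nonneg (by positivity) t0.le]
    refine hpo.trans ?_
    gcongr
  have hal := alg_ST8 p _ A N J hp4 hp8 hCpos hA1 hN0 hJ0
    ((ENNReal.ofReal_le_ofReal_iff (by positivity)).1 hfin)
  have e9 : 1 + (2 - 8 / p) / 2 * (A - 1) = 1 + θ * (4 - θ ^ 2) / 6 *
      ((K 8 - κ0) / Cn n (1 / 8) ^ 2) := by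
    rw [hAd, hθd]
    ring
  rw [e9] at hal
  exact hal

private def chi_ST8 (k : ℕ) (y : ℝ) : ℝ := max 0 (min 1 ((k : ℝ) + 1 - |y|))

private theorem chi_supp_ST8 (k : ℕ) : HasCompactSupport (chi_ST8 k) := by
  refine HasCompactSupport.of_support_subset_isCompact
    (isCompact_Icc : IsCompact (Icc (-((k : ℝ) + 1)) ((k : ℝ) + 1))) fun y hy => ?_
  rw [Function.mem_support] at hy
  by_contra h
  apply hy
  have h1 : (k : ℝ) + 1 < |y| := by
    rw [mem_Icc, ← abs_le] at h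
    exact not_le.1 h
  unfold chi_ST8
  exact max_eq_left ((min_le_right _ _).trans (by linarith))

theorem hST8 (h1 : StWE) (h2 : StT4g) (h3 : StV8) (h4 : StPZ8) : StST8 := by
  intro n κ0 K c hn hNode hK p hp4 hp8 f hf hfs
  have hp : 0 < p := by linarith
  have hBc := Bop_cont_ST8 n f hf hfs
  have hpow : ∀ (b : ℂ) (y : ℝ), ‖(Real.exp (y / p) : ℂ) * b‖ ^ p = ‖b‖ ^ p * Real.exp y := by
    intro b y
    rw [norm_mul, Complex.norm_real, Real.norm_eq_abs, abs_of_pos (Real.exp_pos _),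
      Real.mul_rpow (Real.exp_pos _).le (norm_nonneg _), ← Real.exp_mul, div_mul_cancel₀ _ hp.ne']
    ring
  have hCpos' : ∀ a : ℝ, 0 < a → a < 1 → 0 < Cn n a := by
    intro a ha ha1
    unfold Cn
    refine Finset.prod_pos fun k _ => ?_
    have h3 : (0 : ℝ) ≤ k := Nat.cast_nonneg k
    exact div_pos (by linarith) (by linarith)
  have hCpos : 0 < Cn n (1 / p) := hCpos' _ (by positivity) (by rw [div_lt_one hp]; linarith)
  have hC8 : 0 < Cn n (1 / 8) := hCpos' _ (by norm_num) (by norm_num)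
  set Q : ℝ := 1 + (2 - 8 / p) * (4 - (2 - 8 / p) ^ 2) / 6 * ((K 8 - κ0) / Cn n (1 / 8) ^ 2)
    with hQd
  have hQ0 : 0 ≤ Q := by
    have t0 : 0 < 2 - 8 / p := by
      rw [show 2 - 8 / p = 2 * (p - 4) / p by field_simp; ring]
      exact div_pos (by linarith) hp
    have t1 : 2 - 8 / p < 1 := by
      have : 0 < 1 - (2 - 8 / p) := by
        rw [show 1 - (2 - 8 / p) = (8 - p) / p by field_simp; ring]
        exact div_pos (by linarith) hp
      linarith
    have t2 : 0 ≤ 4 - (2 - 8 / p) ^ 2 := by nlinarith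
    have hℓ : 0 ≤ (K 8 - κ0) / Cn n (1 / 8) ^ 2 := div_nonneg (by linarith) (by positivity)
    positivity
  have hfc : Continuous fun y => ‖f y‖ ^ p * Real.exp y :=
    (hf.norm.rpow_const fun _ => Or.inr hp.le).mul Real.continuous_exp
  have hfs2 : HasCompactSupport fun y => ‖f y‖ ^ p * Real.exp y := by
    refine hfs.mono fun y hy => ?_
    rw [Function.mem_support] at hy ⊢
    intro h0
    apply hy
    rw [h0, norm_zero, Real.zero_rpow hp.ne', zero_mul]
  have hfi : Integrable fun y => ‖f y‖ ^ p * Real.exp y := hfc.integrable_of_hasCompactSupport hfs2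
  have hBc2 : Continuous fun y => ‖Bop n f y‖ ^ p * Real.exp y :=
    (hBc.norm.rpow_const fun _ => Or.inr hp.le).mul Real.continuous_exp
  have hχc : ∀ k, Continuous (chi_ST8 k) := fun k => by
    unfold chi_ST8
    fun_prop
  have hχ0 : ∀ k y, 0 ≤ chi_ST8 k y := fun k y => le_max_left _ _
  have hχ1 : ∀ k y, chi_ST8 k y ≤ 1 := fun k y =>
    max_le zero_le_one (min_le_left _ _)
  have hcore : ∀ k : ℕ, ∫⁻ y, ENNReal.ofReal (chi_ST8 k y * (‖Bop n f y‖ ^ p * Real.exp y)) ≤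
      ENNReal.ofReal ((Cn n (1 / p) * Q) ^ p) *
        ∫⁻ y, ENNReal.ofReal (‖f y‖ ^ p * Real.exp y) := by
    intro k
    have h1 := core_ST8 h1 h2 h3 h4 n κ0 K c hn hNode hK p f hp4 hp8 hf hfs (chi_ST8 k) (hχc k)
      (chi_supp_ST8 k) (hχ0 k) (hχ1 k)
    rw [← hQd] at h1
    simp only [hpow] at h1
    have hi : Integrable fun y => chi_ST8 k y * (‖Bop n f y‖ ^ p * Real.exp y) :=
      ((hχc k).mul hBc2).integrable_of_hasCompactSupport (chi_supp_ST8 k).mul_right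
    rw [← ofReal_integral_eq_lintegral_ofReal hfi
        (Filter.Eventually.of_forall fun y => by positivity),
      ← ofReal_integral_eq_lintegral_ofReal hi
        (Filter.Eventually.of_forall fun y => mul_nonneg (hχ0 k y) (by positivity)),
      ← ENNReal.ofReal_mul (by positivity)]
    exact ENNReal.ofReal_le_ofReal h1
  have hmono : Monotone fun (k : ℕ) (y : ℝ) =>
      ENNReal.ofReal (chi_ST8 k y * (‖Bop n f y‖ ^ p * Real.exp y)) := by
    intro k l hkl y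
    apply ENNReal.ofReal_le_ofReal
    refine mul_le_mul_of_nonneg_right ?_ (by positivity)
    unfold chi_ST8
    have : (k : ℝ) ≤ l := by exact_mod_cast hkl
    gcongr
  have hmain : ∫⁻ y, ENNReal.ofReal (‖Bop n f y‖ ^ p * Real.exp y) ≤
      ENNReal.ofReal ((Cn n (1 / p) * Q) ^ p) *
        ∫⁻ y, ENNReal.ofReal (‖f y‖ ^ p * Real.exp y) := by
    calc ∫⁻ y, ENNReal.ofReal (‖Bop n f y‖ ^ p * Real.exp y)
        ≤ ∫⁻ y, ⨆ k : ℕ, ENNReal.ofReal (chi_ST8 k y * (‖Bop n f y‖ ^ p * Real.exp y)) := by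
          refine lintegral_mono fun y => ?_
          obtain ⟨k, hk⟩ := exists_nat_ge |y|
          refine le_trans (le_of_eq ?_) (le_iSup _ k)
          have : chi_ST8 k y = 1 := by
            unfold chi_ST8
            rw [min_eq_left (by linarith), max_eq_right zero_le_one]
          rw [this, one_mul]
      _ = ⨆ k : ℕ, ∫⁻ y, ENNReal.ofReal (chi_ST8 k y * (‖Bop n f y‖ ^ p * Real.exp y)) :=
          lintegral_iSup (fun k => ((hχc k).mul hBc2).measurable.ennreal_ofReal) hmono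
      _ ≤ _ := iSup_le hcore
  have hNm : ∀ v : ℝ → ℂ, Nm p v = (∫⁻ y, ENNReal.ofReal (‖v y‖ ^ p * Real.exp y)) ^ (1 / p) := by
    intro v
    rw [Nm_eq hp, lint_mu]
    congr 1
    refine lintegral_congr fun y => ?_
    rw [ENNReal.ofReal_mul (by positivity), ← ENNReal.ofReal_rpow_of_nonneg (norm_nonneg _) hp.le,
      ofReal_norm, mul_comm]
  rw [hNm, hNm]
  have h9 := ENNReal.rpow_le_rpow hmain (by positivity : (0 : ℝ) ≤ 1 / p)
  rw [ENNReal.mul_rpow_of_nonneg _ _ (by positivity),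
    ENNReal.ofReal_rpow_of_nonneg (by positivity) (by positivity), ← Real.rpow_mul (by positivity),
    mul_one_div_cancel hp.ne', Real.rpow_one, mul_comm (Cn n (1 / p)) Q] at h9
  exact h9

end Helper69.CS
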