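import Pool.Agent.Helper69.CS.St
import Pool.Agent.Helper69.CR.M_T4

/-!
# MP_3dd6d4_an, project CS, module T4g: the `L⁴` square function estimate for a general weight
-/

set_option autoImplicit false

noncomputable section

namespace Helper69.CS

open MeasureTheory Set Filter Topology
open Helper85.BP Helper69.CR

theorem hT4g (hA3 : StA3) (hKP : StKP) (hAV : StAV) (hKD : StKD) (hTS : StTS) (hSC : StSC) :
    StT4g := by
  intro n W G H hn hW hG hGc hH hHc
  obtain ⟨hw0, hA, hp, hwc, -, ⟨Cw, hCw⟩, -⟩ := P.Wh_ptw 1 one_pos W hW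
  obtain ⟨ν, hν⟩ := hA3 n hn
  obtain ⟨⟨c, hc0, hc1, hkap⟩, -⟩ := hKP n hn
  obtain ⟨hint, heq⟩ := hAV n W G H hW hG hGc hH hHc
  refine ⟨hint, ?_⟩
  rw [heq]
  obtain ⟨hSCi, hSCe⟩ := (hSC n hn).2 W hW
  -- the kernel `κ`
  set κ : ℝ → ℝ := fun d => kap n (Real.exp (-d)) with hκ
  have hκc : Continuous κ := by
    have : κ = fun d => ∑ i ∈ Finset.range n, c i * Real.exp (-d) ^ i := by
      funext d; exact hkap _
    rw [this]
    fun_prop
  have hκ0 : ∀ d, c 0 ≤ κ d := by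
    intro d
    simp only [hκ]
    rw [hkap]
    have h2 := Finset.single_le_sum (f := fun i => c i * Real.exp (-d) ^ i)
      (fun i _ => mul_nonneg (hc0 i) (pow_nonneg (Real.exp_pos _).le _))
      (Finset.mem_range.2 (by omega : 0 < n))
    simpa using h2
  have hκpos : ∀ d, 0 < κ d := fun d => hc1.trans_le (hκ0 d)
  have hκanti : ∀ d e, d ≤ e → κ e ≤ κ d := by
    intro d e hde
    simp only [hκ]
    rw [hkap, hkap]
    refine Finset.sum_le_sum fun i _ => mul_le_mul_of_nonneg_left ?_ (hc0 i)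
    exact pow_le_pow_left₀ (Real.exp_pos _).le (Real.exp_le_exp.2 (by linarith)) i
  -- the weight `ρ`
  set ρ : ℝ → ℝ := fun d => Real.exp (3 * d / 4) * Wh 1 W (d / 4) / κ d with hρ
  have hρ0 : ∀ d, 0 ≤ ρ d := fun d =>
    div_nonneg (mul_nonneg (Real.exp_pos _).le (hw0 _)) (hκpos d).le
  have hρc : Continuous ρ := by
    refine Continuous.div ?_ hκc fun d => (hκpos d).ne'
    fun_prop
  have hρm : Monotone ρ := by
    intro d e hde
    have e1 : ∀ d : ℝ, Real.exp (3 * d / 4) * Wh 1 W (d / 4) =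
        Real.exp (d / 2) * (Real.exp (d / 4) * Wh 1 W (d / 4)) := by
      intro d
      rw [← mul_assoc, ← Real.exp_add]
      congr 2
      ring
    have h2 : Real.exp (3 * d / 4) * Wh 1 W (d / 4) ≤ Real.exp (3 * e / 4) * Wh 1 W (e / 4) := by
      rw [e1, e1]
      exact mul_le_mul (Real.exp_le_exp.2 (by linarith)) (Wh_mono_T4 hW (by linarith))
        (mul_nonneg (Real.exp_pos _).le (hw0 _)) (Real.exp_pos _).le
    exact div_le_div₀ (mul_nonneg (Real.exp_pos _).le (hw0 _)) h2 (hκpos e) (hκanti d e hde)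
  have hρe : ∀ d, ρ d * Real.exp (-d) = Real.exp (-d / 4) * Wh 1 W (d / 4) / κ d := by
    intro d
    simp only [hρ]
    rw [div_mul_eq_mul_div]
    congr 1
    rw [mul_right_comm, ← Real.exp_add]
    congr 2
    ring
  have hρi : IntegrableOn (fun d => ρ d * Real.exp (-d)) (Ioi 0) := by
    have h2 : IntegrableOn (fun d : ℝ => Cw / c 0 * Real.exp (-(1 / 4) * d)) (Ioi 0) :=
      (integrableOn_exp_mul_Ioi (by norm_num) 0).const_mul _
    refine h2.mono' (by fun_prop) (Eventually.of_forall fun d => ?_)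
    rw [Real.norm_eq_abs, abs_of_nonneg (mul_nonneg (hρ0 d) (Real.exp_pos _).le), hρe]
    rw [show -d / 4 = -(1 / 4) * d by ring, mul_div_assoc, mul_comm]
    refine mul_le_mul_of_nonneg_right ?_ (Real.exp_pos _).le
    exact div_le_div₀ ((hw0 0).trans (hCw 0)) (hCw _) hc1 (hκ0 d)
  obtain ⟨hTc, hTi, hTle⟩ := hTS n ν ρ H hn hν (fun d _ => hρ0 d) (hρm.monotoneOn _) hρi hH hHc
  -- notations
  set X : ℝ → ℝ := fun d => ∫ y, Tst n d H y ^ 2 with hX
  set g4 : ℝ := Real.sqrt (∫ y, ‖G y‖ ^ 4) with hg4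
  set h2 : ℝ := Real.sqrt (∫ y, H y ^ 2) with hh2
  have hX0 : ∀ d, 0 ≤ X d := fun d => integral_nonneg fun y => sq_nonneg _
  set A : ℝ → ℝ := fun d => Real.exp (-d / 4) * Wh 1 W (d / 4) * κ d with hAdef
  have hA0 : ∀ d, 0 ≤ A d := fun d =>
    mul_nonneg (mul_nonneg (Real.exp_pos _).le (hw0 _)) (hκpos d).le
  set Bf : ℝ → ℝ := fun d => ρ d * Real.exp (-d) * X d with hBdef
  have hB0 : ∀ d, 0 ≤ Bf d := fun d =>
    mul_nonneg (mul_nonneg (hρ0 d) (Real.exp_pos _).le) (hX0 d)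
  have hG4i : Integrable (fun y => ‖G y‖ ^ 4) := by
    refine Continuous.integrable_of_hasCompactSupport (by fun_prop) ?_
    exact hGc.norm.comp_left (g := fun x : ℝ => x ^ 4) (by norm_num)
  have hH2i : Integrable (fun y => H y ^ 2) := by
    refine Continuous.integrable_of_hasCompactSupport (by fun_prop) ?_
    exact hHc.comp_left (g := fun x : ℝ => x ^ 2) (by norm_num)
  -- first term
  have t1 : ∫ y, ‖G y‖ ^ 2 * H y ≤ g4 * h2 := by
    have e1 : (fun y => ‖G y‖ ^ 4) = fun y => (‖G y‖ ^ 2) ^ 2 := by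
      funext y; ring
    have h3 := (cs_T4 (μ := volume) (u := fun y => ‖G y‖ ^ 2) (v := H)
      (by fun_prop) hH.aestronglyMeasurable (by rw [← e1]; exact hG4i) hH2i).2
    rw [hg4, e1]
    exact (le_abs_self _).trans h3
  -- pointwise in `d`
  have t2 : ∀ d, 0 < d → Real.exp (-d / 4) * ∫ y, kd W G d y * Tst n d H y ≤
      g4 * (Real.sqrt (A d) * Real.sqrt (Bf d)) := by
    intro d hd
    obtain ⟨k1, k2, k3⟩ := hKD W G d hW hG hGc
    obtain ⟨c1, c2⟩ := hTc d hd.le
    have h3 := (cs_T4 k2 c1.aestronglyMeasurable k1 c2).2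
    have h4 : Real.sqrt (∫ y, kd W G d y ^ 2) ≤ Wh 1 W (d / 4) * g4 := by
      calc Real.sqrt (∫ y, kd W G d y ^ 2)
          ≤ Real.sqrt (Wh 1 W (d / 4) ^ 2 * ∫ y, ‖G y‖ ^ 4) := Real.sqrt_le_sqrt k3
        _ = Wh 1 W (d / 4) * g4 := by rw [Real.sqrt_mul (sq_nonneg _), Real.sqrt_sq (hw0 _)]
    have h5 : Real.sqrt (A d) * Real.sqrt (Bf d) =
        Real.exp (-d / 4) * Wh 1 W (d / 4) * Real.sqrt (X d) := by
      rw [← Real.sqrt_mul (hA0 d)]
      have : A d * Bf d = (Real.exp (-d / 4) * Wh 1 W (d / 4)) ^ 2 * X d := by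
        simp only [hAdef, hBdef]
        rw [hρe]
        have := (hκpos d).ne'
        field_simp
      rw [this, Real.sqrt_mul (sq_nonneg _),
        Real.sqrt_sq (mul_nonneg (Real.exp_pos _).le (hw0 _))]
    rw [h5]
    calc Real.exp (-d / 4) * ∫ y, kd W G d y * Tst n d H y
        ≤ Real.exp (-d / 4) * (Real.sqrt (∫ y, kd W G d y ^ 2) * Real.sqrt (X d)) :=
          mul_le_mul_of_nonneg_left ((le_abs_self _).trans h3) (Real.exp_pos _).le
      _ ≤ Real.exp (-d / 4) * ((Wh 1 W (d / 4) * g4) * Real.sqrt (X d)) := by gcongr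
      _ = _ := by ring
  have hAi : IntegrableOn A (Ioi 0) := hSCi
  have hBi : IntegrableOn Bf (Ioi 0) := hTi
  have hsA : (fun d => Real.sqrt (A d) ^ 2) = A := by
    funext d; exact Real.sq_sqrt (hA0 d)
  have hsB : (fun d => Real.sqrt (Bf d) ^ 2) = Bf := by
    funext d; exact Real.sq_sqrt (hB0 d)
  have cs := cs_T4 (μ := volume.restrict (Ioi (0 : ℝ))) (u := fun d => Real.sqrt (A d))
    (v := fun d => Real.sqrt (Bf d))
    (hAi.aestronglyMeasurable.aemeasurable.sqrt.aestronglyMeasurable)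
    (hBi.aestronglyMeasurable.aemeasurable.sqrt.aestronglyMeasurable)
    (by rw [hsA]; exact hAi) (by rw [hsB]; exact hBi)
  obtain ⟨cs1, cs2⟩ := cs
  rw [hsA, hsB] at cs2
  have t3 : ∫ d in Ioi (0 : ℝ), Real.exp (-d / 4) * ∫ y, kd W G d y * Tst n d H y ≤
      g4 * ∫ d in Ioi (0 : ℝ), Real.sqrt (A d) * Real.sqrt (Bf d) := by
    rw [← integral_const_mul]
    refine int_le_T4 (cs1.const_mul g4) ?_ ?_
    · exact Eventually.of_forall fun d => by
        simp only [Pi.zero_apply]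
        positivity
    · exact (ae_restrict_mem measurableSet_Ioi).mono fun d hd => t2 d hd
  set IA : ℝ := ∫ d in Ioi (0 : ℝ), A d with hIA
  have hIA0 : 0 ≤ IA := integral_nonneg fun d => hA0 d
  have t4 : ∫ d in Ioi (0 : ℝ), Bf d ≤ h2 ^ 2 * IA := by
    have e1 : ∀ d, ρ d * Real.exp (-d) * kap n (Real.exp (-d)) ^ 2 = A d := by
      intro d
      rw [hρe]
      simp only [hAdef, hκ]
      have := (hκpos d).ne'
      simp only [hκ] at this
      field_simp
    have h3 := hTle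
    simp only [e1] at h3
    rw [hh2, Real.sq_sqrt (integral_nonneg fun y => sq_nonneg _)]
    exact h3
  have t5 : ∫ d in Ioi (0 : ℝ), Real.sqrt (A d) * Real.sqrt (Bf d) ≤ h2 * IA := by
    refine (le_abs_self _).trans (cs2.trans ?_)
    have h20 : 0 ≤ h2 := Real.sqrt_nonneg _
    calc Real.sqrt IA * Real.sqrt (∫ d in Ioi (0 : ℝ), Bf d)
        ≤ Real.sqrt IA * Real.sqrt (h2 ^ 2 * IA) := by gcongr
      _ = h2 * IA := by
          rw [Real.sqrt_mul (sq_nonneg _), Real.sqrt_sq h20]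
          calc Real.sqrt IA * (h2 * Real.sqrt IA) = h2 * (Real.sqrt IA * Real.sqrt IA) := by ring
            _ = h2 * IA := by rw [Real.mul_self_sqrt hIA0]
  -- the total
  have hg0 : 0 ≤ g4 := Real.sqrt_nonneg _
  have hw00 := hw0 0
  calc Wh 1 W 0 * (∫ y, ‖G y‖ ^ 2 * H y) +
      2 * ∫ d in Ioi (0 : ℝ), Real.exp (-d / 4) * ∫ y, kd W G d y * Tst n d H y
      ≤ Wh 1 W 0 * (g4 * h2) + 2 * (g4 * (h2 * IA)) := by
        have := mul_le_mul_of_nonneg_left t1 hw00
        have := mul_le_mul_of_nonneg_left t5 hg0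
        linarith
    _ = (Wh 1 W 0 + 2 * IA) * g4 * h2 := by ring
    _ = _ := by
        rw [hIA]
        simp only [hAdef, hκ]
        rw [hSCe]

end Helper69.CS
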