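import Pool.Agent.Helper69.CS.St
import Pool.Agent.Helper69.CR.Top

/-!
# MP_3dd6d4_an, project CS, module V8: the averaged square at node 8 (helper16)
-/

set_option autoImplicit false

open MeasureTheory Set Filter Topology
open scoped ENNReal NNReal

noncomputable section

namespace Helper69.CS

open Helper85.BP Helper69.CR Helper69.CR.DB

/-! ### the modulated function -/

private lemma norm_phP_V8 (t : ℝ) (G : ℝ → ℂ) (y : ℝ) :
    ‖phP 8 t G y‖ = Real.exp (-y / 8) * ‖G y‖ := by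
  unfold phP
  rw [norm_mul, norm_mul, mul_comm Complex.I, Complex.norm_exp_ofReal_mul_I, mul_one,
    Complex.norm_real, Real.norm_eq_abs, abs_of_pos (Real.exp_pos _)]

private lemma cont_phP_V8 (G : ℝ → ℂ) (hG : Continuous G) :
    Continuous (fun q : ℝ × ℝ => phP 8 q.1 G q.2) := by
  rw [continuous_iff_continuousAt]
  intro q
  by_cases h : G q.2 = 0
  · have h0 : phP 8 q.1 G q.2 = 0 := by
      unfold phP
      rw [h, zero_mul, mul_zero]
    have h2 : Continuous (fun x : ℝ × ℝ => Real.exp (-x.2 / 8) * ‖G x.2‖) := by fun_prop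
    have h3 := h2.tendsto q
    simp only [h, norm_zero, mul_zero] at h3
    change Tendsto (fun x : ℝ × ℝ => phP 8 x.1 G x.2) (𝓝 q) (𝓝 (phP 8 q.1 G q.2))
    rw [h0]
    exact tendsto_zero_iff_norm_tendsto_zero.2 (h3.congr fun x => (norm_phP_V8 _ _ _).symm)
  · have hl : ContinuousAt (fun x : ℝ × ℝ => Real.log ‖G x.2‖) q :=
      ((hG.comp continuous_snd).norm.continuousAt).log (norm_ne_zero_iff.2 h)
    unfold phP
    have c1 : ContinuousAt (fun x : ℝ × ℝ => ((Real.exp (-x.2 / 8) : ℝ) : ℂ)) q := by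
      apply Continuous.continuousAt
      fun_prop
    have c2 : ContinuousAt (fun x : ℝ × ℝ => G x.2) q := (hG.comp continuous_snd).continuousAt
    have c3 : ContinuousAt (fun x : ℝ × ℝ => x.1 * (x.2 / 8 - Real.log ‖G x.2‖)) q := by
      refine continuousAt_fst.mul ?_
      exact (continuousAt_snd.div_const 8).sub hl
    refine c1.mul (c2.mul ?_)
    refine Complex.continuous_exp.continuousAt.comp ?_
    exact continuousAt_const.mul (Complex.continuous_ofReal.continuousAt.comp c3)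

private lemma cont1_phP_V8 (t : ℝ) (G : ℝ → ℂ) (hG : Continuous G) : Continuous (phP 8 t G) :=
  (cont_phP_V8 G hG).comp (by fun_prop : Continuous fun y : ℝ => (t, y))

private lemma supp_phP_V8 (t : ℝ) (G : ℝ → ℂ) (hc : HasCompactSupport G) :
    HasCompactSupport (phP 8 t G) := by
  refine hc.mono fun y hy => ?_
  rw [Function.mem_support] at hy ⊢
  intro h
  apply hy
  unfold phP
  rw [h, zero_mul, mul_zero]

/-- the phase -/
private def rr_V8 (G : ℝ → ℂ) (d y : ℝ) : ℝ := Real.log ‖G y‖ - Real.log ‖G (y + d)‖ + d / 8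

private lemma gd_V8 (t : ℝ) (G : ℝ → ℂ) (d y : ℝ) :
    gd (phP 8 t G) d y = ((Real.exp (-y / 4 - d / 8) : ℝ) : ℂ) *
      (G y * (starRingEnd ℂ) (G (y + d))) *
        Complex.exp (((-(t * rr_V8 G d y) : ℝ) : ℂ) * Complex.I) := by
  unfold gd phP rr_V8
  rw [map_mul, map_mul, Complex.conj_ofReal, ← Complex.exp_conj, map_mul, Complex.conj_I,
    Complex.conj_ofReal]
  have e1 : Real.exp (-y / 4 - d / 8) = Real.exp (-y / 8) * Real.exp (-(y + d) / 8) := by
    rw [← Real.exp_add]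
    congr 1
    ring
  have e2 : Complex.exp (((-(t * (Real.log ‖G y‖ - Real.log ‖G (y + d)‖ + d / 8)) : ℝ) : ℂ) *
      Complex.I) = Complex.exp (Complex.I * ((t * (y / 8 - Real.log ‖G y‖) : ℝ) : ℂ)) *
        Complex.exp (-Complex.I * ((t * ((y + d) / 8 - Real.log ‖G (y + d)‖) : ℝ) : ℂ)) := by
    rw [← Complex.exp_add]
    congr 1
    push_cast
    ring
  rw [e1, e2]
  push_cast
  ring

private lemma cont_gd_V8 (G : ℝ → ℂ) (hG : Continuous G) :
    Continuous (fun q : (ℝ × ℝ) × ℝ => gd (phP 8 q.1.1 G) q.1.2 q.2) := by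
  have h := cont_phP_V8 G hG
  unfold gd
  refine (h.comp (by fun_prop : Continuous fun q : (ℝ × ℝ) × ℝ => (q.1.1, q.2))).mul ?_
  exact Complex.continuous_conj.comp
    (h.comp (by fun_prop : Continuous fun q : (ℝ × ℝ) × ℝ => (q.1.1, q.2 + q.1.2)))

/-- the averaged product -/
private def kk_V8 (W : ℝ → ℝ) (G : ℝ → ℂ) (d y : ℝ) : ℂ :=
  ∫ t, ((W t : ℝ) : ℂ) * gd (phP 8 t G) d y

private lemma odd_V8 (W : ℝ → ℝ) (hW : ∀ τ, W (-τ) = W τ) (r : ℝ) :
    ∫ t, W t * Real.sin (t * r) = 0 := by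
  have h1 : ∫ t, W t * Real.sin (t * r) = ∫ t, -(W t * Real.sin (t * r)) := by
    rw [← integral_neg_eq_self (fun t => W t * Real.sin (t * r))]
    refine integral_congr_ae (Eventually.of_forall fun t => ?_)
    simp only [hW, neg_mul, Real.sin_neg]
    ring
  rw [integral_neg] at h1
  linarith

private lemma Wint_V8 {W : ℝ → ℝ} (hW : Adm 1 W) : Integrable W := Helper85.BP.P.K3_W_int 1 W hW

private lemma four_V8 {W : ℝ → ℝ} (hW : Adm 1 W) (r : ℝ) :
    ∫ t, ((W t : ℝ) : ℂ) * Complex.exp (((-(t * r) : ℝ) : ℂ) * Complex.I) =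
      ((Wh 1 W r : ℝ) : ℂ) := by
  have hWi := Wint_V8 hW
  have i1 : Integrable (fun t => W t * Real.cos (t * r)) := by
    refine hWi.mono' (hW.cont.mul (by fun_prop)).aestronglyMeasurable
      (Eventually.of_forall fun t => ?_)
    rw [Real.norm_eq_abs, abs_mul, abs_of_nonneg (hW.nonneg t)]
    exact mul_le_of_le_one_right (hW.nonneg t) (Real.abs_cos_le_one _)
  have i2 : Integrable (fun t => W t * Real.sin (t * r)) := by
    refine hWi.mono' (hW.cont.mul (by fun_prop)).aestronglyMeasurable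
      (Eventually.of_forall fun t => ?_)
    rw [Real.norm_eq_abs, abs_mul, abs_of_nonneg (hW.nonneg t)]
    exact mul_le_of_le_one_right (hW.nonneg t) (Real.abs_sin_le_one _)
  have e : ∀ t : ℝ, ((W t : ℝ) : ℂ) * Complex.exp (((-(t * r) : ℝ) : ℂ) * Complex.I) =
      ((W t * Real.cos (t * r) : ℝ) : ℂ) - ((W t * Real.sin (t * r) : ℝ) : ℂ) * Complex.I := by
    intro t
    rw [Complex.exp_mul_I, ← Complex.ofReal_cos, ← Complex.ofReal_sin, Real.cos_neg, Real.sin_neg]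
    push_cast
    ring
  simp only [e]
  rw [integral_sub i1.ofReal (i2.ofReal.mul_const _), integral_mul_const, integral_complex_ofReal,
    integral_complex_ofReal, odd_V8 W hW.even r]
  simp only [Complex.ofReal_zero, zero_mul, sub_zero]
  rw [Wh]
  congr 2
  funext t
  rw [one_mul]

private lemma kk_eq_V8 {W : ℝ → ℝ} (hW : Adm 1 W) (G : ℝ → ℂ) (d y : ℝ) :
    kk_V8 W G d y = ((Real.exp (-y / 4 - d / 8) : ℝ) : ℂ) *
      (G y * (starRingEnd ℂ) (G (y + d))) * ((Wh 1 W (rr_V8 G d y) : ℝ) : ℂ) := by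
  unfold kk_V8
  simp only [gd_V8]
  rw [← four_V8 hW, ← integral_const_mul]
  refine integral_congr_ae (Eventually.of_forall fun t => ?_)
  simp only
  ring

private lemma kk_bound_V8 {W : ℝ → ℝ} (hW : Adm 1 W) (G : ℝ → ℂ) (d y : ℝ) :
    ‖kk_V8 W G d y‖ ≤ Real.exp (-y / 4 - d / 8) *
      (1 / 2 * Aw 1 W (d / 8) * ‖G y‖ ^ 2 + 1 / 2 * Aw 1 W (-(d / 8)) * ‖G (y + d)‖ ^ 2) := by
  obtain ⟨h1, h2, h3, -⟩ := Helper85.BP.P.Wh_ptw 1 one_pos W hW
  rw [kk_eq_V8 hW, norm_mul, norm_mul, norm_mul, Complex.norm_real, Complex.norm_real,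
    RCLike.norm_conj, Real.norm_eq_abs, Real.norm_eq_abs, abs_of_pos (Real.exp_pos _),
    abs_of_nonneg (h1 _), mul_assoc]
  refine mul_le_mul_of_nonneg_left ?_ (Real.exp_pos _).le
  by_cases hG : G y = 0 ∨ G (y + d) = 0
  · have h0 : ‖G y‖ * ‖G (y + d)‖ = 0 := by
      rcases hG with h | h <;> rw [h] <;> simp
    rw [h0, zero_mul]
    have := h2 (d / 8)
    have := h2 (-(d / 8))
    positivity
  · push Not at hG
    have hx : 0 < ‖G y‖ := norm_pos_iff.mpr hG.1
    have hz : 0 < ‖G (y + d)‖ := norm_pos_iff.mpr hG.2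
    have h5 := h3 (d / 8) (Real.log ‖G y‖ - Real.log ‖G (y + d)‖)
    have e1 : Real.exp (Real.log ‖G y‖ - Real.log ‖G (y + d)‖) = ‖G y‖ / ‖G (y + d)‖ := by
      rw [Real.exp_sub, Real.exp_log hx, Real.exp_log hz]
    have e2 : Real.exp (-(Real.log ‖G y‖ - Real.log ‖G (y + d)‖)) = ‖G (y + d)‖ / ‖G y‖ := by
      rw [neg_sub, Real.exp_sub, Real.exp_log hx, Real.exp_log hz]
    rw [e1, e2, show d / 8 + (Real.log ‖G y‖ - Real.log ‖G (y + d)‖) = rr_V8 G d y by
      unfold rr_V8; ring] at h5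
    calc _ ≤ (‖G y‖ * ‖G (y + d)‖) * (1 / 2 * Aw 1 W (d / 8) * (‖G y‖ / ‖G (y + d)‖)
          + 1 / 2 * Aw 1 W (-(d / 8)) * (‖G (y + d)‖ / ‖G y‖)) :=
          mul_le_mul_of_nonneg_left h5 (by positivity)
      _ = _ := by
        field_simp

private theorem int_A_V8 {W : ℝ → ℝ} (hW : Adm 1 W) (r : ℝ) :
    Integrable (fun τ => W τ * (Real.cos (1 * τ * r) - 1 * τ * Real.sin (1 * τ * r))) := by
  refine Integrable.mono' (hW.int.const_mul 2) ?_ (Eventually.of_forall fun τ => ?_)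
  · exact (hW.cont.mul (by fun_prop)).aestronglyMeasurable
  · rw [Real.norm_eq_abs, abs_mul, abs_of_nonneg (hW.nonneg τ)]
    have h1 := Real.abs_cos_le_one (1 * τ * r)
    have h2 := Real.abs_sin_le_one (1 * τ * r)
    have h3 : |1 * τ| ≤ 1 + τ ^ 2 := by
      rw [one_mul]
      rcases abs_cases τ with h | h <;> nlinarith [sq_nonneg (τ - 1), sq_nonneg (τ + 1), sq_nonneg τ]
    have h4 : |Real.cos (1 * τ * r) - 1 * τ * Real.sin (1 * τ * r)| ≤ 2 * (1 + 1 ^ 2 * τ ^ 2) := by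
      calc |Real.cos (1 * τ * r) - 1 * τ * Real.sin (1 * τ * r)|
          ≤ |Real.cos (1 * τ * r)| + |1 * τ * Real.sin (1 * τ * r)| := abs_sub _ _
        _ = |Real.cos (1 * τ * r)| + |1 * τ| * |Real.sin (1 * τ * r)| := by rw [abs_mul (1 * τ)]
        _ ≤ 1 + |1 * τ| * 1 := by gcongr
        _ ≤ 2 * (1 + 1 ^ 2 * τ ^ 2) := by nlinarith [sq_nonneg τ]
    have := mul_le_mul_of_nonneg_left h4 (hW.nonneg τ)
    linarith

private theorem Wh_eq_V8 {W : ℝ → ℝ} (hW : Adm 1 W) (s : ℝ) :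
    1 / 2 * Aw 1 W s + 1 / 2 * Aw 1 W (-s) = Wh 1 W s := by
  have h1 : Aw 1 W s + Aw 1 W (-s) = ∫ τ, 2 * (W τ * Real.cos (1 * τ * s)) := by
    rw [Aw, Aw, ← integral_add (int_A_V8 hW s) (int_A_V8 hW (-s))]
    congr 1
    funext τ
    rw [show 1 * τ * -s = -(1 * τ * s) by ring, Real.cos_neg, Real.sin_neg]
    ring
  rw [integral_const_mul] at h1
  rw [Wh]
  linarith

private lemma quart_V8 {a b u v : ℝ} (ha : 0 ≤ a) (hb : 0 ≤ b) :
    (a * u + b * v) ^ 4 ≤ (a + b) ^ 3 * (a * u ^ 4 + b * v ^ 4) := by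
  have h1 : (a * u + b * v) ^ 2 ≤ (a + b) * (a * u ^ 2 + b * v ^ 2) := by
    nlinarith [mul_nonneg (mul_nonneg ha hb) (sq_nonneg (u - v))]
  have h2 : (a * u ^ 2 + b * v ^ 2) ^ 2 ≤ (a + b) * (a * u ^ 4 + b * v ^ 4) := by
    nlinarith [mul_nonneg (mul_nonneg ha hb) (sq_nonneg (u ^ 2 - v ^ 2))]
  have h3 : ((a * u + b * v) ^ 2) ^ 2 ≤ ((a + b) * (a * u ^ 2 + b * v ^ 2)) ^ 2 :=
    pow_le_pow_left₀ (sq_nonneg _) h1 2
  calc (a * u + b * v) ^ 4 = ((a * u + b * v) ^ 2) ^ 2 := by ring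
    _ ≤ ((a + b) * (a * u ^ 2 + b * v ^ 2)) ^ 2 := h3
    _ = (a + b) ^ 2 * (a * u ^ 2 + b * v ^ 2) ^ 2 := by ring
    _ ≤ (a + b) ^ 2 * ((a + b) * (a * u ^ 4 + b * v ^ 4)) := by gcongr
    _ = _ := by ring

private lemma kk_L4_V8 {W : ℝ → ℝ} (hW : Adm 1 W) (G : ℝ → ℂ) (hG : Continuous G)
    (hGc : HasCompactSupport G) (d : ℝ) :
    Nm 4 (kk_V8 W G d) ≤ ENNReal.ofReal (Real.exp (-d / 8) * Wh 1 W (d / 8)) *
      ENNReal.ofReal (∫ y, ‖G y‖ ^ 8) ^ (1 / 4 : ℝ) := by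
  obtain ⟨h1, h2, -⟩ := Helper85.BP.P.Wh_ptw 1 one_pos W hW
  obtain ⟨a, ha⟩ : ∃ a, a = 1 / 2 * Aw 1 W (d / 8) := ⟨_, rfl⟩
  obtain ⟨b, hb⟩ : ∃ b, b = 1 / 2 * Aw 1 W (-(d / 8)) := ⟨_, rfl⟩
  have ha0 : 0 ≤ a := by
    have := h2 (d / 8)
    rw [ha]
    positivity
  have hb0 : 0 ≤ b := by
    have := h2 (-(d / 8))
    rw [hb]
    positivity
  have hab : a + b = Wh 1 W (d / 8) := by rw [ha, hb]; exact Wh_eq_V8 hW (d / 8)
  have i1 : Integrable fun y => ‖G y‖ ^ 8 := by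
    refine Continuous.integrable_of_hasCompactSupport (by fun_prop) ?_
    exact hGc.comp_left (g := fun z : ℂ => ‖z‖ ^ 8) (by simp)
  have i2 : Integrable fun y => ‖G (y + d)‖ ^ 8 := i1.comp_add_right d
  have i3 : Integrable fun y => Real.exp (-d / 2) * ((a + b) ^ 3 *
      (a * ‖G y‖ ^ 8 + b * ‖G (y + d)‖ ^ 8)) :=
    (((i1.const_mul a).add (i2.const_mul b)).const_mul _).const_mul _
  have hpt : ∀ y, ‖kk_V8 W G d y‖ ^ (4 : ℝ) * Real.exp y ≤ Real.exp (-d / 2) * ((a + b) ^ 3 *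
      (a * ‖G y‖ ^ 8 + b * ‖G (y + d)‖ ^ 8)) := by
    intro y
    have e := kk_bound_V8 hW G d y
    rw [← ha, ← hb] at e
    have e4 : ‖kk_V8 W G d y‖ ^ 4 ≤ (Real.exp (-y / 4 - d / 8) *
        (a * ‖G y‖ ^ 2 + b * ‖G (y + d)‖ ^ 2)) ^ 4 := pow_le_pow_left₀ (norm_nonneg _) e 4
    have e5 := quart_V8 (u := ‖G y‖ ^ 2) (v := ‖G (y + d)‖ ^ 2) ha0 hb0
    have e6 : Real.exp (-y / 4 - d / 8) ^ 4 * Real.exp y = Real.exp (-d / 2) := by
      rw [← Real.exp_nat_mul, ← Real.exp_add]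
      congr 1
      push_cast
      ring
    rw [Real.rpow_ofNat]
    calc ‖kk_V8 W G d y‖ ^ 4 * Real.exp y
        ≤ (Real.exp (-y / 4 - d / 8) * (a * ‖G y‖ ^ 2 + b * ‖G (y + d)‖ ^ 2)) ^ 4 * Real.exp y := by
          gcongr
      _ = (Real.exp (-y / 4 - d / 8) ^ 4 * Real.exp y) *
            (a * ‖G y‖ ^ 2 + b * ‖G (y + d)‖ ^ 2) ^ 4 := by ring
      _ ≤ Real.exp (-d / 2) * ((a + b) ^ 3 * (a * (‖G y‖ ^ 2) ^ 4 + b * (‖G (y + d)‖ ^ 2) ^ 4)) := by
          rw [e6]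
          gcongr
      _ = _ := by ring
  unfold Nm
  rw [eL (by norm_num : (0 : ℝ) < 4)]
  have hI : ∫⁻ y, ENNReal.ofReal (‖kk_V8 W G d y‖ ^ (4 : ℝ) * Real.exp y) ≤
      ENNReal.ofReal ((Real.exp (-d / 8) * Wh 1 W (d / 8)) ^ 4) *
        ENNReal.ofReal (∫ y, ‖G y‖ ^ 8) := by
    have hn : ∀ y, 0 ≤ Real.exp (-d / 2) * ((a + b) ^ 3 *
      (a * ‖G y‖ ^ 8 + b * ‖G (y + d)‖ ^ 8)) := fun y => by positivity
    calc ∫⁻ y, ENNReal.ofReal (‖kk_V8 W G d y‖ ^ (4 : ℝ) * Real.exp y)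
        ≤ ∫⁻ y, ENNReal.ofReal (Real.exp (-d / 2) * ((a + b) ^ 3 *
            (a * ‖G y‖ ^ 8 + b * ‖G (y + d)‖ ^ 8))) :=
          lintegral_mono fun y => ENNReal.ofReal_le_ofReal (hpt y)
      _ = ENNReal.ofReal (∫ y, Real.exp (-d / 2) * ((a + b) ^ 3 *
            (a * ‖G y‖ ^ 8 + b * ‖G (y + d)‖ ^ 8))) :=
          (ofReal_integral_eq_lintegral_ofReal i3 (Eventually.of_forall hn)).symm
      _ = _ := by
          rw [integral_const_mul, integral_const_mul,
            integral_add (i1.const_mul a) (i2.const_mul b), integral_const_mul,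
            integral_const_mul, integral_add_right_eq_self (fun y => ‖G y‖ ^ 8) d, ← hab,
            ← ENNReal.ofReal_mul (by positivity)]
          congr 1
          have e7 : Real.exp (-d / 2) = Real.exp (-d / 8) ^ 4 := by
            rw [← Real.exp_nat_mul]
            congr 1
            push_cast
            ring
          rw [e7]
          ring
  refine (ENNReal.rpow_le_rpow hI (by norm_num)).trans ?_
  rw [ENNReal.mul_rpow_of_nonneg _ _ (by norm_num)]
  gcongr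
  rw [ENNReal.ofReal_rpow_of_nonneg (by positivity) (by norm_num)]
  apply ENNReal.ofReal_le_ofReal
  have h0 : 0 ≤ Real.exp (-d / 8) * Wh 1 W (d / 8) := mul_nonneg (Real.exp_pos _).le (h1 _)
  rw [← Real.rpow_natCast, ← Real.rpow_mul h0]
  norm_num

/-! ### measurability and bounds of the operators -/

private lemma ppe_cont_V8 (k : ℕ) : Continuous (fun u : ℝ => pp k (Real.exp (-u))) := by
  unfold pp
  fun_prop

private lemma Bop_meas_V8 {α : Type*} [MeasurableSpace α] (k : ℕ) (F : α → ℝ → ℂ)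
    (hF : StronglyMeasurable (fun q : α × ℝ => F q.1 q.2)) :
    StronglyMeasurable (fun q : α × ℝ => Bop k (F q.1) q.2) := by
  unfold Bop
  refine (stronglyMeasurable_const.mul hF).add ?_
  have h2 : StronglyMeasurable (fun w : (α × ℝ) × ℝ =>
      ((pp k (Real.exp (-w.2)) : ℝ) : ℂ) * F w.1.1 (w.1.2 + w.2)) := by
    refine StronglyMeasurable.mul ?_ ?_
    · exact ((Complex.continuous_ofReal.comp (ppe_cont_V8 k)).stronglyMeasurable).comp_measurable
        measurable_snd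
    · exact hF.comp_measurable
        (by fun_prop : Measurable fun w : (α × ℝ) × ℝ => (w.1.1, w.1.2 + w.2))
  exact h2.integral_prod_right

private lemma PP_meas_V8 {α : Type*} [MeasurableSpace α] (n : ℕ) (c : ℕ → ℝ → ℝ)
    (hc : ∀ k, Measurable (c k)) (D : α → ℝ) (hD : Measurable D) (F : α → ℝ → ℂ)
    (hF : StronglyMeasurable (fun q : α × ℝ => F q.1 q.2)) :
    StronglyMeasurable (fun q : α × ℝ => PP n c (D q.1) (F q.1) q.2) := by
  unfold PP
  refine Finset.stronglyMeasurable_fun_sum _ fun k _ => ?_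
  refine StronglyMeasurable.mul ?_ (Bop_meas_V8 k F hF)
  have h : Measurable (fun q : α × ℝ => ((c k (Real.exp (-(D q.1))) : ℝ) : ℂ)) := by
    refine Complex.measurable_ofReal.comp ((hc k).comp ?_)
    exact Real.measurable_exp.comp ((hD.comp measurable_fst).neg)
  exact h.stronglyMeasurable

/-- bound of `|p_k|` on `[0,1]` -/
private def pb_V8 (k : ℕ) : ℝ := ∑ i ∈ Finset.range k, |pc k i|

private lemma pb_nonneg_V8 (k : ℕ) : 0 ≤ pb_V8 k := Finset.sum_nonneg fun _ _ => abs_nonneg _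

private lemma pb_le_V8 (k : ℕ) (u : ℝ) (hu : 0 < u) : |pp k (Real.exp (-u))| ≤ pb_V8 k :=
  pp_bound_EN k _ (Real.exp_pos _).le (Real.exp_le_one_iff.2 (by linarith))

/-- dominating function of the inner integral -/
private lemma ind_V8 (R y C : ℝ) :
    IntegrableOn (fun u : ℝ => (Icc (-R - y) (R - y)).indicator (fun _ => C) u) (Ioi 0) ∧
      (0 ≤ R → 0 ≤ C → ∫ u in Ioi (0 : ℝ), (Icc (-R - y) (R - y)).indicator (fun _ => C) u ≤
        C * (2 * R)) := by
  have h1 : Integrable (fun u : ℝ => (Icc (-R - y) (R - y)).indicator (fun _ => C) u) := by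
    rw [integrable_indicator_iff measurableSet_Icc]
    exact integrableOn_const (hs := measure_Icc_lt_top.ne)
  refine ⟨h1.integrableOn, fun hR hC => ?_⟩
  have h2 : ∫ u in Ioi (0 : ℝ), (Icc (-R - y) (R - y)).indicator (fun _ => C) u ≤
      ∫ u, (Icc (-R - y) (R - y)).indicator (fun _ => C) u :=
    setIntegral_le_integral h1 (Eventually.of_forall fun u => indicator_nonneg (fun _ _ => hC) u)
  refine h2.trans (le_of_eq ?_)
  rw [integral_indicator measurableSet_Icc, setIntegral_const, Measure.real, Real.volume_Icc,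
    ENNReal.toReal_ofReal (by linarith), smul_eq_mul]
  ring

private lemma dom_V8 (k : ℕ) (v : ℝ → ℂ) (B R : ℝ) (hB : ∀ x, ‖v x‖ ≤ B)
    (hR : ∀ x, R < |x| → v x = 0) (y u : ℝ) (hu : 0 < u) :
    ‖((pp k (Real.exp (-u)) : ℝ) : ℂ) * v (y + u)‖ ≤
      (Icc (-R - y) (R - y)).indicator (fun _ => pb_V8 k * B) u := by
  by_cases h : u ∈ Icc (-R - y) (R - y)
  · rw [indicator_of_mem h, norm_mul, Complex.norm_real, Real.norm_eq_abs]
    exact mul_le_mul (pb_le_V8 k u hu) (hB _) (norm_nonneg _) (pb_nonneg_V8 k)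
  · rw [indicator_of_notMem h]
    have h1 : R < |y + u| := by
      rw [mem_Icc, not_and_or, not_le, not_le] at h
      rcases h with h | h
      · rw [lt_abs]
        right
        linarith
      · rw [lt_abs]
        left
        linarith
    rw [hR _ h1, mul_zero, norm_zero]

private lemma Bop_bound_V8 (k : ℕ) (v : ℝ → ℂ) (B R : ℝ) (hR0 : 0 ≤ R) (hB : ∀ x, ‖v x‖ ≤ B)
    (hR : ∀ x, R < |x| → v x = 0) (y : ℝ) :
    ‖Bop k v y‖ ≤ B + pb_V8 k * B * (2 * R) := by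
  have hB0 : 0 ≤ B := (norm_nonneg _).trans (hB 0)
  unfold Bop
  refine (norm_add_le _ _).trans (add_le_add ?_ ?_)
  · rw [norm_mul, norm_pow, norm_neg, norm_one, one_pow, one_mul]
    exact hB y
  · obtain ⟨h1, h2⟩ := ind_V8 R y (pb_V8 k * B)
    refine (norm_integral_le_of_norm_le h1 ?_).trans
      (h2 hR0 (mul_nonneg (pb_nonneg_V8 k) hB0))
    exact (ae_restrict_iff' measurableSet_Ioi).2
      (Eventually.of_forall fun u hu => dom_V8 k v B R hB hR y u hu)

private lemma snd_pos_V8 : ∀ᵐ q : ℝ × ℝ ∂((volume : Measure ℝ).prod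
    ((volume : Measure ℝ).restrict (Ioi 0))), 0 < q.2 :=
  (Measure.quasiMeasurePreserving_snd (μ := (volume : Measure ℝ))
    (ν := (volume : Measure ℝ).restrict (Ioi 0))).ae (ae_restrict_mem measurableSet_Ioi)

/-- averaging commutes with `B_k` -/
private lemma Bop_avg_V8 (k : ℕ) (W : ℝ → ℝ) (hWi : Integrable W) (F : ℝ → ℝ → ℂ)
    (hF : StronglyMeasurable (fun q : ℝ × ℝ => F q.1 q.2)) (B R : ℝ) (hR0 : 0 ≤ R)
    (hB : ∀ t x, ‖F t x‖ ≤ B) (hR : ∀ t x, R < |x| → F t x = 0) (y : ℝ) :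
    Integrable (fun t => ((W t : ℝ) : ℂ) * Bop k (F t) y) ∧
      ∫ t, ((W t : ℝ) : ℂ) * Bop k (F t) y =
        Bop k (fun x => ∫ t, ((W t : ℝ) : ℂ) * F t x) y := by
  have hB0 : 0 ≤ B := (norm_nonneg _).trans (hB 0 0)
  have hWc : Integrable (fun t => ((W t : ℝ) : ℂ)) := hWi.ofReal
  have i0 : ∀ x, Integrable (fun t => ((W t : ℝ) : ℂ) * F t x) := by
    intro x
    refine hWc.mul_bdd (c := B) ?_ (Eventually.of_forall fun t => hB t x)
    exact (hF.comp_measurable (by fun_prop : Measurable fun t : ℝ => (t, x))).aestronglyMeasurable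
  have iB : Integrable (fun t => ((W t : ℝ) : ℂ) * Bop k (F t) y) := by
    refine hWc.mul_bdd (c := B + pb_V8 k * B * (2 * R)) ?_
      (Eventually.of_forall fun t => Bop_bound_V8 k (F t) B R hR0 (hB t) (hR t) y)
    exact ((Bop_meas_V8 k F hF).comp_measurable
      (by fun_prop : Measurable fun t : ℝ => (t, y))).aestronglyMeasurable
  refine ⟨iB, ?_⟩
  have i1 : Integrable (fun t => ((W t : ℝ) : ℂ) * ((-1) ^ k * F t y)) := by
    have := (i0 y).const_mul ((-1 : ℂ) ^ k)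
    refine this.congr (Eventually.of_forall fun t => ?_)
    simp only
    ring
  have e1 : ∀ t, ((W t : ℝ) : ℂ) * Bop k (F t) y = ((W t : ℝ) : ℂ) * ((-1) ^ k * F t y) +
      ∫ u in Ioi (0 : ℝ), ((W t : ℝ) : ℂ) * (((pp k (Real.exp (-u)) : ℝ) : ℂ) * F t (y + u)) := by
    intro t
    unfold Bop
    rw [mul_add, integral_const_mul]
  have i2 : Integrable (Function.uncurry fun (t u : ℝ) =>
      ((W t : ℝ) : ℂ) * (((pp k (Real.exp (-u)) : ℝ) : ℂ) * F t (y + u)))
      ((volume : Measure ℝ).prod ((volume : Measure ℝ).restrict (Ioi 0))) := by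
    have hdom := (hWi.norm).mul_prod (ind_V8 R y (pb_V8 k * B)).1
    refine hdom.mono' ?_ ?_
    · have hm : StronglyMeasurable (fun q : ℝ × ℝ =>
          ((pp k (Real.exp (-q.2)) : ℝ) : ℂ) * F q.1 (y + q.2)) := by
        refine StronglyMeasurable.mul ?_ ?_
        · exact ((Complex.continuous_ofReal.comp (ppe_cont_V8 k)).stronglyMeasurable).comp_measurable
            measurable_snd
        · exact hF.comp_measurable (by fun_prop : Measurable fun q : ℝ × ℝ => (q.1, y + q.2))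
      exact hWc.aestronglyMeasurable.comp_fst.mul hm.aestronglyMeasurable
    · filter_upwards [snd_pos_V8] with q hq
      simp only [Function.uncurry]
      rw [norm_mul, Complex.norm_real]
      exact mul_le_mul_of_nonneg_left (dom_V8 k (F q.1) B R (hB q.1) (hR q.1) y q.2 hq)
        (norm_nonneg _)
  have i3 : Integrable (fun t => ∫ u in Ioi (0 : ℝ),
      ((W t : ℝ) : ℂ) * (((pp k (Real.exp (-u)) : ℝ) : ℂ) * F t (y + u))) := i2.integral_prod_left
  simp only [e1]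
  rw [integral_add i1 i3, integral_integral_swap i2]
  unfold Bop
  congr 1
  · rw [← integral_const_mul]
    refine integral_congr_ae (Eventually.of_forall fun t => ?_)
    simp only
    ring
  · refine integral_congr_ae (Eventually.of_forall fun u => ?_)
    simp only
    rw [← integral_const_mul]
    refine integral_congr_ae (Eventually.of_forall fun t => ?_)
    simp only
    ring

private lemma PP_bound_V8 (n : ℕ) (c : ℕ → ℝ → ℝ) (d M : ℝ) (hc0 : ∀ k, 0 ≤ c k (Real.exp (-d)))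
    (hcM : ∀ k, c k (Real.exp (-d)) ≤ M) (v : ℝ → ℂ) (B R : ℝ) (hR0 : 0 ≤ R)
    (hB : ∀ x, ‖v x‖ ≤ B) (hR : ∀ x, R < |x| → v x = 0) (y : ℝ) :
    ‖PP n c d v y‖ ≤ ∑ k ∈ Finset.range (2 * n + 1), M * (B + pb_V8 k * B * (2 * R)) := by
  have hB0 : 0 ≤ B := (norm_nonneg _).trans (hB 0)
  unfold PP
  refine (norm_sum_le _ _).trans (Finset.sum_le_sum fun k _ => ?_)
  rw [norm_mul, Complex.norm_real, Real.norm_eq_abs, abs_of_nonneg (hc0 k)]
  refine mul_le_mul (hcM k) (Bop_bound_V8 k v B R hR0 hB hR y) (norm_nonneg _) ?_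
  exact (hc0 k).trans (hcM k)

private lemma PP_zero_V8 (n : ℕ) (c : ℕ → ℝ → ℝ) (d : ℝ) (v : ℝ → ℂ) (y : ℝ) (h : ∀ x, v x = 0) :
    PP n c d v y = 0 := by
  unfold PP Bop
  simp only [h, mul_zero, integral_zero, add_zero, Finset.sum_const_zero]

private lemma PP_avg_V8 (n : ℕ) (c : ℕ → ℝ → ℝ) (d : ℝ) (W : ℝ → ℝ) (hWi : Integrable W)
    (F : ℝ → ℝ → ℂ) (hF : StronglyMeasurable (fun q : ℝ × ℝ => F q.1 q.2)) (B R : ℝ)
    (hR0 : 0 ≤ R) (hB : ∀ t x, ‖F t x‖ ≤ B) (hR : ∀ t x, R < |x| → F t x = 0) (y : ℝ) :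
    Integrable (fun t => ((W t : ℝ) : ℂ) * PP n c d (F t) y) ∧
      ∫ t, ((W t : ℝ) : ℂ) * PP n c d (F t) y =
        PP n c d (fun x => ∫ t, ((W t : ℝ) : ℂ) * F t x) y := by
  have h := fun k => Bop_avg_V8 k W hWi F hF B R hR0 hB hR y
  have e : ∀ t, ((W t : ℝ) : ℂ) * PP n c d (F t) y = ∑ k ∈ Finset.range (2 * n + 1),
      ((c k (Real.exp (-d)) : ℝ) : ℂ) * (((W t : ℝ) : ℂ) * Bop k (F t) y) := by
    intro t
    unfold PP
    rw [Finset.mul_sum]
    refine Finset.sum_congr rfl fun k _ => ?_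
    ring
  simp only [e]
  refine ⟨integrable_finsetSum _ fun k _ => (h k).1.const_mul _, ?_⟩
  rw [integral_finsetSum _ fun k _ => (h k).1.const_mul _]
  unfold PP
  refine Finset.sum_congr rfl fun k _ => ?_
  rw [integral_const_mul, (h k).2]

private lemma PP_L4_V8 (n : ℕ) (c : ℕ → ℝ → ℝ) (d : ℝ) (hc0 : ∀ k, 0 ≤ c k (Real.exp (-d)))
    (v : ℝ → ℂ) (hv : Continuous v) (hvs : HasCompactSupport v) :
    Nm 4 (PP n c d v) ≤ ENNReal.ofReal (kP n c (1 / 4) d) * Nm 4 v := by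
  have hm : ∀ k, StronglyMeasurable (Bop k v) := by
    intro k
    have h1 := Bop_meas_V8 k (fun _ : ℝ => v)
      (hv.stronglyMeasurable.comp_measurable (measurable_snd (α := ℝ) (β := ℝ)))
    exact h1.comp_measurable (by fun_prop : Measurable fun y : ℝ => ((0 : ℝ), y))
  have hC0 : ∀ k, 0 ≤ Cn k (1 / 4) := fun k => Cn_nonneg k _ (by norm_num) (by norm_num)
  have hB : ∀ k, Nm 4 (Bop k v) ≤ ENNReal.ofReal (Cn k (1 / 4)) * Nm 4 v := by
    intro k
    rcases Nat.eq_zero_or_pos k with rfl | hk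
    · have e0 : Bop 0 v = v := by
        funext y
        unfold Bop pp
        simp
      rw [e0]
      simp [Cn]
    · exact OneD_bound (oneD_sharp k hk 4 (by norm_num) (Or.inl le_rfl)) (by norm_num)
        (NB.of_cpt hv hvs)
  have e : PP n c d v = ∑ k ∈ Finset.range (2 * n + 1),
      (fun y => ((c k (Real.exp (-d)) : ℝ) : ℂ) * Bop k v y) := by
    funext y
    unfold PP
    rw [Finset.sum_apply]
  have h1 : Nm 4 (PP n c d v) ≤ ∑ k ∈ Finset.range (2 * n + 1),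
      Nm 4 (fun y => ((c k (Real.exp (-d)) : ℝ) : ℂ) * Bop k v y) := by
    rw [e]
    unfold Nm
    refine eLpNorm_sum_le (fun k _ => ?_) ?_
    · exact (stronglyMeasurable_const.mul (hm k)).aestronglyMeasurable
    · rw [← ENNReal.ofReal_one]
      exact ENNReal.ofReal_le_ofReal (by norm_num)
  refine h1.trans ?_
  unfold kP
  rw [ENNReal.ofReal_sum_of_nonneg fun k _ => mul_nonneg (hc0 k) (hC0 k), Finset.sum_mul]
  refine Finset.sum_le_sum fun k _ => ?_
  rw [Nm_cmul 4 _ (hc0 k), ENNReal.ofReal_mul (hc0 k), mul_assoc]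
  gcongr
  exact hB k


private lemma kk_cont_V8 (W : ℝ → ℝ) (hWi : Integrable W) (G : ℝ → ℂ) (hG : Continuous G) (B : ℝ)
    (d : ℝ) (hB : ∀ t x, ‖gd (phP 8 t G) d x‖ ≤ B) : Continuous (kk_V8 W G d) := by
  have hgc := cont_gd_V8 G hG
  have hWc : Integrable (fun t => ((W t : ℝ) : ℂ)) := hWi.ofReal
  unfold kk_V8
  refine continuous_of_dominated (bound := fun t => ‖W t‖ * B) (fun y => ?_) (fun y => ?_)
    (hWi.norm.mul_const B) ?_
  · have h1 : Continuous fun t : ℝ => gd (phP 8 t G) d y :=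
      hgc.comp (by fun_prop : Continuous fun t : ℝ => ((t, d), y))
    exact hWc.aestronglyMeasurable.mul h1.aestronglyMeasurable
  · refine Eventually.of_forall fun t => ?_
    rw [norm_mul, Complex.norm_real]
    exact mul_le_mul_of_nonneg_left (hB t y) (norm_nonneg _)
  · refine Eventually.of_forall fun t => ?_
    refine continuous_const.mul ?_
    exact hgc.comp (by fun_prop : Continuous fun y : ℝ => ((t, d), y))

private lemma kk_meas_V8 (W : ℝ → ℝ) (hW : Continuous W) (G : ℝ → ℂ) (hG : Continuous G) :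
    StronglyMeasurable (fun q : ℝ × ℝ => kk_V8 W G q.1 q.2) := by
  have hgc := cont_gd_V8 G hG
  have h1 : StronglyMeasurable (fun w : (ℝ × ℝ) × ℝ => ((W w.2 : ℝ) : ℂ) *
      gd (phP 8 w.2 G) w.1.1 w.1.2) := by
    refine Continuous.stronglyMeasurable ?_
    refine (Complex.continuous_ofReal.comp (hW.comp continuous_snd)).mul ?_
    exact hgc.comp (by fun_prop : Continuous fun w : (ℝ × ℝ) × ℝ => ((w.2, w.1.1), w.1.2))
  exact h1.integral_prod_right

/-! ### the main estimate -/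

theorem hV8 : StV8 := by
  intro n κ0 K c W G hn hN hK hW hG hGc
  obtain ⟨M, hM⟩ := hN.bdd
  obtain ⟨w1, -, -, w4, -, ⟨Cw, hCw⟩, -⟩ := Helper85.BP.P.Wh_ptw 1 one_pos W hW
  have hWi := Wint_V8 hW
  have hWc : Integrable (fun t => ((W t : ℝ) : ℂ)) := hWi.ofReal
  have hc0 : ∀ d, 0 < d → ∀ k, 0 ≤ c k (Real.exp (-d)) := fun d hd k =>
    hN.pos k _ (Real.exp_pos _) (Real.exp_lt_one_iff.2 (by linarith))
  have hcM : ∀ d, 0 < d → ∀ k, c k (Real.exp (-d)) ≤ M := fun d hd k =>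
    hM k _ (Real.exp_pos _) (Real.exp_lt_one_iff.2 (by linarith))
  -- support and bound
  obtain ⟨R, hR0, hRG⟩ : ∃ R : ℝ, 0 ≤ R ∧ ∀ x, R < |x| → G x = 0 := by
    obtain ⟨R, hR⟩ := hGc.isCompact.isBounded.subset_closedBall (0 : ℝ)
    refine ⟨|R|, abs_nonneg _, fun x hx => ?_⟩
    by_contra h
    have h1 := hR (subset_tsupport G h)
    rw [Metric.mem_closedBall, dist_zero_right, Real.norm_eq_abs] at h1
    linarith [le_abs_self R]
  obtain ⟨Mf, hMf⟩ : ∃ Mf : ℝ, ∀ y, Real.exp (-y / 8) * ‖G y‖ ≤ Mf := by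
    have hc : Continuous (fun y : ℝ => Real.exp (-y / 8) * ‖G y‖) := by fun_prop
    have hs : HasCompactSupport (fun y : ℝ => Real.exp (-y / 8) * ‖G y‖) :=
      (hGc.norm).mul_left
    obtain ⟨C, hC⟩ := hs.exists_bound_of_continuous hc
    exact ⟨C, fun y => (le_abs_self _).trans (hC y)⟩
  have hMf0 : 0 ≤ Mf := (mul_nonneg (Real.exp_pos _).le (norm_nonneg _)).trans (hMf 0)
  have hf_b : ∀ t y, ‖phP 8 t G y‖ ≤ Mf := fun t y => by
    rw [norm_phP_V8]
    exact hMf y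
  have hf_0 : ∀ t y, R < |y| → phP 8 t G y = 0 := fun t y hy => by
    unfold phP
    rw [hRG y hy, zero_mul, mul_zero]
  obtain ⟨B, hBdef⟩ : ∃ B : ℝ, B = Mf * Mf := ⟨_, rfl⟩
  have hB0 : 0 ≤ B := by rw [hBdef]; positivity
  have hg_b : ∀ d t x, ‖gd (phP 8 t G) d x‖ ≤ B := by
    intro d t x
    unfold gd
    rw [norm_mul, RCLike.norm_conj, hBdef]
    exact mul_le_mul (hf_b t x) (hf_b t _) (norm_nonneg _) hMf0
  have hg_R : ∀ d t x, R < |x| → gd (phP 8 t G) d x = 0 := by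
    intro d t x hx
    unfold gd
    rw [hf_0 t x hx, zero_mul]
  have hg_0 : ∀ d t, 2 * R < d → ∀ x, gd (phP 8 t G) d x = 0 := by
    intro d t hd x
    by_cases hx : R < |x|
    · exact hg_R d t x hx
    · unfold gd
      have h2 : R < |x + d| := by
        rw [lt_abs]
        left
        have := neg_abs_le x
        push Not at hx
        linarith
      rw [hf_0 t _ h2, map_zero, mul_zero]
  obtain ⟨CB, hCB⟩ : ∃ CB : ℝ, CB = ∑ k ∈ Finset.range (2 * n + 1),
    M * (B + pb_V8 k * B * (2 * R)) := ⟨_, rfl⟩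
  have hgc := cont_gd_V8 G hG
  have hgdm : ∀ d, StronglyMeasurable (fun q : ℝ × ℝ => gd (phP 8 q.1 G) d q.2) := fun d =>
    (hgc.comp (by fun_prop : Continuous fun q : ℝ × ℝ => ((q.1, d), q.2))).stronglyMeasurable
  have hPPb : ∀ t y d, 0 < d → ‖PP n c d (gd (phP 8 t G) d) y‖ ≤
      (Ioc 0 (2 * R)).indicator (fun _ => CB) d := by
    intro t y d hd
    by_cases h : d ∈ Ioc 0 (2 * R)
    · rw [indicator_of_mem h, hCB]
      exact PP_bound_V8 n c d M (hc0 d hd) (hcM d hd) _ B R hR0 (hg_b d t) (hg_R d t) y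
    · rw [indicator_of_notMem h]
      have h1 : 2 * R < d := by
        rw [mem_Ioc, not_and_or, not_lt, not_le] at h
        rcases h with h | h
        · linarith
        · exact h
      rw [PP_zero_V8 n c d _ y (hg_0 d t h1), norm_zero]
  have hPPm : StronglyMeasurable (fun q : (ℝ × ℝ) × ℝ =>
      PP n c q.1.2 (gd (phP 8 q.1.1 G) q.1.2) q.2) :=
    PP_meas_V8 n c hN.meas (fun a : ℝ × ℝ => a.2) measurable_snd
      (fun a : ℝ × ℝ => gd (phP 8 a.1 G) a.2) hgc.stronglyMeasurable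
  have hind : IntegrableOn (fun d : ℝ => (Ioc 0 (2 * R)).indicator (fun _ => CB) d) (Ioi 0) := by
    have h1 : Integrable (fun d : ℝ => (Ioc 0 (2 * R)).indicator (fun _ => CB) d) := by
      rw [integrable_indicator_iff measurableSet_Ioc]
      exact integrableOn_const (hs := measure_Ioc_lt_top.ne)
    exact h1.integrableOn
  -- the integral over `d`
  obtain ⟨J, hJ⟩ : ∃ J : ℝ → ℝ → ℝ, J = fun t y => ∫ d in Ioi (0 : ℝ),
    (PP n c d (gd (phP 8 t G) d) y).re := ⟨_, rfl⟩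
  have i2 : ∀ y, Integrable (Function.uncurry fun (t d : ℝ) =>
      ((W t : ℝ) : ℂ) * PP n c d (gd (phP 8 t G) d) y)
      ((volume : Measure ℝ).prod ((volume : Measure ℝ).restrict (Ioi 0))) := by
    intro y
    have hdom := (hWi.norm).mul_prod hind
    refine hdom.mono' ?_ ?_
    · have hm := hPPm.comp_measurable (by fun_prop : Measurable fun q : ℝ × ℝ => (q, y))
      exact hWc.aestronglyMeasurable.comp_fst.mul hm.aestronglyMeasurable
    · filter_upwards [snd_pos_V8] with q hq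
      simp only [Function.uncurry]
      rw [norm_mul, Complex.norm_real]
      exact mul_le_mul_of_nonneg_left (hPPb q.1 y q.2 hq) (norm_nonneg _)
  have hJ1 : ∀ y, Integrable (fun t => W t * J t y) := by
    intro y
    have h1 := (i2 y).re.integral_prod_left
    refine h1.congr (Eventually.of_forall fun t => ?_)
    simp only [Function.uncurry, hJ]
    rw [← integral_const_mul]
    refine integral_congr_ae (Eventually.of_forall fun d => ?_)
    simp only [RCLike.re_to_complex, Complex.re_ofReal_mul]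
  have hJ2 : ∀ y, ∫ t, W t * J t y = ∫ d in Ioi (0 : ℝ), (PP n c d (kk_V8 W G d) y).re := by
    intro y
    have e1 : ∀ t, W t * J t y = ∫ d in Ioi (0 : ℝ),
        W t * (PP n c d (gd (phP 8 t G) d) y).re := by
      intro t
      rw [hJ, ← integral_const_mul]
    simp only [e1]
    rw [integral_integral_swap]
    · refine setIntegral_congr_fun measurableSet_Ioi fun d hd => ?_
      have h1 := PP_avg_V8 n c d W hWi (fun t => gd (phP 8 t G) d) (hgdm d) B R hR0 (hg_b d)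
        (hg_R d) y
      have h2 : PP n c d (kk_V8 W G d) y = ∫ t, ((W t : ℝ) : ℂ) *
          PP n c d (gd (phP 8 t G) d) y := h1.2.symm
      rw [h2, ← RCLike.re_to_complex, ← integral_re h1.1]
      refine integral_congr_ae (Eventually.of_forall fun t => ?_)
      simp only [RCLike.re_to_complex, Complex.re_ofReal_mul]
    · have h1 := (i2 y).re
      refine h1.congr (Eventually.of_forall fun q => ?_)
      simp only [Function.uncurry, RCLike.re_to_complex, Complex.re_ofReal_mul]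
  have hJm : StronglyMeasurable (fun q : ℝ × ℝ => J q.1 q.2) := by
    rw [hJ]
    have h1 : StronglyMeasurable (fun w : (ℝ × ℝ) × ℝ =>
        (PP n c w.2 (gd (phP 8 w.1.1 G) w.2) w.1.2).re) := by
      have h2 := hPPm.comp_measurable
        (by fun_prop : Measurable fun w : (ℝ × ℝ) × ℝ => ((w.1.1, w.2), w.1.2))
      exact (Complex.continuous_re.measurable.comp h2.measurable).stronglyMeasurable
    exact h1.integral_prod_right
  -- the square
  have hfm : StronglyMeasurable (fun q : ℝ × ℝ => phP 8 q.1 G q.2) :=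
    (cont_phP_V8 G hG).stronglyMeasurable
  have hBm : StronglyMeasurable (fun q : ℝ × ℝ => Bop n (phP 8 q.1 G) q.2) :=
    Bop_meas_V8 n (fun t => phP 8 t G) hfm
  have hV1 : ∀ y, Integrable (fun t => W t * ‖Bop n (phP 8 t G) y‖ ^ 2) := by
    intro y
    refine hWi.mul_bdd (c := (Mf + pb_V8 n * Mf * (2 * R)) ^ 2) ?_ (Eventually.of_forall fun t => ?_)
    · have h1 := hBm.comp_measurable (by fun_prop : Measurable fun t : ℝ => (t, y))
      exact (h1.norm.pow 2).aestronglyMeasurable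
    · rw [Real.norm_eq_abs, abs_of_nonneg (by positivity)]
      exact pow_le_pow_left₀ (norm_nonneg _)
        (Bop_bound_V8 n _ Mf R hR0 (hf_b t) (hf_0 t) y) 2
  refine ⟨hV1, ?_⟩
  have hQm : StronglyMeasurable (fun q : ℝ × ℝ => Qn n c (phP 8 q.1 G) q.2) := by
    have h1 : (fun q : ℝ × ℝ => Qn n c (phP 8 q.1 G) q.2) = fun q : ℝ × ℝ =>
        ‖Bop n (phP 8 q.1 G) q.2‖ ^ 2 - 2 * J q.1 q.2 := by
      funext q
      rw [hJ]
      rfl
    rw [h1]
    exact (hBm.norm.pow 2).sub (hJm.const_mul 2)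
  have hQe : ∀ t y, W t * Qn n c (phP 8 t G) y =
      W t * ‖Bop n (phP 8 t G) y‖ ^ 2 - 2 * (W t * J t y) := by
    intro t y
    rw [hJ]
    unfold Qn
    ring
  have hQi : ∀ y, Integrable (fun t => W t * Qn n c (phP 8 t G) y) := by
    intro y
    simp only [hQe]
    exact (hV1 y).sub ((hJ1 y).const_mul 2)
  have hVe : ∀ y, ∫ t, W t * ‖Bop n (phP 8 t G) y‖ ^ 2 =
      2 * (∫ d in Ioi (0 : ℝ), (PP n c d (kk_V8 W G d) y).re) +
        ∫ t, W t * Qn n c (phP 8 t G) y := by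
    intro y
    simp only [hQe]
    rw [integral_sub (hV1 y) ((hJ1 y).const_mul 2), integral_const_mul, hJ2]
    ring
  have hpt : ∀ y, ‖∫ t, W t * ‖Bop n (phP 8 t G) y‖ ^ 2‖ₑ ≤
      2 * (∫⁻ d in Ioi (0 : ℝ), ‖PP n c d (kk_V8 W G d) y‖ₑ) +
        ∫⁻ t, ENNReal.ofReal (W t) * ‖Qn n c (phP 8 t G) y‖ₑ := by
    intro y
    rw [hVe]
    refine (enorm_add_le _ _).trans (add_le_add ?_ ?_)
    · rw [enorm_mul]
      refine mul_le_mul' (le_of_eq ?_) ?_
      · rw [← ofReal_norm, Real.norm_eq_abs, abs_of_nonneg (by norm_num), ENNReal.ofReal_ofNat]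
      · refine (enorm_integral_le_lintegral_enorm _).trans (lintegral_mono fun d => ?_)
        rw [← ofReal_norm, ← ofReal_norm]
        refine ENNReal.ofReal_le_ofReal ?_
        rw [Real.norm_eq_abs]
        exact Complex.abs_re_le_norm _
    · refine (enorm_integral_le_lintegral_enorm _).trans (lintegral_mono fun t => ?_)
      rw [enorm_mul]
      gcongr
      rw [← ofReal_norm, Real.norm_eq_abs, abs_of_nonneg (hW.nonneg t)]
  -- the `L⁴` norms
  obtain ⟨S, hS⟩ : ∃ S : ℝ≥0∞, S = ENNReal.ofReal (∫ y, ‖G y‖ ^ 8) ^ (1 / 4 : ℝ) := ⟨_, rfl⟩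
  rw [← hS]
  have hkc : ∀ d, Continuous (kk_V8 W G d) := fun d => kk_cont_V8 W hWi G hG B d (hg_b d)
  have hkm : StronglyMeasurable (fun q : ℝ × ℝ => kk_V8 W G q.1 q.2) :=
    kk_meas_V8 W hW.cont G hG
  have hks : ∀ d, HasCompactSupport (kk_V8 W G d) := by
    intro d
    apply HasCompactSupport.intro (K := Icc (-R) R) isCompact_Icc
    intro x hx
    have h1 : R < |x| := by
      rw [mem_Icc, ← abs_le, not_le] at hx
      exact hx
    unfold kk_V8
    simp only [hg_R d _ x h1, mul_zero, integral_zero]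
  have hPk : StronglyMeasurable (fun q : ℝ × ℝ => PP n c q.1 (kk_V8 W G q.1) q.2) :=
    PP_meas_V8 n c hN.meas (fun a : ℝ => a) measurable_id (fun a : ℝ => kk_V8 W G a) hkm
  have hC0 : ∀ k, 0 ≤ Cn k (1 / 4) := fun k => Cn_nonneg k _ (by norm_num) (by norm_num)
  have hkP0 : ∀ d, 0 < d → 0 ≤ kP n c (1 / 4) d := fun d hd =>
    Finset.sum_nonneg fun k _ => mul_nonneg (hc0 d hd k) (hC0 k)
  have hkPM : ∀ d, 0 < d → kP n c (1 / 4) d ≤ ∑ k ∈ Finset.range (2 * n + 1), M * Cn k (1 / 4) :=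
    fun d hd => Finset.sum_le_sum fun k _ => mul_le_mul_of_nonneg_right (hcM d hd k) (hC0 k)
  have hCw0 : 0 ≤ Cw := (w1 0).trans (hCw 0)
  have hgi : IntegrableOn (fun d => Real.exp (-d / 8) * Wh 1 W (d / 8) * kP n c (1 / 4) d)
      (Ioi 0) := by
    have h1 : IntegrableOn (fun d : ℝ => (Cw * ∑ k ∈ Finset.range (2 * n + 1), M * Cn k (1 / 4)) *
        Real.exp (-(1 / 8) * d)) (Ioi 0) :=
      (exp_neg_integrableOn_Ioi 0 (by norm_num : (0 : ℝ) < 1 / 8)).const_mul _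
    refine h1.mono' ?_ ((ae_restrict_iff' measurableSet_Ioi).2 (Eventually.of_forall fun d hd => ?_))
    · refine Measurable.aestronglyMeasurable ?_
      refine Measurable.mul ?_ ?_
      · exact (by fun_prop : Measurable fun d : ℝ => Real.exp (-d / 8)).mul
          (w4.measurable.comp (by fun_prop))
      · unfold kP
        refine Finset.measurable_sum _ fun k _ => ?_
        exact ((hN.meas k).comp (by fun_prop)).mul_const _
    · have hd' : (0 : ℝ) < d := hd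
      have hk := hkP0 d hd'
      rw [Real.norm_eq_abs, abs_of_nonneg (mul_nonneg (mul_nonneg (Real.exp_pos _).le (w1 _)) hk)]
      have e1 : Real.exp (-d / 8) = Real.exp (-(1 / 8) * d) := by
        congr 1
        ring
      rw [e1]
      calc Real.exp (-(1 / 8) * d) * Wh 1 W (d / 8) * kP n c (1 / 4) d
          ≤ Real.exp (-(1 / 8) * d) * Cw * (∑ k ∈ Finset.range (2 * n + 1), M * Cn k (1 / 4)) := by
            have h2 := hCw (d / 8)
            have h3 := hkPM d hd'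
            have h4 := w1 (d / 8)
            gcongr
        _ = _ := by ring
  have hA : (∫⁻ y, (2 * ∫⁻ d in Ioi (0 : ℝ), ‖PP n c d (kk_V8 W G d) y‖ₑ) ^ (4 : ℝ) ∂mu) ^
      (1 / (4 : ℝ)) ≤ ENNReal.ofReal (2 * ∫ d in Ioi (0 : ℝ),
        Real.exp (-d / 8) * Wh 1 W (d / 8) * kP n c (1 / 4) d) * S := by
    have e2 : ∀ y, (2 * ∫⁻ d in Ioi (0 : ℝ), ‖PP n c d (kk_V8 W G d) y‖ₑ) ^ (4 : ℝ) =
        2 ^ (4 : ℝ) * (∫⁻ d in Ioi (0 : ℝ), ‖PP n c d (kk_V8 W G d) y‖ₑ) ^ (4 : ℝ) := fun y =>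
      ENNReal.mul_rpow_of_nonneg _ _ (by norm_num)
    simp only [e2]
    rw [lintegral_const_mul', ENNReal.mul_rpow_of_nonneg _ _ (by norm_num), ← ENNReal.rpow_mul,
      mul_one_div_cancel (by norm_num : (4 : ℝ) ≠ 0), ENNReal.rpow_one,
      ENNReal.ofReal_mul (by norm_num), ENNReal.ofReal_ofNat, mul_assoc]
    · gcongr
      have hmk := minkowski mu (volume.restrict (Ioi (0 : ℝ)))
        (fun d y => ‖PP n c d (kk_V8 W G d) y‖ₑ) hPk.measurable.enorm 4 (by norm_num)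
      refine hmk.trans ?_
      have h1 : ∀ d, 0 < d → (∫⁻ y, ‖PP n c d (kk_V8 W G d) y‖ₑ ^ (4 : ℝ) ∂mu) ^ (1 / (4 : ℝ)) ≤
          ENNReal.ofReal (Real.exp (-d / 8) * Wh 1 W (d / 8) * kP n c (1 / 4) d) * S := by
        intro d hd
        rw [← Nm_eq (by norm_num)]
        refine (PP_L4_V8 n c d (hc0 d hd) _ (hkc d) (hks d)).trans ?_
        have h2 := kk_L4_V8 hW G hG hGc d
        rw [← hS] at h2
        calc ENNReal.ofReal (kP n c (1 / 4) d) * Nm 4 (kk_V8 W G d)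
            ≤ ENNReal.ofReal (kP n c (1 / 4) d) *
              (ENNReal.ofReal (Real.exp (-d / 8) * Wh 1 W (d / 8)) * S) := by gcongr
          _ = _ := by
              rw [← mul_assoc, ← ENNReal.ofReal_mul (hkP0 d hd)]
              congr 2
              ring
      calc ∫⁻ d in Ioi (0 : ℝ), (∫⁻ y, ‖PP n c d (kk_V8 W G d) y‖ₑ ^ (4 : ℝ) ∂mu) ^ (1 / (4 : ℝ))
          ≤ ∫⁻ d in Ioi (0 : ℝ),
            ENNReal.ofReal (Real.exp (-d / 8) * Wh 1 W (d / 8) * kP n c (1 / 4) d) * S :=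
            setLIntegral_mono' measurableSet_Ioi fun d hd => h1 d hd
        _ = ENNReal.ofReal (∫ d in Ioi (0 : ℝ),
            Real.exp (-d / 8) * Wh 1 W (d / 8) * kP n c (1 / 4) d) * S := by
            rw [lintegral_mul_const', ofReal_integral_eq_lintegral_ofReal hgi]
            · refine (ae_restrict_iff' measurableSet_Ioi).2 (Eventually.of_forall fun d hd => ?_)
              exact mul_nonneg (mul_nonneg (Real.exp_pos _).le (w1 _)) (hkP0 d hd)
            · rw [hS]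
              exact ENNReal.rpow_ne_top_of_nonneg (by norm_num) ENNReal.ofReal_ne_top
    · exact ENNReal.rpow_ne_top_of_nonneg (by norm_num) (by norm_num)
  have hNf : ∀ t, Nm 8 (phP 8 t G) ^ 2 = S := by
    intro t
    unfold Nm
    rw [eL (by norm_num : (0 : ℝ) < 8)]
    have i1 : Integrable fun y => ‖G y‖ ^ 8 := by
      refine Continuous.integrable_of_hasCompactSupport (by fun_prop) ?_
      exact hGc.comp_left (g := fun z : ℂ => ‖z‖ ^ 8) (by simp)
    have e1 : ∀ y, ‖phP 8 t G y‖ ^ (8 : ℝ) * Real.exp y = ‖G y‖ ^ 8 := by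
      intro y
      rw [norm_phP_V8, Real.rpow_ofNat, mul_pow, ← Real.exp_nat_mul]
      have : Real.exp (((8 : ℕ) : ℝ) * (-y / 8)) * Real.exp y = 1 := by
        rw [← Real.exp_add, ← Real.exp_zero]
        congr 1
        push_cast
        ring
      linear_combination (‖G y‖ ^ 8) * this
    simp only [e1]
    rw [← ofReal_integral_eq_lintegral_ofReal i1 (Eventually.of_forall fun y => by positivity), hS,
      ← ENNReal.rpow_natCast, ← ENNReal.rpow_mul]
    norm_num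
  have hBB : (∫⁻ y, (∫⁻ t, ENNReal.ofReal (W t) * ‖Qn n c (phP 8 t G) y‖ₑ) ^ (4 : ℝ) ∂mu) ^
      (1 / (4 : ℝ)) ≤ ENNReal.ofReal (K 8 * ∫ t, W t) * S := by
    have hWm : Measurable (fun t => ENNReal.ofReal (W t)) := hW.cont.measurable.ennreal_ofReal
    have hmk := minkowski mu volume
      (fun t y => ENNReal.ofReal (W t) * ‖Qn n c (phP 8 t G) y‖ₑ)
      ((hWm.comp measurable_fst).mul hQm.measurable.enorm) 4 (by norm_num)
    refine hmk.trans ?_
    have h1 : ∀ t, (∫⁻ y, (ENNReal.ofReal (W t) * ‖Qn n c (phP 8 t G) y‖ₑ) ^ (4 : ℝ) ∂mu) ^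
        (1 / (4 : ℝ)) ≤ ENNReal.ofReal (W t) * (ENNReal.ofReal (K 8) * S) := by
      intro t
      have e3 : ∀ y, (ENNReal.ofReal (W t) * ‖Qn n c (phP 8 t G) y‖ₑ) ^ (4 : ℝ) =
          ENNReal.ofReal (W t) ^ (4 : ℝ) * ‖Qn n c (phP 8 t G) y‖ₑ ^ (4 : ℝ) := fun y =>
        ENNReal.mul_rpow_of_nonneg _ _ (by norm_num)
      simp only [e3]
      rw [lintegral_const_mul', ENNReal.mul_rpow_of_nonneg _ _ (by norm_num), ← ENNReal.rpow_mul,
        mul_one_div_cancel (by norm_num : (4 : ℝ) ≠ 0), ENNReal.rpow_one]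
      · gcongr
        have h2 := hN.rest 8 (phP 8 t G) (by norm_num) (cont1_phP_V8 t G hG) (supp_phP_V8 t G hGc)
        rw [hNf t, eLpNorm_eq_lintegral_rpow_enorm_toReal (by norm_num) ENNReal.ofReal_ne_top,
          ENNReal.toReal_ofReal (by norm_num)] at h2
        norm_num at h2 ⊢
        exact h2
      · exact ENNReal.rpow_ne_top_of_nonneg (by norm_num) ENNReal.ofReal_ne_top
    calc ∫⁻ t, (∫⁻ y, (ENNReal.ofReal (W t) * ‖Qn n c (phP 8 t G) y‖ₑ) ^ (4 : ℝ) ∂mu) ^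
        (1 / (4 : ℝ)) ≤ ∫⁻ t, ENNReal.ofReal (W t) * (ENNReal.ofReal (K 8) * S) :=
          lintegral_mono h1
      _ = ENNReal.ofReal (K 8 * ∫ t, W t) * S := by
          rw [lintegral_mul_const _ hWm, ← ofReal_integral_eq_lintegral_ofReal hWi
            (Eventually.of_forall hW.nonneg), ← mul_assoc, ← ENNReal.ofReal_mul
            (integral_nonneg hW.nonneg), mul_comm (∫ t, W t)]
  have hsy := hN.symb8 W hW
  have hK8 : 0 ≤ K 8 := hN.Kn 8 (by norm_num)
  have hWI : 0 ≤ ∫ t, W t := integral_nonneg hW.nonneg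
  have hgI : 0 ≤ ∫ d in Ioi (0 : ℝ), Real.exp (-d / 8) * Wh 1 W (d / 8) * kP n c (1 / 4) d :=
    setIntegral_nonneg measurableSet_Ioi fun d hd =>
      mul_nonneg (mul_nonneg (Real.exp_pos _).le (w1 _)) (hkP0 d hd)
  have hm1 : Measurable fun y => 2 * ∫⁻ d in Ioi (0 : ℝ), ‖PP n c d (kk_V8 W G d) y‖ₑ :=
    (hPk.measurable.enorm.lintegral_prod_left').const_mul 2
  have hm2 : Measurable fun y => ∫⁻ t, ENNReal.ofReal (W t) * ‖Qn n c (phP 8 t G) y‖ₑ := by
    have hWm : Measurable (fun t => ENNReal.ofReal (W t)) := hW.cont.measurable.ennreal_ofReal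
    have h1 : Measurable (Function.uncurry fun t y : ℝ =>
      ENNReal.ofReal (W t) * ‖Qn n c (phP 8 t G) y‖ₑ) :=
      (hWm.comp measurable_fst).mul hQm.measurable.enorm
    exact h1.lintegral_prod_left'
  rw [eLpNorm_eq_lintegral_rpow_enorm_toReal (by norm_num) ENNReal.ofReal_ne_top,
    ENNReal.toReal_ofReal (by norm_num)]
  calc (∫⁻ y, ‖∫ t, W t * ‖Bop n (phP 8 t G) y‖ ^ 2‖ₑ ^ (4 : ℝ) ∂mu) ^ (1 / (4 : ℝ))
      ≤ (∫⁻ y, (2 * (∫⁻ d in Ioi (0 : ℝ), ‖PP n c d (kk_V8 W G d) y‖ₑ) +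
        ∫⁻ t, ENNReal.ofReal (W t) * ‖Qn n c (phP 8 t G) y‖ₑ) ^ (4 : ℝ) ∂mu) ^ (1 / (4 : ℝ)) := by
        gcongr with y
        exact hpt y
    _ ≤ (∫⁻ y, (2 * ∫⁻ d in Ioi (0 : ℝ), ‖PP n c d (kk_V8 W G d) y‖ₑ) ^ (4 : ℝ) ∂mu) ^
          (1 / (4 : ℝ)) + (∫⁻ y, (∫⁻ t, ENNReal.ofReal (W t) * ‖Qn n c (phP 8 t G) y‖ₑ) ^ (4 : ℝ)
            ∂mu) ^ (1 / (4 : ℝ)) :=
        ENNReal.lintegral_Lp_add_le hm1.aemeasurable hm2.aemeasurable (by norm_num)
    _ ≤ ENNReal.ofReal (2 * ∫ d in Ioi (0 : ℝ),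
          Real.exp (-d / 8) * Wh 1 W (d / 8) * kP n c (1 / 4) d) * S +
          ENNReal.ofReal (K 8 * ∫ t, W t) * S := add_le_add hA hBB
    _ = ENNReal.ofReal (2 * (∫ d in Ioi (0 : ℝ),
          Real.exp (-d / 8) * Wh 1 W (d / 8) * kP n c (1 / 4) d) + K 8 * ∫ t, W t) * S := by
        rw [← add_mul, ← ENNReal.ofReal_add (by positivity) (by positivity)]
    _ ≤ _ := by
        refine mul_le_mul' (ENNReal.ofReal_le_ofReal ?_) le_rfl
        rw [sub_mul]
        linarith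

end Helper69.CS
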