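import Pool.Agent.Helper69.CS.St
import Pool.Agent.Helper85.BS_W

/-!
# MP_3dd6d4_an, project CS, module WE : the weights are admissible (helper85)
-/

set_option autoImplicit false

open MeasureTheory Complex Filter Topology
open scoped ENNReal NNReal ComplexConjugate

noncomputable section

namespace Helper69.CS

open Helper85.BP Helper85.BP.P Helper85.BS Helper69.CR

private theorem gamma_prod_WE (a y : ℝ) (ha : 0 < a) (n : ℕ) :
    ‖Complex.Gamma (((n + a : ℝ) : ℂ) + I * (y : ℂ))‖ ^ 2 =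
      (∏ k ∈ Finset.range n, (((k : ℝ) + a) ^ 2 + y ^ 2)) *
        ‖Complex.Gamma ((a : ℂ) + I * (y : ℂ))‖ ^ 2 := by
  induction n with
  | zero => simp
  | succ n ih =>
    have h1 : (((n + 1 : ℕ) + a : ℝ) : ℂ) + I * (y : ℂ) =
        ((((n : ℝ) + a : ℝ) : ℂ) + I * (y : ℂ)) + 1 := by
      push_cast
      ring
    have hre : ((((n : ℝ) + a : ℝ) : ℂ) + I * (y : ℂ)).re = n + a := by simp
    have hne : (((n : ℝ) + a : ℝ) : ℂ) + I * (y : ℂ) ≠ 0 := by
      intro h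
      have h2 := congrArg Complex.re h
      rw [hre, Complex.zero_re] at h2
      have : (0 : ℝ) ≤ n := Nat.cast_nonneg n
      linarith
    rw [h1, Complex.Gamma_add_one _ hne, norm_mul, mul_pow, ih, Finset.prod_range_succ]
    have h3 : ‖(((n : ℝ) + a : ℝ) : ℂ) + I * (y : ℂ)‖ ^ 2 = ((n : ℝ) + a) ^ 2 + y ^ 2 := by
      rw [← Complex.normSq_eq_norm_sq, Complex.normSq_apply]
      simp
      ring
    rw [h3]
    ring

private theorem mm_sq_WE (n : ℕ) (a t : ℝ) :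
    ‖mm n ((a : ℂ) - Complex.I * (t : ℂ) * (a : ℂ))‖ ^ 2 =
      (∏ k ∈ Finset.range n, (((k : ℝ) + (1 - a)) ^ 2 + (a * t) ^ 2)) /
        ∏ k ∈ Finset.range n, (((k : ℝ) + a) ^ 2 + (a * t) ^ 2) := by
  unfold mm
  rw [norm_prod, ← Finset.prod_pow, ← Finset.prod_div_distrib]
  refine Finset.prod_congr rfl fun k _ => ?_
  rw [norm_div, div_pow, ← Complex.normSq_eq_norm_sq, ← Complex.normSq_eq_norm_sq,
    Complex.normSq_apply, Complex.normSq_apply]
  congr 1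
  · simp
    ring
  · simp
    ring

/-- the factorisation of the weight -/
private theorem rat_WE (n : ℕ) (a t : ℝ) (h0 : 0 < a) (h1 : a < 1 / 2) :
    (∏ k ∈ Finset.range n, (((k : ℝ) + a) ^ 2 + (a * t) ^ 2)) /
      (∏ k ∈ Finset.range n, (((k : ℝ) + (1 - a)) ^ 2 + (a * t) ^ 2)) =
      a ^ 2 * (1 + t ^ 2) * (rat (1 - a) (1 + a) a t * rat (n + a) (n + (1 - a)) a t) := by
  have eA := gamma_prod_WE a (a * t) h0 n
  have eB := gamma_prod_WE (1 - a) (a * t) (by linarith) n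
  have eC := gamma_prod_WE a (a * t) h0 1
  have hD0 : 0 < ∏ k ∈ Finset.range n, (((k : ℝ) + (1 - a)) ^ 2 + (a * t) ^ 2) :=
    Finset.prod_pos fun k _ => by
      have : (0 : ℝ) ≤ k := Nat.cast_nonneg k
      have h2 : 0 < (k : ℝ) + (1 - a) := by linarith
      positivity
  have g1 := norm_pos_iff.2 (gam_ne a (a * t) h0)
  have g2 := norm_pos_iff.2 (gam_ne (1 - a) (a * t) (by linarith))
  unfold rat
  rw [eA, eB]
  have e1 : ((1 + a : ℝ) : ℂ) = ((((1 : ℕ) : ℝ) + a : ℝ) : ℂ) := by push_cast; ring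
  rw [e1, eC]
  simp only [Finset.prod_range_one, Nat.cast_zero, zero_add]
  have h3 : a ^ 2 + (a * t) ^ 2 = a ^ 2 * (1 + t ^ 2) := by ring
  rw [h3]
  have h4 : (0 : ℝ) < 1 + t ^ 2 := by positivity
  field_simp

private theorem le_one_WE (n : ℕ) (a t : ℝ) (h0 : 0 < a) (h1 : a < 1 / 2) :
    (∏ k ∈ Finset.range n, (((k : ℝ) + a) ^ 2 + (a * t) ^ 2)) /
      (∏ k ∈ Finset.range n, (((k : ℝ) + (1 - a)) ^ 2 + (a * t) ^ 2)) ≤ 1 := by
  have hk2 : ∀ k : ℕ, 0 < (k : ℝ) + (1 - a) := fun k => by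
    have : (0 : ℝ) ≤ k := Nat.cast_nonneg k
    linarith
  have hD0 : 0 < ∏ k ∈ Finset.range n, (((k : ℝ) + (1 - a)) ^ 2 + (a * t) ^ 2) :=
    Finset.prod_pos fun k _ => by
      have := hk2 k
      positivity
  rw [div_le_one hD0]
  apply Finset.prod_le_prod
  · intro k _
    positivity
  · intro k _
    have hk : (0 : ℝ) ≤ k := Nat.cast_nonneg k
    nlinarith

private theorem adm_WE (n : ℕ) (a : ℝ) (h0 : 0 < a) (h1 : a < 1 / 2) (Pw : ℝ → ℝ)
    (hc : Continuous Pw) (hp : ∀ t, 0 ≤ Pw t) (he : ∀ t, Pw (-t) = Pw t)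
    (hi : Integrable fun t => (1 + |t|) ^ 2 * Pw t)
    (hPD : PD fun t => (1 + t ^ 2) ^ 2 * Pw t * rat (1 - a) (1 + a) a t) :
    Adm 1 (fun t => Pw t / ‖mm n ((a : ℂ) - Complex.I * (t : ℂ) * (a : ℂ))‖ ^ 2) := by
  set N : ℝ → ℝ := fun t => ∏ k ∈ Finset.range n, (((k : ℝ) + a) ^ 2 + (a * t) ^ 2) with hN
  set D : ℝ → ℝ := fun t => ∏ k ∈ Finset.range n, (((k : ℝ) + (1 - a)) ^ 2 + (a * t) ^ 2) with hD
  have hk2 : ∀ k : ℕ, 0 < (k : ℝ) + (1 - a) := fun k => by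
    have : (0 : ℝ) ≤ k := Nat.cast_nonneg k
    linarith
  have hNpos : ∀ t, 0 < N t := fun t => Finset.prod_pos fun k _ => by positivity
  have hDpos : ∀ t, 0 < D t := fun t => Finset.prod_pos fun k _ => by
    have := hk2 k
    positivity
  have hW : (fun t : ℝ => Pw t / ‖mm n ((a : ℂ) - Complex.I * (t : ℂ) * (a : ℂ))‖ ^ 2) =
      fun t => Pw t * (N t / D t) := by
    funext t
    rw [mm_sq_WE, div_div_eq_mul_div, mul_div_assoc]
  rw [hW]
  have hNc : Continuous N := continuous_finsetProd _ fun k _ => by fun_prop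
  have hDc : Continuous D := continuous_finsetProd _ fun k _ => by fun_prop
  have hcW : Continuous fun t => Pw t * (N t / D t) :=
    hc.mul (hNc.div hDc fun t => (hDpos t).ne')
  have hr1 : ∀ t, N t / D t ≤ 1 := fun t => le_one_WE n a t h0 h1
  have hr0 : ∀ t, 0 ≤ N t / D t := fun t => div_nonneg (hNpos t).le (hDpos t).le
  have hint : Integrable (fun t => (1 + (1 : ℝ) ^ 2 * t ^ 2) * (Pw t * (N t / D t))) := by
    refine hi.mono' ?_ (Filter.Eventually.of_forall fun t => ?_)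
    · exact ((by fun_prop : Continuous fun t : ℝ => 1 + (1 : ℝ) ^ 2 * t ^ 2).mul
        hcW).aestronglyMeasurable
    · have h3 := hp t
      have h4 := hr0 t
      have h5 := hr1 t
      rw [Real.norm_eq_abs, abs_of_nonneg (by positivity)]
      have h6 : 1 + (1 : ℝ) ^ 2 * t ^ 2 ≤ (1 + |t|) ^ 2 := by
        have h7 := abs_nonneg t
        have h8 : t ^ 2 = |t| ^ 2 := (sq_abs t).symm
        rw [h8]
        nlinarith
      calc (1 + (1 : ℝ) ^ 2 * t ^ 2) * (Pw t * (N t / D t)) ≤ (1 + |t|) ^ 2 * (Pw t * 1) := by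
            gcongr
        _ = (1 + |t|) ^ 2 * Pw t := by ring
  have hPD2 : PD (fun t => (1 + (1 : ℝ) ^ 2 * t ^ 2) * (Pw t * (N t / D t))) := by
    have g := PD_smul (a ^ 2) (by positivity)
      (PD_mul hPD (PD_rat (n + a) (n + (1 - a)) a (by positivity) (by linarith)))
    convert g using 2 with t
    rw [show N t / D t = a ^ 2 * (1 + t ^ 2) *
      (rat (1 - a) (1 + a) a t * rat (n + a) (n + (1 - a)) a t) from rat_WE n a t h0 h1]
    ring
  constructor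
  · exact hcW
  · exact fun t => mul_nonneg (hp t) (hr0 t)
  · intro t
    have hNe : N (-t) = N t := by
      rw [hN]
      refine Finset.prod_congr rfl fun k _ => by ring
    have hDe : D (-t) = D t := by
      rw [hD]
      refine Finset.prod_congr rfl fun k _ => by ring
    simp only [he t, hNe, hDe]
  · exact hint
  · intro s
    have := PD_integral_nonneg hPD2 hint s
    simpa only [one_mul] using this

/-- the product inequality -/
private theorem prodineq_WE (a y : ℝ) (h0 : 0 < a) (h1 : a < 1 / 2) (n : ℕ) :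
    (∏ k ∈ Finset.range (n + 1), (((k : ℝ) + (1 - a)) ^ 2 / ((k : ℝ) + a) ^ 2)) * a ^ 2 *
        (((n : ℝ) + 1 - a) ^ 2 + y ^ 2) ≤
      (∏ k ∈ Finset.range (n + 1), ((((k : ℝ) + (1 - a)) ^ 2 + y ^ 2) /
        (((k : ℝ) + a) ^ 2 + y ^ 2))) * (a ^ 2 + y ^ 2) * ((n : ℝ) + 1 - a) ^ 2 := by
  induction n with
  | zero =>
    simp only [zero_add, Finset.prod_range_one, Nat.cast_zero]
    have h2 : 0 < a ^ 2 + y ^ 2 := by positivity
    apply le_of_eq
    field_simp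
  | succ n ih =>
    rw [Finset.prod_range_succ, Finset.prod_range_succ (fun k : ℕ =>
      (((k : ℝ) + (1 - a)) ^ 2 + y ^ 2) / (((k : ℝ) + a) ^ 2 + y ^ 2)) (n + 1)]
    have hM0 : 0 ≤ ∏ k ∈ Finset.range (n + 1), (((k : ℝ) + (1 - a)) ^ 2 / ((k : ℝ) + a) ^ 2) :=
      Finset.prod_nonneg fun k _ => by positivity
    have hM1 : 0 ≤ ∏ k ∈ Finset.range (n + 1), ((((k : ℝ) + (1 - a)) ^ 2 + y ^ 2) /
        (((k : ℝ) + a) ^ 2 + y ^ 2)) := Finset.prod_nonneg fun k _ => by positivity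
    set M0 := ∏ k ∈ Finset.range (n + 1), (((k : ℝ) + (1 - a)) ^ 2 / ((k : ℝ) + a) ^ 2)
    set M1 := ∏ k ∈ Finset.range (n + 1), ((((k : ℝ) + (1 - a)) ^ 2 + y ^ 2) /
        (((k : ℝ) + a) ^ 2 + y ^ 2))
    have hn : (0 : ℝ) ≤ n := Nat.cast_nonneg n
    push_cast
    set m : ℝ := (n : ℝ) + 1 with hm
    have hm1 : 1 ≤ m := by linarith
    have hma : 0 < m - a := by linarith
    have hmb : 0 < m + a := by linarith
    have hmc : 0 < m + (1 - a) := by linarith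
    have hmc' : m + 1 - a = m + (1 - a) := by ring
    rw [hmc']
    have hpa : 0 < (m + a) ^ 2 + y ^ 2 := by positivity
    have hpb : 0 < (m - a) ^ 2 + y ^ 2 := by positivity
    have hpc : 0 < (m + (1 - a)) ^ 2 + y ^ 2 := by positivity
    -- M0 a² ((m+a)²+y²) ≤ M1 (a²+y²) (m+a)²
    have hkey : M0 * a ^ 2 * ((m + a) ^ 2 + y ^ 2) ≤ M1 * (a ^ 2 + y ^ 2) * (m + a) ^ 2 := by
      have h2 : ((m + a) ^ 2 + y ^ 2) * (m - a) ^ 2 ≤ (m + a) ^ 2 * ((m - a) ^ 2 + y ^ 2) := by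
        have : (m - a) ^ 2 ≤ (m + a) ^ 2 := by nlinarith
        nlinarith [mul_le_mul_of_nonneg_right this (sq_nonneg y)]
      have h3 : (M0 * a ^ 2 * ((m + a) ^ 2 + y ^ 2)) * ((m - a) ^ 2 + y ^ 2) ≤
          (M1 * (a ^ 2 + y ^ 2) * (m + a) ^ 2) * ((m - a) ^ 2 + y ^ 2) := by
        calc (M0 * a ^ 2 * ((m + a) ^ 2 + y ^ 2)) * ((m - a) ^ 2 + y ^ 2)
            = (M0 * a ^ 2 * ((m - a) ^ 2 + y ^ 2)) * ((m + a) ^ 2 + y ^ 2) := by ring
          _ ≤ (M1 * (a ^ 2 + y ^ 2) * (m - a) ^ 2) * ((m + a) ^ 2 + y ^ 2) :=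
              mul_le_mul_of_nonneg_right ih hpa.le
          _ = (M1 * (a ^ 2 + y ^ 2)) * (((m + a) ^ 2 + y ^ 2) * (m - a) ^ 2) := by ring
          _ ≤ (M1 * (a ^ 2 + y ^ 2)) * ((m + a) ^ 2 * ((m - a) ^ 2 + y ^ 2)) :=
              mul_le_mul_of_nonneg_left h2 (by positivity)
          _ = _ := by ring
      exact le_of_mul_le_mul_right h3 hpb
    have h4 : M0 * ((m + (1 - a)) ^ 2 / (m + a) ^ 2) * a ^ 2 * ((m + (1 - a)) ^ 2 + y ^ 2) =
        (M0 * a ^ 2 * ((m + a) ^ 2 + y ^ 2)) *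
          ((m + (1 - a)) ^ 2 * ((m + (1 - a)) ^ 2 + y ^ 2) /
            ((m + a) ^ 2 * ((m + a) ^ 2 + y ^ 2))) := by
      field_simp
    have h5 : M1 * (((m + (1 - a)) ^ 2 + y ^ 2) / ((m + a) ^ 2 + y ^ 2)) * (a ^ 2 + y ^ 2) *
        (m + (1 - a)) ^ 2 = (M1 * (a ^ 2 + y ^ 2) * (m + a) ^ 2) *
          ((m + (1 - a)) ^ 2 * ((m + (1 - a)) ^ 2 + y ^ 2) /
            ((m + a) ^ 2 * ((m + a) ^ 2 + y ^ 2))) := by
      field_simp
    rw [h4, h5]
    exact mul_le_mul_of_nonneg_right hkey (by positivity)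

private theorem lower_WE (n : ℕ) (hn : 1 ≤ n) (a t : ℝ) (h0 : 0 < a) (h1 : a < 1 / 2) :
    Cn n a ^ 2 ≤ ‖mm n ((a : ℂ) - Complex.I * (t : ℂ) * (a : ℂ))‖ ^ 2 * (1 + t ^ 2) := by
  obtain ⟨m, rfl⟩ : ∃ m, n = m + 1 := ⟨n - 1, by omega⟩
  have h2 := prodineq_WE a (a * t) h0 h1 m
  rw [mm_sq_WE, ← Finset.prod_div_distrib]
  have h3 : Cn (m + 1) a ^ 2 =
      ∏ k ∈ Finset.range (m + 1), (((k : ℝ) + (1 - a)) ^ 2 / ((k : ℝ) + a) ^ 2) := by
    unfold Cn
    rw [← Finset.prod_pow]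
    refine Finset.prod_congr rfl fun k _ => ?_
    rw [div_pow]
    congr 2
    ring
  rw [h3]
  have hM0 : 0 ≤ ∏ k ∈ Finset.range (m + 1), (((k : ℝ) + (1 - a)) ^ 2 / ((k : ℝ) + a) ^ 2) :=
      Finset.prod_nonneg fun k _ => by positivity
  set M0 := ∏ k ∈ Finset.range (m + 1), (((k : ℝ) + (1 - a)) ^ 2 / ((k : ℝ) + a) ^ 2)
  set M1 := ∏ k ∈ Finset.range (m + 1), ((((k : ℝ) + (1 - a)) ^ 2 + (a * t) ^ 2) /
        (((k : ℝ) + a) ^ 2 + (a * t) ^ 2))
  have hm : (0 : ℝ) ≤ m := Nat.cast_nonneg m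
  have hma : 0 < (m : ℝ) + 1 - a := by linarith
  have h4 : (M0 * a ^ 2) * ((m : ℝ) + 1 - a) ^ 2 ≤
      (M1 * (a ^ 2 + (a * t) ^ 2)) * ((m : ℝ) + 1 - a) ^ 2 := by
    refine le_trans ?_ h2
    apply mul_le_mul_of_nonneg_left _ (by positivity)
    nlinarith [sq_nonneg (a * t)]
  have h5 : M0 * a ^ 2 ≤ M1 * (a ^ 2 + (a * t) ^ 2) := le_of_mul_le_mul_right h4 (by positivity)
  have h6 : M0 * a ^ 2 ≤ (M1 * (1 + t ^ 2)) * a ^ 2 := by
    calc M0 * a ^ 2 ≤ M1 * (a ^ 2 + (a * t) ^ 2) := h5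
      _ = _ := by ring
  exact le_of_mul_le_mul_right h6 (by positivity)

/-- the second moment of the Poisson kernel -/
private theorem moment_WE (θ : ℝ) (h0 : 0 < θ) (h1 : θ < 1) :
    Integrable (fun t => P1 θ t * (1 + t ^ 2)) ∧
    ∫ t, P1 θ t * (1 + t ^ 2) = θ * (4 - θ ^ 2) / 3 := by
  obtain ⟨hc0, hc1, hp0, hp1, -, -, -⟩ := P_facts θ h0 h1
  have hI1 : Integrable (P1 θ) := by
    have := (P_int θ h0 h1 0).2
    simpa using this
  have hI2 : Integrable fun t => P1 θ t * t ^ 2 := by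
    refine ((P_int θ h0 h1 2).2).mono' ?_ (Filter.Eventually.of_forall fun t => ?_)
    · exact (hc1.mul (by fun_prop)).aestronglyMeasurable
    · have h3 := (hp1 t).le
      rw [Real.norm_eq_abs, abs_of_nonneg (by positivity)]
      have h4 : t ^ 2 ≤ (1 + |t|) ^ 2 := by
        have h7 := abs_nonneg t
        have h8 : t ^ 2 = |t| ^ 2 := (sq_abs t).symm
        rw [h8]
        nlinarith
      calc P1 θ t * t ^ 2 ≤ P1 θ t * (1 + |t|) ^ 2 := by gcongr
        _ = _ := by ring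
  have hcube : ∀ (P : ℝ → ℝ), Continuous P → (∀ t, 0 < P t) →
      Integrable (fun t => (1 + |t|) ^ 3 * P t) → ∀ φ : ℝ → ℂ, Continuous φ →
      (∀ t, ‖φ t‖ ≤ 1 + |t|) → Integrable fun t => (P t : ℂ) * φ t ^ 3 := by
    intro P hP hP0 hi φ hφ hb
    refine hi.mono' ?_ (Filter.Eventually.of_forall fun t => ?_)
    · exact ((Complex.continuous_ofReal.comp hP).mul (hφ.pow 3)).aestronglyMeasurable
    · rw [norm_mul, Complex.norm_real, Real.norm_eq_abs, abs_of_pos (hP0 t), norm_pow]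
      calc P t * ‖φ t‖ ^ 3 ≤ P t * (1 + |t|) ^ 3 :=
            mul_le_mul_of_nonneg_left (pow_le_pow_left₀ (norm_nonneg _) (hb t) 3) (hP0 t).le
        _ = _ := by ring
  have hnorm : ∀ z : ℂ, 0 ≤ z.re → z.re ≤ 1 → ‖z‖ ≤ 1 + |z.im| := by
    intro z hz0 hz1
    calc ‖z‖ ≤ |z.re| + |z.im| := Complex.norm_le_abs_re_add_abs_im z
      _ ≤ 1 + |z.im| := by
        rw [abs_of_nonneg hz0]
        linarith
  have hP := poisson_formula θ h0 h1 (fun z => z ^ 3) (by fun_prop) (by fun_prop) 1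
    (fun z hz0 hz1 => by
      have h3 : 1 ≤ 1 + |z.im| := by
        have := abs_nonneg z.im
        linarith
      rw [norm_pow, one_mul]
      calc ‖z‖ ^ 3 ≤ (1 + |z.im|) ^ 3 := pow_le_pow_left₀ (norm_nonneg _) (hnorm z hz0 hz1) 3
        _ ≤ (1 + |z.im|) ^ 4 := pow_le_pow_right₀ h3 (by norm_num))
  have hJ0 : Integrable fun t : ℝ => (P0 θ t : ℂ) * (I * (t : ℂ)) ^ 3 :=
    hcube (P0 θ) hc0 hp0 (P_int θ h0 h1 3).1 (fun t : ℝ => I * (t : ℂ)) (by fun_prop) (fun t => by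
      have := hnorm (I * (t : ℂ)) (by simp) (by simp)
      simpa using this)
  have hJ1 : Integrable fun t : ℝ => (P1 θ t : ℂ) * (1 + I * (t : ℂ)) ^ 3 :=
    hcube (P1 θ) hc1 hp1 (P_int θ h0 h1 3).2 (fun t : ℝ => 1 + I * (t : ℂ)) (by fun_prop) (fun t => by
      have := hnorm (1 + I * (t : ℂ)) (by simp) (by simp)
      simpa using this)
  have hR := congrArg Complex.re hP
  rw [Complex.add_re] at hR
  have e0 : (∫ t : ℝ, (P0 θ t : ℂ) * (I * (t : ℂ)) ^ 3).re = 0 := by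
    have : (∫ t : ℝ, (P0 θ t : ℂ) * (I * (t : ℂ)) ^ 3).re =
        ∫ t : ℝ, ((P0 θ t : ℂ) * (I * (t : ℂ)) ^ 3).re := (integral_re hJ0).symm
    rw [this]
    have h2 : ∀ t : ℝ, ((P0 θ t : ℂ) * (I * (t : ℂ)) ^ 3).re = 0 := by
      intro t
      have : (P0 θ t : ℂ) * (I * (t : ℂ)) ^ 3 = ((-(P0 θ t * t ^ 3) : ℝ) : ℂ) * I := by
        have h3 : (I : ℂ) ^ 3 = -I := by rw [pow_succ, I_sq]; ring
        rw [mul_pow, h3]
        push_cast
        ring
      rw [this, Complex.re_ofReal_mul, Complex.I_re, mul_zero]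
    simp [h2]
  have e1 : (∫ t : ℝ, (P1 θ t : ℂ) * (1 + I * (t : ℂ)) ^ 3).re =
      ∫ t : ℝ, (P1 θ t - 3 * (P1 θ t * t ^ 2)) := by
    have : (∫ t : ℝ, (P1 θ t : ℂ) * (1 + I * (t : ℂ)) ^ 3).re =
        ∫ t : ℝ, ((P1 θ t : ℂ) * (1 + I * (t : ℂ)) ^ 3).re := (integral_re hJ1).symm
    rw [this]
    congr 1
    funext t
    have h3 : (P1 θ t : ℂ) * (1 + I * (t : ℂ)) ^ 3 =
        ((P1 θ t - 3 * (P1 θ t * t ^ 2) : ℝ) : ℂ) +
          ((P1 θ t * (3 * t - t ^ 3) : ℝ) : ℂ) * I := by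
      have h4 : (I : ℂ) ^ 3 = -I := by rw [pow_succ, I_sq]; ring
      have h5 : (1 + I * (t : ℂ)) ^ 3 = 1 + 3 * I * t + 3 * I ^ 2 * t ^ 2 + I ^ 3 * t ^ 3 := by ring
      rw [h5, h4, I_sq]
      push_cast
      ring
    rw [h3, Complex.add_re, Complex.re_ofReal_mul, Complex.I_re, mul_zero, add_zero,
      Complex.ofReal_re]
  rw [e0, e1, integral_sub hI1 (hI2.const_mul 3), integral_const_mul, (P_mass θ h0 h1).2] at hR
  have hθ : ((θ : ℂ) ^ 3).re = θ ^ 3 := by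
    rw [← Complex.ofReal_pow, Complex.ofReal_re]
  rw [hθ] at hR
  have hI3 : Integrable fun t => P1 θ t * (1 + t ^ 2) := by
    have := hI1.add hI2
    refine this.congr (Filter.Eventually.of_forall fun t => ?_)
    simp only [Pi.add_apply]
    ring
  refine ⟨hI3, ?_⟩
  have e2 : ∫ t, P1 θ t * (1 + t ^ 2) = (∫ t, P1 θ t) + ∫ t, P1 θ t * t ^ 2 := by
    rw [← integral_add hI1 hI2]
    congr 1
    funext t
    ring
  rw [e2, (P_mass θ h0 h1).2]
  linarith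

theorem hWE : StWE := by
  intro n θ hn h0 h1
  obtain ⟨hc0, hc1, hp0, hp1, he0, he1, -⟩ := P_facts θ h0 h1
  have e8 : ∀ t : ℝ, (1 / 8 - Complex.I * (t : ℂ) / 8 : ℂ) =
      ((1 / 8 : ℝ) : ℂ) - Complex.I * (t : ℂ) * ((1 / 8 : ℝ) : ℂ) := by
    intro t
    push_cast
    ring
  have e4 : ∀ t : ℝ, (1 / 4 - Complex.I * (t : ℂ) / 4 : ℂ) =
      ((1 / 4 : ℝ) : ℂ) - Complex.I * (t : ℂ) * ((1 / 4 : ℝ) : ℂ) := by
    intro t
    push_cast
    ring
  have hW8 : W8 n θ = fun t => P1 θ t /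
      ‖mm n (((1 / 8 : ℝ) : ℂ) - Complex.I * (t : ℂ) * ((1 / 8 : ℝ) : ℂ))‖ ^ 2 := by
    funext t
    unfold W8
    rw [e8]
  have hW4 : W4 n θ = fun t => (2 * P0 θ (2 * t)) /
      ‖mm n (((1 / 4 : ℝ) : ℂ) - Complex.I * (t : ℂ) * ((1 / 4 : ℝ) : ℂ))‖ ^ 2 := by
    funext t
    unfold W4
    rw [e4]
  have hmpos : ∀ (a t : ℝ), 0 < a → a < 1 / 2 →
      0 < ‖mm n ((a : ℂ) - Complex.I * (t : ℂ) * (a : ℂ))‖ ^ 2 := by
    intro a t ha ha2
    rw [mm_sq_WE]
    apply div_pos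
    · refine Finset.prod_pos fun k _ => ?_
      have hk : (0 : ℝ) ≤ k := Nat.cast_nonneg k
      have : 0 < (k : ℝ) + (1 - a) := by linarith
      positivity
    · exact Finset.prod_pos fun k _ => by positivity
  have hCn : 0 < Cn n (1 / 8) := by
    unfold Cn
    refine Finset.prod_pos fun k _ => ?_
    have hk : (0 : ℝ) ≤ k := Nat.cast_nonneg k
    apply div_pos <;> linarith
  obtain ⟨hI3, hM⟩ := moment_WE θ h0 h1
  have hA8 : Adm 1 (W8 n θ) := by
    rw [hW8]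
    refine adm_WE n (1 / 8) (by norm_num) (by norm_num) (P1 θ) hc1 (fun t => (hp1 t).le) he1
      (P_int θ h0 h1 2).2 ?_
    have := PD_weight 1 one_pos le_rfl θ h0 h1 (1 - 1 / 8) (1 + 1 / 8) (1 / 8) (by norm_num)
      (by norm_num)
    simpa only [one_pow, one_mul] using this
  have hA4 : Adm 1 (W4 n θ) := by
    rw [hW4]
    refine adm_WE n (1 / 4) (by norm_num) (by norm_num) (fun t => 2 * P0 θ (2 * t))
      (by fun_prop) (fun t => by have := (hp0 (2 * t)).le; positivity)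
      (fun t => by simp only [mul_neg, he0]) ?_ ?_
    · have h2 := ((P_int θ h0 h1 2).1.comp_mul_left' (two_ne_zero : (2 : ℝ) ≠ 0)).const_mul 2
      refine h2.mono' ?_ (Filter.Eventually.of_forall fun t => ?_)
      · exact (by fun_prop : Continuous fun t : ℝ => (1 + |t|) ^ 2 * (2 * P0 θ (2 * t))).aestronglyMeasurable
      · have h3 := (hp0 (2 * t)).le
        rw [Real.norm_eq_abs, abs_of_nonneg (by positivity)]
        have h4 : |t| ≤ |2 * t| := by
          rw [abs_mul]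
          have := abs_nonneg t
          norm_num
          linarith
        calc (1 + |t|) ^ 2 * (2 * P0 θ (2 * t)) ≤ (1 + |2 * t|) ^ 2 * (2 * P0 θ (2 * t)) := by
              gcongr
          _ = _ := by ring
    · have g := PD_weight (1 / 2) (by norm_num) (by norm_num) (1 - θ) (by linarith) (by linarith)
        (1 - 1 / 4) (1 + 1 / 4) (1 / 8) (by norm_num) (by norm_num)
      have g2 := PD_smul 2 (by norm_num) (PD_scale 2 g)
      convert g2 using 2 with t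
      rw [Helper85.BS.P0_eq]
      have e5 : rat (1 - 1 / 4) (1 + 1 / 4) (1 / 4) t = rat (1 - 1 / 4) (1 + 1 / 4) (1 / 8) (2 * t) := by
        unfold rat
        rw [show (1 / 8 * (2 * t) : ℝ) = 1 / 4 * t by ring]
      rw [e5]
      ring
  refine ⟨hA8, hA4, ?_, ?_, ?_⟩
  · calc ∫ t, W8 n θ t ≤ ∫ t, P1 θ t * (1 + t ^ 2) / Cn n (1 / 8) ^ 2 := by
          apply integral_mono_of_nonneg
          · exact Filter.Eventually.of_forall hA8.nonneg
          · exact hI3.div_const _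
          · refine Filter.Eventually.of_forall fun t => ?_
            rw [hW8]
            simp only
            rw [div_le_div_iff₀ (hmpos _ t (by norm_num) (by norm_num)) (by positivity)]
            have h2 := lower_WE n hn (1 / 8) t (by norm_num) (by norm_num)
            have h3 := (hp1 t).le
            calc P1 θ t * Cn n (1 / 8) ^ 2 ≤ P1 θ t *
                (‖mm n (((1 / 8 : ℝ) : ℂ) - Complex.I * (t : ℂ) * ((1 / 8 : ℝ) : ℂ))‖ ^ 2 *
                  (1 + t ^ 2)) := mul_le_mul_of_nonneg_left h2 h3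
              _ = _ := by ring
      _ = θ * (4 - θ ^ 2) / 3 / Cn n (1 / 8) ^ 2 := by
          rw [integral_div, hM]
  · have : ∀ t : ℝ, W8 n θ t * ‖mm n (1 / 8 - Complex.I * (t : ℂ) / 8)‖ ^ 2 = P1 θ t := by
      intro t
      rw [hW8, e8]
      exact div_mul_cancel₀ _ (hmpos _ t (by norm_num) (by norm_num)).ne'
    simp_rw [this]
    exact (P_mass θ h0 h1).2
  · have : ∀ t : ℝ, W4 n θ t * ‖mm n (1 / 4 - Complex.I * (t : ℂ) / 4)‖ ^ 2 =
        2 * P0 θ (2 * t) := by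
      intro t
      rw [hW4, e4]
      exact div_mul_cancel₀ _ (hmpos _ t (by norm_num) (by norm_num)).ne'
    simp_rw [this]
    rw [integral_const_mul, Measure.integral_comp_mul_left (P0 θ) 2, (P_mass θ h0 h1).1]
    norm_num
    ring

end Helper69.CS
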